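import Pool.Agent.Y816.PD.Fou

/-!
# Integers with restricted digits: the sum of the Fourier transform over the reduced fractions
-/

set_option autoImplicit false

namespace Pool.Agent.Y816.PD

open Finset Pool.Agent.Helper112

lemma pts_mono {b F : ℕ} {g h : ℝ → ℝ} (H : ∀ θ, g θ ≤ h θ) : pts b F g ≤ pts b F h :=
  sum_le_sum fun _ _ => sum_le_sum fun _ _ => H _

lemma pts_sum {b F : ℕ} (s : Finset ℕ) (g : ℕ → ℝ → ℝ) :
    pts b F (fun θ => ∑ j ∈ s, g j θ) = ∑ j ∈ s, pts b F (g j) := by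
  unfold pts
  rw [sum_comm]
  apply sum_congr rfl
  intro f _
  rw [sum_comm]

lemma pts_mul {b F : ℕ} (c : ℝ) (g : ℝ → ℝ) : pts b F (fun θ => c * g θ) = c * pts b F g := by
  unfold pts
  simp only [← mul_sum]

lemma prod_le_mean (n : ℕ) (hn : 0 < n) (x : ℕ → ℝ) (hx : ∀ i, 0 ≤ x i) :
    ∏ i ∈ range n, x i ≤ ∑ i ∈ range n, (1 / (n : ℝ)) * x i ^ n := by
  have hn0 : (n : ℝ) ≠ 0 := by exact_mod_cast hn.ne'
  have h := Real.geom_mean_le_arith_mean_weighted (range n) (fun _ => 1 / (n : ℝ)) (fun i => x i ^ n)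
    (fun _ _ => by positivity) (by simp [hn0]) (fun i _ => pow_nonneg (hx i) n)
  refine le_trans (le_of_eq ?_) h
  apply prod_congr rfl
  intro i _
  rw [one_div, Real.pow_rpow_inv_natCast (hx i) hn.ne']

/-- the loss of a block -/
noncomputable def lo (b : ℕ) (A : ℕ → Finset ℕ) (u J : ℕ) : ℝ := (b : ℝ) ^ J / cd A u J

lemma cd_le {b : ℕ} {A : ℕ → Finset ℕ} (h : DS b A) (u J : ℕ) : cd A u J ≤ b ^ J := by
  unfold cd
  calc ∏ j ∈ range J, (A (u + j)).card ≤ ∏ j ∈ range J, b := by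
        apply prod_le_prod'
        intro j _
        have := card_le_card (h.sub (u + j))
        rwa [card_range] at this
    _ = b ^ J := by rw [prod_const, card_range]

lemma one_le_lo {b : ℕ} {A : ℕ → Finset ℕ} (h : DS b A) (u J : ℕ) : 1 ≤ lo b A u J := by
  unfold lo
  have hc : (0 : ℝ) < cd A u J := by exact_mod_cast cd_pos h u J
  rw [le_div_iff₀ hc, one_mul]
  exact_mod_cast cd_le h u J

lemma lo_add {b : ℕ} {A : ℕ → Finset ℕ} (h : DS b A) (u J J' : ℕ) :
    lo b A u (J + J') = lo b A u J * lo b A (u + J) J' := by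
  unfold lo
  have hc : (0 : ℝ) < cd A u J := by exact_mod_cast cd_pos h u J
  have hc' : (0 : ℝ) < cd A (u + J) J' := by exact_mod_cast cd_pos h (u + J) J'
  rw [cd_add, pow_add]
  push_cast
  field_simp

lemma G_blocks (b : ℕ) (A : ℕ → Finset ℕ) (J T : ℕ) (θ : ℝ) :
    G b A 0 (T * J) θ = ∏ j ∈ range T, G b A (j * J) J θ := by
  induction T with
  | zero => simp [G]
  | succ T ih => rw [Nat.succ_mul, G_add, ih, prod_range_succ, Nat.zero_add]

lemma lo_blocks {b : ℕ} {A : ℕ → Finset ℕ} (h : DS b A) (J T : ℕ) :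
    lo b A 0 (T * J) = ∏ j ∈ range T, lo b A (j * J) J := by
  induction T with
  | zero => simp [lo, cd]
  | succ T ih => rw [Nat.succ_mul, lo_add h, ih, prod_range_succ, Nat.zero_add]

/-- the sum over the reduced fractions with denominator at most `b ^ m` -/
theorem blk {b : ℕ} (hb : 0 < b) {A : ℕ → Finset ℕ} (hA : DS b A) (m T K : ℕ) (hm : 0 < m) (hT : 2 ≤ T)
    (hK : T * (2 * m) ≤ K) :
    pts b (b ^ m) (G b A 0 K) ≤ 12 * (lo b A 0 K) ^ (1 / (T : ℝ)) := by
  have hT0 : 0 < T := by omega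
  obtain ⟨l, hl⟩ : ∃ l : ℕ → ℝ, l = fun j => lo b A (j * (2 * m)) (2 * m) := ⟨_, rfl⟩
  have hl1 : ∀ j, 1 ≤ l j := fun j => by rw [hl]; exact one_le_lo hA _ _
  have hl0 : ∀ j, 0 < l j := fun j => lt_of_lt_of_le one_pos (hl1 j)
  obtain ⟨R, rfl⟩ : ∃ R, K = T * (2 * m) + R := ⟨K - T * (2 * m), by omega⟩
  -- pointwise
  have hpt : ∀ θ, G b A 0 (T * (2 * m) + R) θ ≤ (∏ j ∈ range T, l j) ^ (1 / (T : ℝ)) *
      ∑ j ∈ range T, (1 / (T : ℝ)) * ((1 / l j) * G b A (j * (2 * m)) (2 * m) θ ^ 2) := by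
    intro θ
    have h1 : G b A 0 (T * (2 * m) + R) θ ≤ G b A 0 (T * (2 * m)) θ := by
      rw [G_add]
      exact mul_le_of_le_one_right (G_nonneg _ _ _ _ _) (G_le_one _ _ _ _ _)
    refine h1.trans ?_
    rw [G_blocks]
    have h2 := prod_le_mean T hT0 (fun j => G b A (j * (2 * m)) (2 * m) θ / (l j) ^ (1 / (T : ℝ)))
      (fun j => div_nonneg (G_nonneg _ _ _ _ _) (Real.rpow_nonneg (hl0 j).le _))
    rw [prod_div_distrib, Real.finset_prod_rpow _ _ (fun j _ => (hl0 j).le),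
      div_le_iff₀ (Real.rpow_pos_of_pos (prod_pos fun j _ => hl0 j) _)] at h2
    refine h2.trans ((le_of_eq (mul_comm _ _)).trans ?_)
    apply mul_le_mul_of_nonneg_left _ (Real.rpow_nonneg (prod_nonneg fun j _ => (hl0 j).le) _)
    apply sum_le_sum
    intro j _
    apply mul_le_mul_of_nonneg_left _ (by positivity)
    rw [div_pow]
    have h3 : ((l j) ^ (1 / (T : ℝ))) ^ T = l j := by
      rw [← Real.rpow_natCast, ← Real.rpow_mul (hl0 j).le, one_div_mul_cancel (by positivity),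
        Real.rpow_one]
    rw [h3, one_div, inv_mul_eq_div]
    apply div_le_div_of_nonneg_right _ (hl0 j).le
    exact pow_le_pow_of_le_one (G_nonneg _ _ _ _ _) (G_le_one _ _ _ _ _) hT
  refine (pts_mono hpt).trans ?_
  rw [pts_mul, pts_sum]
  have h4 : ∀ j ∈ range T, pts b (b ^ m) (fun θ => (1 / (T : ℝ)) *
      ((1 / l j) * G b A (j * (2 * m)) (2 * m) θ ^ 2)) ≤ (1 / (T : ℝ)) * 12 := by
    intro j _
    rw [pts_mul, pts_mul]
    apply mul_le_mul_of_nonneg_left _ (by positivity)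
    have h5 := l2_block (b := b) (j * (2 * m)) (2 * m) (b ^ m) hb hA
    rw [one_div, inv_mul_eq_div, div_le_iff₀ (hl0 j)]
    refine h5.trans (le_of_eq ?_)
    rw [hl]
    simp only [lo]
    push_cast
    rw [← pow_mul, mul_comm m 2]
    ring
  have h6 : ∑ j ∈ range T, pts b (b ^ m) (fun θ => (1 / (T : ℝ)) *
      ((1 / l j) * G b A (j * (2 * m)) (2 * m) θ ^ 2)) ≤ 12 := by
    refine (sum_le_sum h4).trans (le_of_eq ?_)
    rw [sum_const, card_range, nsmul_eq_mul]
    have : (T : ℝ) ≠ 0 := by positivity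
    field_simp
  have h7 : (∏ j ∈ range T, l j) ≤ lo b A 0 (T * (2 * m) + R) := by
    rw [lo_add hA, lo_blocks hA, hl]
    apply le_mul_of_one_le_right
    · exact prod_nonneg fun j _ => (lt_of_lt_of_le one_pos (one_le_lo hA _ _)).le
    · exact one_le_lo hA _ _
  calc _ ≤ (∏ j ∈ range T, l j) ^ (1 / (T : ℝ)) * 12 := by
        apply mul_le_mul_of_nonneg_left h6 (Real.rpow_nonneg (prod_nonneg fun j _ => (hl0 j).le) _)
    _ ≤ (lo b A 0 (T * (2 * m) + R)) ^ (1 / (T : ℝ)) * 12 := by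
        apply mul_le_mul_of_nonneg_right _ (by norm_num)
        apply Real.rpow_le_rpow (prod_nonneg fun j _ => (hl0 j).le) h7 (by positivity)
    _ = _ := mul_comm _ _

/-- the same, in terms of the exponent of the loss -/
theorem blk' {b : ℕ} (hb : 2 ≤ b) {A : ℕ → Finset ℕ} (hA : DS b A) (m K : ℕ) (hm : 0 < m) (c : ℝ)
    (hc : 0 ≤ c) (hK : 4 * m ≤ K) (hlo : lo b A 0 K ≤ (b : ℝ) ^ (c * K)) :
    pts b (b ^ m) (G b A 0 K) ≤ 12 * (b : ℝ) ^ (4 * c * m) := by
  obtain ⟨T, hT⟩ : ∃ T, T = K / (2 * m) := ⟨_, rfl⟩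
  have hT2 : 2 ≤ T := by
    rw [hT, Nat.le_div_iff_mul_le (by omega)]
    omega
  have h1 := blk (b := b) (by omega) hA m T K hm hT2 (by rw [hT]; exact Nat.div_mul_le_self _ _)
  refine h1.trans ?_
  apply mul_le_mul_of_nonneg_left _ (by norm_num)
  have hT0 : (0 : ℝ) < T := by exact_mod_cast (by omega : 0 < T)
  have hb1 : (1 : ℝ) ≤ b := by exact_mod_cast (by omega : 1 ≤ b)
  calc (lo b A 0 K) ^ (1 / (T : ℝ)) ≤ ((b : ℝ) ^ (c * K)) ^ (1 / (T : ℝ)) :=
        Real.rpow_le_rpow (lt_of_lt_of_le one_pos (one_le_lo hA _ _)).le hlo (by positivity)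
    _ = (b : ℝ) ^ (c * K * (1 / (T : ℝ))) := by rw [← Real.rpow_mul (by positivity)]
    _ ≤ _ := by
        apply Real.rpow_le_rpow_of_exponent_le hb1
        have h2 : K ≤ T * (4 * m) := by
          have h3 := Nat.lt_div_mul_add (a := K) (show 0 < 2 * m by omega)
          rw [← hT] at h3
          have h4 : T * (4 * m) = T * (2 * m) + T * (2 * m) := by ring
          have h5 : 1 * (2 * m) ≤ T * (2 * m) := Nat.mul_le_mul_right _ (by omega)
          omega
        have h3 : (K : ℝ) ≤ T * (4 * m) := by exact_mod_cast h2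
        rw [mul_one_div, div_le_iff₀ hT0]
        calc c * K ≤ c * (T * (4 * m)) := mul_le_mul_of_nonneg_left h3 hc
          _ = _ := by ring

end Pool.Agent.Y816.PD
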