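import Pool.Agent.Y816.PD.Inst2

/-!
# Cunningham chains of exact length at integers with restricted digits
-/

set_option autoImplicit false

namespace Pool.Agent.Y816.PD

open Finset Filter

lemma ND_le_add {b K : ℕ} {A : ℕ → Finset ℕ} {S T U : Set ℕ} (h : ∀ n, n ∈ S → n ∈ T ∨ n ∈ U) :
    ND b K A S ≤ ND b K A T + ND b K A U := by
  classical
  unfold ND
  refine (card_le_card ?_).trans (card_union_le _ _)
  intro n hn
  rw [mem_filter] at hn
  rw [mem_union, mem_filter, mem_filter]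
  rcases h n hn.2.2 with h1 | h1
  · exact Or.inl ⟨hn.1, hn.2.1, h1⟩
  · exact Or.inr ⟨hn.1, hn.2.1, h1⟩

lemma ND_mono {b K : ℕ} {A : ℕ → Finset ℕ} {S T : Set ℕ} (h : ∀ n, n ∈ S → n ∈ T) :
    ND b K A S ≤ ND b K A T := by
  classical
  unfold ND
  apply card_le_card
  intro n hn
  rw [mem_filter] at hn ⊢
  exact ⟨hn.1, hn.2.1, h n hn.2.2⟩

lemma NA_nonneg (K : ℕ) (A : ℕ → Finset ℕ) : 0 ≤ NA K A := prod_nonneg fun _ _ => Nat.cast_nonneg _

/-- a lower bound of order `K ^ -k` survives the removal of a set of order `K ^ -(k + 1)` -/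
lemma remove {κ C : ℝ} (hκ : 0 < κ) (k : ℕ) : ∀ᶠ K : ℕ in atTop, ∀ (b : ℕ) (A : ℕ → Finset ℕ)
    (S T U : Set ℕ), (∀ n, n ∈ S → n ∈ T ∨ n ∈ U) → κ * NA K A / (K : ℝ) ^ k ≤ ND b K A S →
    (ND b K A U : ℝ) ≤ C * NA K A / (K : ℝ) ^ (k + 1) → κ / 2 * NA K A / (K : ℝ) ^ k ≤ ND b K A T := by
  filter_upwards [tendsto_natCast_atTop_atTop.eventually_ge_atTop (2 * C / κ), eventually_gt_atTop 0]
    with K hK1 hK0
  intro b A S T U hSTU h1 h2
  have hK : (0 : ℝ) < K := by exact_mod_cast hK0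
  have h3 : (ND b K A S : ℝ) ≤ ND b K A T + ND b K A U := by exact_mod_cast ND_le_add hSTU
  have h4 : C * NA K A / (K : ℝ) ^ (k + 1) ≤ κ / 2 * NA K A / (K : ℝ) ^ k := by
    rw [div_le_iff₀ hκ] at hK1
    rw [div_le_div_iff₀ (by positivity) (by positivity), pow_succ]
    have h5 : C * NA K A ≤ κ / 2 * NA K A * K := by
      have := mul_le_mul_of_nonneg_right hK1 (NA_nonneg K A)
      linarith
    calc C * NA K A * (K : ℝ) ^ k ≤ κ / 2 * NA K A * K * (K : ℝ) ^ k :=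
          mul_le_mul_of_nonneg_right h5 (by positivity)
      _ = _ := by ring
  have h5 : κ * NA K A / (K : ℝ) ^ k = κ / 2 * NA K A / (K : ℝ) ^ k + κ / 2 * NA K A / (K : ℝ) ^ k := by ring
  linarith

/-- **Chains of exact length.** -/
theorem exact_chain (c : ℕ → ℕ → ℕ)
    (hc : (∀ j n, c j n = 2 ^ j * (n + 1) - 1) ∨ (∀ j n, c j n = 2 ^ j * (n - 1) + 1)) (k : ℕ) (hk : 1 ≤ k) :
    ∃ c₀ : ℝ, 0 < c₀ ∧ ∃ r0 : ℕ, 2 ≤ r0 ∧ ∀ r : ℕ, r0 ≤ r → ∀ b : ℕ, 2 ≤ b → ∃ κ C : ℝ, 0 < κ ∧ 0 < C ∧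
      ∀ᶠ K : ℕ in atTop, ∀ A : ℕ → Finset ℕ, (∀ i < K, A i ⊆ range b) →
        (b : ℝ) ^ K ≤ Real.exp (c₀ * K) * NA K A →
        ((∃ d ∈ A 0, ∀ j < k, (c j (d + b)).Coprime b) → κ * NA K A / (K : ℝ) ^ k ≤
          ND b K A {n | ((∀ j < k, ∀ p : ℕ, p.Prime → p ∣ c j n → (n : ℝ) ^ (1 / (r : ℝ)) < (p : ℝ)) ∧
            ∀ j < k, (c j n).primeFactorsList.length ≤ r) ∧ 1 < c k n ∧ ¬ (c k n).Prime}) ∧
        (ND b K A {n | ∀ j < k, ∀ p : ℕ, p.Prime → p ∣ c j n → (n : ℝ) ^ (1 / (r : ℝ)) < (p : ℝ)} : ℝ) ≤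
          C * NA K A / (K : ℝ) ^ k := by
  obtain ⟨c1, hc1, r1, hr1, h1⟩ := digits_chain c hc k
  obtain ⟨c2, hc2, r2, hr2, h2⟩ := digits_chain c hc (k + 1)
  refine ⟨min c1 c2, lt_min hc1 hc2, max r1 r2, hr1.trans (le_max_left _ _), fun r hr b hb => ?_⟩
  have h2r : 2 ≤ r := hr1.trans ((le_max_left _ _).trans hr)
  obtain ⟨κ, C, hκ, hC, h1⟩ := h1 r ((le_max_left _ _).trans hr) b hb
  obtain ⟨κ', C', hκ', hC', h2⟩ := h2 r ((le_max_right _ _).trans hr) b hb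
  refine ⟨κ / 2, C, by positivity, hC, ?_⟩
  filter_upwards [h1, h2, remove (C := C') hκ k] with K hK1 hK2 hK3 A hA hprod
  have hp1 : (b : ℝ) ^ K ≤ Real.exp (c1 * K) * NA K A := by
    refine hprod.trans (mul_le_mul_of_nonneg_right ?_ (NA_nonneg K A))
    apply Real.exp_le_exp.2
    exact mul_le_mul_of_nonneg_right (min_le_left _ _) (Nat.cast_nonneg _)
  have hp2 : (b : ℝ) ^ K ≤ Real.exp (c2 * K) * NA K A := by
    refine hprod.trans (mul_le_mul_of_nonneg_right ?_ (NA_nonneg K A))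
    apply Real.exp_le_exp.2
    exact mul_le_mul_of_nonneg_right (min_le_right _ _) (Nat.cast_nonneg _)
  refine ⟨fun hd => ?_, (hK1 A hA hp1).2⟩
  refine hK3 b A _ _ _ ?_ ((hK1 A hA hp1).1 hd) (hK2 A hA hp2).2
  intro n hn
  by_cases hR : ∀ j < k + 1, ∀ p : ℕ, p.Prime → p ∣ c j n → (n : ℝ) ^ (1 / (r : ℝ)) < (p : ℝ)
  · exact Or.inr hR
  · left
    refine ⟨hn, ?_⟩
    push Not at hR
    obtain ⟨j, hj, p, hp, hpd, hpn⟩ := hR
    have hjk : j = k := by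
      by_contra hne
      have := hn.1 j (by omega) p hp hpd
      linarith
    subst hjk
    have hr0 : (0 : ℝ) < r := by exact_mod_cast (by omega : 0 < r)
    have hp2 : (2 : ℝ) ≤ p := by exact_mod_cast hp.two_le
    have hn2 : 2 ≤ n := by
      by_contra hcon
      push Not at hcon
      have h3 : (n : ℝ) ^ (1 / (r : ℝ)) ≤ 1 := by
        apply Real.rpow_le_one (Nat.cast_nonneg _) _ (by positivity)
        exact_mod_cast (by omega : n ≤ 1)
      linarith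
    have hnr : (n : ℝ) ^ (1 / (r : ℝ)) ≤ n := by
      calc (n : ℝ) ^ (1 / (r : ℝ)) ≤ (n : ℝ) ^ (1 : ℝ) := by
            apply Real.rpow_le_rpow_of_exponent_le (by exact_mod_cast (by omega : 1 ≤ n))
            rw [div_le_one hr0]
            exact_mod_cast (by omega : 1 ≤ r)
        _ = n := Real.rpow_one _
    have hpn' : p ≤ n := by exact_mod_cast hpn.trans hnr
    have hlt : n < c j n := by
      rcases hc with hc | hc
      · rw [hc]
        have h1 : 2 ≤ 2 ^ j := by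
          calc 2 = 2 ^ 1 := by norm_num
            _ ≤ 2 ^ j := Nat.pow_le_pow_right (by norm_num) hk
        have h2 : 2 * (n + 1) ≤ 2 ^ j * (n + 1) := Nat.mul_le_mul_right _ h1
        omega
      · rw [hc]
        have h1 : 2 ≤ 2 ^ j := by
          calc 2 = 2 ^ 1 := by norm_num
            _ ≤ 2 ^ j := Nat.pow_le_pow_right (by norm_num) hk
        have h2 : 2 * (n - 1) ≤ 2 ^ j * (n - 1) := Nat.mul_le_mul_right _ h1
        omega
    refine ⟨by omega, fun hq => ?_⟩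
    have := (Nat.prime_dvd_prime_iff_eq hp hq).1 hpd
    omega

end Pool.Agent.Y816.PD
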