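import Mathlib

/-!
# Combinatorial lemmas for the sieve
-/

set_option autoImplicit false

namespace Pool.Agent.Y816.PD

open Finset

lemma sum_image_le' {α β : Type*} [DecidableEq β] (s : Finset α) (g : α → β) (f : β → ℝ)
    (hf : ∀ x, 0 ≤ f x) : ∑ x ∈ s.image g, f x ≤ ∑ y ∈ s, f (g y) := by
  rw [← sum_fiberwise_of_maps_to (s := s) (t := s.image g) (g := g)
    (fun y hy => mem_image_of_mem g hy) (fun y => f (g y))]
  apply sum_le_sum
  intro x hx
  obtain ⟨y, hy, rfl⟩ := mem_image.1 hx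
  exact single_le_sum (f := fun y => f (g y)) (fun _ _ => hf _) (mem_filter.2 ⟨hy, rfl⟩)

/-- the weight of a set of primes -/
noncomputable def Wt (h : ℕ → ℝ) (D : Finset ℕ) : ℝ := ∏ l ∈ D, h l

lemma conv_le (P : Finset ℕ) (h : ℕ → ℝ) (hh : ∀ l, 0 ≤ h l) (φ : Finset ℕ → ℝ) (hφ : ∀ D, 0 ≤ φ D) :
    ∑ D ∈ P.powerset, Wt h D * ∑ D' ∈ D.powerset, φ D' ≤
      (∏ l ∈ P, (1 + h l)) * ∑ D' ∈ P.powerset, Wt h D' * φ D' := by
  classical
  have hW : ∀ D, 0 ≤ Wt h D := fun D => prod_nonneg fun l _ => hh l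
  have h1 : ∑ D ∈ P.powerset, Wt h D * ∑ D' ∈ D.powerset, φ D' =
      ∑ D' ∈ P.powerset, φ D' * ∑ D ∈ P.powerset.filter (fun D => D' ⊆ D), Wt h D := by
    simp only [mul_sum]
    rw [sum_sigma', sum_sigma']
    refine sum_nbij' (fun x => ⟨x.2, x.1⟩) (fun x => ⟨x.2, x.1⟩) ?_ ?_ ?_ ?_ ?_
    · rintro ⟨D, D'⟩ hx
      simp only [mem_sigma, mem_powerset, mem_filter] at hx ⊢
      exact ⟨hx.2.trans hx.1, hx.1, hx.2⟩
    · rintro ⟨D', D⟩ hx
      simp only [mem_sigma, mem_powerset, mem_filter] at hx ⊢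
      exact ⟨hx.2.1, hx.2.2⟩
    · intro x _; rfl
    · intro x _; rfl
    · intro x _
      exact mul_comm _ _
  rw [h1, mul_sum]
  apply sum_le_sum
  intro D' hD'
  rw [mem_powerset] at hD'
  have h2 : ∑ D ∈ P.powerset.filter (fun D => D' ⊆ D), Wt h D ≤ Wt h D' * ∏ l ∈ P, (1 + h l) := by
    have h3 : ∑ D ∈ P.powerset.filter (fun D => D' ⊆ D), Wt h D =
        Wt h D' * ∑ D ∈ P.powerset.filter (fun D => D' ⊆ D), Wt h (D \ D') := by
      rw [mul_sum]
      apply sum_congr rfl
      intro D hD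
      rw [mem_filter] at hD
      unfold Wt
      rw [mul_comm]
      exact (prod_sdiff hD.2).symm
    rw [h3]
    apply mul_le_mul_of_nonneg_left _ (hW D')
    have hinj : Set.InjOn (fun D => D \ D')
        (P.powerset.filter (fun D => D' ⊆ D) : Set (Finset ℕ)) := by
      intro D hD E hE hDE
      rw [mem_coe, mem_filter] at hD hE
      simp only at hDE
      rw [← sdiff_union_of_subset hD.2, ← sdiff_union_of_subset hE.2, hDE]
    rw [prod_one_add, ← sum_image (f := Wt h) (g := fun D => D \ D') hinj]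
    have h5 : ∑ t ∈ P.powerset, ∏ i ∈ t, h i = ∑ t ∈ P.powerset, Wt h t := rfl
    rw [h5]
    apply sum_le_sum_of_subset_of_nonneg
    · intro D hD
      obtain ⟨E, hE, rfl⟩ := mem_image.1 hD
      rw [mem_filter, mem_powerset] at hE
      rw [mem_powerset]
      exact sdiff_subset.trans hE.1
    · intro D _ _
      exact hW D
  calc φ D' * ∑ D ∈ P.powerset.filter (fun D => D' ⊆ D), Wt h D ≤
      φ D' * (Wt h D' * ∏ l ∈ P, (1 + h l)) := mul_le_mul_of_nonneg_left h2 (hφ D')
    _ = _ := by ring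

/-- counting residues by the Chinese remainder theorem -/
lemma crt_card (Q : ℕ → ℕ → Prop) [∀ l, DecidablePred (Q l)] (M n0 : ℕ) (hM : 0 < M) (D : Finset ℕ)
    (hD : ∀ l ∈ D, l.Prime) (hDM : ∀ l ∈ D, ¬ l ∣ M) :
    ((range (M * ∏ l ∈ D, l)).filter (fun h => h % M = n0 % M ∧ ∀ l ∈ D, Q l (h % l))).card =
      ∏ l ∈ D, ((range l).filter (fun r => Q l r)).card := by
  classical
  induction D using Finset.induction_on with
  | empty =>
    rw [prod_empty, mul_one, prod_empty, card_eq_one]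
    refine ⟨n0 % M, ?_⟩
    ext h
    simp only [mem_filter, mem_range, mem_singleton, notMem_empty, false_imp_iff, implies_true,
      and_true]
    constructor
    · rintro ⟨h1, h2⟩
      rwa [Nat.mod_eq_of_lt h1] at h2
    · rintro rfl
      exact ⟨Nat.mod_lt _ hM, Nat.mod_mod _ _⟩
  | insert l D hl ih =>
    rw [prod_insert hl, prod_insert hl]
    have hlp : l.Prime := hD l (mem_insert_self _ _)
    have hDp : ∀ l ∈ D, l.Prime := fun l' h => hD l' (mem_insert_of_mem h)
    obtain ⟨x, hx⟩ : ∃ x, x = M * ∏ l' ∈ D, l' := ⟨_, rfl⟩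
    have hx0 : 0 < x := by
      rw [hx]
      exact Nat.mul_pos hM (prod_pos fun l' h => (hDp l' h).pos)
    have hco : x.Coprime l := by
      rw [hx]
      apply Nat.Coprime.mul_left
      · exact ((hlp.coprime_iff_not_dvd).2 (hDM l (mem_insert_self _ _))).symm
      · apply Nat.Coprime.prod_left
        intro l' h'
        apply (Nat.coprime_primes (hDp l' h') hlp).2
        rintro rfl
        exact hl h'
    rw [← ih hDp (fun l' h => hDM l' (mem_insert_of_mem h)), mul_comm
      (((range l).filter (fun r => Q l r)).card) _, ← card_product]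
    have hxl : M * (l * ∏ l' ∈ D, l') = x * l := by rw [hx]; ring
    rw [hxl, ← hx]
    have hMx : M ∣ x := ⟨_, hx⟩
    have hDx : ∀ l' ∈ D, l' ∣ x := fun l' h => by
      rw [hx]
      exact (dvd_prod_of_mem (fun l => l) h).mul_left _
    refine card_nbij' (fun h => (h % x, h % l))
      (fun y => (Nat.chineseRemainder hco y.1 y.2 : ℕ)) ?_ ?_ ?_ ?_
    · intro h hh
      rw [mem_coe, mem_filter, mem_range] at hh
      obtain ⟨h1, h2, h3⟩ := hh
      rw [mem_coe, mem_product, mem_filter, mem_filter, mem_range, mem_range]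
      refine ⟨⟨Nat.mod_lt _ hx0, ?_, ?_⟩, Nat.mod_lt _ hlp.pos, h3 l (mem_insert_self _ _)⟩
      · simp only
        rw [Nat.mod_mod_of_dvd _ hMx]
        exact h2
      · intro l' hl'
        simp only
        rw [Nat.mod_mod_of_dvd _ (hDx l' hl')]
        exact h3 l' (mem_insert_of_mem hl')
    · rintro ⟨u, v⟩ hh
      rw [mem_coe, mem_product, mem_filter, mem_filter, mem_range, mem_range] at hh
      obtain ⟨⟨h1, h2, h3⟩, h4, h5⟩ := hh
      simp only at h1 h2 h3 h4 h5 ⊢
      obtain ⟨k, hk⟩ : ∃ k, k = Nat.chineseRemainder hco u v := ⟨_, rfl⟩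
      have hk1 := k.2.1
      have hk2 := k.2.2
      have hk3 : (k : ℕ) < x * l := by
        rw [hk]
        exact Nat.chineseRemainder_lt_mul hco u v hx0.ne' hlp.pos.ne'
      rw [← hk, mem_coe, mem_filter, mem_range]
      refine ⟨hk3, ?_, ?_⟩
      · rw [← h2]
        exact hk1.of_dvd hMx
      · intro l' hl'
        rw [mem_insert] at hl'
        rcases hl' with rfl | hl'
        · have : (k : ℕ) % l' = v := by
            have h6 : (k : ℕ) % l' = v % l' := hk2
            rw [h6]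
            exact Nat.mod_eq_of_lt h4
          rw [this]
          exact h5
        · have : (k : ℕ) % l' = u % l' := hk1.of_dvd (hDx l' hl')
          rw [this]
          exact h3 l' hl'
    · intro h hh
      rw [mem_coe, mem_filter, mem_range] at hh
      simp only
      have h1 : (Nat.chineseRemainder hco (h % x) (h % l) : ℕ) ≡ h [MOD x * l] := by
        rw [← Nat.modEq_and_modEq_iff_modEq_mul hco]
        refine ⟨(Nat.chineseRemainder hco (h % x) (h % l)).2.1.trans (Nat.mod_modEq _ _),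
          (Nat.chineseRemainder hco (h % x) (h % l)).2.2.trans (Nat.mod_modEq _ _)⟩
      exact h1.eq_of_lt_of_lt (Nat.chineseRemainder_lt_mul hco _ _ hx0.ne' hlp.pos.ne') hh.1
    · rintro ⟨u, v⟩ hh
      rw [mem_coe, mem_product, mem_filter, mem_filter, mem_range, mem_range] at hh
      obtain ⟨⟨h1, h2, h3⟩, h4, h5⟩ := hh
      simp only at h1 h4 ⊢
      have hk1 := (Nat.chineseRemainder hco u v).2.1
      have hk2 := (Nat.chineseRemainder hco u v).2.2
      rw [Prod.mk.injEq]
      constructor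
      · have := hk1
        rw [Nat.ModEq, Nat.mod_eq_of_lt h1] at this
        exact this
      · have := hk2
        rw [Nat.ModEq, Nat.mod_eq_of_lt h4] at this
        exact this

/-- a power of the dimension is a small power of the modulus -/
lemma pow_card_le (κ : ℕ) (hκ : 1 ≤ κ) (D : Finset ℕ) (hD : ∀ l ∈ D, 1 ≤ l) :
    ((κ : ℝ)) ^ D.card ≤ (κ : ℝ) ^ (κ ^ 4) * ((∏ l ∈ D, l : ℕ) : ℝ) ^ (1 / 4 : ℝ) := by
  have hκ1 : (1 : ℝ) ≤ κ := by exact_mod_cast hκ
  have h1 : ∀ l ∈ D, (κ : ℝ) ≤ (if l < κ ^ 4 then (κ : ℝ) else 1) * (l : ℝ) ^ (1 / 4 : ℝ) := by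
    intro l hl
    have hl1 : (1 : ℝ) ≤ l := by exact_mod_cast hD l hl
    split_ifs with h
    · exact le_mul_of_one_le_right (by linarith) (Real.one_le_rpow hl1 (by norm_num))
    · rw [one_mul]
      push Not at h
      have h2 : ((κ : ℝ)) ^ 4 ≤ l := by exact_mod_cast h
      calc (κ : ℝ) = ((κ : ℝ) ^ 4) ^ (1 / 4 : ℝ) := by
            rw [← Real.rpow_natCast, ← Real.rpow_mul (by linarith)]
            norm_num
        _ ≤ _ := Real.rpow_le_rpow (by positivity) h2 (by norm_num)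
  calc ((κ : ℝ)) ^ D.card = ∏ l ∈ D, (κ : ℝ) := by rw [prod_const]
    _ ≤ ∏ l ∈ D, (if l < κ ^ 4 then (κ : ℝ) else 1) * (l : ℝ) ^ (1 / 4 : ℝ) :=
        prod_le_prod (fun _ _ => by linarith) h1
    _ = (∏ l ∈ D, (if l < κ ^ 4 then (κ : ℝ) else 1)) * ((∏ l ∈ D, l : ℕ) : ℝ) ^ (1 / 4 : ℝ) := by
        rw [prod_mul_distrib]
        congr 1
        push_cast
        rw [Real.finset_prod_rpow _ _ (fun l _ => Nat.cast_nonneg l)]
    _ ≤ _ := by
        apply mul_le_mul_of_nonneg_right _ (by positivity)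
        rw [prod_ite, prod_const, prod_const_one, mul_one]
        apply pow_le_pow_right₀ hκ1
        have h3 : D.filter (fun l => l < κ ^ 4) ⊆ range (κ ^ 4) := by
          intro l hl
          rw [mem_filter] at hl
          exact mem_range.2 hl.2
        have h4 := card_le_card h3
        rwa [card_range] at h4

/-- divisors of `M * ∏ D` -/
lemma div_sum_le (M : ℕ) (hM : 0 < M) (D : Finset ℕ) (hD : ∀ l ∈ D, l.Prime) (F : ℕ → ℝ)
    (hF : ∀ e, 0 ≤ F e) :
    ∑ e ∈ (M * ∏ l ∈ D, l).divisors, F e ≤ ∑ u ∈ M.divisors, ∑ D' ∈ D.powerset, F (u * ∏ l ∈ D', l) := by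
  classical
  rw [← sum_product']
  have h1 : (M * ∏ l ∈ D, l).divisors ⊆
      (M.divisors ×ˢ D.powerset).image (fun x => x.1 * ∏ l ∈ x.2, l) := by
    intro e he
    rw [Nat.mem_divisors] at he
    obtain ⟨⟨u, v, hu, hv, rfl⟩, _⟩ := he.imp (fun h => exists_dvd_and_dvd_of_dvd_mul h) id
    rw [mem_image]
    refine ⟨(u, v.primeFactors), ?_, ?_⟩
    · rw [mem_product, Nat.mem_divisors, mem_powerset]
      refine ⟨⟨hu, hM.ne'⟩, ?_⟩
      have h2 : ∏ l ∈ D, l ≠ 0 := prod_ne_zero_iff.2 fun l hl => (hD l hl).ne_zero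
      have h3 := Nat.primeFactors_mono hv h2
      rwa [Nat.primeFactors_prod hD] at h3
    · have hsq : Squarefree (∏ l ∈ D, l) := by
        apply Finset.squarefree_prod_of_pairwise_isCoprime
        · intro a ha b hb hab
          exact Nat.coprime_iff_isRelPrime.1 ((Nat.coprime_primes (hD a ha) (hD b hb)).2 hab)
        · intro p hp
          exact (hD p hp).prime.squarefree
      simp only
      rw [Nat.prod_primeFactors_of_squarefree (hsq.squarefree_of_dvd hv)]
  calc ∑ e ∈ (M * ∏ l ∈ D, l).divisors, F e ≤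
      ∑ e ∈ (M.divisors ×ˢ D.powerset).image (fun x => x.1 * ∏ l ∈ x.2, l), F e :=
        sum_le_sum_of_subset_of_nonneg h1 (fun e _ _ => hF e)
    _ ≤ _ := sum_image_le' _ _ _ hF

end Pool.Agent.Y816.PD
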