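import Pool.Agent.Y816.PD.Chain

/-!
# Dyadic intervals
-/

set_option autoImplicit false

namespace Pool.Agent.Y816.PD

open Finset Filter

lemma ND_image {b K : ℕ} {A : ℕ → Finset ℕ} {S : Set ℕ} {T : Finset ℕ}
    (h : ∀ n, n < b ^ K → (∀ i < K, n / b ^ i % b ∈ A i) → n ∈ S → n ∈ T) : ND b K A S ≤ T.card := by
  classical
  unfold ND
  apply card_le_card
  intro n hn
  rw [mem_filter, mem_range] at hn
  exact h n hn.1 hn.2.1 hn.2.2

lemma NA_add (A : ℕ → Finset ℕ) (L m : ℕ) :
    NA (L + m) A = NA L A * ∏ i ∈ range m, ((A (L + i)).card : ℝ) := by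
  unfold NA
  rw [prod_range_add]

lemma NA_congr {A B : ℕ → Finset ℕ} {L : ℕ} (h : ∀ i < L, A i = B i) : NA L A = NA L B := by
  unfold NA
  apply prod_congr rfl
  intro i hi
  rw [h i (mem_range.1 hi)]

open Classical in
theorem dyadic (k : ℕ) (Al R : Set ℕ) (Lo : ℕ → Prop) (c κ C : ℝ) (hc : 0 < c) (hκ : 0 < κ) (hC : 0 < C)
    (h : ∀ᶠ K : ℕ in atTop, ∀ A : ℕ → Finset ℕ, (∀ i < K, A i ⊆ range 2) →
        ((2 : ℕ) : ℝ) ^ K ≤ Real.exp (c * K) * NA K A →
        ((∃ d ∈ A 0, Lo d) → κ * NA K A / (K : ℝ) ^ k ≤ ND 2 K A Al) ∧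
        (ND 2 K A R : ℝ) ≤ C * NA K A / (K : ℝ) ^ k) :
    ∃ κ' C' : ℝ, 0 < κ' ∧ 0 < C' ∧ ∀ᶠ N : ℕ in atTop, ∀ L : ℕ, L = Nat.log 2 N - 2 → ∀ A : ℕ → Finset ℕ,
      (∀ i < L, A i ⊆ range 2) → (2 : ℝ) ^ L ≤ Real.exp (c / 2 * L) * NA L A →
      ((∃ d ∈ A 0, Lo d) → κ' * NA L A / (L : ℝ) ^ k ≤
        (((Icc (N / 2 + 1) N).filter (fun q => (∀ i < L, q / 2 ^ i % 2 ∈ A i) ∧ q ∈ Al)).card : ℝ)) ∧
      (((Icc (N / 2 + 1) N).filter (fun q => (∀ i < L, q / 2 ^ i % 2 ∈ A i) ∧ q ∈ R)).card : ℝ) ≤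
        C' * NA L A / (L : ℝ) ^ k := by
  obtain ⟨K0, hK0⟩ := eventually_atTop.1 h
  obtain ⟨L1, hL1⟩ := exists_nat_ge (2 * Real.log 8 / c)
  refine ⟨κ / 4 ^ k, 8 * C, by positivity, by positivity, ?_⟩
  filter_upwards [eventually_ge_atTop (2 ^ (K0 + L1 + 4))] with N hN L hL A hA hprod
  have hlog : K0 + L1 + 4 ≤ Nat.log 2 N := by
    apply Nat.le_log_of_pow_le (by norm_num) hN
  have hLb : K0 + L1 + 2 ≤ L := by omega
  have hLN : Nat.log 2 N = L + 2 := by omega
  have hN0 : N ≠ 0 := by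
    have : 0 < 2 ^ (K0 + L1 + 4) := by positivity
    omega
  have hN1 : 2 ^ (L + 2) ≤ N := by
    rw [← hLN]
    exact Nat.pow_log_le_self 2 hN0
  have hN2 : N < 2 ^ (L + 3) := by
    have := Nat.lt_pow_succ_log_self (b := 2) (by norm_num) N
    rwa [hLN] at this
  have p2 : 2 ^ (L + 2) = 4 * 2 ^ L := by ring
  have p3 : 2 ^ (L + 3) = 8 * 2 ^ L := by ring
  have p1 : 2 ^ (L + 1) = 2 * 2 ^ L := by ring
  rw [p2] at hN1
  rw [p3] at hN2
  have hLr : (1 : ℝ) ≤ L := by exact_mod_cast (by omega : 1 ≤ L)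
  have hL0 : (0 : ℝ) < L := by linarith
  have hcL : Real.log 8 ≤ c / 2 * L := by
    have h1 : 2 * Real.log 8 / c ≤ L := hL1.trans (by exact_mod_cast (by omega : L1 ≤ L))
    rw [div_le_iff₀ hc] at h1
    linarith
  have hNA : 0 ≤ NA L A := NA_nonneg L A
  -- the condition on the product for extended sets of digits
  have hcond : ∀ (m : ℕ) (B : ℕ → Finset ℕ), m ≤ 3 → (∀ i < L, B i = A i) →
      (∀ i < m, 1 ≤ (B (L + i)).card) →
      ((2 : ℕ) : ℝ) ^ (L + m) ≤ Real.exp (c * ((L + m : ℕ) : ℝ)) * NA (L + m) B := by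
    intro m B hm hB hB1
    rw [NA_add, NA_congr hB]
    have h1 : (1 : ℝ) ≤ ∏ i ∈ range m, ((B (L + i)).card : ℝ) := by
      calc (1 : ℝ) = ∏ i ∈ range m, (1 : ℝ) := by simp
        _ ≤ _ := prod_le_prod (fun _ _ => zero_le_one) (fun i hi => by exact_mod_cast hB1 i (mem_range.1 hi))
    have h2 : ((2 : ℕ) : ℝ) ^ (L + m) ≤ 8 * 2 ^ L := by
      have h3 : ((2 : ℕ) : ℝ) ^ m ≤ 8 := by
        calc ((2 : ℕ) : ℝ) ^ m ≤ ((2 : ℕ) : ℝ) ^ 3 := pow_le_pow_right₀ (by norm_num) hm
          _ = 8 := by norm_num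
      rw [pow_add]
      push_cast at h3 ⊢
      nlinarith [pow_pos (show (0 : ℝ) < 2 by norm_num) L]
    calc ((2 : ℕ) : ℝ) ^ (L + m) ≤ 8 * 2 ^ L := h2
      _ ≤ 8 * (Real.exp (c / 2 * L) * NA L A) := by linarith
      _ = Real.exp (Real.log 8) * Real.exp (c / 2 * L) * NA L A := by
          rw [Real.exp_log (by norm_num)]; ring
      _ ≤ Real.exp (c / 2 * L) * Real.exp (c / 2 * L) * NA L A := by
          have := Real.exp_le_exp.2 hcL
          gcongr
      _ = Real.exp (c * L) * NA L A := by rw [← Real.exp_add]; congr 2; ring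
      _ ≤ Real.exp (c * ((L + m : ℕ) : ℝ)) * NA L A := by
          apply mul_le_mul_of_nonneg_right _ hNA
          apply Real.exp_le_exp.2
          apply mul_le_mul_of_nonneg_left _ hc.le
          exact_mod_cast Nat.le_add_right L m
      _ ≤ Real.exp (c * ((L + m : ℕ) : ℝ)) * (NA L A * ∏ i ∈ range m, ((B (L + i)).card : ℝ)) := by
          apply mul_le_mul_of_nonneg_left _ (Real.exp_pos _).le
          exact le_mul_of_one_le_right hNA h1
  have h01 : ({1} : Finset ℕ) ⊆ range 2 := by decide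
  have h00 : ({0} : Finset ℕ) ⊆ range 2 := by decide
  constructor
  · rintro ⟨d, hd, hLd⟩
    have hfin : ∀ (m : ℕ) (B : ℕ → Finset ℕ), m ≤ 3 → (∀ i < L, B i = A i) →
        (∀ i < L + m, B i ⊆ range 2) →
        (∀ i < m, 1 ≤ (B (L + i)).card) →
        (∀ n, n < 2 ^ (L + m) → (∀ i < L + m, n / 2 ^ i % 2 ∈ B i) → N / 2 + 1 ≤ n ∧ n ≤ N) →
        κ / 4 ^ k * NA L A / (L : ℝ) ^ k ≤
        (((Icc (N / 2 + 1) N).filter (fun q => (∀ i < L, q / 2 ^ i % 2 ∈ A i) ∧ q ∈ Al)).card : ℝ) := by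
      intro m B hm hB hBs hB1 hBN
      have h1 := (hK0 (L + m) (by omega) B hBs (hcond m B hm hB hB1)).1
        ⟨d, by rw [hB 0 (by omega)]; exact hd, hLd⟩
      have h2 : ND 2 (L + m) B Al ≤
          ((Icc (N / 2 + 1) N).filter (fun q => (∀ i < L, q / 2 ^ i % 2 ∈ A i) ∧ q ∈ Al)).card := by
        apply ND_image
        intro n hn1 hn2 hn3
        have := hBN n hn1 hn2
        rw [mem_filter, mem_Icc]
        refine ⟨this, fun i hi => ?_, hn3⟩
        rw [← hB i hi]
        exact hn2 i (by omega)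
      have h3 : NA L A ≤ NA (L + m) B := by
        rw [NA_add, NA_congr hB]
        apply le_mul_of_one_le_right hNA
        calc (1 : ℝ) = ∏ i ∈ range m, (1 : ℝ) := by simp
          _ ≤ _ := prod_le_prod (fun _ _ => zero_le_one) (fun i hi => by exact_mod_cast hB1 i (mem_range.1 hi))
      have h4 : ((L + m : ℕ) : ℝ) ≤ 4 * L := by
        have : L + m ≤ 4 * L := by omega
        exact_mod_cast this
      have h5 : (0 : ℝ) < ((L + m : ℕ) : ℝ) := by exact_mod_cast (by omega : 0 < L + m)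
      calc κ / 4 ^ k * NA L A / (L : ℝ) ^ k = κ * NA L A / (4 * (L : ℝ)) ^ k := by
            rw [mul_pow]; field_simp
        _ ≤ κ * NA (L + m) B / (4 * (L : ℝ)) ^ k := by gcongr
        _ ≤ κ * NA (L + m) B / ((L + m : ℕ) : ℝ) ^ k := by
            apply div_le_div_of_nonneg_left (mul_nonneg hκ.le (NA_nonneg _ _)) (by positivity)
            exact pow_le_pow_left₀ h5.le h4 k
        _ ≤ _ := h1.trans (by exact_mod_cast h2)
    by_cases hcase : N < 6 * 2 ^ L
    · refine hfin 2 (fun i => if i < L then A i else {1}) (by norm_num) (fun i hi => if_pos hi) ?_ ?_ ?_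
      · intro i _
        split_ifs with h1
        · exact hA i h1
        · exact h01
      · intro i _
        rw [if_neg (by omega)]
        simp
      · intro n hn1 hn2
        have h1 := hn2 L (by omega)
        have h2 := hn2 (L + 1) (by omega)
        simp only [lt_irrefl, if_false, mem_singleton, show ¬ L + 1 < L by omega] at h1 h2
        rw [p2] at hn1
        rw [p1] at h2
        have h4 : n / (2 * 2 ^ L) = n / 2 ^ L / 2 := by
          rw [Nat.div_div_eq_div_mul, mul_comm 2 (2 ^ L)]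
        have h6 := Nat.div_mul_le_self n (2 ^ L)
        have h7 : n / 2 ^ L < 4 := by
          rw [Nat.div_lt_iff_lt_mul (by positivity)]
          omega
        rw [h4] at h2
        have h5 : n / 2 ^ L = 3 := by
          generalize n / 2 ^ L = y at h1 h2 h7
          omega
        rw [h5] at h6
        omega
    · push Not at hcase
      refine hfin 3 (fun i => if i < L then A i else if i = L + 2 then {1} else if i = L + 1 then {0}
        else range 2) (by norm_num) (fun i hi => if_pos hi) ?_ ?_ ?_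
      · intro i _
        split_ifs with h1 h2 h3
        · exact hA i h1
        · exact h01
        · exact h00
        · exact subset_rfl
      · intro i _
        rw [if_neg (by omega)]
        split_ifs <;> simp
      · intro n hn1 hn2
        have h1 := hn2 (L + 2) (by omega)
        have h2 := hn2 (L + 1) (by omega)
        simp only [show ¬ L + 2 < L by omega, show ¬ L + 1 < L by omega, show ¬ L + 1 = L + 2 by omega,
          if_false, if_true, mem_singleton] at h1 h2
        rw [p3] at hn1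
        rw [p2] at h1
        rw [p1] at h2
        have h4 : n / (4 * 2 ^ L) = n / (2 * 2 ^ L) / 2 := by
          rw [Nat.div_div_eq_div_mul]
          congr 1
          ring
        have h8 : n / (2 * 2 ^ L) < 4 := by
          rw [Nat.div_lt_iff_lt_mul (by positivity)]
          omega
        rw [h4] at h1
        have h5 : n / (2 * 2 ^ L) = 2 := by
          generalize n / (2 * 2 ^ L) = y at h1 h2 h8
          omega
        have h6 := Nat.div_mul_le_self n (2 * 2 ^ L)
        have h7 := Nat.lt_div_mul_add (a := n) (show 0 < 2 * 2 ^ L by positivity)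
        rw [h5] at h6 h7
        omega
  · obtain ⟨B, hB⟩ : ∃ B : ℕ → Finset ℕ, B = fun i => if i < L then A i else range 2 := ⟨_, rfl⟩
    have hBA : ∀ i < L, B i = A i := fun i hi => by rw [hB]; exact if_pos hi
    have hBs : ∀ i < L + 3, B i ⊆ range 2 := by
      intro i _
      rw [hB]
      simp only
      split_ifs with h1
      · exact hA i h1
      · exact subset_rfl
    have hBc : ∀ i < 3, (B (L + i)).card = 2 := by
      intro i _
      rw [hB]
      simp only
      rw [if_neg (by omega), card_range]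
    have h1 := (hK0 (L + 3) (by omega) B hBs (hcond 3 B le_rfl hBA (fun i hi => by rw [hBc i hi]; norm_num))).2
    have h2 : ((Icc (N / 2 + 1) N).filter (fun q => (∀ i < L, q / 2 ^ i % 2 ∈ A i) ∧ q ∈ R)).card ≤
        ND 2 (L + 3) B R := by
      unfold ND
      apply card_le_card
      intro n hn
      rw [mem_filter, mem_Icc] at hn
      rw [mem_filter, mem_range, p3]
      refine ⟨by omega, fun i _ => ?_, hn.2.2⟩
      rw [hB]
      simp only
      split_ifs with h1
      · exact hn.2.1 i h1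
      · exact mem_range.2 (Nat.mod_lt _ (by norm_num))
    have h3 : NA (L + 3) B = 8 * NA L A := by
      rw [NA_add, NA_congr hBA]
      have : ∏ i ∈ range 3, ((B (L + i)).card : ℝ) = ∏ i ∈ range 3, (2 : ℝ) := by
        apply prod_congr rfl
        intro i hi
        rw [hBc i (mem_range.1 hi)]
        norm_num
      rw [this, prod_const, card_range]
      ring
    calc (((Icc (N / 2 + 1) N).filter (fun q => (∀ i < L, q / 2 ^ i % 2 ∈ A i) ∧ q ∈ R)).card : ℝ) ≤
        ND 2 (L + 3) B R := by exact_mod_cast h2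
      _ ≤ C * NA (L + 3) B / ((L + 3 : ℕ) : ℝ) ^ k := h1
      _ = 8 * C * NA L A / ((L + 3 : ℕ) : ℝ) ^ k := by rw [h3]; ring
      _ ≤ 8 * C * NA L A / (L : ℝ) ^ k := by
          apply div_le_div_of_nonneg_left (by positivity) (by positivity)
          exact pow_le_pow_left₀ hL0.le (by exact_mod_cast Nat.le_add_right L 3) k

end Pool.Agent.Y816.PD
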