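import Pool.Agent.Y816.PD.Sv
import Pool.Agent.W123.RU.PolyV
import Pool.Agent.TH977.PW.Inst

/-!
# Almost prime values of systems of polynomials at integers with restricted digits
-/

set_option autoImplicit false

namespace Pool.Agent.Y816.PD

open Polynomial Finset Filter
open Pool.Agent.H373R2.T7 Pool.Agent.H410R2.ED Pool.Agent.W123.RP Pool.Agent.W123.RU.Poly
open Pool.Agent.TH977.PW (Rough Few)

theorem exJ (E H : ℕ) (hE : 1 ≤ E) (hH : 2 ^ (4 * E) ≤ H) :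
    ∃ J : ℕ, (2 ^ 2 ^ J) ^ (4 * E) ≤ H ∧ H < (2 ^ 2 ^ J) ^ (8 * E) := by
  classical
  set P : ℕ → Prop := fun J => (2 ^ 2 ^ J) ^ (4 * E) ≤ H with hP
  have h0 : P 0 := by simpa [hP] using hH
  refine ⟨Nat.findGreatest P H, Nat.findGreatest_spec (P := P) (Nat.zero_le _) h0, ?_⟩
  by_contra hcon
  push Not at hcon
  set J := Nat.findGreatest P H with hJ
  have h1 : P (J + 1) := by
    simp only [hP]
    calc (2 ^ 2 ^ (J + 1)) ^ (4 * E) = (2 ^ 2 ^ J) ^ (8 * E) := by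
          rw [← pow_mul, ← pow_mul]
          congr 1
          ring
      _ ≤ H := hcon
  have h2 : J + 1 ≤ H := by
    have h3 : J + 1 < 2 ^ (J + 1) := Nat.lt_two_pow_self
    have h4 : 2 ^ (J + 1) < 2 ^ 2 ^ (J + 1) := Nat.lt_two_pow_self
    have h5 : 2 ^ 2 ^ (J + 1) ≤ (2 ^ 2 ^ (J + 1)) ^ (4 * E) :=
      Nat.le_self_pow (by omega) _
    have h6 : (2 ^ 2 ^ (J + 1)) ^ (4 * E) ≤ H := h1
    omega
  have h3 := Nat.le_findGreatest h2 h1
  omega

/-- the choice of the sifting limit -/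
lemma chooseJ {b E M K : ℕ} (hb : 2 ≤ b) (hE : 1 ≤ E) (hK : 16 * E * (M + 1) ≤ K / 4) :
    ∃ J : ℕ, M * (2 ^ 2 ^ J) ^ E ≤ b ^ (K / 4) ∧ 4 ≤ 2 ^ 2 ^ J ∧ b ^ K ≤ (2 ^ 2 ^ J) ^ (64 * E) ∧
      (2 ^ 2 ^ J) ^ (4 * E) ≤ b ^ (K / 4) ∧ 2 ^ J ≤ b * K := by
  have hb1 : 1 ≤ b := by omega
  have hEM : E ≤ 16 * E * (M + 1) := by nlinarith
  have h0 : 2 ^ (4 * E) ≤ b ^ (K / 4) := by
    calc 2 ^ (4 * E) ≤ 2 ^ (K / 4) := Nat.pow_le_pow_right (by norm_num) (by nlinarith)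
      _ ≤ b ^ (K / 4) := Nat.pow_le_pow_left hb _
  obtain ⟨J, hJ1, hJ2⟩ := exJ E (b ^ (K / 4)) hE h0
  obtain ⟨y, hy⟩ : ∃ y, y = 2 ^ 2 ^ J := ⟨_, rfl⟩
  rw [← hy] at hJ1 hJ2
  have hy4 : 4 ^ (M + 1) < y := by
    by_contra hcon
    push Not at hcon
    have h1 : y ^ (8 * E) ≤ (4 ^ (M + 1)) ^ (8 * E) := Nat.pow_le_pow_left hcon _
    have h2 : ((4 : ℕ) ^ (M + 1)) ^ (8 * E) = 2 ^ (16 * E * (M + 1)) := by
      rw [show (4 : ℕ) = 2 ^ 2 by norm_num, ← pow_mul, ← pow_mul]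
      congr 1
      ring
    have h3 : 2 ^ (16 * E * (M + 1)) ≤ b ^ (K / 4) :=
      (Nat.pow_le_pow_right (by norm_num) hK).trans (Nat.pow_le_pow_left hb _)
    omega
  have hM4 : M + 1 ≤ 4 ^ (M + 1) := (Nat.lt_pow_self (by norm_num)).le
  have h44 : 4 ≤ 4 ^ (M + 1) := Nat.le_self_pow (by omega) 4
  have hK4 : 1 ≤ K / 4 := by nlinarith
  refine ⟨J, ?_, ?_, ?_, ?_, ?_⟩
  · rw [← hy]
    calc M * y ^ E ≤ y * y ^ E := Nat.mul_le_mul_right _ (by omega)
      _ = y ^ (E + 1) := by rw [pow_succ, mul_comm]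
      _ ≤ y ^ (4 * E) := Nat.pow_le_pow_right (by omega) (by omega)
      _ ≤ _ := hJ1
  · rw [← hy]; omega
  · rw [← hy]
    calc b ^ K ≤ b ^ (K / 4 * 8) := Nat.pow_le_pow_right hb1 (by omega)
      _ = (b ^ (K / 4)) ^ 8 := by rw [pow_mul]
      _ ≤ (y ^ (8 * E)) ^ 8 := Nat.pow_le_pow_left hJ2.le _
      _ = y ^ (64 * E) := by rw [← pow_mul]; congr 1; ring
  · rw [← hy]; exact hJ1
  · have h1 : 2 ^ 2 ^ J ≤ 2 ^ (b * K) := by
      rw [← hy]
      calc y ≤ y ^ (4 * E) := Nat.le_self_pow (by omega) _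
        _ ≤ b ^ (K / 4) := hJ1
        _ ≤ b ^ K := Nat.pow_le_pow_right hb1 (Nat.div_le_self _ _)
        _ ≤ (2 ^ b) ^ K := Nat.pow_le_pow_left Nat.lt_two_pow_self.le _
        _ = _ := by rw [← pow_mul]
    exact (Nat.pow_le_pow_iff_right (by norm_num)).1 h1

section V

variable (Q : ℕ → ℕ → Prop)

lemma fac_mem (hadm : ∀ p : ℕ, p.Prime → nuB Q p < p) {p : ℕ} (hp : p.Prime) :
    0 < 1 - (nuB Q p : ℝ) / p ∧ 1 - (nuB Q p : ℝ) / p ≤ 1 := by
  have hp0 : (0 : ℝ) < p := by exact_mod_cast hp.pos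
  have h1 : (nuB Q p : ℝ) < p := by exact_mod_cast hadm p hp
  constructor
  · rw [sub_pos, div_lt_one hp0]
    exact h1
  · have : 0 ≤ (nuB Q p : ℝ) / p := by positivity
    linarith

lemma Pr_sub (κ b J : ℕ) : (Pr κ J).filter (fun l => ¬ l ∣ b) ⊆ pz (2 ^ 2 ^ J) := by
  intro l hl
  rw [mem_filter] at hl
  unfold Pr at hl
  rw [mem_filter, mem_range] at hl
  exact mem_pz.2 ⟨hl.1.1.le, hl.1.2.1⟩

lemma V_low (hadm : ∀ p : ℕ, p.Prime → nuB Q p < p) (κ b J : ℕ) :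
    Vq Q (2 ^ 2 ^ J) ≤ ∏ l ∈ (Pr κ J).filter (fun l => ¬ l ∣ b), (1 - (nuB Q l : ℝ) / l) := by
  unfold Vq
  rw [← prod_sdiff (Pr_sub κ b J)]
  apply mul_le_of_le_one_left
  · exact prod_nonneg fun l hl => (fac_mem Q hadm (mem_pz.1 (Pr_sub κ b J hl)).2).1.le
  · exact prod_le_one (fun l hl => (fac_mem Q hadm (mem_pz.1 (Finset.mem_sdiff.1 hl).1).2).1.le)
      (fun l hl => (fac_mem Q hadm (mem_pz.1 (Finset.mem_sdiff.1 hl).1).2).2)

lemma V_up (hadm : ∀ p : ℕ, p.Prime → nuB Q p < p) (κ b : ℕ) (hκ : 1 ≤ κ) (hb : 0 < b) : ∃ v1 : ℝ, 0 < v1 ∧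
    ∀ J : ℕ, v1 * ∏ l ∈ (Pr κ J).filter (fun l => ¬ l ∣ b), (1 - (nuB Q l : ℝ) / l) ≤
      Vq Q (2 ^ 2 ^ J) := by
  refine ⟨∏ p ∈ pz (2 * κ + b), (1 - (nuB Q p : ℝ) / p),
    prod_pos fun p hp => (fac_mem Q hadm (mem_pz.1 hp).2).1, fun J => ?_⟩
  unfold Vq
  rw [← prod_sdiff (Pr_sub κ b J)]
  apply mul_le_mul_of_nonneg_right
  · have hsub : pz (2 ^ 2 ^ J) \ (Pr κ J).filter (fun l => ¬ l ∣ b) ⊆ pz (2 * κ + b) := by
      intro p hp
      rw [Finset.mem_sdiff, mem_pz] at hp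
      obtain ⟨⟨hp1, hp2⟩, hp3⟩ := hp
      refine mem_pz.2 ⟨?_, hp2⟩
      by_contra hcon
      push Not at hcon
      apply hp3
      rw [mem_filter]
      unfold Pr
      rw [mem_filter, mem_range]
      refine ⟨⟨?_, hp2, by omega⟩, fun hd => ?_⟩
      · rcases Nat.lt_or_eq_of_le hp1 with h | h
        · exact h
        · exfalso
          rw [h] at hp2
          have h1 := hp2.eq_one_of_pow
          rw [h, h1] at hcon
          omega
      · have := Nat.le_of_dvd hb hd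
        omega
    rw [← prod_sdiff hsub]
    apply mul_le_of_le_one_left
    · exact prod_nonneg fun l hl => (fac_mem Q hadm (mem_pz.1 (Finset.mem_sdiff.1 hl).1).2).1.le
    · exact prod_le_one (fun l hl => (fac_mem Q hadm (mem_pz.1 (Finset.mem_sdiff.1 hl).1).2).1.le)
        (fun l hl => (fac_mem Q hadm (mem_pz.1 (Finset.mem_sdiff.1 hl).1).2).2)
  · exact prod_nonneg fun l hl => (fac_mem Q hadm (mem_pz.1 (Pr_sub κ b J hl)).2).1.le

end V

variable {ι : Type} [Fintype ι]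

/-- no small prime factor -/
lemma rough_of (f : ι → ℤ[X]) {y N n r1 r : ℕ} (hn : n < N) (hN : N ≤ y ^ r1) (hr : r1 ≤ r) (hr1 : 1 ≤ r)
    (hy : 1 ≤ y) (h : ∀ p : ℕ, p.Prime → p < y → ¬ Q f p n) : Rough f r n := by
  intro i p hp hd
  have h1 : y ≤ p := by
    by_contra hcon
    push Not at hcon
    exact h p hp hcon ⟨i, hd⟩
  have hr0 : (0 : ℝ) < r := by exact_mod_cast hr1
  have h2 : (n : ℝ) < (y : ℝ) ^ r := by
    have h3 : n < y ^ r := lt_of_lt_of_le hn (hN.trans (Nat.pow_le_pow_right hy hr))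
    exact_mod_cast h3
  calc (n : ℝ) ^ (1 / (r : ℝ)) < ((y : ℝ) ^ r) ^ (1 / (r : ℝ)) :=
        Real.rpow_lt_rpow (Nat.cast_nonneg _) h2 (by positivity)
    _ = y := by
        rw [← Real.rpow_natCast, ← Real.rpow_mul (Nat.cast_nonneg _), mul_one_div_cancel hr0.ne',
          Real.rpow_one]
    _ ≤ p := by exact_mod_cast h1

/-- few prime factors -/
lemma few_of (f : ι → ℤ[X]) {B D y N n r1 r : ℕ}
    (hB : ∀ i, ∀ t : ℕ, |(((f i).eval (t : ℤ) : ℤ) : ℝ)| ≤ B * (1 + (t : ℝ)) ^ D)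
    (hn : n < N) (hBN : B ≤ N) (hN : N ≤ y ^ r1) (hr : r1 * (D + 1) ≤ r)
    (hy : 3 ≤ y) (h : ∀ p : ℕ, p.Prime → p < y → ¬ Q f p n) : Few f r n := by
  intro i
  obtain ⟨v, hv⟩ : ∃ v, v = ((f i).eval (n : ℤ)).natAbs := ⟨_, rfl⟩
  rw [← hv]
  have hv0 : v ≠ 0 := by
    intro h0
    apply h 2 Nat.prime_two (by omega)
    refine ⟨i, ?_⟩
    rw [h0] at hv
    have := Int.natAbs_eq_zero.1 hv.symm
    rw [this]
    exact dvd_zero _
  have h1 : y ^ v.primeFactorsList.length ≤ v := by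
    have h2 := List.pow_card_le_prod v.primeFactorsList y (by
      intro p hp
      have hpp := Nat.prime_of_mem_primeFactorsList hp
      by_contra hcon
      push Not at hcon
      apply h p hpp hcon
      refine ⟨i, ?_⟩
      have h3 := Nat.dvd_of_mem_primeFactorsList hp
      rw [hv] at h3
      exact Int.natCast_dvd.2 h3)
    rwa [Nat.prod_primeFactorsList hv0] at h2
  have h2 : (v : ℝ) ≤ (N : ℝ) ^ (D + 1) := by
    have h3 := hB i n
    have h4 : (v : ℝ) = |(((f i).eval (n : ℤ) : ℤ) : ℝ)| := by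
      rw [hv, Nat.cast_natAbs, Int.cast_abs]
    rw [h4]
    refine h3.trans ?_
    have h5 : (1 : ℝ) + n ≤ N := by
      have : 1 + n ≤ N := by omega
      exact_mod_cast this
    have h6 : (B : ℝ) ≤ N := by exact_mod_cast hBN
    rw [pow_succ, mul_comm]
    apply mul_le_mul (pow_le_pow_left₀ (by positivity) h5 D) h6 (Nat.cast_nonneg _) (by positivity)
  have h3 : v ≤ y ^ (r1 * (D + 1)) := by
    have h4 : v ≤ N ^ (D + 1) := by exact_mod_cast h2
    refine h4.trans ?_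
    rw [pow_mul]
    exact Nat.pow_le_pow_left hN _
  have h4 := (Nat.pow_le_pow_iff_right (by omega : 1 < y)).1 (h1.trans h3)
  omega

lemma bound_all (f : ι → ℤ[X]) : ∃ B D : ℕ,
    ∀ i, ∀ t : ℕ, |(((f i).eval (t : ℤ) : ℤ) : ℝ)| ≤ B * (1 + (t : ℝ)) ^ D := by
  choose B D hBD using fun i => eval_bound (f i)
  refine ⟨∑ i, B i, ∑ i, D i, fun i t => (hBD i t).trans ?_⟩
  have h1 : ((B i : ℕ) : ℝ) ≤ ((∑ i, B i : ℕ) : ℝ) := by
    exact_mod_cast single_le_sum (f := B) (fun _ _ => Nat.zero_le _) (mem_univ i)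
  have h2 : D i ≤ ∑ i, D i := single_le_sum (f := D) (fun _ _ => Nat.zero_le _) (mem_univ i)
  have h3 : |(((t : ℕ) : ℤ) : ℝ)| = t := by
    rw [Int.cast_natCast, abs_of_nonneg (Nat.cast_nonneg _)]
  rw [h3]
  have h0 : (0 : ℝ) ≤ t := Nat.cast_nonneg _
  apply mul_le_mul h1 (pow_le_pow_right₀ (by linarith) h2) (by positivity) (Nat.cast_nonneg _)

/-- a residue class without local obstruction -/
lemma exists_class (Q' : ℕ → ℕ → Prop) (hper : ∀ p n, Q' p n ↔ Q' p (n % p))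
    (hadm : ∀ p : ℕ, p.Prime → nuB Q' p < p) (D : Finset ℕ) (hD : ∀ p ∈ D, p.Prime) :
    ∃ n0 : ℕ, ∀ p ∈ D, ¬ Q' p n0 := by
  classical
  have h1 := crt_card (fun p n => ¬ Q' p n) 1 0 one_pos D hD
    (fun l hl h => (hD l hl).one_lt.ne' (Nat.dvd_one.1 h))
  have h2 : 0 < ∏ l ∈ D, ((range l).filter (fun r => ¬ Q' l r)).card := by
    apply prod_pos
    intro p hp
    have h3 := card_filter_add_card_filter_not (s := range p) (fun r => Q' p r)
    have h4 := hadm p (hD p hp)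
    unfold nuB at h4
    rw [card_range] at h3
    have h5 : ((range p).filter (fun r => Q' p r)).card < p := by
      refine lt_of_le_of_lt (le_of_eq ?_) h4
      congr
    omega
  rw [← h1, card_pos] at h2
  obtain ⟨n0, hn0⟩ := h2
  rw [mem_filter] at hn0
  refine ⟨n0, fun p hp hq => hn0.2.2 p hp ((hper p n0).1 hq)⟩

lemma cd_eq (A : ℕ → Finset ℕ) (K : ℕ) : ((cd A 0 K : ℕ) : ℝ) = ∏ i ∈ range K, ((A i).card : ℝ) := by
  unfold cd
  push_cast
  simp

/-- **Lower bound.** -/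
theorem lower (f : ι → ℤ[X]) (hf : Sys f) :
    ∃ c : ℝ, 0 < c ∧ ∃ r0 : ℕ, 2 ≤ r0 ∧ ∀ b : ℕ, 2 ≤ b → ∃ κ : ℝ, 0 < κ ∧ ∀ᶠ K : ℕ in atTop,
      ∀ A : ℕ → Finset ℕ, (∀ i < K, A i ⊆ range b) →
      (b : ℝ) ^ K ≤ Real.exp (c * K) * ∏ i ∈ range K, ((A i).card : ℝ) →
      (∃ d ∈ A 0, ∀ p : ℕ, p.Prime → p ∣ b → ∀ i, ¬ (p : ℤ) ∣ (f i).eval (d : ℤ)) → ∀ r : ℕ, r0 ≤ r →
      ∃ S ⊆ dset b K A, (∀ n ∈ S, Rough f r n ∧ Few f r n) ∧
      κ * (∏ i ∈ range K, ((A i).card : ℝ)) / (K : ℝ) ^ Fintype.card ι ≤ (S.card : ℝ) := by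
  classical
  obtain ⟨κ0, hκ0, hQ⟩ := exists_c f hf
  obtain ⟨v, Cv, hv, hCv, hV⟩ := V_bounds f hf
  obtain ⟨c0, hc0, n1, hsv'⟩ := sv κ0 hκ0
  obtain ⟨B, D, hBD⟩ := bound_all f
  obtain ⟨k, hk⟩ : ∃ k, k = Fintype.card ι := ⟨_, rfl⟩
  rw [← hk] at hV ⊢
  obtain ⟨c, hc, hc1, hlev'⟩ := lev (n1 + k + 1)
  refine ⟨c / 2, by positivity, 64 * c0 * (D + 1) + 2, by omega, ?_⟩
  intro b hb
  have hsv := hsv' b hb
  obtain ⟨D0, hD0⟩ : ∃ D0, D0 = (range (2 * κ0 + 1)).filter (fun p => p.Prime ∧ ¬ p ∣ b) := ⟨_, rfl⟩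
  have hD0p : ∀ p ∈ D0, p.Prime := fun p hp => by
    rw [hD0, mem_filter] at hp
    exact hp.2.1
  obtain ⟨n0, hn0⟩ := exists_class (Q f) hQ.per (adm f hf) D0 hD0p
  obtain ⟨M, hM⟩ : ∃ M, M = ∏ p ∈ D0, p := ⟨_, rfl⟩
  have hMpos : 0 < M := by rw [hM]; exact prod_pos fun p hp => (hD0p p hp).pos
  have hMb : M.Coprime b := by
    rw [hM]
    apply Nat.Coprime.prod_left
    intro p hp
    have h1 := hp
    rw [hD0, mem_filter] at h1
    exact ((hD0p p hp).coprime_iff_not_dvd).2 h1.2.2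
  have hMs : ∀ p : ℕ, p.Prime → p ∣ M → p ≤ 2 * κ0 := by
    intro p hp hd
    rw [hM] at hd
    obtain ⟨q, hq, hdq⟩ := hp.prime.exists_mem_finset_dvd hd
    have h1 := (Nat.prime_dvd_prime_iff_eq hp (hD0p q hq)).1 hdq
    rw [hD0, mem_filter, mem_range] at hq
    omega
  obtain ⟨C1, hC1, hsv1⟩ := hsv M hMpos hMb hMs
  obtain ⟨C2, hC2, K0, hlev⟩ := hlev' b hb
  have hM1 : (1 : ℝ) ≤ M := by exact_mod_cast hMpos
  have hM0 : (0 : ℝ) < M := by linarith
  have hb2 : (2 : ℝ) ≤ b := by exact_mod_cast hb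
  have hb0 : (0 : ℝ) < b := by linarith
  have hlb : 0 < Real.log b := Real.log_pos (by linarith)
  obtain ⟨κ, hκ⟩ : ∃ κ : ℝ, κ = v / (4 * b * M * Real.log b ^ k) := ⟨_, rfl⟩
  have hκpos : 0 < κ := by rw [hκ]; positivity
  refine ⟨κ, hκpos, ?_⟩
  filter_upwards [eventually_ge_atTop K0, eventually_ge_atTop (4 * (16 * c0 * (M + 1))),
    eventually_ge_atTop B, tendsto_natCast_atTop_atTop.eventually_ge_atTop (2 * Real.log b / c),
    tendsto_natCast_atTop_atTop.eventually_ge_atTop (C1 * C2 * (b : ℝ) ^ n1 / κ)]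
    with K hK1 hK2 hK3 hK4 hK5
  intro A hA hprod hd r hr
  obtain ⟨d, hdA, hdcop⟩ := hd
  have hK2' : 16 * c0 * (M + 1) ≤ K / 4 := by omega
  obtain ⟨J, hJ1, hJ2, hJ3, hJ4, hJ5⟩ := chooseJ (b := b) hb hc0 hK2'
  have hKpos : 0 < K := by
    have : 0 < 16 * c0 * (M + 1) := by positivity
    omega
  have hKr : (0 : ℝ) < K := by exact_mod_cast hKpos
  -- the sets of digits
  obtain ⟨A', hA'⟩ : ∃ A' : ℕ → Finset ℕ, A' = fun i => if i = 0 then {d} else if i < K then A i else range b :=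
    ⟨_, rfl⟩
  have hne : ∀ i < K, 0 < (A i).card := by
    intro i hi
    by_contra hcon
    have h0 : (A i).card = 0 := by omega
    have h1 : ∏ i ∈ range K, ((A i).card : ℝ) = 0 :=
      prod_eq_zero (mem_range.2 hi) (by rw [h0]; simp)
    rw [h1, mul_zero] at hprod
    have : 0 < (b : ℝ) ^ K := by positivity
    linarith
  have hDS : DS b A' := by
    constructor
    · intro i
      rw [hA']
      simp only
      split_ifs with h1 h2
      · exact singleton_subset_iff.2 (hA 0 hKpos hdA)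
      · exact hA i h2
      · exact subset_rfl
    · intro i
      rw [hA']
      simp only
      split_ifs with h1 h2
      · exact singleton_nonempty d
      · exact card_pos.1 (hne i h2)
      · exact nonempty_range_iff.2 (by omega)
  have hsub : dset b K A' ⊆ dset b K A := by
    intro n hn
    unfold dset at hn ⊢
    rw [mem_filter] at hn ⊢
    refine ⟨hn.1, fun i hi => ?_⟩
    have h1 := hn.2 i hi
    rw [hA'] at h1
    simp only at h1
    split_ifs at h1 with h2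
    · subst h2
      rw [mem_singleton] at h1
      rw [h1]
      exact hdA
    · exact h1
  have hcd : (cd A 0 K : ℝ) ≤ b * cd A' 0 K := by
    obtain ⟨K', rfl⟩ : ∃ K', K = K' + 1 := ⟨K - 1, by omega⟩
    have h1 : cd A 0 (K' + 1) ≤ b * cd A' 0 (K' + 1) := by
      unfold cd
      rw [prod_range_succ', prod_range_succ', mul_comm]
      simp only [Nat.zero_add]
      have h2 : (A' 0).card = 1 := by rw [hA']; simp
      have h3 : ∏ i ∈ range K', (A (i + 1)).card = ∏ i ∈ range K', (A' (i + 1)).card := by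
        apply prod_congr rfl
        intro i hi
        rw [mem_range] at hi
        rw [hA']
        simp only
        rw [if_neg (by omega), if_pos (by omega)]
      rw [h2, mul_one, h3]
      apply Nat.mul_le_mul_right
      have := card_le_card (hA 0 hKpos)
      rwa [card_range] at this
    exact_mod_cast h1
  have hcd'0 : (0 : ℝ) < cd A' 0 K := by exact_mod_cast cd_pos hDS 0 K
  have hlo : lo b A' 0 K ≤ Real.exp (c * K) := by
    unfold lo
    rw [div_le_iff₀ hcd'0]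
    have h3 : (b : ℝ) * Real.exp (c / 2 * K) ≤ Real.exp (c * K) := by
      nth_rewrite 1 [← Real.exp_log hb0]
      rw [← Real.exp_add]
      apply Real.exp_le_exp.2
      rw [div_le_iff₀ hc] at hK4
      linarith
    rw [← cd_eq] at hprod
    calc (b : ℝ) ^ K ≤ Real.exp (c / 2 * K) * cd A 0 K := hprod
      _ ≤ Real.exp (c / 2 * K) * (b * cd A' 0 K) := mul_le_mul_of_nonneg_left hcd (Real.exp_pos _).le
      _ = ((b : ℝ) * Real.exp (c / 2 * K)) * cd A' 0 K := by ring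
      _ ≤ _ := mul_le_mul_of_nonneg_right h3 hcd'0.le
  have hH := hlev K hK1 A' hDS hlo
  have hmain := (hsv1 (Q f) hQ n0 J K A' hDS hJ1).1
  obtain ⟨S, hS⟩ : ∃ S, S = (dset b K A').filter (fun n => n % M = n0 % M ∧
    ∀ l ∈ Pr κ0 J, ¬ l ∣ b → ¬ Q f l n) := ⟨_, rfl⟩
  rw [← hS] at hmain
  refine ⟨S, ?_, ?_, ?_⟩
  · rw [hS]
    exact (filter_subset _ _).trans hsub
  · -- no prime factor below the sifting limit
    intro n hn
    have hno : ∀ p : ℕ, p.Prime → p < 2 ^ 2 ^ J → ¬ Q f p n := by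
      intro p hp hpy hq
      rw [hS, mem_filter] at hn
      obtain ⟨hn1, hn2, hn3⟩ := hn
      by_cases hpb : p ∣ b
      · unfold dset at hn1
        rw [mem_filter] at hn1
        have h1 := hn1.2 0 hKpos
        rw [hA'] at h1
        simp only [pow_zero, Nat.div_one, if_true, mem_singleton] at h1
        have h2 : n % p = d % p := by
          rw [← h1, Nat.mod_mod_of_dvd _ hpb]
        have h3 : Q f p d := by
          rw [hQ.per, ← h2, ← hQ.per]
          exact hq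
        obtain ⟨i, hi⟩ := h3
        exact hdcop p hp hpb i hi
      · by_cases hpk : p ≤ 2 * κ0
        · have hpD : p ∈ D0 := by
            rw [hD0, mem_filter, mem_range]
            exact ⟨by omega, hp, hpb⟩
          have hpM : p ∣ M := by
            rw [hM]
            exact dvd_prod_of_mem (fun p => p) hpD
          apply hn0 p hpD
          rw [hQ.per, ← Nat.mod_mod_of_dvd n0 hpM, ← hn2, Nat.mod_mod_of_dvd n hpM, ← hQ.per]
          exact hq
        · refine hn3 p ?_ hpb hq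
          unfold Pr
          rw [mem_filter, mem_range]
          exact ⟨hpy, hp, by omega⟩
    have hnK : n < b ^ K := by
      rw [hS, mem_filter] at hn
      have h1 := hn.1
      unfold dset at h1
      rw [mem_filter, mem_range] at h1
      exact h1.1
    have hBK : B ≤ b ^ K := by
      have h1 : K < b ^ K := Nat.lt_pow_self (by omega)
      omega
    have hr1 : 64 * c0 ≤ r := by
      have : 64 * c0 * (D + 1) = 64 * c0 * D + 64 * c0 := by ring
      omega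
    exact ⟨rough_of f hnK hJ3 hr1 (by omega) (by omega) hno,
      few_of f hBD hnK hBK hJ3 (by omega) (by omega) hno⟩
  · -- the count
    refine le_trans ?_ hmain
    have hy3 : 3 ≤ 2 ^ 2 ^ J := by omega
    have h1 := (hV (2 ^ 2 ^ J) hy3).1
    have h2 := V_low (Q f) (adm f hf) κ0 b J
    have hlogy : Real.log ((2 ^ 2 ^ J : ℕ) : ℝ) ≤ K * Real.log b := by
      have h3 : 2 ^ 2 ^ J ≤ b ^ K := by
        calc 2 ^ 2 ^ J ≤ (2 ^ 2 ^ J) ^ (4 * c0) := Nat.le_self_pow (by omega) _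
          _ ≤ b ^ (K / 4) := hJ4
          _ ≤ b ^ K := Nat.pow_le_pow_right (by omega) (Nat.div_le_self _ _)
      have h4 : ((2 ^ 2 ^ J : ℕ) : ℝ) ≤ (b : ℝ) ^ K := by exact_mod_cast h3
      rw [← Real.log_pow]
      exact Real.log_le_log (by positivity) h4
    have hlogy0 : 0 < Real.log ((2 ^ 2 ^ J : ℕ) : ℝ) :=
      Real.log_pos (by exact_mod_cast (by omega : 1 < 2 ^ 2 ^ J))
    have h5 : v / (K * Real.log b) ^ k ≤
        ∏ l ∈ (Pr κ0 J).filter (fun l => ¬ l ∣ b), (1 - (nuB (Q f) l : ℝ) / l) := by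
      refine le_trans ?_ (h1.trans h2)
      apply div_le_div_of_nonneg_left hv.le (by positivity)
      exact pow_le_pow_left₀ hlogy0.le hlogy k
    have h6 : 2 * (κ * cd A 0 K / (K : ℝ) ^ k) ≤ (cd A' 0 K : ℝ) / M / 2 *
        (∏ l ∈ (Pr κ0 J).filter (fun l => ¬ l ∣ b), (1 - (nuB (Q f) l : ℝ) / l)) := by
      calc 2 * (κ * cd A 0 K / (K : ℝ) ^ k) ≤ 2 * (κ * (b * cd A' 0 K) / (K : ℝ) ^ k) := by gcongr
        _ = (cd A' 0 K : ℝ) / M / 2 * (v / (K * Real.log b) ^ k) := by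
            rw [hκ, mul_pow]
            field_simp
            ring
        _ ≤ _ := mul_le_mul_of_nonneg_left h5 (by positivity)
    have h7 : C1 * cd A' 0 K * ((2 : ℝ) ^ J) ^ n1 * HH b K A' ≤ κ * cd A 0 K / (K : ℝ) ^ k := by
      have h8 : ((2 : ℝ) ^ J) ≤ b * K := by exact_mod_cast hJ5
      have h9 : (cd A' 0 K : ℝ) ≤ cd A 0 K := by
        have h10 : (dset b K A').card ≤ (dset b K A).card := card_le_card hsub
        rw [card_dset K (by omega) (fun i _ => hDS.sub i), card_dset K (by omega) hA] at h10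
        exact_mod_cast h10
      calc C1 * cd A' 0 K * ((2 : ℝ) ^ J) ^ n1 * HH b K A' ≤
          C1 * cd A 0 K * (b * K) ^ n1 * (C2 / (K : ℝ) ^ (n1 + k + 1)) := by
            have := HH_nonneg b K A'
            gcongr
        _ = (C1 * C2 * (b : ℝ) ^ n1) * (cd A 0 K / (K : ℝ) ^ k) / K := by
            rw [mul_pow, pow_add, pow_add, pow_one]
            field_simp
        _ ≤ (κ * K) * (cd A 0 K / (K : ℝ) ^ k) / K := by
            rw [div_le_iff₀ hκpos] at hK5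
            apply div_le_div_of_nonneg_right _ hKr.le
            apply mul_le_mul_of_nonneg_right _ (by positivity)
            linarith
        _ = κ * cd A 0 K / (K : ℝ) ^ k := by field_simp
    rw [← cd_eq]
    linarith

end Pool.Agent.Y816.PD
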