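import Mathlib
import Pool.Agent.Helper112.LS

/-!
# Integers with restricted digits: Fourier transform and large sieve

`dset b K A` is the set of the `n < b ^ K` whose base `b` digit at the place `i` belongs to `A i`, for all
`i < K`. `G b A u J` is the normalised Fourier transform of the block of the places `u, …, u + J - 1`.
-/

set_option autoImplicit false

namespace Pool.Agent.Y816.PD

open Finset Pool.Agent.Helper112

/-- the integers below `b ^ K` whose base `b` digit at the place `i` belongs to `A i`, all `i < K` -/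
def dset (b K : ℕ) (A : ℕ → Finset ℕ) : Finset ℕ :=
  (range (b ^ K)).filter (fun n => ∀ i < K, n / b ^ i % b ∈ A i)

/-- the number of choices of the digits at the places `u, …, u + J - 1` -/
def cd (A : ℕ → Finset ℕ) (u J : ℕ) : ℕ := ∏ j ∈ range J, (A (u + j)).card

/-- nonempty sets of digits -/
structure DS (b : ℕ) (A : ℕ → Finset ℕ) : Prop where
  sub : ∀ i, A i ⊆ range b
  ne : ∀ i, (A i).Nonempty

lemma DS.shift {b : ℕ} {A : ℕ → Finset ℕ} (h : DS b A) (u : ℕ) : DS b (fun i => A (u + i)) :=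
  ⟨fun i => h.sub _, fun i => h.ne _⟩

lemma digit_low {b K i n d : ℕ} (hb : 0 < b) (hi : i < K) :
    (n + d * b ^ K) / b ^ i % b = n / b ^ i % b := by
  obtain ⟨t, rfl⟩ : ∃ t, K = i + 1 + t := ⟨K - i - 1, by omega⟩
  have h1 : n + d * b ^ (i + 1 + t) = n + (d * b ^ t * b) * b ^ i := by
    rw [pow_add, pow_add, pow_one]; ring
  rw [h1, Nat.add_mul_div_right _ _ (by positivity), Nat.add_mul_mod_self_right]

lemma digit_top {b K n d : ℕ} (hb : 0 < b) (hn : n < b ^ K) (hd : d < b) :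
    (n + d * b ^ K) / b ^ K % b = d := by
  rw [Nat.add_mul_div_right _ _ (by positivity), Nat.div_eq_of_lt hn, Nat.zero_add,
    Nat.mod_eq_of_lt hd]

lemma sum_dset_succ {M : Type*} [AddCommMonoid M] {b : ℕ} (K : ℕ) (hb : 0 < b) {A : ℕ → Finset ℕ}
    (hA : A K ⊆ range b) (F : ℕ → M) :
    ∑ n ∈ dset b (K + 1) A, F n = ∑ n ∈ dset b K A, ∑ d ∈ A K, F (n + d * b ^ K) := by
  have hbK : 0 < b ^ K := by positivity
  rw [← sum_product']
  symm
  refine sum_nbij' (fun x : ℕ × ℕ => x.1 + x.2 * b ^ K) (fun m => (m % b ^ K, m / b ^ K)) ?_ ?_ ?_ ?_ ?_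
  · rintro ⟨n, d⟩ h
    rw [mem_product] at h
    obtain ⟨h1, h2⟩ := h
    rw [dset, mem_filter, mem_range] at h1
    have hd : d < b := mem_range.1 (hA h2)
    rw [dset, mem_filter, mem_range]
    refine ⟨?_, fun i hi => ?_⟩
    · have h3 : (d + 1) * b ^ K ≤ b * b ^ K := Nat.mul_le_mul_right _ (by omega)
      have h4 : b ^ (K + 1) = b * b ^ K := by rw [pow_succ]; ring
      have h5 := h1.1
      simp only at h5 ⊢
      rw [h4]
      nlinarith
    · rcases Nat.lt_succ_iff_lt_or_eq.1 hi with h3 | h3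
      · simp only
        rw [digit_low hb h3]
        exact h1.2 i h3
      · subst h3
        simp only
        rw [digit_top hb h1.1 hd]
        exact h2
  · intro m hm
    rw [dset, mem_filter, mem_range] at hm
    have h1 : m / b ^ K < b := by
      rw [Nat.div_lt_iff_lt_mul hbK, ← pow_succ']
      exact hm.1
    have h0 := Nat.mod_add_div m (b ^ K)
    rw [mem_product]
    refine ⟨?_, ?_⟩
    · rw [dset, mem_filter, mem_range]
      refine ⟨Nat.mod_lt _ hbK, fun i hi => ?_⟩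
      have h2 := hm.2 i (by omega)
      rw [← h0, mul_comm (b ^ K) (m / b ^ K), digit_low hb hi] at h2
      exact h2
    · have h2 := hm.2 K (by omega)
      rwa [Nat.mod_eq_of_lt h1] at h2
  · rintro ⟨n, d⟩ h
    rw [mem_product] at h
    obtain ⟨h1, h2⟩ := h
    rw [dset, mem_filter, mem_range] at h1
    simp only
    rw [Nat.add_mul_mod_self_right, Nat.mod_eq_of_lt h1.1, Nat.add_mul_div_right _ _ hbK,
      Nat.div_eq_of_lt h1.1, Nat.zero_add]
  · intro m _
    simp only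
    rw [mul_comm]
    exact Nat.mod_add_div m _
  · intro x _
    rfl

lemma dset_zero (b : ℕ) (A : ℕ → Finset ℕ) : dset b 0 A = {0} := by
  unfold dset
  ext n
  simp

lemma card_dset {b : ℕ} (K : ℕ) (hb : 0 < b) {A : ℕ → Finset ℕ} (hA : ∀ i < K, A i ⊆ range b) :
    (dset b K A).card = cd A 0 K := by
  induction K with
  | zero => rw [dset_zero]; simp [cd]
  | succ K ih =>
    have h := sum_dset_succ K hb (hA K (by omega)) (fun _ => 1)
    rw [card_eq_sum_ones, h]
    simp only [sum_const, smul_eq_mul, mul_one]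
    rw [ih (fun i hi => hA i (by omega))]
    unfold cd
    rw [prod_range_succ, Nat.zero_add]

/-- normalised digit sum -/
noncomputable def ph (s : Finset ℕ) (θ : ℝ) : ℝ := ‖∑ d ∈ s, ee (d * θ)‖ / s.card

/-- the Fourier transform of the block of the places `u, …, u + J - 1` -/
noncomputable def G (b : ℕ) (A : ℕ → Finset ℕ) (u J : ℕ) (θ : ℝ) : ℝ :=
  ∏ j ∈ range J, ph (A (u + j)) ((b : ℝ) ^ (u + j) * θ)

lemma ph_nonneg (s : Finset ℕ) (θ : ℝ) : 0 ≤ ph s θ := by unfold ph; positivity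

lemma ph_le_one (s : Finset ℕ) (θ : ℝ) : ph s θ ≤ 1 := by
  unfold ph
  rcases s.eq_empty_or_nonempty with h | h
  · subst h; simp
  · rw [div_le_one (by exact_mod_cast h.card_pos)]
    calc ‖∑ d ∈ s, ee (d * θ)‖ ≤ ∑ d ∈ s, ‖ee (d * θ)‖ := norm_sum_le _ _
      _ = s.card := by simp [ls_norm_ee]

lemma norm_eq (s : Finset ℕ) (θ : ℝ) : ‖∑ d ∈ s, ee (d * θ)‖ = s.card * ph s θ := by
  unfold ph
  rcases s.eq_empty_or_nonempty with h | h
  · subst h; simp
  · have : (s.card : ℝ) ≠ 0 := by exact_mod_cast h.card_pos.ne'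
    rw [mul_comm, div_mul_cancel₀ _ this]

lemma ph_add_int (s : Finset ℕ) (θ : ℝ) (k : ℤ) : ph s (θ + k) = ph s θ := by
  unfold ph
  congr 2
  apply sum_congr rfl
  intro m _
  have : ((m : ℝ) * (θ + k)) = m * θ + ((m * k : ℤ) : ℝ) := by push_cast; ring
  rw [this, ls_ee_add, ls_ee_int, mul_one]

lemma G_nonneg (b : ℕ) (A : ℕ → Finset ℕ) (u J : ℕ) (θ : ℝ) : 0 ≤ G b A u J θ :=
  prod_nonneg fun _ _ => ph_nonneg _ _

lemma G_le_one (b : ℕ) (A : ℕ → Finset ℕ) (u J : ℕ) (θ : ℝ) : G b A u J θ ≤ 1 :=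
  prod_le_one (fun _ _ => ph_nonneg _ _) (fun _ _ => ph_le_one _ _)

lemma G_add (b : ℕ) (A : ℕ → Finset ℕ) (u J J' : ℕ) (θ : ℝ) :
    G b A u (J + J') θ = G b A u J θ * G b A (u + J) J' θ := by
  unfold G
  rw [prod_range_add]
  simp only [add_assoc]

lemma G_shift (b : ℕ) (A : ℕ → Finset ℕ) (u J : ℕ) (θ : ℝ) :
    G b A u J θ = G b (fun i => A (u + i)) 0 J ((b : ℝ) ^ u * θ) := by
  unfold G
  apply prod_congr rfl
  intro j _
  simp only [Nat.zero_add]
  rw [pow_add]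
  congr 1
  ring

lemma G_add_int (b : ℕ) (A : ℕ → Finset ℕ) (u J : ℕ) (θ : ℝ) (k : ℤ) :
    G b A u J (θ + k) = G b A u J θ := by
  unfold G
  apply prod_congr rfl
  intro j _
  have : (b : ℝ) ^ (u + j) * (θ + k) = (b : ℝ) ^ (u + j) * θ + (((b : ℤ) ^ (u + j) * k : ℤ) : ℝ) := by
    push_cast; ring
  rw [this, ph_add_int]

lemma cd_shift (A : ℕ → Finset ℕ) (u J : ℕ) : cd A u J = cd (fun i => A (u + i)) 0 J := by
  unfold cd
  simp

lemma cd_add (A : ℕ → Finset ℕ) (u J J' : ℕ) : cd A u (J + J') = cd A u J * cd A (u + J) J' := by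
  unfold cd
  rw [prod_range_add]
  simp only [add_assoc]

lemma cd_pos {b : ℕ} {A : ℕ → Finset ℕ} (h : DS b A) (u J : ℕ) : 0 < cd A u J :=
  prod_pos fun _ _ => (h.ne _).card_pos

/-- the Fourier transform of the set -/
lemma fourier {b : ℕ} (K : ℕ) (hb : 0 < b) {A : ℕ → Finset ℕ} (hA : ∀ i < K, A i ⊆ range b) (θ : ℝ) :
    ∑ n ∈ dset b K A, ee (n * θ) = ∏ i ∈ range K, ∑ d ∈ A i, ee (d * ((b : ℝ) ^ i * θ)) := by
  induction K with
  | zero => rw [dset_zero]; simp [ls_ee_zero]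
  | succ K ih =>
    rw [sum_dset_succ K hb (hA K (by omega)), prod_range_succ, ← ih (fun i hi => hA i (by omega)),
      sum_mul_sum]
    apply sum_congr rfl
    intro n _
    apply sum_congr rfl
    intro d _
    rw [← ls_ee_add]
    congr 1
    push_cast
    ring

lemma norm_fourier {b : ℕ} (K : ℕ) (hb : 0 < b) {A : ℕ → Finset ℕ} (hA : ∀ i < K, A i ⊆ range b)
    (θ : ℝ) : ‖∑ n ∈ dset b K A, ee (n * θ)‖ = cd A 0 K * G b A 0 K θ := by
  rw [fourier K hb hA, norm_prod]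
  unfold cd G
  push_cast
  rw [← prod_mul_distrib]
  apply prod_congr rfl
  intro i _
  rw [norm_eq, Nat.zero_add]

/-- the large sieve for the first block -/
lemma l2 {b : ℕ} (J F : ℕ) (hb : 0 < b) {A : ℕ → Finset ℕ} (hA : DS b A) :
    ∑ f ∈ Icc 1 F, ∑ a ∈ (range f).filter (fun a => a.Coprime f), G b A 0 J ((a : ℝ) / f) ^ 2 ≤
      6 * ((b : ℝ) ^ J + (F : ℝ) ^ 2) / cd A 0 J := by
  have hc : (0 : ℝ) < cd A 0 J := by exact_mod_cast cd_pos hA 0 J
  have h := additive_large_sieve (b ^ J) F (fun n => if n - 1 ∈ dset b J A then 1 else 0)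
  have hIcc : ∀ g : ℕ → ℂ, ∑ n ∈ Icc 1 (b ^ J), (if n - 1 ∈ dset b J A then (1 : ℂ) else 0) * g n =
      ∑ m ∈ dset b J A, g (m + 1) := by
    intro g
    have h1 : Icc 1 (b ^ J) = (range (b ^ J)).image (· + 1) := by
      ext x
      simp only [mem_Icc, mem_image, mem_range]
      constructor
      · rintro ⟨h1, h2⟩
        exact ⟨x - 1, by omega, by omega⟩
      · rintro ⟨y, hy, rfl⟩
        omega
    rw [h1, sum_image (fun x _ y _ hxy => by simpa using hxy)]
    simp only [Nat.add_sub_cancel, ite_mul, one_mul, zero_mul]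
    rw [← sum_filter]
    apply sum_congr _ (fun _ _ => rfl)
    ext x
    rw [mem_filter]
    constructor
    · exact fun hx => hx.2
    · intro hx
      refine ⟨?_, hx⟩
      rw [dset, mem_filter] at hx
      exact hx.1
  have hR : ∑ n ∈ Icc 1 (b ^ J), ‖(if n - 1 ∈ dset b J A then (1 : ℂ) else 0)‖ ^ 2 = cd A 0 J := by
    have h1 := hIcc (fun _ => 1)
    have h2 : ∀ n : ℕ, ‖(if n - 1 ∈ dset b J A then (1 : ℂ) else 0)‖ ^ 2 =
        if n - 1 ∈ dset b J A then (1 : ℝ) else 0 := by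
      intro n
      split_ifs <;> simp
    simp only [h2]
    simp only [mul_one, sum_const, nsmul_eq_mul] at h1
    have h3 : ((∑ n ∈ Icc 1 (b ^ J), if n - 1 ∈ dset b J A then (1 : ℝ) else 0 : ℝ) : ℂ) =
        ((cd A 0 J : ℝ) : ℂ) := by
      push_cast
      rw [← card_dset J hb (fun i _ => hA.sub i), ← h1]
      apply sum_congr rfl
      intro n _
      split_ifs <;> simp
    exact_mod_cast h3
  rw [hR] at h
  have hL : ∀ f a : ℕ, ‖∑ n ∈ Icc 1 (b ^ J), (if n - 1 ∈ dset b J A then (1 : ℂ) else 0) *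
      ee ((n : ℝ) * a / f)‖ ^ 2 = (cd A 0 J : ℝ) ^ 2 * G b A 0 J ((a : ℝ) / f) ^ 2 := by
    intro f a
    rw [hIcc (fun n => ee ((n : ℝ) * a / f))]
    have h1 : ∀ m : ℕ, ee (((m + 1 : ℕ) : ℝ) * a / f) = ee ((a : ℝ) / f) * ee (m * ((a : ℝ) / f)) := by
      intro m
      rw [← ls_ee_add]
      congr 1
      push_cast
      ring
    simp only [h1]
    rw [← mul_sum, norm_mul, ls_norm_ee, one_mul, norm_fourier J hb (fun i _ => hA.sub i), mul_pow]
  simp only [hL] at h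
  simp only [← mul_sum] at h
  rw [le_div_iff₀ hc]
  push_cast at h
  have h2 : (cd A 0 J : ℝ) * ((∑ f ∈ Icc 1 F, ∑ a ∈ (range f).filter (fun a => a.Coprime f),
      G b A 0 J ((a : ℝ) / f) ^ 2) * cd A 0 J) ≤ (cd A 0 J : ℝ) * (6 * ((b : ℝ) ^ J + (F : ℝ) ^ 2)) := by
    calc _ = (cd A 0 J : ℝ) ^ 2 * ∑ f ∈ Icc 1 F, ∑ a ∈ (range f).filter (fun a => a.Coprime f),
          G b A 0 J ((a : ℝ) / f) ^ 2 := by ring
      _ ≤ _ := h
      _ = _ := by ring
  exact le_of_mul_le_mul_left h2 hc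

/-! ### dilations -/

/-- an injective self-map of a finite set does not change sums -/
lemma sum_perm_image {s : Finset ℕ} (g : ℕ → ℕ) (hmaps : ∀ a ∈ s, g a ∈ s)
    (hinj : ∀ a ∈ s, ∀ b ∈ s, g a = g b → a = b) (F : ℕ → ℝ) :
    ∑ a ∈ s, F (g a) = ∑ a ∈ s, F a := by
  have himg : s.image g = s :=
    eq_of_subset_of_card_le (image_subset_iff.2 hmaps)
      (card_image_of_injOn (fun a ha b hb h => hinj a ha b hb h)).ge
  conv_rhs => rw [← himg]
  rw [sum_image (fun a ha b hb h => hinj a ha b hb h)]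

lemma dilate_step {q : ℕ} (h0 : 0 < q) (b k a : ℕ) (f : ℝ → ℝ) (hf : ∀ (x : ℝ) (n : ℤ), f (x + n) = f x) :
    f ((b : ℝ) ^ k * ((a : ℝ) / q)) = f (((((b ^ k * a) % q : ℕ)) : ℝ) / q) := by
  have hq0 : (q : ℝ) ≠ 0 := by exact_mod_cast h0.ne'
  have h1 := Nat.div_add_mod (b ^ k * a) q
  generalize hr : (b ^ k * a) % q = r at *
  generalize hd : (b ^ k * a) / q = d at *
  have h3 : ((q : ℝ) * d + r) = (b : ℝ) ^ k * a := by exact_mod_cast h1
  have h2 : (b : ℝ) ^ k * ((a : ℝ) / q) = (r : ℝ) / q + ((d : ℤ) : ℝ) := by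
    rw [← mul_div_assoc, ← h3]
    field_simp
    push_cast
    ring
  rw [h2, hf]

/-- multiplication by `b ^ k` permutes the reduced residues -/
lemma dilate {q b : ℕ} (hq : q.Coprime b) (k : ℕ) (f : ℝ → ℝ) (hf : ∀ (x : ℝ) (n : ℤ), f (x + n) = f x) :
    ∑ a ∈ (range q).filter (fun a => a.Coprime q), f ((b : ℝ) ^ k * ((a : ℝ) / q)) =
      ∑ a ∈ (range q).filter (fun a => a.Coprime q), f ((a : ℝ) / q) := by
  rcases Nat.eq_zero_or_pos q with h0 | h0
  · subst h0; simp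
  have hcop : (b ^ k).Coprime q := (hq.symm.pow_left k)
  rw [← sum_perm_image (s := (range q).filter (fun a => a.Coprime q)) (fun a => (b ^ k * a) % q) ?_ ?_
    (fun a => f ((a : ℝ) / q))]
  · exact sum_congr rfl fun a _ => dilate_step h0 b k a f hf
  · intro a ha
    rw [mem_filter, mem_range] at ha ⊢
    refine ⟨Nat.mod_lt _ h0, ?_⟩
    have h1 : (b ^ k * a).Coprime q := Nat.Coprime.mul_left hcop ha.2
    have h2 : Nat.gcd ((b ^ k * a) % q) q = Nat.gcd q (b ^ k * a) := (Nat.gcd_rec _ _).symm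
    rw [Nat.Coprime, h2, Nat.gcd_comm]
    exact h1
  · intro a ha c hc hac
    rw [mem_filter, mem_range] at ha hc
    have h1 : b ^ k * a ≡ b ^ k * c [MOD q] := hac
    have h2 : a ≡ c [MOD q] := Nat.ModEq.cancel_left_of_coprime (by rw [Nat.gcd_comm]; exact hcop) h1
    rwa [Nat.ModEq, Nat.mod_eq_of_lt ha.1, Nat.mod_eq_of_lt hc.1] at h2

/-- sum over the reduced fractions with denominator `1 ≤ f ≤ F` coprime to `b` -/
noncomputable def pts (b F : ℕ) (h : ℝ → ℝ) : ℝ :=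
  ∑ f ∈ (Icc 1 F).filter (fun f => f.Coprime b),
    ∑ a ∈ (range f).filter (fun a => a.Coprime f), h ((a : ℝ) / f)

/-- the large sieve for a block -/
lemma l2_block {b : ℕ} (u J F : ℕ) (hb : 0 < b) {A : ℕ → Finset ℕ} (hA : DS b A) :
    pts b F (fun θ => G b A u J θ ^ 2) ≤ 6 * ((b : ℝ) ^ J + (F : ℝ) ^ 2) / cd A u J := by
  unfold pts
  have h1 : ∀ f ∈ (Icc 1 F).filter (fun f => f.Coprime b),
      ∑ a ∈ (range f).filter (fun a => a.Coprime f), G b A u J ((a : ℝ) / f) ^ 2 =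
      ∑ a ∈ (range f).filter (fun a => a.Coprime f), G b (fun i => A (u + i)) 0 J ((a : ℝ) / f) ^ 2 := by
    intro f hf
    rw [mem_filter] at hf
    rw [← dilate hf.2 u (fun θ => G b (fun i => A (u + i)) 0 J θ ^ 2)
      (fun x n => by rw [G_add_int])]
    apply sum_congr rfl
    intro a _
    rw [G_shift]
  rw [sum_congr rfl h1, cd_shift]
  refine le_trans ?_ (l2 J F hb (hA.shift u))
  apply sum_le_sum_of_subset_of_nonneg (filter_subset _ _)
  intro f _ _
  exact sum_nonneg fun a _ => sq_nonneg _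

end Pool.Agent.Y816.PD
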