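import Pool.Agent.Y816.PD.Up

/-!
# Almost prime values at integers with restricted digits: final forms
-/

set_option autoImplicit false

namespace Pool.Agent.Y816.PD

open Polynomial Finset Filter
open Pool.Agent.W123.RU.Poly Pool.Agent.W182.PW
open Pool.Agent.TH977.PW (Rough Few sys_lin rough_lin few_lin)

open Classical in
/-- the number of the `n < b ^ K` in `S` whose base `b` digit at the place `i` belongs to `A i` for all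
`i < K` -/
noncomputable def ND (b K : ℕ) (A : ℕ → Finset ℕ) (S : Set ℕ) : ℕ :=
  ((range (b ^ K)).filter (fun n => (∀ i < K, n / b ^ i % b ∈ A i) ∧ n ∈ S)).card

/-- the number of choices of the digits -/
noncomputable def NA (K : ℕ) (A : ℕ → Finset ℕ) : ℝ := ∏ i ∈ range K, ((A i).card : ℝ)

/-- **Main theorem.** -/
theorem digits {ι : Type} [Fintype ι] (f : ι → ℤ[X]) (hf : Sys f) (R Al : ℕ → Set ℕ) (k : ℕ)
    (hk : Fintype.card ι = k) (hR : ∀ r m : ℕ, 2 ≤ r → m ∈ R r → Rough f r m)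
    (hAl : ∀ r m : ℕ, 2 ≤ r → Rough f r m → Few f r m → m ∈ Al r)
    (L : ℕ → ℕ → Prop) (hL : ∀ b d : ℕ, 2 ≤ b → L b d → ∀ p : ℕ, p.Prime → p ∣ b →
      ∀ i, ¬ (p : ℤ) ∣ (f i).eval (d : ℤ)) :
    ∃ c : ℝ, 0 < c ∧ ∃ r0 : ℕ, 2 ≤ r0 ∧ ∀ r : ℕ, r0 ≤ r → ∀ b : ℕ, 2 ≤ b → ∃ κ C : ℝ, 0 < κ ∧ 0 < C ∧
      ∀ᶠ K : ℕ in atTop, ∀ A : ℕ → Finset ℕ, (∀ i < K, A i ⊆ range b) →
        (b : ℝ) ^ K ≤ Real.exp (c * K) * NA K A →
        ((∃ d ∈ A 0, L b d) → κ * NA K A / (K : ℝ) ^ k ≤ ND b K A (Al r)) ∧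
        (ND b K A (R r) : ℝ) ≤ C * NA K A / (K : ℝ) ^ k := by
  classical
  subst hk
  obtain ⟨c1, hc1, r0, hr0, hlow⟩ := lower f hf
  obtain ⟨c2, hc2, hup⟩ := upper f hf
  refine ⟨min c1 c2, lt_min hc1 hc2, r0, hr0, fun r hr b hb => ?_⟩
  obtain ⟨κ, hκ, h1⟩ := hlow b hb
  obtain ⟨C, hC, h2⟩ := hup b hb r (by omega)
  refine ⟨κ, C, hκ, hC, ?_⟩
  filter_upwards [h1, h2] with K hK1 hK2 A hA hprod
  unfold NA at hprod ⊢
  have hP0 : 0 ≤ ∏ i ∈ range K, ((A i).card : ℝ) := prod_nonneg fun i _ => Nat.cast_nonneg _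
  constructor
  · rintro ⟨d, hd, hLd⟩
    have hp1 : (b : ℝ) ^ K ≤ Real.exp (c1 * K) * ∏ i ∈ range K, ((A i).card : ℝ) := by
      refine hprod.trans (mul_le_mul_of_nonneg_right ?_ hP0)
      apply Real.exp_le_exp.2
      exact mul_le_mul_of_nonneg_right (min_le_left _ _) (Nat.cast_nonneg _)
    obtain ⟨S, hS1, hS2, hS3⟩ := hK1 A hA hp1 ⟨d, hd, hL b d hb hLd⟩ r hr
    refine hS3.trans ?_
    unfold ND
    have h3 : S ⊆ (range (b ^ K)).filter (fun n => (∀ i < K, n / b ^ i % b ∈ A i) ∧ n ∈ Al r) := by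
      intro n hn
      have h4 := hS1 hn
      unfold dset at h4
      rw [mem_filter] at h4 ⊢
      exact ⟨h4.1, h4.2, hAl r n (hr0.trans hr) (hS2 n hn).1 (hS2 n hn).2⟩
    exact_mod_cast card_le_card h3
  · have hp2 : (b : ℝ) ^ K ≤ Real.exp (c2 * K) * ∏ i ∈ range K, ((A i).card : ℝ) := by
      refine hprod.trans (mul_le_mul_of_nonneg_right ?_ hP0)
      apply Real.exp_le_exp.2
      exact mul_le_mul_of_nonneg_right (min_le_right _ _) (Nat.cast_nonneg _)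
    have h4 := hK2 A hA hp2 ((range (b ^ K)).filter (fun n => (∀ i < K, n / b ^ i % b ∈ A i) ∧ n ∈ R r))
      (by
        intro n hn
        unfold dset
        rw [mem_filter] at hn ⊢
        exact ⟨hn.1, hn.2.1⟩) (by
        intro n hn
        rw [mem_filter] at hn
        exact hR r n (hr0.trans hr) hn.2.2)
    exact h4

/-- linear forms -/
theorem digits_lin {ι : Type} [Fintype ι] (a : ι → ℕ) (e : ι → ℤ) (ha : ∀ i, 0 < a i)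
    (hab : ∀ i, IsCoprime (a i : ℤ) (e i)) (hinj : ∀ i j, a i = a j → e i = e j → i = j)
    (hadm : ∀ p : ℕ, p.Prime → ∃ m : ℕ, ∀ i, ¬ (p : ℤ) ∣ (a i : ℤ) * m + e i)
    (R Al : ℕ → Set ℕ) (k : ℕ) (hk : Fintype.card ι = k)
    (hR : ∀ r m : ℕ, 2 ≤ r → m ∈ R r → ∀ i, ∀ p : ℕ, p.Prime → (p : ℤ) ∣ (a i : ℤ) * m + e i →
      (m : ℝ) ^ (1 / (r : ℝ)) < (p : ℝ))
    (hAl : ∀ r m : ℕ, 2 ≤ r → (∀ i, ∀ p : ℕ, p.Prime → (p : ℤ) ∣ (a i : ℤ) * m + e i →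
      (m : ℝ) ^ (1 / (r : ℝ)) < (p : ℝ)) →
      (∀ i, ((a i : ℤ) * m + e i).natAbs.primeFactorsList.length ≤ r) → m ∈ Al r)
    (L : ℕ → ℕ → Prop) (hL : ∀ b d : ℕ, 2 ≤ b → L b d → ∀ p : ℕ, p.Prime → p ∣ b →
      ∀ i, ¬ (p : ℤ) ∣ (a i : ℤ) * d + e i) :
    ∃ c : ℝ, 0 < c ∧ ∃ r0 : ℕ, 2 ≤ r0 ∧ ∀ r : ℕ, r0 ≤ r → ∀ b : ℕ, 2 ≤ b → ∃ κ C : ℝ, 0 < κ ∧ 0 < C ∧
      ∀ᶠ K : ℕ in atTop, ∀ A : ℕ → Finset ℕ, (∀ i < K, A i ⊆ range b) →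
        (b : ℝ) ^ K ≤ Real.exp (c * K) * NA K A →
        ((∃ d ∈ A 0, L b d) → κ * NA K A / (K : ℝ) ^ k ≤ ND b K A (Al r)) ∧
        (ND b K A (R r) : ℝ) ≤ C * NA K A / (K : ℝ) ^ k :=
  digits (fun i => lin (a i) (e i)) (sys_lin a e ha hab hinj hadm) R Al k hk
    (fun r m h2r h => (rough_lin a e r m).2 (hR r m h2r h))
    (fun r m h2r h1 h2 => hAl r m h2r ((rough_lin a e r m).1 h1) ((few_lin a e r m).1 h2)) L
    (fun b d hb h p hp hpb i => by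
      rw [lin_eval]
      exact hL b d hb h p hp hpb i)

/-- tuples `n + h`, `h ∈ H` -/
theorem digits_tuple (H : Finset ℕ) (hadm : ∀ p : ℕ, p.Prime → ∃ m : ℕ, ∀ h ∈ H, ¬ p ∣ m + h)
    (k : ℕ) (hk : H.card = k) :
    ∃ c : ℝ, 0 < c ∧ ∃ r0 : ℕ, 2 ≤ r0 ∧ ∀ r : ℕ, r0 ≤ r → ∀ b : ℕ, 2 ≤ b → ∃ κ C : ℝ, 0 < κ ∧ 0 < C ∧
      ∀ᶠ K : ℕ in atTop, ∀ A : ℕ → Finset ℕ, (∀ i < K, A i ⊆ range b) →
        (b : ℝ) ^ K ≤ Real.exp (c * K) * NA K A →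
        ((∃ d ∈ A 0, ∀ h ∈ H, (d + h).Coprime b) → κ * NA K A / (K : ℝ) ^ k ≤
          ND b K A {n | ∀ h ∈ H, (∀ p : ℕ, p.Prime → p ∣ n + h → (n : ℝ) ^ (1 / (r : ℝ)) < (p : ℝ)) ∧
            (n + h).primeFactorsList.length ≤ r}) ∧
        (ND b K A {n | ∀ h ∈ H, ∀ p : ℕ, p.Prime → p ∣ n + h → (n : ℝ) ^ (1 / (r : ℝ)) < (p : ℝ)} : ℝ) ≤
          C * NA K A / (K : ℝ) ^ k := by
  have hcast : ∀ (t h : ℕ), ((1 : ℕ) : ℤ) * (t : ℤ) + ((h : ℕ) : ℤ) = ((t + h : ℕ) : ℤ) := by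
    intro t h
    push_cast
    ring
  exact digits_lin (fun _ : {x // x ∈ H} => 1)
    (fun i : {x // x ∈ H} => ((i.1 : ℕ) : ℤ)) (fun _ => one_pos)
    (fun i => by rw [Nat.cast_one]; exact isCoprime_one_left)
    (fun i j _ hij => Subtype.ext (by exact_mod_cast hij))
    (fun p hp => by
      obtain ⟨m, hm⟩ := hadm p hp
      refine ⟨m, fun i hi => hm i.1 i.2 ?_⟩
      rw [hcast, Int.natCast_dvd_natCast] at hi
      exact hi)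
    (fun r => {n | ∀ h ∈ H, ∀ p : ℕ, p.Prime → p ∣ n + h → (n : ℝ) ^ (1 / (r : ℝ)) < (p : ℝ)})
    (fun r => {n | ∀ h ∈ H, (∀ p : ℕ, p.Prime → p ∣ n + h → (n : ℝ) ^ (1 / (r : ℝ)) < (p : ℝ)) ∧
            (n + h).primeFactorsList.length ≤ r}) k (by rw [Fintype.card_coe]; exact hk)
    (fun r m hr hm i p hp hd => hm i.1 i.2 p hp (by
      rw [hcast, Int.natCast_dvd_natCast] at hd
      exact hd))
    (fun r m hr h1 h2 => fun h hh => ⟨fun p hp hd => h1 ⟨h, hh⟩ p hp (by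
      rw [hcast, Int.natCast_dvd_natCast]
      exact hd), by
      have := h2 ⟨h, hh⟩
      rw [hcast, Int.natAbs_natCast] at this
      exact this⟩)
    (fun b d => ∀ h ∈ H, (d + h).Coprime b)
    (fun b d hb h p hp hpb i hd => by
      rw [hcast, Int.natCast_dvd_natCast] at hd
      have h1 := h i.1 i.2
      have h2 := Nat.dvd_gcd hd hpb
      rw [h1] at h2
      exact hp.one_lt.ne' (Nat.dvd_one.1 h2))

end Pool.Agent.Y816.PD
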