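import Pool.Agent.Y816.PD.Inst

/-!
# Almost prime values at integers with restricted digits: quadratic polynomials, chains
-/

set_option autoImplicit false

namespace Pool.Agent.Y816.PD

open Polynomial Finset Filter
open Pool.Agent.W123.RU.Poly Pool.Agent.W182.PW
open Pool.Agent.TH977.PW (Rough Few sys_lin rough_lin few_lin)
open Pool.Agent.TH464.PW (quad quad_irr quad_deg quad_lead quad_eval)

/-- one quadratic polynomial -/
theorem digits_quad (a e c : ℤ) (ha : 0 < a)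
    (hg : ∀ p : ℕ, p.Prime → ¬ ((p : ℤ) ∣ a ∧ (p : ℤ) ∣ e ∧ (p : ℤ) ∣ c))
    (hD : ¬ IsSquare (e ^ 2 - 4 * a * c))
    (hadm : ∀ p : ℕ, p.Prime → ∃ m : ℕ, ¬ (p : ℤ) ∣ a * (m : ℤ) ^ 2 + e * m + c)
    (R Al : ℕ → Set ℕ)
    (hR : ∀ r m : ℕ, 2 ≤ r → m ∈ R r → ∀ p : ℕ, p.Prime → (p : ℤ) ∣ a * (m : ℤ) ^ 2 + e * m + c →
      (m : ℝ) ^ (1 / (r : ℝ)) < (p : ℝ))
    (hAl : ∀ r m : ℕ, 2 ≤ r → (∀ p : ℕ, p.Prime → (p : ℤ) ∣ a * (m : ℤ) ^ 2 + e * m + c →
      (m : ℝ) ^ (1 / (r : ℝ)) < (p : ℝ)) →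
      (a * (m : ℤ) ^ 2 + e * m + c).natAbs.primeFactorsList.length ≤ r → m ∈ Al r)
    (L : ℕ → ℕ → Prop) (hL : ∀ b d : ℕ, 2 ≤ b → L b d → ∀ p : ℕ, p.Prime → p ∣ b →
      ¬ (p : ℤ) ∣ a * (d : ℤ) ^ 2 + e * d + c) :
    ∃ c : ℝ, 0 < c ∧ ∃ r0 : ℕ, 2 ≤ r0 ∧ ∀ r : ℕ, r0 ≤ r → ∀ b : ℕ, 2 ≤ b → ∃ κ C : ℝ, 0 < κ ∧ 0 < C ∧
      ∀ᶠ K : ℕ in atTop, ∀ A : ℕ → Finset ℕ, (∀ i < K, A i ⊆ range b) →
        (b : ℝ) ^ K ≤ Real.exp (c * K) * NA K A →
        ((∃ d ∈ A 0, L b d) → κ * NA K A / (K : ℝ) ^ 1 ≤ ND b K A (Al r)) ∧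
        (ND b K A (R r) : ℝ) ≤ C * NA K A / (K : ℝ) ^ 1 :=
  digits (fun _ : Fin 1 => quad a e c)
    { irr := fun _ => quad_irr a e c ha.ne' hg hD
      deg := fun _ => by rw [quad_deg a e c ha.ne']; norm_num
      lead := fun _ => by rw [quad_lead a e c ha.ne']; exact ha
      inj := fun _ _ _ => Subsingleton.elim _ _
      adm := fun p hp => by
        obtain ⟨m, h2⟩ := hadm p hp
        refine ⟨m, fun _ => ?_⟩
        rw [quad_eval]
        exact h2 } R Al 1 (by rw [Fintype.card_fin])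
    (fun r m h2r h => fun _ p hp hd => hR r m h2r h p hp (by
      rw [quad_eval] at hd
      exact hd))
    (fun r m h2r h1 h2 => hAl r m h2r (fun p hp hd => h1 0 p hp (by
      rw [quad_eval]
      exact hd)) (by
      have := h2 0
      rw [quad_eval] at this
      exact this)) L
    (fun b d hb h p hp hpb _ => by
      rw [quad_eval]
      exact hL b d hb h p hp hpb)

/-- `n` and one quadratic polynomial -/
theorem digits_quadX (a e c : ℤ) (ha : 0 < a)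
    (hg : ∀ p : ℕ, p.Prime → ¬ ((p : ℤ) ∣ a ∧ (p : ℤ) ∣ e ∧ (p : ℤ) ∣ c))
    (hD : ¬ IsSquare (e ^ 2 - 4 * a * c))
    (hadm : ∀ p : ℕ, p.Prime → ∃ m : ℕ, ¬ p ∣ m ∧ ¬ (p : ℤ) ∣ a * (m : ℤ) ^ 2 + e * m + c)
    (R Al : ℕ → Set ℕ)
    (hR : ∀ r m : ℕ, 2 ≤ r → m ∈ R r → (∀ p : ℕ, p.Prime → p ∣ m → (m : ℝ) ^ (1 / (r : ℝ)) < (p : ℝ)) ∧
      ∀ p : ℕ, p.Prime → (p : ℤ) ∣ a * (m : ℤ) ^ 2 + e * m + c → (m : ℝ) ^ (1 / (r : ℝ)) < (p : ℝ))
    (hAl : ∀ r m : ℕ, 2 ≤ r → (∀ p : ℕ, p.Prime → p ∣ m → (m : ℝ) ^ (1 / (r : ℝ)) < (p : ℝ)) →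
      (∀ p : ℕ, p.Prime → (p : ℤ) ∣ a * (m : ℤ) ^ 2 + e * m + c →
      (m : ℝ) ^ (1 / (r : ℝ)) < (p : ℝ)) → m.primeFactorsList.length ≤ r →
      (a * (m : ℤ) ^ 2 + e * m + c).natAbs.primeFactorsList.length ≤ r → m ∈ Al r)
    (L : ℕ → ℕ → Prop) (hL : ∀ b d : ℕ, 2 ≤ b → L b d → ∀ p : ℕ, p.Prime → p ∣ b →
      ¬ p ∣ d ∧ ¬ (p : ℤ) ∣ a * (d : ℤ) ^ 2 + e * d + c) :
    ∃ c : ℝ, 0 < c ∧ ∃ r0 : ℕ, 2 ≤ r0 ∧ ∀ r : ℕ, r0 ≤ r → ∀ b : ℕ, 2 ≤ b → ∃ κ C : ℝ, 0 < κ ∧ 0 < C ∧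
      ∀ᶠ K : ℕ in atTop, ∀ A : ℕ → Finset ℕ, (∀ i < K, A i ⊆ range b) →
        (b : ℝ) ^ K ≤ Real.exp (c * K) * NA K A →
        ((∃ d ∈ A 0, L b d) → κ * NA K A / (K : ℝ) ^ 2 ≤ ND b K A (Al r)) ∧
        (ND b K A (R r) : ℝ) ≤ C * NA K A / (K : ℝ) ^ 2 := by
  have hne : (X : ℤ[X]) ≠ quad a e c := by
    intro h
    have h1 := quad_deg a e c ha.ne'
    rw [← h, natDegree_X] at h1
    omega
  have hX : Pool.Agent.W123.RU.Poly.Sys (fun i : Bool => if i then (X : ℤ[X]) else quad a e c) := by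
    constructor
    · intro i
      cases i
      · exact quad_irr a e c ha.ne' hg hD
      · exact irreducible_X
    · intro i
      cases i
      · simp only [Bool.false_eq_true, if_false]
        rw [quad_deg a e c ha.ne']; norm_num
      · simp
    · intro i
      cases i
      · simp only [Bool.false_eq_true, if_false]
        rw [quad_lead a e c ha.ne']; exact ha
      · simp
    · intro i j hij
      cases i <;> cases j <;> simp only [Bool.false_eq_true, if_false, if_true] at hij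
      · rfl
      · exact absurd hij.symm hne
      · exact absurd hij hne
      · rfl
    · intro p hp
      obtain ⟨m, h1, h2⟩ := hadm p hp
      refine ⟨m, fun i => ?_⟩
      cases i
      · simp only [Bool.false_eq_true, if_false]
        rw [quad_eval]
        exact h2
      · simp only [if_true, eval_X]
        rw [Int.natCast_dvd_natCast]
        exact h1
  refine digits _ hX R Al 2 (by simp) ?_ ?_ L ?_
  · intro r m h2r h i p hp hd
    cases i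
    · simp only [Bool.false_eq_true, if_false] at hd
      rw [quad_eval] at hd
      exact (hR r m h2r h).2 p hp hd
    · simp only [if_true, eval_X] at hd
      rw [Int.natCast_dvd_natCast] at hd
      exact (hR r m h2r h).1 p hp hd
  · intro r m h2r h1 h2
    apply hAl r m h2r
    · intro p hp hd
      apply h1 true p hp
      simp only [if_true, eval_X]
      exact Int.natCast_dvd_natCast.2 hd
    · intro p hp hd
      apply h1 false p hp
      simp only [Bool.false_eq_true, if_false]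
      rw [quad_eval]
      exact hd
    · have := h2 true
      simp only [if_true, eval_X, Int.natAbs_natCast] at this
      exact this
    · have := h2 false
      simp only [Bool.false_eq_true, if_false] at this
      rw [quad_eval] at this
      exact this
  · intro b d hb h p hp hpb i
    cases i
    · simp only [Bool.false_eq_true, if_false]
      rw [quad_eval]
      exact (hL b d hb h p hp hpb).2
    · simp only [if_true, eval_X]
      rw [Int.natCast_dvd_natCast]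
      exact (hL b d hb h p hp hpb).1

/-- The terms of Cunningham chains, first and second kind. -/
theorem digits_chain (c : ℕ → ℕ → ℕ)
    (hc : (∀ j n, c j n = 2 ^ j * (n + 1) - 1) ∨ (∀ j n, c j n = 2 ^ j * (n - 1) + 1)) (k : ℕ) :
    ∃ c₀ : ℝ, 0 < c₀ ∧ ∃ r0 : ℕ, 2 ≤ r0 ∧ ∀ r : ℕ, r0 ≤ r → ∀ b : ℕ, 2 ≤ b → ∃ κ C : ℝ, 0 < κ ∧ 0 < C ∧
      ∀ᶠ K : ℕ in atTop, ∀ A : ℕ → Finset ℕ, (∀ i < K, A i ⊆ range b) →
        (b : ℝ) ^ K ≤ Real.exp (c₀ * K) * NA K A →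
        ((∃ d ∈ A 0, ∀ j < k, (c j (d + b)).Coprime b) → κ * NA K A / (K : ℝ) ^ k ≤
          ND b K A {n | (∀ j < k, ∀ p : ℕ, p.Prime → p ∣ c j n → (n : ℝ) ^ (1 / (r : ℝ)) < (p : ℝ)) ∧
            ∀ j < k, (c j n).primeFactorsList.length ≤ r}) ∧
        (ND b K A {n | ∀ j < k, ∀ p : ℕ, p.Prime → p ∣ c j n → (n : ℝ) ^ (1 / (r : ℝ)) < (p : ℝ)} : ℝ) ≤
          C * NA K A / (K : ℝ) ^ k := by
  obtain ⟨e, he, hce⟩ : ∃ e : ℤ, (e = 1 ∨ e = -1) ∧
      ∀ (j n : ℕ), 0 < n → ((c j n : ℕ) : ℤ) = 2 ^ j * (n : ℤ) + e * (2 ^ j - 1) := by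
    rcases hc with hc | hc
    · refine ⟨1, Or.inl rfl, fun j n hn => ?_⟩
      rw [hc]
      have h1 : 1 ≤ 2 ^ j * (n + 1) := Nat.one_le_iff_ne_zero.2 (by positivity)
      rw [Nat.cast_sub h1]
      push_cast
      ring
    · refine ⟨-1, Or.inr rfl, fun j n hn => ?_⟩
      rw [hc]
      push_cast [Nat.cast_sub (Nat.succ_le_of_lt hn)]
      ring
  have hee : e * e = 1 := by rcases he with rfl | rfl <;> norm_num
  have hnat : ∀ (j n : ℕ), 0 < n → ((((2 ^ j : ℕ) : ℕ) : ℤ) * (n : ℤ) + e * (2 ^ j - 1)).natAbs = c j n := by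
    intro j n hn
    push_cast
    rw [← hce j n hn, Int.natAbs_natCast]
  have hdvd : ∀ (j n p : ℕ), 0 < n → ((p : ℤ) ∣ (((2 ^ j : ℕ) : ℕ) : ℤ) * (n : ℤ) + e * (2 ^ j - 1) ↔ p ∣ c j n) := by
    intro j n p hn
    push_cast
    rw [← hce j n hn]
    exact Int.natCast_dvd_natCast
  have hzero : ∀ r : ℕ, 2 ≤ r → ∀ p : ℕ, p.Prime → ((0 : ℕ) : ℝ) ^ (1 / (r : ℝ)) < (p : ℝ) := by
    intro r hr p hp
    have hr0 : (0 : ℝ) < r := by exact_mod_cast (by omega : 0 < r)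
    rw [Nat.cast_zero, Real.zero_rpow (by positivity)]
    exact_mod_cast hp.pos
  exact digits_lin (ι := Fin k) (fun i => 2 ^ (i : ℕ))
    (fun i => e * (2 ^ (i : ℕ) - 1)) (fun _ => by positivity)
    (fun i => ⟨1, -e, by push_cast; linear_combination (1 - 2 ^ (i : ℕ)) * hee⟩)
    (fun i j hij _ => Fin.ext (Nat.pow_right_injective le_rfl hij))
    (by
      intro p hp
      rcases he with rfl | rfl
      · refine ⟨p - 1, fun i hd => ?_⟩
        have h1 : (((2 ^ (i : ℕ) : ℕ) : ℕ) : ℤ) * ((p - 1 : ℕ) : ℤ) + 1 * (2 ^ (i : ℕ) - 1) =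
            (2 : ℤ) ^ (i : ℕ) * p + (-1) := by
          rw [Nat.cast_sub hp.one_le]
          push_cast
          ring
        rw [h1] at hd
        have h2 : (p : ℤ) ∣ -1 := (dvd_add_right (dvd_mul_left _ _)).1 hd
        have h3 : p ∣ 1 := by exact_mod_cast (dvd_neg.1 h2 : (p : ℤ) ∣ 1)
        exact hp.one_lt.ne' (Nat.dvd_one.1 h3)
      · refine ⟨1, fun i hd => ?_⟩
        have h1 : (((2 ^ (i : ℕ) : ℕ) : ℕ) : ℤ) * ((1 : ℕ) : ℤ) + (-1) * (2 ^ (i : ℕ) - 1) = 1 := by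
          push_cast
          ring
        rw [h1] at hd
        have h3 : p ∣ 1 := by exact_mod_cast hd
        exact hp.one_lt.ne' (Nat.dvd_one.1 h3))
    (fun r => {n | ∀ j < k, ∀ p : ℕ, p.Prime → p ∣ c j n → (n : ℝ) ^ (1 / (r : ℝ)) < (p : ℝ)})
    (fun r => {n | (∀ j < k, ∀ p : ℕ, p.Prime → p ∣ c j n → (n : ℝ) ^ (1 / (r : ℝ)) < (p : ℝ)) ∧
            ∀ j < k, (c j n).primeFactorsList.length ≤ r}) k (Fintype.card_fin k)
    (by
      intro r m hr hm i p hp hd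
      rcases Nat.eq_zero_or_pos m with rfl | hm0
      · exact hzero r hr p hp
      · exact hm i i.2 p hp ((hdvd i m p hm0).1 hd))
    (by
      intro r m hr h1 h2
      rcases Nat.eq_zero_or_pos m with rfl | hm0
      · refine ⟨fun j _ p hp _ => hzero r hr p hp, fun j hj => ?_⟩
        rcases hc with hc | hc
        · have h3 := h2 ⟨j, hj⟩
          have h4 : ((((2 ^ j : ℕ) : ℕ) : ℤ) * ((0 : ℕ) : ℤ) + e * (2 ^ j - 1)).natAbs = c j 0 := by
            rw [hc, Nat.cast_zero, mul_zero, zero_add, Int.natAbs_mul]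
            have h5 : e.natAbs = 1 := by rcases he with rfl | rfl <;> rfl
            rw [h5, one_mul, zero_add, mul_one]
            have h6 : ((2 : ℤ) ^ j - 1) = ((2 ^ j - 1 : ℕ) : ℤ) := by
              rw [Nat.cast_sub Nat.one_le_two_pow]
              push_cast
              ring
            rw [h6, Int.natAbs_natCast]
          simp only at h3
          rw [h4] at h3
          exact h3
        · rw [hc]
          simp
      · refine ⟨fun j hj p hp hd => h1 ⟨j, hj⟩ p hp ((hdvd j m p hm0).2 hd), fun j hj => ?_⟩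
        have h3 := h2 ⟨j, hj⟩
        simp only at h3
        rw [hnat j m hm0] at h3
        exact h3)
    (fun b d => ∀ j < k, (c j (d + b)).Coprime b)
    (by
      intro b d hb h p hp hpb i hd
      have h1 : (p : ℤ) ∣ (((2 ^ (i : ℕ) : ℕ) : ℕ) : ℤ) * ((d + b : ℕ) : ℤ) + e * (2 ^ (i : ℕ) - 1) := by
        have h2 : (((2 ^ (i : ℕ) : ℕ) : ℕ) : ℤ) * ((d + b : ℕ) : ℤ) + e * (2 ^ (i : ℕ) - 1) =
            ((((2 ^ (i : ℕ) : ℕ) : ℕ) : ℤ) * (d : ℤ) + e * (2 ^ (i : ℕ) - 1)) +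
            (((2 ^ (i : ℕ) : ℕ) : ℕ) : ℤ) * (b : ℤ) := by push_cast; ring
        rw [h2]
        exact dvd_add hd ((Int.natCast_dvd_natCast.2 hpb).mul_left _)
      have h2 := (hdvd i (d + b) p (by omega)).1 h1
      have h3 := Nat.dvd_gcd h2 hpb
      rw [h i i.2] at h3
      exact hp.one_lt.ne' (Nat.dvd_one.1 h3))

end Pool.Agent.Y816.PD
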