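import Pool.Agent.Y816.PD.Blk

/-!
# Integers with restricted digits: residue classes
-/

set_option autoImplicit false

namespace Pool.Agent.Y816.PD

open Finset Pool.Agent.Helper112

theorem sum_ee (q : ℕ) (hq : 0 < q) (z : ℤ) :
    ∑ a ∈ range q, ee ((z : ℝ) * ((a : ℝ) / q)) = if (q : ℤ) ∣ z then (q : ℂ) else 0 := by
  have hq0 : (q : ℝ) ≠ 0 := by exact_mod_cast hq.ne'
  have h1 : ∀ a : ℕ, ee ((z : ℝ) * ((a : ℝ) / q)) = ee ((z : ℝ) / q) ^ a := by
    intro a
    rw [← ls_ee_nat_mul]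
    congr 1
    ring
  simp only [h1]
  split_ifs with h
  · obtain ⟨k, rfl⟩ := h
    have h2 : (((q : ℤ) * k : ℤ) : ℝ) / q = ((k : ℤ) : ℝ) := by
      push_cast
      field_simp
    rw [h2, ls_ee_int]
    simp
  · have hne : ee ((z : ℝ) / q) ≠ 1 := by
      intro h2
      obtain ⟨k, hk⟩ := ls_ee_eq_one h2
      apply h
      refine ⟨k, ?_⟩
      rw [div_eq_iff hq0] at hk
      have : (z : ℝ) = ((q * k : ℤ) : ℝ) := by
        rw [hk]
        push_cast
        ring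
      exact_mod_cast this
    rw [geom_sum_eq hne, ← ls_ee_nat_mul]
    have h3 : (q : ℝ) * ((z : ℝ) / q) = ((z : ℤ) : ℝ) := by
      field_simp
    rw [h3, ls_ee_int, sub_self, zero_div]

/-- the sum of the Fourier transform over the reduced fractions with denominator `e` -/
noncomputable def PP (b K : ℕ) (A : ℕ → Finset ℕ) (e : ℕ) : ℝ :=
  ∑ a ∈ (range e).filter (fun a => a.Coprime e), G b A 0 K ((a : ℝ) / e)

lemma PP_nonneg (b K : ℕ) (A : ℕ → Finset ℕ) (e : ℕ) : 0 ≤ PP b K A e :=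
  sum_nonneg fun _ _ => G_nonneg _ _ _ _ _

lemma pts_eq (b K F : ℕ) (A : ℕ → Finset ℕ) :
    pts b F (G b A 0 K) = ∑ e ∈ (Icc 1 F).filter (fun e => e.Coprime b), PP b K A e := rfl

/-- fractions with denominator `q`, written in lowest terms -/
lemma sum_frac (q : ℕ) (hq : 0 < q) (F : ℝ → ℝ) :
    ∑ a ∈ range q, F ((a : ℝ) / q) =
      ∑ e ∈ q.divisors, ∑ a ∈ (range e).filter (fun a => a.Coprime e), F ((a : ℝ) / e) := by
  have h1 : ∀ a ∈ range q, q / Nat.gcd a q ∈ q.divisors := by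
    intro a _
    rw [Nat.mem_divisors]
    exact ⟨Nat.div_dvd_of_dvd (Nat.gcd_dvd_right _ _), hq.ne'⟩
  rw [← sum_fiberwise_of_maps_to h1]
  apply sum_congr rfl
  intro e he
  rw [Nat.mem_divisors] at he
  obtain ⟨⟨d, hd⟩, _⟩ := he
  have he0 : 0 < e := Nat.pos_of_ne_zero (by rintro rfl; omega)
  have hd0 : 0 < d := Nat.pos_of_ne_zero (by rintro rfl; omega)
  symm
  refine sum_nbij' (fun a => a * d) (fun a => a / d) ?_ ?_ ?_ ?_ ?_
  · intro a ha
    rw [mem_filter, mem_range] at ha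
    rw [mem_filter, mem_range]
    refine ⟨?_, ?_⟩
    · rw [hd]; exact Nat.mul_lt_mul_of_pos_right ha.1 hd0
    · rw [hd, Nat.gcd_mul_right, ha.2, one_mul, Nat.mul_div_cancel _ hd0]
  · intro a ha
    rw [mem_filter, mem_range] at ha
    have hg : Nat.gcd a q = d := by
      have h2 := Nat.div_mul_cancel (Nat.gcd_dvd_right a q)
      rw [ha.2] at h2
      have h3 : e * Nat.gcd a q = e * d := by rw [h2, hd]
      exact Nat.eq_of_mul_eq_mul_left he0 h3
    have hda : d ∣ a := hg ▸ Nat.gcd_dvd_left a q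
    obtain ⟨a', rfl⟩ := hda
    rw [Nat.mul_div_cancel_left _ hd0, mem_filter, mem_range]
    refine ⟨?_, ?_⟩
    · have := ha.1
      rw [hd, mul_comm e d] at this
      exact lt_of_mul_lt_mul_left this (Nat.zero_le _)
    · rw [hd, mul_comm d a', Nat.gcd_mul_right] at hg
      have h4 : Nat.gcd a' e * d = 1 * d := by rw [hg, one_mul]
      exact Nat.eq_of_mul_eq_mul_right hd0 h4
  · intro a _
    rw [Nat.mul_div_cancel _ hd0]
  · intro a ha
    rw [mem_filter, mem_range] at ha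
    have hg : Nat.gcd a q = d := by
      have h2 := Nat.div_mul_cancel (Nat.gcd_dvd_right a q)
      rw [ha.2] at h2
      have h3 : e * Nat.gcd a q = e * d := by rw [h2, hd]
      exact Nat.eq_of_mul_eq_mul_left he0 h3
    have hda : d ∣ a := hg ▸ Nat.gcd_dvd_left a q
    exact Nat.div_mul_cancel hda
  · intro a _
    have hd' : (d : ℝ) ≠ 0 := by exact_mod_cast hd0.ne'
    have he' : (e : ℝ) ≠ 0 := by exact_mod_cast he0.ne'
    congr 1
    rw [hd]
    push_cast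
    field_simp

/-- numbers in a residue class -/
theorem orth {b : ℕ} (K q h : ℕ) (hb : 0 < b) (hq : 0 < q) {A : ℕ → Finset ℕ}
    (hA : ∀ i < K, A i ⊆ range b) :
    |(((dset b K A).filter (fun n => n % q = h % q)).card : ℝ) - cd A 0 K / q| ≤
      cd A 0 K / q * ∑ e ∈ q.divisors.erase 1, PP b K A e := by
  have hq0 : (q : ℝ) ≠ 0 := by exact_mod_cast hq.ne'
  have hqc : (q : ℂ) ≠ 0 := by exact_mod_cast hq.ne'
  -- expansion
  have h1 : (q : ℂ) * (((dset b K A).filter (fun n => n % q = h % q)).card : ℂ) =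
      ∑ a ∈ range q, ee (-((h : ℝ) * ((a : ℝ) / q))) * ∑ n ∈ dset b K A, ee (n * ((a : ℝ) / q)) := by
    have h2 : ∀ n : ℕ, ∑ a ∈ range q, ee (-((h : ℝ) * ((a : ℝ) / q))) * ee (n * ((a : ℝ) / q)) =
        if n % q = h % q then (q : ℂ) else 0 := by
      intro n
      have h3 := sum_ee q hq ((n : ℤ) - h)
      have h4 : ∑ a ∈ range q, ee ((((n : ℤ) - h : ℤ) : ℝ) * ((a : ℝ) / q)) =
          ∑ a ∈ range q, ee (-((h : ℝ) * ((a : ℝ) / q))) * ee (n * ((a : ℝ) / q)) := by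
        apply sum_congr rfl
        intro a _
        rw [← ls_ee_add]
        congr 1
        push_cast
        ring
      rw [← h4, h3]
      have h5 : ((q : ℤ) ∣ (n : ℤ) - h) ↔ n % q = h % q :=
        (Nat.modEq_iff_dvd (a := h) (b := n)).symm.trans ⟨fun h6 => h6.symm, fun h6 => h6.symm⟩
      simp only [h5]
    simp only [mul_sum]
    rw [sum_comm]
    simp only [h2]
    rw [← sum_filter, sum_const, nsmul_eq_mul, mul_comm]
  obtain ⟨n, rfl⟩ : ∃ n, q = n + 1 := ⟨q - 1, by omega⟩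
  -- the term a = 0
  have h6 : ((n + 1 : ℕ) : ℂ) *
      (((dset b K A).filter (fun m => m % (n + 1) = h % (n + 1))).card : ℂ) - cd A 0 K =
      ∑ a ∈ Ico 1 (n + 1), ee (-((h : ℝ) * ((a : ℝ) / ((n + 1 : ℕ) : ℝ)))) *
        ∑ m ∈ dset b K A, ee (m * ((a : ℝ) / ((n + 1 : ℕ) : ℝ))) := by
    rw [h1, range_eq_Ico, sum_eq_sum_Ico_succ_bot (by omega)]
    have h7 : ∑ m ∈ dset b K A, ee (m * (((0 : ℕ) : ℝ) / ((n + 1 : ℕ) : ℝ))) = (cd A 0 K : ℂ) := by
      simp [ls_ee_zero, card_dset K hb hA]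
    rw [h7]
    simp [ls_ee_zero]
  have h8 : ‖((n + 1 : ℕ) : ℂ) *
      (((dset b K A).filter (fun m => m % (n + 1) = h % (n + 1))).card : ℂ) - cd A 0 K‖ ≤
      ∑ a ∈ Ico 1 (n + 1), (cd A 0 K : ℝ) * G b A 0 K ((a : ℝ) / ((n + 1 : ℕ) : ℝ)) := by
    rw [h6]
    refine (norm_sum_le _ _).trans (sum_le_sum fun a _ => ?_)
    rw [norm_mul, ls_norm_ee, one_mul, norm_fourier K hb hA]
  have h9 : ∑ a ∈ Ico 1 (n + 1), G b A 0 K ((a : ℝ) / ((n + 1 : ℕ) : ℝ)) =
      ∑ e ∈ (n + 1).divisors.erase 1, PP b K A e := by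
    have h10 := sum_frac (n + 1) (by omega) (G b A 0 K)
    rw [← add_sum_erase _ _ (Nat.one_mem_divisors.2 (by omega : n + 1 ≠ 0)), range_eq_Ico,
      sum_eq_sum_Ico_succ_bot (by omega)] at h10
    have h11 : ∑ a ∈ (range 1).filter (fun a => a.Coprime 1), G b A 0 K ((a : ℝ) / ((1 : ℕ) : ℝ)) =
        G b A 0 K (((0 : ℕ) : ℝ) / ((n + 1 : ℕ) : ℝ)) := by
      rw [filter_true_of_mem (fun a _ => Nat.coprime_one_right a), range_one, sum_singleton]
      simp
    rw [h11] at h10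
    exact add_left_cancel h10
  rw [← mul_sum, h9] at h8
  have hn0 : (0 : ℝ) < ((n + 1 : ℕ) : ℝ) := by exact_mod_cast Nat.succ_pos n
  have h12 : ‖((n + 1 : ℕ) : ℂ) *
      (((dset b K A).filter (fun m => m % (n + 1) = h % (n + 1))).card : ℂ) - cd A 0 K‖ =
      ((n + 1 : ℕ) : ℝ) * |(((dset b K A).filter (fun m => m % (n + 1) = h % (n + 1))).card : ℝ) -
        cd A 0 K / ((n + 1 : ℕ) : ℝ)| := by
    have h13 : ((n + 1 : ℕ) : ℂ) *
        (((dset b K A).filter (fun m => m % (n + 1) = h % (n + 1))).card : ℂ) - cd A 0 K =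
        ((((n + 1 : ℕ) : ℝ) * ((((dset b K A).filter (fun m => m % (n + 1) = h % (n + 1))).card : ℝ) -
        cd A 0 K / ((n + 1 : ℕ) : ℝ)) : ℝ) : ℂ) := by
      rw [mul_sub, mul_div_cancel₀ _ hn0.ne']
      push_cast
      ring
    rw [h13, Complex.norm_real, Real.norm_eq_abs, abs_mul, abs_of_pos hn0]
  rw [h12] at h8
  rw [div_mul_eq_mul_div, le_div_iff₀ hn0, mul_comm]
  exact h8

end Pool.Agent.Y816.PD
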