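import Pool.Agent.Y816.PD.Small
import Pool.Agent.Y816.PD.Orth

/-!
# Integers with restricted digits: the level of distribution
-/

set_option autoImplicit false

namespace Pool.Agent.Y816.PD

open Finset Pool.Agent.Helper112

lemma root8 (K : ℕ) : ∃ z : ℝ, 0 ≤ z ∧ z ^ 8 = K ∧ Real.sqrt K = z ^ 4 := by
  refine ⟨(K : ℝ) ^ (1 / (8 : ℝ)), by positivity, ?_, ?_⟩
  · rw [← Real.rpow_natCast, ← Real.rpow_mul (Nat.cast_nonneg _)]
    norm_num
  · rw [Real.sqrt_eq_rpow, ← Real.rpow_natCast, ← Real.rpow_mul (Nat.cast_nonneg _)]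
    norm_num

lemma le_root8 {K y : ℕ} {z : ℝ} (hz : 0 ≤ z) (hzK : z ^ 8 = K) (h : y ^ 8 ≤ K) : (y : ℝ) ≤ z := by
  by_contra hcon
  push Not at hcon
  have h1 : z ^ 8 < (y : ℝ) ^ 8 := pow_lt_pow_left₀ hcon hz (by norm_num)
  rw [hzK] at h1
  have h2 : K < y ^ 8 := by exact_mod_cast h1
  omega

theorem small (b : ℕ) (hb : 2 ≤ b) (s : ℕ) (hs : 1 ≤ s) (c : ℝ)
    (hc : 8 * s * (c * Real.log b) ≤ Real.log (4 / 3)) :
    ∃ K0 : ℕ, ∀ K : ℕ, K0 ≤ K → ∀ A : ℕ → Finset ℕ, DS b A → lo b A 0 K ≤ (b : ℝ) ^ (c * K) →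
    ∀ e a : ℕ, 1 < e → e.Coprime b → e ≤ b ^ (s * (Nat.log b K / 8 + 1)) → a.Coprime e →
    G b A 0 K ((a : ℝ) / e) ≤ Real.exp (-Real.sqrt K) := by
  refine ⟨(8 * s * b ^ 3) ^ 8, ?_⟩
  intro K hK A hA hlo e a he heb hew ha
  obtain ⟨z, hz0, hz8, hz4⟩ := root8 K
  have hb2 : (2 : ℝ) ≤ b := by exact_mod_cast hb
  have hb0 : (0 : ℝ) < b := by linarith
  have hs1 : (1 : ℝ) ≤ s := by exact_mod_cast hs
  have hB : ((8 * s * b ^ 3 : ℕ) : ℝ) ≤ z := le_root8 hz0 hz8 hK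
  push_cast at hB
  have hb3 : (8 : ℝ) ≤ (b : ℝ) ^ 3 := by nlinarith [sq_nonneg ((b : ℝ) - 2)]
  have hz64 : 64 ≤ z := by nlinarith
  have hKpos : 0 < K := by
    have : (0 : ℝ) < K := by rw [← hz8]; positivity
    exact_mod_cast this
  obtain ⟨t, ht⟩ : ∃ t, t = Nat.log b K / 8 := ⟨_, rfl⟩
  obtain ⟨w, hw⟩ : ∃ w, w = s * (t + 1) := ⟨_, rfl⟩
  rw [← ht, ← hw] at hew
  have hy : ((b ^ t : ℕ) : ℝ) ≤ z := by
    apply le_root8 hz0 hz8
    rw [← pow_mul]
    refine le_trans ?_ (Nat.pow_log_le_self b hKpos.ne')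
    apply Nat.pow_le_pow_right (by omega)
    rw [ht]
    exact Nat.div_mul_le_self _ _
  push_cast at hy
  have ht1 : ((t : ℝ) + 1) ≤ (b : ℝ) ^ t := by
    have h1 : t + 1 ≤ 2 ^ t := Nat.lt_two_pow_self
    have h2 : 2 ^ t ≤ b ^ t := Nat.pow_le_pow_left hb t
    exact_mod_cast h1.trans h2
  have hw1 : 1 ≤ w := by
    rw [hw]
    exact Nat.mul_pos hs (Nat.succ_pos t)
  have hwr : (w : ℝ) ≤ s * (b : ℝ) ^ t := by
    rw [hw]
    push_cast
    exact mul_le_mul_of_nonneg_left ht1 (by linarith)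
  have hw0 : (1 : ℝ) ≤ w := by exact_mod_cast hw1
  have htw : t ≤ w := by
    rw [hw]
    nlinarith
  -- the poor places
  have hl43 : 0 < Real.log (4 / 3) := Real.log_pos (by norm_num)
  have hnf : (nf b A 0 K : ℝ) ≤ K / (8 * s) := by
    have h1 := (nf_lo hb hA K).trans hlo
    have h2 := Real.log_le_log (by positivity) h1
    rw [Real.log_pow, Real.log_rpow hb0] at h2
    rw [le_div_iff₀ (by positivity)]
    have h3 : (nf b A 0 K : ℝ) * Real.log (4 / 3) * (8 * s) ≤ K * Real.log (4 / 3) := by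
      calc (nf b A 0 K : ℝ) * Real.log (4 / 3) * (8 * s) ≤ c * K * Real.log b * (8 * s) :=
            mul_le_mul_of_nonneg_right h2 (by positivity)
        _ = K * (8 * s * (c * Real.log b)) := by ring
        _ ≤ K * Real.log (4 / 3) := mul_le_mul_of_nonneg_left hc (Nat.cast_nonneg _)
    have h4 : ((nf b A 0 K : ℝ) * (8 * s)) * Real.log (4 / 3) ≤ K * Real.log (4 / 3) := by linarith
    exact le_of_mul_le_mul_right h4 hl43
  obtain ⟨T, hT⟩ : ∃ T, T = K / (2 * w + 1) := ⟨_, rfl⟩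
  obtain ⟨q, hq⟩ : ∃ q, q = nf b A 0 K / (t + 1) + 1 := ⟨_, rfl⟩
  have hTr : (K : ℝ) / (3 * w) - 1 ≤ T := by
    have h1 := Nat.lt_div_mul_add (a := K) (show 0 < 2 * w + 1 by omega)
    rw [← hT] at h1
    have h2 : K ≤ (T + 1) * (3 * w) := by
      have h3 : (T + 1) * (2 * w + 1) ≤ (T + 1) * (3 * w) := Nat.mul_le_mul_left _ (by omega)
      have h4 : (T + 1) * (2 * w + 1) = T * (2 * w + 1) + (2 * w + 1) := by ring
      omega
    have h3 : (K : ℝ) ≤ (T + 1) * (3 * w) := by exact_mod_cast h2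
    rw [sub_le_iff_le_add, div_le_iff₀ (by positivity)]
    exact h3
  have hqr : (q : ℝ) ≤ K / (8 * w) + 1 := by
    rw [hq]
    push_cast
    have h1 : ((nf b A 0 K / (t + 1) : ℕ) : ℝ) ≤ (nf b A 0 K : ℝ) / (t + 1) := by
      have := Nat.cast_div_le (α := ℝ) (m := nf b A 0 K) (n := t + 1)
      push_cast at this
      exact this
    have h2 : (nf b A 0 K : ℝ) / (t + 1) ≤ K / (8 * w) := by
      have h3 : (K : ℝ) / (8 * w) = K / (8 * s) / (t + 1) := by
        rw [hw]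
        push_cast
        field_simp
      rw [h3]
      exact div_le_div_of_nonneg_right hnf (by positivity)
    linarith
  have hw2 : (w : ℝ) ≤ z * z := by
    calc (w : ℝ) ≤ s * (b : ℝ) ^ t := hwr
      _ ≤ z * z := by
          apply mul_le_mul _ hy (by positivity) hz0
          nlinarith
  have hKw : 24 * (w : ℝ) ≤ K := by
    rw [← hz8]
    calc 24 * (w : ℝ) ≤ 24 * (z * z) := by linarith
      _ ≤ z ^ 6 * (z * z) := by
          apply mul_le_mul_of_nonneg_right _ (by positivity)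
          calc (24 : ℝ) ≤ z := by linarith
            _ = z ^ 1 := (pow_one z).symm
            _ ≤ z ^ 6 := pow_le_pow_right₀ (by linarith) (by norm_num)
      _ = z ^ 8 := by ring
  have hKw3 : (1 : ℝ) ≤ K / (24 * w) := by
    rw [le_div_iff₀ (by positivity)]
    linarith
  have e1 : (K : ℝ) / (3 * w) = 8 * (K / (24 * w)) := by field_simp; norm_num
  have e2 : (K : ℝ) / (8 * w) = 3 * (K / (24 * w)) := by field_simp; norm_num
  have hqT : q ≤ T := by
    have : (q : ℝ) ≤ T := by linarith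
    exact_mod_cast this
  have hm := many hb hA he heb hew ha htw K T (T - q) (by rw [hT]; exact Nat.div_mul_le_self _ _)
    (by
      have h1 : T - (T - q) = q := by omega
      rw [h1, hq]
      have h2 := Nat.lt_div_mul_add (a := nf b A 0 K) (show 0 < t + 1 by omega)
      have h3 : (nf b A 0 K / (t + 1) + 1) * (t + 1) = nf b A 0 K / (t + 1) * (t + 1) + (t + 1) := by ring
      omega) (by omega)
  refine hm.trans ?_
  have hg : (K : ℝ) / (8 * w) ≤ ((T - q : ℕ) : ℝ) := by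
    rw [Nat.cast_sub hqT]
    linarith
  have hX : 0 < (b : ℝ) ^ (2 * t + 3) := by positivity
  have h1 : (1 - 1 / (b : ℝ) ^ (2 * t + 3)) ^ (T - q) ≤ Real.exp (-(1 / (b : ℝ) ^ (2 * t + 3)) * (T - q : ℕ)) := by
    rw [mul_comm (-(1 / (b : ℝ) ^ (2 * t + 3))) _, Real.exp_nat_mul]
    apply pow_le_pow_left₀
    · rw [sub_nonneg, div_le_one hX]
      exact one_le_pow₀ (by linarith)
    · have := Real.add_one_le_exp (-(1 / (b : ℝ) ^ (2 * t + 3)))
      linarith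
  refine h1.trans ?_
  apply Real.exp_le_exp.2
  rw [neg_mul, neg_le_neg_iff, one_div, inv_mul_eq_div, le_div_iff₀ hX]
  refine le_trans ?_ hg
  rw [le_div_iff₀ (by positivity), hz4, ← hz8]
  have h2 : (b : ℝ) ^ (2 * t + 3) = (b : ℝ) ^ t * (b : ℝ) ^ t * (b : ℝ) ^ 3 := by ring
  rw [h2]
  calc z ^ 4 * ((b : ℝ) ^ t * (b : ℝ) ^ t * (b : ℝ) ^ 3) * (8 * w) ≤
      z ^ 4 * ((b : ℝ) ^ t * (b : ℝ) ^ t * (b : ℝ) ^ 3) * (8 * (s * (b : ℝ) ^ t)) := by gcongr
    _ = z ^ 4 * (8 * s * (b : ℝ) ^ 3) * ((b : ℝ) ^ t * (b : ℝ) ^ t * (b : ℝ) ^ t) := by ring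
    _ ≤ z ^ 4 * z * (z * z * z) := by gcongr
    _ = z ^ 8 := by ring

/-- the weighted sum of the Fourier transform over the reduced fractions -/
noncomputable def HH (b K : ℕ) (A : ℕ → Finset ℕ) : ℝ :=
  ∑ e ∈ (Icc 2 (b ^ (K / 4))).filter (fun e => e.Coprime b), (e : ℝ) ^ (-(3 / 4 : ℝ)) * PP b K A e

lemma HH_nonneg (b K : ℕ) (A : ℕ → Finset ℕ) : 0 ≤ HH b K A :=
  sum_nonneg fun _ _ => mul_nonneg (Real.rpow_nonneg (Nat.cast_nonneg _) _) (PP_nonneg _ _ _ _)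

lemma PP_small {b K : ℕ} {A : ℕ → Finset ℕ} {e : ℕ} {x : ℝ} (hx : 0 ≤ x)
    (h : ∀ a : ℕ, a.Coprime e → G b A 0 K ((a : ℝ) / e) ≤ x) : PP b K A e ≤ e * x := by
  unfold PP
  calc ∑ a ∈ (range e).filter (fun a => a.Coprime e), G b A 0 K ((a : ℝ) / e) ≤
      ∑ a ∈ (range e).filter (fun a => a.Coprime e), x := by
        apply sum_le_sum
        intro a ha
        rw [mem_filter] at ha
        exact h a ha.2
    _ = ((range e).filter (fun a => a.Coprime e)).card * x := by rw [sum_const, nsmul_eq_mul]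
    _ ≤ e * x := by
        apply mul_le_mul_of_nonneg_right _ hx
        have := card_filter_le (range e) (fun a => a.Coprime e)
        rw [card_range] at this
        exact_mod_cast this

/-- the part of `HH` with large denominators -/
lemma large {b : ℕ} (hb : 2 ≤ b) {A : ℕ → Finset ℕ} (hA : DS b A) (K w : ℕ) (c : ℝ)
    (hc : 0 ≤ c) (hc1 : c ≤ 1 / 16) (hlo : lo b A 0 K ≤ (b : ℝ) ^ (c * K)) :
    ∑ e ∈ (Icc 2 (b ^ (K / 4))).filter (fun e => e.Coprime b ∧ b ^ (2 * w) < e),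
      (e : ℝ) ^ (-(3 / 4 : ℝ)) * PP b K A e ≤ 12 * b * K / (b : ℝ) ^ w := by
  have hb2 : (2 : ℝ) ≤ b := by exact_mod_cast hb
  have hb0 : (0 : ℝ) < b := by linarith
  have hmaps : ∀ e ∈ (Icc 2 (b ^ (K / 4))).filter (fun e => e.Coprime b ∧ b ^ (2 * w) < e),
      Nat.clog b e ∈ Icc (2 * w + 1) (K / 4) := by
    intro e he
    rw [mem_filter, mem_Icc] at he
    rw [mem_Icc]
    constructor
    · by_contra h
      have h1 : Nat.clog b e ≤ 2 * w := by omega
      have h2 := Nat.le_pow_clog (b := b) (by omega) e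
      have h3 : b ^ Nat.clog b e ≤ b ^ (2 * w) := Nat.pow_le_pow_right (by omega) h1
      omega
    · exact (Nat.clog_le_iff_le_pow (by omega)).2 he.1.2
  rw [← sum_fiberwise_of_maps_to hmaps]
  have hterm : ∀ m ∈ Icc (2 * w + 1) (K / 4),
      ∑ e ∈ ((Icc 2 (b ^ (K / 4))).filter (fun e => e.Coprime b ∧ b ^ (2 * w) < e)).filter
        (fun e => Nat.clog b e = m), (e : ℝ) ^ (-(3 / 4 : ℝ)) * PP b K A e ≤ 12 * b / (b : ℝ) ^ w := by
    intro m hm
    rw [mem_Icc] at hm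
    have hm4 : 4 * m ≤ K := by omega
    have hm0 : 0 < m := by omega
    have h1 := blk' hb hA m K hm0 c hc hm4 hlo
    have h2 : ∀ e ∈ ((Icc 2 (b ^ (K / 4))).filter (fun e => e.Coprime b ∧ b ^ (2 * w) < e)).filter
        (fun e => Nat.clog b e = m), (e : ℝ) ^ (-(3 / 4 : ℝ)) * PP b K A e ≤
        (((b : ℝ) ^ (m - 1)) ^ (-(3 / 4 : ℝ))) * PP b K A e := by
      intro e he
      rw [mem_filter, mem_filter, mem_Icc] at he
      apply mul_le_mul_of_nonneg_right _ (PP_nonneg _ _ _ _)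
      apply Real.rpow_le_rpow_of_nonpos (by positivity) _ (by norm_num)
      have h3 := Nat.pow_pred_clog_lt_self (b := b) (by omega) (x := e) (by omega)
      rw [he.2] at h3
      have h4 : b ^ (m - 1) ≤ e := by
        rw [← Nat.pred_eq_sub_one]
        exact h3.le
      exact_mod_cast h4
    refine (sum_le_sum h2).trans ?_
    rw [← mul_sum]
    have h5 : ∑ e ∈ ((Icc 2 (b ^ (K / 4))).filter (fun e => e.Coprime b ∧ b ^ (2 * w) < e)).filter
        (fun e => Nat.clog b e = m), PP b K A e ≤ 12 * (b : ℝ) ^ (4 * c * m) := by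
      refine le_trans ?_ h1
      rw [pts_eq]
      apply sum_le_sum_of_subset_of_nonneg
      · intro e he
        rw [mem_filter, mem_filter, mem_Icc] at he
        rw [mem_filter, mem_Icc]
        refine ⟨⟨by omega, ?_⟩, he.1.2.1⟩
        have := Nat.le_pow_clog (b := b) (by omega) e
        rwa [he.2] at this
      · intro e _ _
        exact PP_nonneg _ _ _ _
    calc ((b : ℝ) ^ (m - 1)) ^ (-(3 / 4 : ℝ)) * _ ≤
        ((b : ℝ) ^ (m - 1)) ^ (-(3 / 4 : ℝ)) * (12 * (b : ℝ) ^ (4 * c * m)) :=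
          mul_le_mul_of_nonneg_left h5 (by positivity)
      _ ≤ 12 * (b : ℝ) ^ ((1 : ℝ) - w) := by
          have h6 : ((b : ℝ) ^ (m - 1)) ^ (-(3 / 4 : ℝ)) = (b : ℝ) ^ (((m : ℝ) - 1) * (-(3 / 4 : ℝ))) := by
            rw [Real.rpow_mul hb0.le, ← Real.rpow_natCast]
            congr 2
            rw [Nat.cast_sub (by omega)]
            push_cast
            rfl
          rw [h6, mul_left_comm, ← Real.rpow_add hb0]
          apply mul_le_mul_of_nonneg_left _ (by norm_num)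
          apply Real.rpow_le_rpow_of_exponent_le (by linarith)
          have h7 : 2 * (w : ℝ) + 1 ≤ m := by exact_mod_cast hm.1
          have h8 : 4 * c * m ≤ 1 / 4 * m := by
            apply mul_le_mul_of_nonneg_right _ (Nat.cast_nonneg _)
            linarith
          linarith
      _ = 12 * b / (b : ℝ) ^ w := by
          rw [Real.rpow_sub hb0, Real.rpow_one, Real.rpow_natCast]
          ring
  refine (sum_le_sum hterm).trans ?_
  rw [sum_const, nsmul_eq_mul, Nat.card_Icc]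
  have h9 : ((K / 4 + 1 - (2 * w + 1) : ℕ) : ℝ) ≤ K := by
    have : K / 4 + 1 - (2 * w + 1) ≤ K := by omega
    exact_mod_cast this
  calc ((K / 4 + 1 - (2 * w + 1) : ℕ) : ℝ) * (12 * b / (b : ℝ) ^ w) ≤ K * (12 * b / (b : ℝ) ^ w) :=
        mul_le_mul_of_nonneg_right h9 (by positivity)
    _ = _ := by ring

lemma exp_sqrt (n : ℕ) (C : ℝ) : ∀ᶠ K : ℕ in Filter.atTop, C * (K : ℝ) ^ n * Real.exp (-Real.sqrt K) ≤ 1 := by
  have h1 : Filter.Tendsto (fun x : ℝ => C * (x ^ (2 * n) * Real.exp (-x))) Filter.atTop (nhds (C * 0)) :=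
    (Real.tendsto_pow_mul_exp_neg_atTop_nhds_zero (2 * n)).const_mul C
  rw [mul_zero] at h1
  have h2 : Filter.Tendsto (fun K : ℕ => Real.sqrt K) Filter.atTop Filter.atTop :=
    Real.tendsto_sqrt_atTop.comp tendsto_natCast_atTop_atTop
  have h3 := (h1.comp h2).eventually (gt_mem_nhds (show (0 : ℝ) < 1 by norm_num))
  filter_upwards [h3] with K hK
  refine le_trans (le_of_eq ?_) hK.le
  simp only [Function.comp]
  rw [pow_mul, Real.sq_sqrt (Nat.cast_nonneg _)]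
  ring

/-- **Level of distribution** -/
theorem lev (a : ℕ) : ∃ c' : ℝ, 0 < c' ∧ c' ≤ Real.log 2 / 16 ∧ ∀ b : ℕ, 2 ≤ b → ∃ C : ℝ, 0 < C ∧ ∃ K0 : ℕ,
    ∀ K : ℕ, K0 ≤ K → ∀ A : ℕ → Finset ℕ, DS b A → lo b A 0 K ≤ Real.exp (c' * K) →
    HH b K A ≤ C / (K : ℝ) ^ a := by
  have hl43 : 0 < Real.log (4 / 3) := Real.log_pos (by norm_num)
  have hl2 : 0 < Real.log 2 := Real.log_pos (by norm_num)
  obtain ⟨s, hs⟩ : ∃ s : ℕ, s = 16 * (a + 1) := ⟨_, rfl⟩
  have hs1 : 1 ≤ s := by omega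
  have hsr : (1 : ℝ) ≤ s := by exact_mod_cast hs1
  obtain ⟨c', hcd⟩ : ∃ c' : ℝ, c' = min (Real.log 2 / 16) (Real.log (4 / 3) / (8 * s)) := ⟨_, rfl⟩
  have hc'0 : 0 < c' := by
    rw [hcd]
    apply lt_min (by positivity)
    positivity
  have hc'1 : c' ≤ Real.log 2 / 16 := by rw [hcd]; exact min_le_left _ _
  refine ⟨c', hc'0, hc'1, ?_⟩
  intro b hb
  have hb2 : (2 : ℝ) ≤ b := by exact_mod_cast hb
  have hb0 : (0 : ℝ) < b := by linarith
  have hlb : 0 < Real.log b := Real.log_pos (by linarith)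
  have hlb2 : Real.log 2 ≤ Real.log b := Real.log_le_log (by norm_num) hb2
  obtain ⟨c, hcc⟩ : ∃ c : ℝ, c = c' / Real.log b := ⟨_, rfl⟩
  have hc0 : 0 < c := by rw [hcc]; positivity
  have hcl : c * Real.log b = c' := by rw [hcc]; field_simp
  have hc1 : c ≤ 1 / 16 := by
    rw [hcc, div_le_iff₀ hlb]
    linarith
  have hc2 : 8 * s * (c * Real.log b) ≤ Real.log (4 / 3) := by
    have h1 : c' ≤ Real.log (4 / 3) / (8 * s) := by rw [hcd]; exact min_le_right _ _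
    rw [le_div_iff₀ (by positivity)] at h1
    rw [hcl]
    linarith
  have hexp : ∀ K : ℕ, Real.exp (c' * K) = (b : ℝ) ^ (c * K) := by
    intro K
    rw [Real.rpow_def_of_pos hb0, ← hcl]
    congr 1
    ring
  obtain ⟨K0, hK0⟩ := small b hb s hs1 c hc2
  obtain ⟨K1, hK1⟩ := Filter.eventually_atTop.1 (exp_sqrt (2 * s + a) ((b : ℝ) ^ (2 * s)))
  refine ⟨12 * b + 1, by positivity, max (max K0 K1) 1, ?_⟩
  intro K hK A hA hlo
  rw [hexp] at hlo
  have hKK0 : K0 ≤ K := le_trans (le_trans (le_max_left _ _) (le_max_left _ _)) hK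
  have hKK1 : K1 ≤ K := le_trans (le_trans (le_max_right _ _) (le_max_left _ _)) hK
  have hK1' : 1 ≤ K := le_trans (le_max_right _ _) hK
  have hKr : (1 : ℝ) ≤ K := by exact_mod_cast hK1'
  have hsm := hK0 K hKK0 A hA hlo
  obtain ⟨t, ht⟩ : ∃ t, t = Nat.log b K / 8 := ⟨_, rfl⟩
  rw [← ht] at hsm
  obtain ⟨w, hw⟩ : ∃ w, w = 8 * (a + 1) * (t + 1) := ⟨_, rfl⟩
  have hsw : s * (t + 1) = 2 * w := by rw [hs, hw]; ring
  rw [hsw] at hsm
  have hsplit : HH b K A = ∑ e ∈ (Icc 2 (b ^ (K / 4))).filter (fun e => e.Coprime b ∧ b ^ (2 * w) < e),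
      (e : ℝ) ^ (-(3 / 4 : ℝ)) * PP b K A e +
      ∑ e ∈ (Icc 2 (b ^ (K / 4))).filter (fun e => e.Coprime b ∧ ¬ b ^ (2 * w) < e),
      (e : ℝ) ^ (-(3 / 4 : ℝ)) * PP b K A e := by
    unfold HH
    rw [← sum_filter_add_sum_filter_not _ (fun e => b ^ (2 * w) < e), filter_filter, filter_filter]
  rw [hsplit]
  have hL := large hb hA K w c hc0.le hc1 hlo
  have hbw : (K : ℝ) ^ (a + 1) ≤ (b : ℝ) ^ w := by
    have h1 : K ≤ b ^ (8 * (t + 1)) := by
      refine (Nat.lt_pow_succ_log_self (b := b) (by omega) K).le.trans ?_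
      apply Nat.pow_le_pow_right (by omega)
      have := Nat.lt_div_mul_add (a := Nat.log b K) (show 0 < 8 by norm_num)
      rw [← ht] at this
      omega
    have h2 : (K : ℝ) ≤ (b : ℝ) ^ (8 * (t + 1)) := by exact_mod_cast h1
    calc (K : ℝ) ^ (a + 1) ≤ ((b : ℝ) ^ (8 * (t + 1))) ^ (a + 1) := pow_le_pow_left₀ (by linarith) h2 _
      _ = (b : ℝ) ^ w := by rw [← pow_mul, hw]; congr 1; ring
  have hL2 : 12 * b * K / (b : ℝ) ^ w ≤ 12 * b / (K : ℝ) ^ a := by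
    rw [div_le_div_iff₀ (by positivity) (by positivity)]
    calc 12 * (b : ℝ) * K * (K : ℝ) ^ a = 12 * b * (K : ℝ) ^ (a + 1) := by ring
      _ ≤ 12 * b * (b : ℝ) ^ w := mul_le_mul_of_nonneg_left hbw (by positivity)
  have hS : ∑ e ∈ (Icc 2 (b ^ (K / 4))).filter (fun e => e.Coprime b ∧ ¬ b ^ (2 * w) < e),
      (e : ℝ) ^ (-(3 / 4 : ℝ)) * PP b K A e ≤ 1 / (K : ℝ) ^ a := by
    have h1 : ∀ e ∈ (Icc 2 (b ^ (K / 4))).filter (fun e => e.Coprime b ∧ ¬ b ^ (2 * w) < e),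
        (e : ℝ) ^ (-(3 / 4 : ℝ)) * PP b K A e ≤ (b : ℝ) ^ (2 * w) * Real.exp (-Real.sqrt K) := by
      intro e he
      rw [mem_filter, mem_Icc, not_lt] at he
      have he1 : (1 : ℝ) ≤ e := by exact_mod_cast (by omega : 1 ≤ e)
      have h2 : PP b K A e ≤ e * Real.exp (-Real.sqrt K) :=
        PP_small (Real.exp_pos _).le (fun a' ha' => hsm e a' (by omega) he.2.1 he.2.2 ha')
      have h3 : (e : ℝ) ^ (-(3 / 4 : ℝ)) ≤ 1 := Real.rpow_le_one_of_one_le_of_nonpos he1 (by norm_num)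
      have h4 : (e : ℝ) ≤ (b : ℝ) ^ (2 * w) := by exact_mod_cast he.2.2
      calc (e : ℝ) ^ (-(3 / 4 : ℝ)) * PP b K A e ≤ 1 * (e * Real.exp (-Real.sqrt K)) :=
            mul_le_mul h3 h2 (PP_nonneg _ _ _ _) (by norm_num)
        _ ≤ _ := by
            rw [one_mul]
            exact mul_le_mul_of_nonneg_right h4 (Real.exp_pos _).le
    refine (sum_le_card_nsmul _ _ _ h1).trans ?_
    rw [nsmul_eq_mul]
    have h5 : (((Icc 2 (b ^ (K / 4))).filter (fun e => e.Coprime b ∧ ¬ b ^ (2 * w) < e)).card : ℝ) ≤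
        (b : ℝ) ^ (2 * w) := by
      have h6 : (Icc 2 (b ^ (K / 4))).filter (fun e => e.Coprime b ∧ ¬ b ^ (2 * w) < e) ⊆
          Icc 1 (b ^ (2 * w)) := by
        intro e he
        rw [mem_filter, mem_Icc, not_lt] at he
        rw [mem_Icc]
        omega
      have h7 := card_le_card h6
      rw [Nat.card_Icc, Nat.add_sub_cancel] at h7
      exact_mod_cast h7
    have h8 : (b : ℝ) ^ (2 * w) ≤ (b : ℝ) ^ s * (K : ℝ) ^ s := by
      have h9 : 2 * w = s * t + s := by rw [← hsw]; ring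
      have h10 : b ^ t ≤ K := by
        refine le_trans ?_ (Nat.pow_log_le_self b (by omega : K ≠ 0))
        apply Nat.pow_le_pow_right (by omega)
        rw [ht]
        exact Nat.div_le_self _ _
      have h11 : (b : ℝ) ^ t ≤ K := by exact_mod_cast h10
      rw [h9, pow_add, mul_comm s t, pow_mul, mul_comm]
      apply mul_le_mul_of_nonneg_left _ (by positivity)
      exact pow_le_pow_left₀ (by positivity) h11 s
    have h12 := hK1 K hKK1
    rw [le_div_iff₀ (by positivity)]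
    calc (((Icc 2 (b ^ (K / 4))).filter (fun e => e.Coprime b ∧ ¬ b ^ (2 * w) < e)).card : ℝ) *
        ((b : ℝ) ^ (2 * w) * Real.exp (-Real.sqrt K)) * (K : ℝ) ^ a ≤
        ((b : ℝ) ^ s * (K : ℝ) ^ s) * (((b : ℝ) ^ s * (K : ℝ) ^ s) * Real.exp (-Real.sqrt K)) *
          (K : ℝ) ^ a := by
          have := h5.trans h8
          gcongr
      _ = (b : ℝ) ^ (2 * s) * (K : ℝ) ^ (2 * s + a) * Real.exp (-Real.sqrt K) := by ring
      _ ≤ 1 := h12
  calc _ ≤ 12 * b / (K : ℝ) ^ a + 1 / (K : ℝ) ^ a := add_le_add (hL.trans hL2) hS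
    _ = _ := by ring

end Pool.Agent.Y816.PD
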