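import Pool.Agent.Y816.PD.Blk

/-!
# Integers with restricted digits: the Fourier transform at fractions with small denominators
-/

set_option autoImplicit false

namespace Pool.Agent.Y816.PD

open Finset Pool.Agent.Helper112

/-- distance to the nearest integer -/
noncomputable def dn (θ : ℝ) : ℝ := |θ - round θ|

lemma norm_one_add_ee (θ : ℝ) : ‖1 + ee θ‖ = 2 * |Real.cos (Real.pi * θ)| := by
  have h1 : 1 + ee θ = ee (θ / 2) * ((2 * Real.cos (Real.pi * θ) : ℝ) : ℂ) := by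
    have h2 : ((2 * Real.cos (Real.pi * θ) : ℝ) : ℂ) = ee (θ / 2) + ee (-(θ / 2)) := by
      push_cast
      rw [Complex.two_cos]
      unfold ee
      congr 1 <;> congr 1 <;> push_cast <;> ring
    rw [h2, mul_add, ← ls_ee_add, ← ls_ee_add]
    rw [add_neg_cancel, ls_ee_zero, add_halves, add_comm]
  rw [h1, norm_mul, ls_norm_ee, one_mul, Complex.norm_real, Real.norm_eq_abs, abs_mul, abs_two]

lemma abs_cos_le (θ : ℝ) : |Real.cos (Real.pi * θ)| ≤ 1 - 2 * dn θ ^ 2 := by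
  have hpi := Real.pi_pos
  have h0 : |θ - round θ| ≤ 1 / 2 := abs_sub_round θ
  have h1 : |Real.cos (Real.pi * θ)| = |Real.cos (Real.pi * (θ - round θ))| := by
    have h2 : Real.pi * (θ - round θ) = Real.pi * θ - round θ * Real.pi := by ring
    rw [h2, Real.cos_sub_int_mul_pi, abs_mul]
    have h3 : |((-1 : ℝ)) ^ (round θ)| = 1 := by
      rw [abs_zpow, abs_neg, abs_one, one_zpow]
    rw [h3, one_mul]
  have h4 : |Real.pi * (θ - round θ)| ≤ Real.pi / 2 := by
    rw [abs_mul, abs_of_pos hpi]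
    nlinarith
  have h5 : 0 ≤ Real.cos (Real.pi * (θ - round θ)) :=
    Real.cos_nonneg_of_mem_Icc ⟨by have := (abs_le.1 h4).1; linarith, (abs_le.1 h4).2⟩
  rw [h1, abs_of_nonneg h5]
  have h6 := Real.cos_le_one_sub_mul_cos_sq (x := Real.pi * (θ - round θ)) (by linarith)
  refine h6.trans (le_of_eq ?_)
  unfold dn
  rw [sq_abs, mul_pow]
  field_simp

lemma ph_fat {b : ℕ} {s : Finset ℕ} (hs : s ⊆ range b) {d : ℕ} (hd : d ∈ s) (hd1 : d + 1 ∈ s) (θ : ℝ) :
    ph s θ ≤ 1 - 4 * dn θ ^ 2 / b := by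
  have hsc : 0 < s.card := card_pos.2 ⟨d, hd⟩
  have hcb : s.card ≤ b := by
    have := card_le_card hs
    rwa [card_range] at this
  have hs0 : (0 : ℝ) < s.card := by exact_mod_cast hsc
  have hcbr : (s.card : ℝ) ≤ b := by exact_mod_cast hcb
  have hb0 : (0 : ℝ) < b := by linarith
  have h1 : ‖∑ n ∈ s, ee (n * θ)‖ ≤ s.card - 4 * dn θ ^ 2 := by
    have hne : d ≠ d + 1 := by omega
    have hpair : ({d, d + 1} : Finset ℕ) ⊆ s := by
      intro x hx
      rw [mem_insert, mem_singleton] at hx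
      rcases hx with rfl | rfl
      · exact hd
      · exact hd1
    rw [← sum_sdiff hpair]
    have h2 : ‖∑ n ∈ s \ {d, d + 1}, ee (n * θ)‖ ≤ s.card - 2 := by
      refine (norm_sum_le _ _).trans ?_
      simp only [ls_norm_ee, sum_const, nsmul_eq_mul, mul_one]
      rw [card_sdiff_of_subset hpair, card_pair hne]
      have : 2 ≤ s.card := by
        have := card_le_card hpair
        rwa [card_pair hne] at this
      rw [Nat.cast_sub this]
      push_cast
      exact le_rfl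
    have h3 : ‖∑ n ∈ ({d, d + 1} : Finset ℕ), ee (n * θ)‖ ≤ 2 - 4 * dn θ ^ 2 := by
      rw [sum_pair hne]
      have h4 : ee (((d + 1 : ℕ) : ℝ) * θ) = ee (d * θ) * ee θ := by
        rw [← ls_ee_add]
        congr 1
        push_cast
        ring
      rw [h4]
      have h5 : ee (d * θ) + ee (d * θ) * ee θ = ee (d * θ) * (1 + ee θ) := by ring
      rw [h5, norm_mul, ls_norm_ee, one_mul, norm_one_add_ee]
      have := abs_cos_le θ
      linarith
    refine (norm_add_le _ _).trans ?_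
    linarith
  unfold ph
  rw [div_le_iff₀ hs0]
  refine h1.trans ?_
  have h6 : 4 * dn θ ^ 2 / b * s.card ≤ 4 * dn θ ^ 2 := by
    rw [div_mul_eq_mul_div, div_le_iff₀ hb0]
    exact mul_le_mul_of_nonneg_left hcbr (by positivity)
  linarith

/-- many digits: two consecutive ones -/
lemma fat_pair {b : ℕ} {s : Finset ℕ} (hs : s ⊆ range b) (h : b + 2 ≤ 2 * s.card) :
    ∃ d, d ∈ s ∧ d + 1 ∈ s := by
  by_contra hcon
  push Not at hcon
  have h1 : Disjoint s (s.image (· + 1)) := by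
    rw [disjoint_left]
    intro x hx hx'
    rw [mem_image] at hx'
    obtain ⟨y, hy, rfl⟩ := hx'
    exact hcon y hy hx
  have h2 : s ∪ s.image (· + 1) ⊆ range (b + 1) := by
    intro x hx
    rw [mem_union, mem_image] at hx
    rw [mem_range]
    rcases hx with hx | ⟨y, hy, rfl⟩
    · have := mem_range.1 (hs hx); omega
    · have := mem_range.1 (hs hy); omega
  have h3 := card_le_card h2
  rw [card_union_of_disjoint h1, card_image_of_injective _ (fun x y h => by simpa using h),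
    card_range] at h3
  omega

lemma dn_mul_le (b : ℕ) (θ : ℝ) : dn (b * θ) ≤ b * dn θ := by
  unfold dn
  have h := round_le (b * θ : ℝ) ((b : ℤ) * round θ)
  refine h.trans (le_of_eq ?_)
  push_cast
  rw [← mul_sub, abs_mul, Nat.abs_cast]

lemma dn_pow_le (b i t : ℕ) (θ : ℝ) :
    dn ((b : ℝ) ^ (i + t) * θ) ≤ (b : ℝ) ^ t * dn ((b : ℝ) ^ i * θ) := by
  induction t with
  | zero => simp
  | succ t ih =>
    have h1 : (b : ℝ) ^ (i + (t + 1)) * θ = b * ((b : ℝ) ^ (i + t) * θ) := by ring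
    rw [h1]
    refine (dn_mul_le b _).trans ?_
    calc (b : ℝ) * dn ((b : ℝ) ^ (i + t) * θ) ≤ b * ((b : ℝ) ^ t * dn ((b : ℝ) ^ i * θ)) :=
          mul_le_mul_of_nonneg_left ih (Nat.cast_nonneg _)
      _ = _ := by ring

/-- among `w + 1` consecutive places there is one far from the integers -/
lemma exists_far {b : ℕ} (hb : 2 ≤ b) {e a w : ℕ} (he : 1 < e) (heb : e.Coprime b) (hew : e ≤ b ^ w)
    (ha : a.Coprime e) (x : ℕ) :
    ∃ i, x ≤ i ∧ i ≤ x + w ∧ 1 / (2 * (b : ℝ)) ≤ dn ((b : ℝ) ^ i * ((a : ℝ) / e)) := by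
  by_contra hcon
  push Not at hcon
  have hb2 : (2 : ℝ) ≤ b := by exact_mod_cast hb
  have hb0 : (0 : ℝ) < b := by linarith
  have he0 : (0 : ℝ) < e := by exact_mod_cast (by omega : 0 < e)
  obtain ⟨θ, hθ⟩ : ∃ θ : ℝ, θ = (a : ℝ) / e := ⟨_, rfl⟩
  rw [← hθ] at hcon
  have key : ∀ t ≤ w, round ((b : ℝ) ^ (x + t) * θ) = (b : ℤ) ^ t * round ((b : ℝ) ^ x * θ) := by
    intro t
    induction t with
    | zero => intro _; simp
    | succ t ih =>
      intro ht
      have h1 := ih (by omega)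
      have h2 := hcon (x + t) (by omega) (by omega)
      have h3 := hcon (x + (t + 1)) (by omega) (by omega)
      unfold dn at h2 h3
      have h4 : (b : ℝ) ^ (x + (t + 1)) * θ = b * ((b : ℝ) ^ (x + t) * θ) := by ring
      rw [h4] at h3 ⊢
      obtain ⟨u, hu⟩ : ∃ u : ℝ, u = (b : ℝ) ^ (x + t) * θ := ⟨_, rfl⟩
      rw [← hu] at h1 h2 h3 ⊢
      have h5 : |(round ((b : ℝ) * u) : ℝ) - b * round u| < 1 := by
        have h6 : (b : ℝ) * |u - round u| < 1 / 2 := by
          calc (b : ℝ) * |u - round u| < b * (1 / (2 * b)) := mul_lt_mul_of_pos_left h2 hb0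
            _ = 1 / 2 := by field_simp
        have h7 : |(b : ℝ) * u - b * round u| < 1 / 2 := by
          rw [← mul_sub, abs_mul, abs_of_pos hb0]
          exact h6
        have h8 : 1 / (2 * (b : ℝ)) ≤ 1 / 4 := by
          apply one_div_le_one_div_of_le (by norm_num)
          linarith
        calc |(round ((b : ℝ) * u) : ℝ) - b * round u| =
            |((b : ℝ) * u - b * round u) - ((b : ℝ) * u - round ((b : ℝ) * u))| := by
              congr 1; ring
          _ ≤ |(b : ℝ) * u - b * round u| + |(b : ℝ) * u - round ((b : ℝ) * u)| := abs_sub _ _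
          _ < 1 := by linarith
      have h9 : round ((b : ℝ) * u) = (b : ℤ) * round u := by
        have h10 : |round ((b : ℝ) * u) - (b : ℤ) * round u| < 1 := by
          have : ((|round ((b : ℝ) * u) - (b : ℤ) * round u| : ℤ) : ℝ) < ((1 : ℤ) : ℝ) := by
            push_cast
            exact h5
          exact_mod_cast this
        rw [Int.abs_lt_one_iff] at h10
        omega
      rw [h9, h1]
      ring
  have h1 := key w le_rfl
  have h2 := hcon (x + w) (by omega) le_rfl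
  unfold dn at h2
  rw [h1] at h2
  have h3 : |(b : ℝ) ^ (x + w) * θ - (((b : ℤ) ^ w * round ((b : ℝ) ^ x * θ) : ℤ) : ℝ)| =
      (b : ℝ) ^ w * |(b : ℝ) ^ x * θ - round ((b : ℝ) ^ x * θ)| := by
    have h4 : (b : ℝ) ^ (x + w) * θ - (((b : ℤ) ^ w * round ((b : ℝ) ^ x * θ) : ℤ) : ℝ) =
        (b : ℝ) ^ w * ((b : ℝ) ^ x * θ - round ((b : ℝ) ^ x * θ)) := by
      push_cast
      ring
    rw [h4, abs_mul, abs_of_nonneg (by positivity)]
  rw [h3] at h2
  -- the distance is at least 1 / e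
  have h5 : 1 / (e : ℝ) ≤ |(b : ℝ) ^ x * θ - round ((b : ℝ) ^ x * θ)| := by
    generalize round ((b : ℝ) ^ x * θ) = z
    have h6 : (b : ℝ) ^ x * θ - z = (((b : ℤ) ^ x * a - e * z : ℤ) : ℝ) / e := by
      rw [hθ]
      push_cast
      field_simp
    rw [h6, abs_div, abs_of_pos he0]
    apply div_le_div_of_nonneg_right _ he0.le
    have h7 : ((b : ℤ) ^ x * a - e * z) ≠ 0 := by
      intro h8
      have h9 : (e : ℤ) ∣ ((b ^ x * a : ℕ) : ℤ) := ⟨z, by push_cast; linarith⟩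
      rw [Int.natCast_dvd_natCast] at h9
      have h10 : e.Coprime (b ^ x * a) := Nat.Coprime.mul_right (heb.pow_right x) ha.symm
      have h11 : e ∣ 1 := by
        have := Nat.dvd_gcd dvd_rfl h9
        rwa [h10] at this
      have := Nat.dvd_one.1 h11
      omega
    have h8 : (1 : ℤ) ≤ |(b : ℤ) ^ x * a - e * z| := Int.one_le_abs h7
    have h9 : ((1 : ℤ) : ℝ) ≤ ((|(b : ℤ) ^ x * a - e * z| : ℤ) : ℝ) := by exact_mod_cast h8
    rw [Int.cast_abs] at h9
    exact_mod_cast h9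
  have h6 : (1 : ℝ) ≤ (b : ℝ) ^ w * |(b : ℝ) ^ x * θ - round ((b : ℝ) ^ x * θ)| := by
    have h7 : (e : ℝ) ≤ (b : ℝ) ^ w := by exact_mod_cast hew
    calc (1 : ℝ) = e * (1 / e) := by field_simp
      _ ≤ (b : ℝ) ^ w * |(b : ℝ) ^ x * θ - round ((b : ℝ) ^ x * θ)| :=
          mul_le_mul h7 h5 (by positivity) (by positivity)
  have h7 : 1 / (2 * (b : ℝ)) ≤ 1 / 4 := by
    apply one_div_le_one_div_of_le (by norm_num)
    linarith
  linarith

/-- the number of places with few digits -/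
def nf (b : ℕ) (A : ℕ → Finset ℕ) (u J : ℕ) : ℕ :=
  ((range J).filter (fun j => 2 * (A (u + j)).card < b + 2)).card

/-- a window with few poor places -/
lemma window {b : ℕ} (hb : 2 ≤ b) {A : ℕ → Finset ℕ} (hA : DS b A) {e a w t : ℕ} (he : 1 < e)
    (heb : e.Coprime b) (hew : e ≤ b ^ w) (ha : a.Coprime e) (htw : t ≤ w) (u : ℕ)
    (hn : nf b A u (2 * w + 1) ≤ t) :
    G b A u (2 * w + 1) ((a : ℝ) / e) ≤ 1 - 1 / (b : ℝ) ^ (2 * t + 3) := by
  have hb2 : (2 : ℝ) ≤ b := by exact_mod_cast hb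
  have hb0 : (0 : ℝ) < b := by linarith
  obtain ⟨i, hi1, hi2, hi3⟩ := exists_far hb he heb hew ha (u + w)
  -- a rich place among the last t + 1 places
  obtain ⟨j, hj, hjf⟩ : ∃ j ∈ Icc (i - u - t) (i - u), b + 2 ≤ 2 * (A (u + j)).card := by
    by_contra hcon
    push Not at hcon
    have h1 : Icc (i - u - t) (i - u) ⊆
        (range (2 * w + 1)).filter (fun j => 2 * (A (u + j)).card < b + 2) := by
      intro j hj
      rw [mem_filter, mem_range]
      refine ⟨?_, hcon j hj⟩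
      rw [mem_Icc] at hj
      omega
    have h2 := card_le_card h1
    rw [Nat.card_Icc] at h2
    unfold nf at hn
    omega
  rw [mem_Icc] at hj
  obtain ⟨d, hd, hd1⟩ := fat_pair (hA.sub (u + j)) hjf
  have h3 : dn ((b : ℝ) ^ i * ((a : ℝ) / e)) ≤ (b : ℝ) ^ t * dn ((b : ℝ) ^ (u + j) * ((a : ℝ) / e)) := by
    obtain ⟨r, hr⟩ : ∃ r, i = u + j + r := ⟨i - u - j, by omega⟩
    have hrt : r ≤ t := by omega
    rw [hr]
    refine (dn_pow_le b (u + j) r _).trans ?_
    apply mul_le_mul_of_nonneg_right _ (abs_nonneg _)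
    exact pow_le_pow_right₀ (by linarith) hrt
  have h4 : 1 / (2 * (b : ℝ) ^ (t + 1)) ≤ dn ((b : ℝ) ^ (u + j) * ((a : ℝ) / e)) := by
    have h5 := hi3.trans h3
    rw [div_le_iff₀ (by positivity)] at h5 ⊢
    rw [pow_succ]
    linarith
  have h6 : ph (A (u + j)) ((b : ℝ) ^ (u + j) * ((a : ℝ) / e)) ≤ 1 - 1 / (b : ℝ) ^ (2 * t + 3) := by
    refine (ph_fat (hA.sub (u + j)) hd hd1 _).trans ?_
    have h7 : (1 / (2 * (b : ℝ) ^ (t + 1))) ^ 2 ≤ dn ((b : ℝ) ^ (u + j) * ((a : ℝ) / e)) ^ 2 :=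
      pow_le_pow_left₀ (by positivity) h4 2
    have h8 : 1 / (b : ℝ) ^ (2 * t + 3) = 4 * (1 / (2 * (b : ℝ) ^ (t + 1))) ^ 2 / b := by
      field_simp
      ring
    rw [h8]
    have h9 : 4 * (1 / (2 * (b : ℝ) ^ (t + 1))) ^ 2 / b ≤
        4 * dn ((b : ℝ) ^ (u + j) * ((a : ℝ) / e)) ^ 2 / b := by gcongr
    linarith
  unfold G
  have hjm : j ∈ range (2 * w + 1) := by rw [mem_range]; omega
  rw [← mul_prod_erase _ _ hjm]
  refine le_trans ?_ h6
  apply mul_le_of_le_one_right (ph_nonneg _ _)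
  exact prod_le_one (fun _ _ => ph_nonneg _ _) (fun _ _ => ph_le_one _ _)

lemma nf_add (b : ℕ) (A : ℕ → Finset ℕ) (u J J' : ℕ) : nf b A u (J + J') = nf b A u J + nf b A (u + J) J' := by
  unfold nf
  simp only [card_filter]
  rw [sum_range_add]
  simp only [add_assoc]

lemma nf_blocks (b : ℕ) (A : ℕ → Finset ℕ) (J T : ℕ) :
    nf b A 0 (T * J) = ∑ j ∈ range T, nf b A (j * J) J := by
  induction T with
  | zero => simp [nf]
  | succ T ih => rw [Nat.succ_mul, nf_add, ih, sum_range_succ, Nat.zero_add]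

lemma many {b : ℕ} (hb : 2 ≤ b) {A : ℕ → Finset ℕ} (hA : DS b A) {e a w t : ℕ} (he : 1 < e)
    (heb : e.Coprime b) (hew : e ≤ b ^ w) (ha : a.Coprime e) (htw : t ≤ w) (K T g : ℕ)
    (hK : T * (2 * w + 1) ≤ K) (hn : nf b A 0 K ≤ (T - g) * (t + 1)) (hg : g ≤ T) :
    G b A 0 K ((a : ℝ) / e) ≤ (1 - 1 / (b : ℝ) ^ (2 * t + 3)) ^ g := by
  obtain ⟨R, rfl⟩ : ∃ R, K = T * (2 * w + 1) + R := ⟨K - T * (2 * w + 1), by omega⟩
  have hb2 : (2 : ℝ) ≤ b := by exact_mod_cast hb
  obtain ⟨ρ, hρ⟩ : ∃ ρ : ℝ, ρ = 1 - 1 / (b : ℝ) ^ (2 * t + 3) := ⟨_, rfl⟩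
  have hρ0 : 0 ≤ ρ := by
    rw [hρ, sub_nonneg, div_le_one (by positivity)]
    exact one_le_pow₀ (by linarith)
  have hρ1 : ρ ≤ 1 := by
    rw [hρ]
    have : 0 ≤ 1 / (b : ℝ) ^ (2 * t + 3) := by positivity
    linarith
  rw [← hρ, G_add]
  refine (mul_le_of_le_one_right (G_nonneg _ _ _ _ _) (G_le_one _ _ _ _ _)).trans ?_
  rw [G_blocks]
  obtain ⟨gd, hgd⟩ : ∃ gd, gd = (range T).filter (fun j => nf b A (j * (2 * w + 1)) (2 * w + 1) ≤ t) :=
    ⟨_, rfl⟩
  have h1 : ∏ j ∈ range T, G b A (j * (2 * w + 1)) (2 * w + 1) ((a : ℝ) / e) ≤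
      ∏ j ∈ range T, if nf b A (j * (2 * w + 1)) (2 * w + 1) ≤ t then ρ else 1 := by
    apply prod_le_prod
    · intro j _
      exact G_nonneg _ _ _ _ _
    · intro j _
      split_ifs with h
      · rw [hρ]
        exact window hb hA he heb hew ha htw _ h
      · exact G_le_one _ _ _ _ _
  refine h1.trans ?_
  rw [prod_ite, prod_const, prod_const_one, mul_one, ← hgd]
  apply pow_le_pow_of_le_one hρ0 hρ1
  -- counting
  have h2 : ((range T).filter (fun j => ¬ nf b A (j * (2 * w + 1)) (2 * w + 1) ≤ t)).card * (t + 1) ≤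
      nf b A 0 (T * (2 * w + 1) + R) := by
    rw [nf_add, nf_blocks]
    refine le_trans ?_ (Nat.le_add_right _ _)
    calc ((range T).filter (fun j => ¬ nf b A (j * (2 * w + 1)) (2 * w + 1) ≤ t)).card * (t + 1) =
        ∑ j ∈ (range T).filter (fun j => ¬ nf b A (j * (2 * w + 1)) (2 * w + 1) ≤ t), (t + 1) := by
          rw [sum_const, smul_eq_mul]
      _ ≤ ∑ j ∈ (range T).filter (fun j => ¬ nf b A (j * (2 * w + 1)) (2 * w + 1) ≤ t),
          nf b A (j * (2 * w + 1)) (2 * w + 1) := by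
          apply sum_le_sum
          intro j hj
          rw [mem_filter] at hj
          omega
      _ ≤ ∑ j ∈ range T, nf b A (j * (2 * w + 1)) (2 * w + 1) :=
          sum_le_sum_of_subset_of_nonneg (filter_subset _ _) (fun _ _ _ => Nat.zero_le _)
  have h3 : ((range T).filter (fun j => ¬ nf b A (j * (2 * w + 1)) (2 * w + 1) ≤ t)).card ≤ T - g :=
    Nat.le_of_mul_le_mul_right (h2.trans hn) (Nat.succ_pos t)
  have h4 := card_filter_add_card_filter_not (s := range T)
    (fun j => nf b A (j * (2 * w + 1)) (2 * w + 1) ≤ t)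
  rw [card_range, ← hgd] at h4
  omega

lemma nf_lo {b : ℕ} (hb : 2 ≤ b) {A : ℕ → Finset ℕ} (hA : DS b A) (K : ℕ) :
    (4 / 3 : ℝ) ^ nf b A 0 K ≤ lo b A 0 K := by
  have h1 : lo b A 0 K = ∏ j ∈ range K, ((b : ℝ) / (A j).card) := by
    unfold lo cd
    rw [prod_div_distrib, prod_const, card_range]
    push_cast
    simp
  have h2 : (4 / 3 : ℝ) ^ nf b A 0 K =
      ∏ j ∈ range K, if 2 * (A j).card < b + 2 then (4 / 3 : ℝ) else 1 := by
    rw [prod_ite, prod_const, prod_const_one, mul_one]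
    unfold nf
    simp
  rw [h1, h2]
  apply prod_le_prod
  · intro j _
    split_ifs <;> norm_num
  · intro j _
    have hc : 0 < (A j).card := (hA.ne j).card_pos
    have hc0 : (0 : ℝ) < (A j).card := by exact_mod_cast hc
    have hcb : (A j).card ≤ b := by
      have := card_le_card (hA.sub j)
      rwa [card_range] at this
    rw [le_div_iff₀ hc0]
    split_ifs with h
    · have h3 : 4 * (A j).card ≤ 3 * b := by omega
      have h4 : (4 : ℝ) * (A j).card ≤ 3 * b := by exact_mod_cast h3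
      linarith
    · rw [one_mul]
      exact_mod_cast hcb

end Pool.Agent.Y816.PD
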