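import Pool.Agent.Y816.PD.Chain

/-!
# Tuples at integers with restricted digits
-/

set_option autoImplicit false

namespace Pool.Agent.Y816.PD

open Finset Filter

/-- two disjoint prime constellations of the same shape show that there is no local obstruction -/
lemma adm2 (H : Finset ℕ) (m1 m2 : ℕ) (h1 : ∀ h ∈ H, (m1 + h).Prime) (h2 : ∀ h ∈ H, (m2 + h).Prime)
    (hne : ∀ h ∈ H, ∀ h' ∈ H, m1 + h ≠ m2 + h') (p : ℕ) (hp : p.Prime) : ∃ m : ℕ, ∀ h ∈ H, ¬ p ∣ m + h := by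
  by_cases hc : ∃ h ∈ H, p ∣ m1 + h
  · obtain ⟨h, hh, hd⟩ := hc
    have e1 := (Nat.prime_dvd_prime_iff_eq hp (h1 h hh)).1 hd
    refine ⟨m2, fun h' hh' hd' => ?_⟩
    have e2 := (Nat.prime_dvd_prime_iff_eq hp (h2 h' hh')).1 hd'
    exact hne h hh h' hh' (e1.symm.trans e2)
  · push Not at hc
    exact ⟨m1, hc⟩

/-- the final form for tuples -/
theorem tuple_final (H : Finset ℕ) (h0 : 0 ∈ H)
    (hadm : ∀ p : ℕ, p.Prime → ∃ m : ℕ, ∀ h ∈ H, ¬ p ∣ m + h) (k : ℕ) (hk : H.card = k) :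
    ∃ c : ℝ, 0 < c ∧ ∃ r₀ : ℕ, 2 ≤ r₀ ∧ ∀ r : ℕ, r₀ ≤ r →
      (∀ n : ℕ, (∀ h ∈ H, (n + h).Prime) →
        ∀ h ∈ H, ∀ p : ℕ, p.Prime → p ∣ n + h → (n : ℝ) ^ (1 / (r : ℝ)) < (p : ℝ)) ∧
      ∀ b : ℕ, 2 ≤ b → ∃ κ C : ℝ, 0 < κ ∧ 0 < C ∧ ∀ᶠ K : ℕ in atTop, ∀ A : ℕ → Finset ℕ,
        (∀ i < K, A i ⊆ range b) → (b : ℝ) ^ K ≤ Real.exp (c * K) * NA K A →
        ((∃ d ∈ A 0, ∀ h ∈ H, (d + h).Coprime b) → κ * NA K A / (K : ℝ) ^ k ≤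
          ND b K A {n | (∀ h ∈ H, ∀ p : ℕ, p.Prime → p ∣ n + h → (n : ℝ) ^ (1 / (r : ℝ)) < (p : ℝ)) ∧
            ∀ h ∈ H, (n + h).primeFactorsList.length ≤ r}) ∧
        (ND b K A {n | ∀ h ∈ H, ∀ p : ℕ, p.Prime → p ∣ n + h → (n : ℝ) ^ (1 / (r : ℝ)) < (p : ℝ)} : ℝ) ≤
          C * NA K A / (K : ℝ) ^ k := by
  obtain ⟨c, hc, r₀, hr₀, h⟩ := digits_tuple H hadm k hk
  refine ⟨c, hc, r₀, hr₀, fun r hr => ⟨fun n hn h hh p hp hd => ?_, fun b hb => ?_⟩⟩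
  · rw [(Nat.prime_dvd_prime_iff_eq hp (hn h hh)).1 hd]
    exact Pool.Agent.TH977.PW.rpow_lt_of_le r n (n + h) (hr₀.trans hr) (hn 0 h0).two_le (Nat.le_add_right _ _)
  · obtain ⟨κ, C, hκ, hC, h1⟩ := h r hr b hb
    refine ⟨κ, C, hκ, hC, ?_⟩
    filter_upwards [h1] with K hK A hA hprod
    refine ⟨fun hd => ?_, (hK A hA hprod).2⟩
    refine ((hK A hA hprod).1 hd).trans ?_
    have := ND_mono (b := b) (K := K) (A := A)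
      (S := {n | ∀ h ∈ H, (∀ p : ℕ, p.Prime → p ∣ n + h → (n : ℝ) ^ (1 / (r : ℝ)) < (p : ℝ)) ∧
            (n + h).primeFactorsList.length ≤ r})
      (T := {n | (∀ h ∈ H, ∀ p : ℕ, p.Prime → p ∣ n + h → (n : ℝ) ^ (1 / (r : ℝ)) < (p : ℝ)) ∧
            ∀ h ∈ H, (n + h).primeFactorsList.length ≤ r})
      (fun n hn => ⟨fun h hh => (hn h hh).1, fun h hh => (hn h hh).2⟩)
    exact_mod_cast this

end Pool.Agent.Y816.PD
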