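import Pool.Agent.Y816.PD.Inst

/-!
# The sieve for integers with restricted digits, uniformly in the system of residue classes
-/

set_option autoImplicit false

namespace Pool.Agent.Y816.PD

open Finset Filter
open Pool.Agent.H373R2.T7 Pool.Agent.H410R2.ED Pool.Agent.W123.RP Pool.Agent.H483R2.BHKD
open Pool.Agent.Helper112.LP Pool.Agent.Helper112.LP.Kba Pool.Agent.Helper112.LP.Kbh

lemma group_le (κ : ℕ) : ∃ n1 : ℕ, ∀ i : ℕ, ∏ l ∈ Gk κ i, (1 + (κ : ℝ) / l) ≤ 2 ^ n1 := by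
  obtain ⟨CM, hCM, hM⟩ := mertens_group
  set L : ℝ := Real.log 2 + CM with hLdef
  have hlog2 : 0 < Real.log 2 := Real.log_pos (by norm_num)
  have hLs : ∀ i : ℕ, ∑ l ∈ Gj (i + 1), (1 : ℝ) / l ≤ L := by
    intro i
    have h1 := (abs_le.1 (hM (i + 1) (by omega))).2
    have h2 : CM / 2 ^ (i + 1) ≤ CM := div_le_self hCM.le (one_le_pow₀ (by norm_num))
    rw [hLdef]; linarith
  obtain ⟨n1, hn1⟩ := exists_nat_ge (κ * L / Real.log 2)
  rw [div_le_iff₀ hlog2] at hn1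
  refine ⟨n1, fun i => ?_⟩
  calc ∏ l ∈ Gk κ i, (1 + (κ : ℝ) / l) ≤ ∏ l ∈ Gk κ i, Real.exp ((κ : ℝ) * (1 / l)) := by
        apply Finset.prod_le_prod
        · intro l _; positivity
        · intro l _
          have := Real.add_one_le_exp ((κ : ℝ) * (1 / l))
          rw [mul_one_div] at this ⊢
          linarith
    _ = Real.exp (κ * ∑ l ∈ Gk κ i, 1 / (l : ℝ)) := by rw [← Real.exp_sum, mul_sum]
    _ ≤ Real.exp (κ * L) := by
        apply Real.exp_le_exp.2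
        apply mul_le_mul_of_nonneg_left _ (Nat.cast_nonneg _)
        refine le_trans ?_ (hLs i)
        apply sum_le_sum_of_subset_of_nonneg (Gk_sub κ i)
        intro l _ _
        positivity
    _ ≤ Real.exp (n1 * Real.log 2) := Real.exp_le_exp.2 hn1
    _ = 2 ^ n1 := by rw [Real.exp_nat_mul, Real.exp_log (by norm_num)]

/-- primes and local factors -/
structure Fac (κ : ℕ) (φ : ℕ → ℝ) : Prop where
  one : ∀ l : ℕ, l.Prime → 0 < φ l ∧ φ l ≤ 1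
  inv : ∀ l : ℕ, l.Prime → 1 ≤ φ l * l
  two : ∀ l : ℕ, l.Prime → 2 * κ < l → 1 ≤ φ l * (1 + (κ : ℝ) / l) ^ 2

lemma fac_nuB {κ : ℕ} {Q : ℕ → ℕ → Prop} (hQ : PerB Q κ) (hadm : ∀ p : ℕ, p.Prime → nuB Q p < p) :
    Fac κ (fun p => 1 - (nuB Q p : ℝ) / p) := by
  refine ⟨fun l hl => fac_mem Q hadm hl, fun l hl => ?_, fun l hl hlk => ?_⟩
  · have hl0 : (0 : ℝ) < l := by exact_mod_cast hl.pos
    have h1 : (nuB Q l : ℝ) + 1 ≤ l := by exact_mod_cast hadm l hl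
    rw [sub_mul, one_mul, div_mul_cancel₀ _ hl0.ne']
    linarith
  · have hl0 : (0 : ℝ) < l := by exact_mod_cast hl.pos
    have h1 : (nuB Q l : ℝ) / l ≤ (κ : ℝ) / l := by
      apply div_le_div_of_nonneg_right _ hl0.le
      exact_mod_cast hQ.few l hl
    have h2 : (κ : ℝ) / l ≤ 1 / 2 := by
      rw [div_le_div_iff₀ hl0 (by norm_num)]
      have : (2 : ℝ) * κ < l := by exact_mod_cast hlk
      linarith
    have h3 : 0 ≤ (κ : ℝ) / l := by positivity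
    obtain ⟨x, hx⟩ : ∃ x, x = (κ : ℝ) / l := ⟨_, rfl⟩
    rw [← hx] at h1 h2 h3 ⊢
    calc (1 : ℝ) ≤ (1 - x) * (1 + x) ^ 2 := by nlinarith [mul_nonneg h3 h3]
      _ ≤ (1 - (nuB Q l : ℝ) / l) * (1 + x) ^ 2 := by
          apply mul_le_mul_of_nonneg_right _ (by positivity)
          linarith

/-- the product over the primes of `Pr κ J` not dividing `b` -/
noncomputable def WJ (κ b : ℕ) (φ : ℕ → ℝ) (J : ℕ) : ℝ := ∏ l ∈ (Pr κ J).filter (fun l => ¬ l ∣ b), φ l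

lemma Pr_prime {κ J l : ℕ} (h : l ∈ Pr κ J) : l.Prime := (mem_filter.1 h).2.1

lemma Gk_prime {κ i l : ℕ} (h : l ∈ Gk κ i) : l.Prime := by
  have := bh_Gj_mem (Gk_sub κ i h)
  exact this.1

lemma W_step {κ n1 : ℕ} (b : ℕ) (h : ∀ i : ℕ, ∏ l ∈ Gk κ i, (1 + (κ : ℝ) / l) ≤ 2 ^ n1) {φ : ℕ → ℝ}
    (hφ : Fac κ φ) (J : ℕ) : WJ κ b φ J ≤ 4 ^ n1 * WJ κ b φ (J + 1) := by
  classical
  unfold WJ
  obtain ⟨S, hS⟩ : ∃ S, S = (Pr κ J).filter (fun l => ¬ l ∣ b) := ⟨_, rfl⟩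
  obtain ⟨S', hS'⟩ : ∃ S', S' = (Pr κ (J + 1)).filter (fun l => ¬ l ∣ b) := ⟨_, rfl⟩
  rw [← hS, ← hS']
  have hSp : ∀ l ∈ S, l.Prime := fun l hl => by
    rw [hS, mem_filter] at hl
    exact Pr_prime hl.1
  have hGp : ∀ l ∈ Gk κ J, l.Prime := fun l hl => Gk_prime hl
  have hsub : S' ⊆ S ∪ Gk κ J := by
    intro l hl
    rw [hS', mem_filter] at hl
    obtain ⟨h1, h2⟩ := hl
    unfold Pr at h1
    rw [mem_filter, mem_range] at h1
    obtain ⟨h3, h4, h5⟩ := h1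
    rw [mem_union]
    obtain ⟨i, hi⟩ := bh_cover h4 h3
    by_cases hiJ : (i : ℕ) = J
    · right
      unfold Gk
      rw [mem_filter]
      rw [hiJ] at hi
      exact ⟨hi, h5⟩
    · left
      have hlt : (i : ℕ) < J := by omega
      have h6 := (bh_Gj_mem hi).2.2
      rw [hS, mem_filter]
      unfold Pr
      rw [mem_filter, mem_range]
      refine ⟨⟨lt_of_lt_of_le h6 ?_, h4, h5⟩, h2⟩
      exact Nat.pow_le_pow_right (by norm_num) (Nat.pow_le_pow_right (by norm_num) hlt)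
  have h1 : ∏ l ∈ S ∪ Gk κ J, φ l ≤ ∏ l ∈ S', φ l := by
    rw [← prod_sdiff hsub]
    have hp : ∀ l ∈ (S ∪ Gk κ J) \ S', l.Prime := fun l hl => by
      rw [Finset.mem_sdiff, mem_union] at hl
      rcases hl.1 with h | h
      · exact hSp l h
      · exact hGp l h
    apply mul_le_of_le_one_left
    · exact prod_nonneg fun l hl => (hφ.one l (by
        rw [hS', mem_filter] at hl
        exact Pr_prime hl.1)).1.le
    · exact prod_le_one (fun l hl => (hφ.one l (hp l hl)).1.le) (fun l hl => (hφ.one l (hp l hl)).2)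
  have h2 : (∏ l ∈ S, φ l) * ∏ l ∈ Gk κ J, φ l ≤ ∏ l ∈ S ∪ Gk κ J, φ l := by
    rw [← prod_union_inter]
    apply mul_le_of_le_one_right
    · exact prod_nonneg fun l hl => (hφ.one l (by
        rw [mem_union] at hl
        rcases hl with h | h
        · exact hSp l h
        · exact hGp l h)).1.le
    · exact prod_le_one (fun l hl => (hφ.one l (hGp l (mem_inter.1 hl).2)).1.le)
        (fun l hl => (hφ.one l (hGp l (mem_inter.1 hl).2)).2)
  have h3 : (1 : ℝ) ≤ (∏ l ∈ Gk κ J, φ l) * 4 ^ n1 := by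
    calc (1 : ℝ) = ∏ l ∈ Gk κ J, (1 : ℝ) := by simp
      _ ≤ ∏ l ∈ Gk κ J, (φ l * (1 + (κ : ℝ) / l) ^ 2) :=
          prod_le_prod (fun _ _ => zero_le_one) (fun l hl => hφ.two l (hGp l hl) (mem_filter.1 hl).2)
      _ = (∏ l ∈ Gk κ J, φ l) * (∏ l ∈ Gk κ J, (1 + (κ : ℝ) / l)) ^ 2 := by
          rw [prod_mul_distrib, prod_pow]
      _ ≤ (∏ l ∈ Gk κ J, φ l) * (2 ^ n1) ^ 2 := by
          apply mul_le_mul_of_nonneg_left
          · exact pow_le_pow_left₀ (prod_nonneg fun l _ => by positivity) (h J) 2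
          · exact prod_nonneg fun l hl => (hφ.one l (hGp l hl)).1.le
      _ = _ := by
          rw [show (4 : ℝ) = 2 ^ 2 by norm_num, ← pow_mul, ← pow_mul, mul_comm n1 2]
  have hS0 : 0 ≤ ∏ l ∈ S, φ l := prod_nonneg fun l hl => (hφ.one l (hSp l hl)).1.le
  calc ∏ l ∈ S, φ l ≤ (∏ l ∈ S, φ l) * ((∏ l ∈ Gk κ J, φ l) * 4 ^ n1) := le_mul_of_one_le_right hS0 h3
    _ = 4 ^ n1 * ((∏ l ∈ S, φ l) * ∏ l ∈ Gk κ J, φ l) := by ring
    _ ≤ 4 ^ n1 * ∏ l ∈ S', φ l := mul_le_mul_of_nonneg_left (h2.trans h1) (by positivity)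

lemma W_many {κ n1 : ℕ} (b : ℕ) (h : ∀ i : ℕ, ∏ l ∈ Gk κ i, (1 + (κ : ℝ) / l) ≤ 2 ^ n1) {φ : ℕ → ℝ}
    (hφ : Fac κ φ) (J m : ℕ) : WJ κ b φ J ≤ (4 ^ n1) ^ m * WJ κ b φ (J + m) := by
  induction m with
  | zero => simp
  | succ m ih =>
    refine ih.trans ?_
    rw [pow_succ, mul_assoc]
    apply mul_le_mul_of_nonneg_left _ (by positivity)
    exact W_step b h hφ (J + m)

lemma WJ_pos {κ : ℕ} (b : ℕ) {φ : ℕ → ℝ} (hφ : Fac κ φ) (J : ℕ) : 0 < WJ κ b φ J := by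
  unfold WJ
  apply prod_pos
  intro l hl
  rw [mem_filter] at hl
  exact (hφ.one l (Pr_prime hl.1)).1

/-- the product is not too small -/
lemma W_low {κ n1 : ℕ} (b : ℕ) (h : ∀ i : ℕ, ∏ l ∈ Gk κ i, (1 + (κ : ℝ) / l) ≤ 2 ^ n1) {φ : ℕ → ℝ}
    (hφ : Fac κ φ) (J : ℕ) : 1 ≤ ((2 : ℝ) ^ J) ^ (2 * n1) * WJ κ b φ J := by
  have h1 := W_many b h hφ 0 J
  rw [Nat.zero_add] at h1
  have h2 : WJ κ b φ 0 = 1 := by
    unfold WJ
    have : (Pr κ 0).filter (fun l => ¬ l ∣ b) = ∅ := by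
      rw [filter_eq_empty_iff]
      intro l hl
      unfold Pr at hl
      rw [mem_filter, mem_range] at hl
      have := hl.2.1.two_le
      norm_num at hl
      omega
    rw [this, prod_empty]
  rw [h2] at h1
  have h3 : ((4 : ℝ) ^ n1) ^ J = ((2 : ℝ) ^ J) ^ (2 * n1) := by
    rw [show (4 : ℝ) = 2 ^ 2 by norm_num, ← pow_mul, ← pow_mul, ← pow_mul]
    congr 1
    ring
  rwa [h3] at h1

/-- the product over all primes `≤ x` -/
lemma V_le_WJ {κ b J x : ℕ} {Q : ℕ → ℕ → Prop} (hadm : ∀ p : ℕ, p.Prime → nuB Q p < p) (hx : 2 ^ 2 ^ J ≤ x) :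
    Vq Q x ≤ WJ κ b (fun p => 1 - (nuB Q p : ℝ) / p) J := by
  unfold Vq WJ
  have hsub : (Pr κ J).filter (fun l => ¬ l ∣ b) ⊆ pz x := by
    intro l hl
    have := mem_pz.1 (Pr_sub κ b J hl)
    exact mem_pz.2 ⟨this.1.trans hx, this.2⟩
  rw [← prod_sdiff hsub]
  apply mul_le_of_le_one_left
  · exact prod_nonneg fun l hl => (fac_mem Q hadm (mem_pz.1 (hsub hl)).2).1.le
  · exact prod_le_one (fun l hl => (fac_mem Q hadm (mem_pz.1 (Finset.mem_sdiff.1 hl).1).2).1.le)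
      (fun l hl => (fac_mem Q hadm (mem_pz.1 (Finset.mem_sdiff.1 hl).1).2).2)

lemma WJ_le_V {κ n1 b m : ℕ} (hb : 0 < b) (h : ∀ i : ℕ, ∏ l ∈ Gk κ i, (1 + (κ : ℝ) / l) ≤ 2 ^ n1)
    {Q : ℕ → ℕ → Prop} (hQ : PerB Q κ) (hadm : ∀ p : ℕ, p.Prime → nuB Q p < p) {J x : ℕ}
    (hx : x < 2 ^ 2 ^ (J + m)) :
    WJ κ b (fun p => 1 - (nuB Q p : ℝ) / p) J ≤
      (4 ^ n1) ^ m * (∏ p ∈ pz (2 * κ + b), (p : ℝ)) * Vq Q x := by
  classical
  have hφ := fac_nuB hQ hadm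
  obtain ⟨φ, hφd⟩ : ∃ φ : ℕ → ℝ, φ = fun p => 1 - (nuB Q p : ℝ) / p := ⟨_, rfl⟩
  have hV : Vq Q x = ∏ p ∈ pz x, φ p := by rw [hφd]; rfl
  rw [hV]
  rw [← hφd] at hφ ⊢
  refine (W_many b h hφ J m).trans ?_
  rw [mul_assoc]
  apply mul_le_mul_of_nonneg_left _ (by positivity)
  unfold WJ
  obtain ⟨S, hS⟩ : ∃ S, S = (Pr κ (J + m)).filter (fun l => ¬ l ∣ b) := ⟨_, rfl⟩
  rw [← hS]
  have hSp : ∀ l ∈ S, l.Prime := fun l hl => by
    rw [hS, mem_filter] at hl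
    exact Pr_prime hl.1
  have hZp : ∀ l ∈ pz (2 * κ + b), l.Prime := fun l hl => (mem_pz.1 hl).2
  have hsub : pz x ⊆ S ∪ pz (2 * κ + b) := by
    intro p hp
    rw [mem_pz] at hp
    rw [mem_union]
    by_cases hpb : p ≤ 2 * κ + b
    · exact Or.inr (mem_pz.2 ⟨hpb, hp.2⟩)
    · left
      rw [hS, mem_filter]
      unfold Pr
      rw [mem_filter, mem_range]
      refine ⟨⟨by omega, hp.2, by omega⟩, fun hd => ?_⟩
      have := Nat.le_of_dvd hb hd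
      omega
  have h1 : ∏ l ∈ S ∪ pz (2 * κ + b), φ l ≤ ∏ l ∈ pz x, φ l := by
    rw [← prod_sdiff hsub]
    have hp : ∀ l ∈ (S ∪ pz (2 * κ + b)) \ pz x, l.Prime := fun l hl => by
      rw [Finset.mem_sdiff, mem_union] at hl
      rcases hl.1 with h | h
      · exact hSp l h
      · exact hZp l h
    apply mul_le_of_le_one_left
    · exact prod_nonneg fun l hl => (hφ.one l (mem_pz.1 hl).2).1.le
    · exact prod_le_one (fun l hl => (hφ.one l (hp l hl)).1.le) (fun l hl => (hφ.one l (hp l hl)).2)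
  have h2 : (∏ l ∈ S, φ l) * ∏ l ∈ pz (2 * κ + b), φ l ≤ ∏ l ∈ S ∪ pz (2 * κ + b), φ l := by
    rw [← prod_union_inter]
    apply mul_le_of_le_one_right
    · exact prod_nonneg fun l hl => (hφ.one l (by
        rw [mem_union] at hl
        rcases hl with h | h
        · exact hSp l h
        · exact hZp l h)).1.le
    · exact prod_le_one (fun l hl => (hφ.one l (hZp l (mem_inter.1 hl).2)).1.le)
        (fun l hl => (hφ.one l (hZp l (mem_inter.1 hl).2)).2)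
  have h3 : (1 : ℝ) ≤ (∏ l ∈ pz (2 * κ + b), φ l) * ∏ p ∈ pz (2 * κ + b), (p : ℝ) := by
    rw [← prod_mul_distrib]
    calc (1 : ℝ) = ∏ l ∈ pz (2 * κ + b), (1 : ℝ) := by simp
      _ ≤ _ := prod_le_prod (fun _ _ => zero_le_one) (fun l hl => hφ.inv l (hZp l hl))
  have hS0 : 0 ≤ ∏ l ∈ S, φ l := prod_nonneg fun l hl => (hφ.one l (hSp l hl)).1.le
  calc ∏ l ∈ S, φ l ≤ (∏ l ∈ S, φ l) * ((∏ l ∈ pz (2 * κ + b), φ l) * ∏ p ∈ pz (2 * κ + b), (p : ℝ)) :=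
        le_mul_of_one_le_right hS0 h3
    _ = (∏ p ∈ pz (2 * κ + b), (p : ℝ)) * ((∏ l ∈ S, φ l) * ∏ l ∈ pz (2 * κ + b), φ l) := by ring
    _ ≤ (∏ p ∈ pz (2 * κ + b), (p : ℝ)) * ∏ l ∈ pz x, φ l :=
        mul_le_mul_of_nonneg_left (h2.trans h1) (prod_nonneg fun _ _ => Nat.cast_nonneg _)

open Classical in
/-- **Uniform lower bound.** -/
theorem uni_lower (κ0 : ℕ) (hκ0 : 1 ≤ κ0) :
    ∃ c : ℝ, 0 < c ∧ ∃ E0 : ℕ, 1 ≤ E0 ∧ ∀ b : ℕ, 2 ≤ b → ∃ κ : ℝ, 0 < κ ∧ ∀ᶠ K : ℕ in atTop,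
      ∀ Q : ℕ → ℕ → Prop, PerB Q κ0 → (∀ p : ℕ, p.Prime → nuB Q p < p) →
      ∀ A : ℕ → Finset ℕ, (∀ i < K, A i ⊆ range b) → (b : ℝ) ^ K ≤ Real.exp (c * K) * NA K A →
      (∃ d ∈ A 0, ∀ p : ℕ, p.Prime → p ∣ b → ¬ Q p d) →
      κ * NA K A * Vq Q (b ^ K) ≤ ND b K A {n | ∀ p : ℕ, p.Prime → p ^ E0 ≤ b ^ K → ¬ Q p n} := by
  obtain ⟨ng, hng⟩ := group_le κ0
  obtain ⟨c0, hc0, n1, hsv'⟩ := sv κ0 hκ0
  obtain ⟨k, hk⟩ : ∃ k, k = 2 * ng := ⟨_, rfl⟩
  obtain ⟨c, hc, hc1, hlev'⟩ := lev (n1 + k + 1)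
  refine ⟨c / 2, by positivity, 64 * c0 + 1, by omega, ?_⟩
  intro b hb
  have hsv := hsv' b hb
  obtain ⟨D0, hD0⟩ : ∃ D0, D0 = (range (2 * κ0 + 1)).filter (fun p => p.Prime ∧ ¬ p ∣ b) := ⟨_, rfl⟩
  have hD0p : ∀ p ∈ D0, p.Prime := fun p hp => by
    rw [hD0, mem_filter] at hp
    exact hp.2.1
  obtain ⟨M, hM⟩ : ∃ M, M = ∏ p ∈ D0, p := ⟨_, rfl⟩
  have hMpos : 0 < M := by rw [hM]; exact prod_pos fun p hp => (hD0p p hp).pos
  have hMb : M.Coprime b := by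
    rw [hM]
    apply Nat.Coprime.prod_left
    intro p hp
    have h1 := hp
    rw [hD0, mem_filter] at h1
    exact ((hD0p p hp).coprime_iff_not_dvd).2 h1.2.2
  have hMs : ∀ p : ℕ, p.Prime → p ∣ M → p ≤ 2 * κ0 := by
    intro p hp hd
    rw [hM] at hd
    obtain ⟨q, hq, hdq⟩ := hp.prime.exists_mem_finset_dvd hd
    have h1 := (Nat.prime_dvd_prime_iff_eq hp (hD0p q hq)).1 hdq
    rw [hD0, mem_filter, mem_range] at hq
    omega
  obtain ⟨C1, hC1, hsv1⟩ := hsv M hMpos hMb hMs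
  obtain ⟨C2, hC2, K0, hlev⟩ := hlev' b hb
  have hM1 : (1 : ℝ) ≤ M := by exact_mod_cast hMpos
  have hM0 : (0 : ℝ) < M := by linarith
  have hb2 : (2 : ℝ) ≤ b := by exact_mod_cast hb
  have hb0 : (0 : ℝ) < b := by linarith
  obtain ⟨κ, hκ⟩ : ∃ κ : ℝ, κ = 1 / (4 * b * M) := ⟨_, rfl⟩
  have hκpos : 0 < κ := by rw [hκ]; positivity
  refine ⟨κ, hκpos, ?_⟩
  filter_upwards [eventually_ge_atTop K0, eventually_ge_atTop (4 * (16 * c0 * (M + 1))),
    tendsto_natCast_atTop_atTop.eventually_ge_atTop (2 * Real.log b / c),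
    tendsto_natCast_atTop_atTop.eventually_ge_atTop (C1 * C2 * (b : ℝ) ^ (n1 + k) * (4 * M))]
    with K hK1 hK2 hK4 hK5
  intro Q hQ hadm A hA hprod hd
  obtain ⟨n0, hn0⟩ := exists_class Q hQ.per hadm D0 hD0p
  obtain ⟨d, hdA, hdcop⟩ := hd
  have hK2' : 16 * c0 * (M + 1) ≤ K / 4 := by omega
  obtain ⟨J, hJ1, hJ2, hJ3, hJ4, hJ5⟩ := chooseJ (b := b) hb hc0 hK2'
  have hKpos : 0 < K := by
    have : 0 < 16 * c0 * (M + 1) := by positivity
    omega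
  have hKr : (0 : ℝ) < K := by exact_mod_cast hKpos
  -- the sets of digits
  obtain ⟨A', hA'⟩ : ∃ A' : ℕ → Finset ℕ, A' = fun i => if i = 0 then {d} else if i < K then A i else range b :=
    ⟨_, rfl⟩
  unfold NA at hprod ⊢
  have hne : ∀ i < K, 0 < (A i).card := by
    intro i hi
    by_contra hcon
    have h0 : (A i).card = 0 := by omega
    have h1 : ∏ i ∈ range K, ((A i).card : ℝ) = 0 :=
      prod_eq_zero (mem_range.2 hi) (by rw [h0]; simp)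
    rw [h1, mul_zero] at hprod
    have : 0 < (b : ℝ) ^ K := by positivity
    linarith
  have hDS : DS b A' := by
    constructor
    · intro i
      rw [hA']
      simp only
      split_ifs with h1 h2
      · exact singleton_subset_iff.2 (hA 0 hKpos hdA)
      · exact hA i h2
      · exact subset_rfl
    · intro i
      rw [hA']
      simp only
      split_ifs with h1 h2
      · exact singleton_nonempty d
      · exact card_pos.1 (hne i h2)
      · exact nonempty_range_iff.2 (by omega)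
  have hsub : dset b K A' ⊆ dset b K A := by
    intro n hn
    unfold dset at hn ⊢
    rw [mem_filter] at hn ⊢
    refine ⟨hn.1, fun i hi => ?_⟩
    have h1 := hn.2 i hi
    rw [hA'] at h1
    simp only at h1
    split_ifs at h1 with h2
    · subst h2
      rw [mem_singleton] at h1
      rw [h1]
      exact hdA
    · exact h1
  have hcd : (cd A 0 K : ℝ) ≤ b * cd A' 0 K := by
    obtain ⟨K', rfl⟩ : ∃ K', K = K' + 1 := ⟨K - 1, by omega⟩
    have h1 : cd A 0 (K' + 1) ≤ b * cd A' 0 (K' + 1) := by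
      unfold cd
      rw [prod_range_succ', prod_range_succ', mul_comm]
      simp only [Nat.zero_add]
      have h2 : (A' 0).card = 1 := by rw [hA']; simp
      have h3 : ∏ i ∈ range K', (A (i + 1)).card = ∏ i ∈ range K', (A' (i + 1)).card := by
        apply prod_congr rfl
        intro i hi
        rw [mem_range] at hi
        rw [hA']
        simp only
        rw [if_neg (by omega), if_pos (by omega)]
      rw [h2, mul_one, h3]
      apply Nat.mul_le_mul_right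
      have := card_le_card (hA 0 hKpos)
      rwa [card_range] at this
    exact_mod_cast h1
  have hcd'0 : (0 : ℝ) < cd A' 0 K := by exact_mod_cast cd_pos hDS 0 K
  have hlo : lo b A' 0 K ≤ Real.exp (c * K) := by
    unfold lo
    rw [div_le_iff₀ hcd'0]
    have h3 : (b : ℝ) * Real.exp (c / 2 * K) ≤ Real.exp (c * K) := by
      nth_rewrite 1 [← Real.exp_log hb0]
      rw [← Real.exp_add]
      apply Real.exp_le_exp.2
      rw [div_le_iff₀ hc] at hK4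
      linarith
    rw [← cd_eq] at hprod
    calc (b : ℝ) ^ K ≤ Real.exp (c / 2 * K) * cd A 0 K := hprod
      _ ≤ Real.exp (c / 2 * K) * (b * cd A' 0 K) := mul_le_mul_of_nonneg_left hcd (Real.exp_pos _).le
      _ = ((b : ℝ) * Real.exp (c / 2 * K)) * cd A' 0 K := by ring
      _ ≤ _ := mul_le_mul_of_nonneg_right h3 hcd'0.le
  have hH := hlev K hK1 A' hDS hlo
  have hmain := (hsv1 Q hQ n0 J K A' hDS hJ1).1
  obtain ⟨S, hS⟩ : ∃ S, S = (dset b K A').filter (fun n => n % M = n0 % M ∧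
    ∀ l ∈ Pr κ0 J, ¬ l ∣ b → ¬ Q l n) := ⟨_, rfl⟩
  rw [← hS] at hmain
  have hSN : S.card ≤ ND b K A {n | ∀ p : ℕ, p.Prime → p ^ (64 * c0 + 1) ≤ b ^ K → ¬ Q p n} := by
    unfold ND
    apply card_le_card
    intro n hn
    have hnD : n ∈ dset b K A := hsub (by rw [hS, mem_filter] at hn; exact hn.1)
    unfold dset at hnD
    rw [mem_filter] at hnD ⊢
    refine ⟨hnD.1, hnD.2, ?_⟩
    intro p hp hpE hq
    have hpy : p < 2 ^ 2 ^ J := by
      by_contra hcon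
      push Not at hcon
      have h1 : (2 ^ 2 ^ J) ^ (64 * c0 + 1) ≤ p ^ (64 * c0 + 1) := Nat.pow_le_pow_left hcon _
      have h2 : (2 ^ 2 ^ J) ^ (64 * c0) < (2 ^ 2 ^ J) ^ (64 * c0 + 1) :=
        Nat.pow_lt_pow_right (by omega) (by omega)
      omega
    rw [hS, mem_filter] at hn
    obtain ⟨hn1, hn2, hn3⟩ := hn
    by_cases hpb : p ∣ b
    · unfold dset at hn1
      rw [mem_filter] at hn1
      have h1 := hn1.2 0 hKpos
      rw [hA'] at h1
      simp only [pow_zero, Nat.div_one, if_true, mem_singleton] at h1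
      have h2 : n % p = d % p := by
        rw [← h1, Nat.mod_mod_of_dvd _ hpb]
      apply hdcop p hp hpb
      rw [hQ.per, ← h2, ← hQ.per]
      exact hq
    · by_cases hpk : p ≤ 2 * κ0
      · have hpD : p ∈ D0 := by
          rw [hD0, mem_filter, mem_range]
          exact ⟨by omega, hp, hpb⟩
        have hpM : p ∣ M := by
          rw [hM]
          exact dvd_prod_of_mem (fun p => p) hpD
        apply hn0 p hpD
        rw [hQ.per, ← Nat.mod_mod_of_dvd n0 hpM, ← hn2, Nat.mod_mod_of_dvd n hpM, ← hQ.per]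
        exact hq
      · refine hn3 p ?_ hpb hq
        unfold Pr
        rw [mem_filter, mem_range]
        exact ⟨hpy, hp, by omega⟩
  have hSN' : (S.card : ℝ) ≤ ND b K A {n | ∀ p : ℕ, p.Prime → p ^ (64 * c0 + 1) ≤ b ^ K → ¬ Q p n} := by
    exact_mod_cast hSN
  refine le_trans ?_ (hmain.trans hSN')
  -- the count
  have hφ := fac_nuB hQ hadm
  have hx : 2 ^ 2 ^ J ≤ b ^ K := by
    calc 2 ^ 2 ^ J ≤ (2 ^ 2 ^ J) ^ (4 * c0) := Nat.le_self_pow (by omega) _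
      _ ≤ b ^ (K / 4) := hJ4
      _ ≤ b ^ K := Nat.pow_le_pow_right (by omega) (Nat.div_le_self _ _)
  have hVW := V_le_WJ (κ := κ0) (b := b) hadm hx
  have hWl := W_low b hng hφ J
  have hW0 := WJ_pos b hφ J
  obtain ⟨W, hW⟩ : ∃ W, W = WJ κ0 b (fun p => 1 - (nuB Q p : ℝ) / p) J := ⟨_, rfl⟩
  have hWe : ∏ l ∈ (Pr κ0 J).filter (fun l => ¬ l ∣ b), (1 - (nuB Q l : ℝ) / l) = W := hW.symm
  rw [hWe]
  rw [← hW] at hVW hWl hW0
  rw [← cd_eq]
  have h8 : ((2 : ℝ) ^ J) ≤ b * K := by exact_mod_cast hJ5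
  have h6 : κ * cd A 0 K * Vq Q (b ^ K) ≤ (cd A' 0 K : ℝ) / M / 4 * W := by
    calc κ * cd A 0 K * Vq Q (b ^ K) ≤ κ * (b * cd A' 0 K) * W := by
          apply mul_le_mul _ hVW (Finset.prod_nonneg fun p hp => (hφ.one p (mem_pz.1 hp).2).1.le)
            (by positivity)
          exact mul_le_mul_of_nonneg_left hcd hκpos.le
      _ = _ := by
          rw [hκ]
          field_simp
  have h7 : C1 * cd A' 0 K * ((2 : ℝ) ^ J) ^ n1 * HH b K A' ≤ (cd A' 0 K : ℝ) / M / 4 * W := by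
    have hWl2 : 1 ≤ ((b : ℝ) * K) ^ k * W := by
      refine hWl.trans ?_
      rw [← hk]
      apply mul_le_mul_of_nonneg_right _ hW0.le
      exact pow_le_pow_left₀ (by positivity) h8 k
    calc C1 * cd A' 0 K * ((2 : ℝ) ^ J) ^ n1 * HH b K A' ≤
        C1 * cd A' 0 K * (b * K) ^ n1 * (C2 / (K : ℝ) ^ (n1 + k + 1)) := by
          have := HH_nonneg b K A'
          gcongr
      _ = (C1 * C2 * (b : ℝ) ^ n1) * cd A' 0 K / (K : ℝ) ^ (k + 1) * 1 := by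
          rw [mul_pow, pow_add, pow_add, pow_add, pow_one]
          field_simp
      _ ≤ (C1 * C2 * (b : ℝ) ^ n1) * cd A' 0 K / (K : ℝ) ^ (k + 1) * (((b : ℝ) * K) ^ k * W) := by
          apply mul_le_mul_of_nonneg_left hWl2 (by positivity)
      _ = (C1 * C2 * (b : ℝ) ^ (n1 + k) * (4 * M)) * (cd A' 0 K / M / 4 * W) / K := by
          rw [mul_pow, pow_add, pow_add, pow_one]
          field_simp
      _ ≤ K * (cd A' 0 K / M / 4 * W) / K := by
          apply div_le_div_of_nonneg_right _ hKr.le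
          exact mul_le_mul_of_nonneg_right hK5 (by positivity)
      _ = _ := by field_simp
  have h9 : (cd A' 0 K : ℝ) / M / 2 * W = (cd A' 0 K : ℝ) / M / 4 * W + (cd A' 0 K : ℝ) / M / 4 * W := by ring
  linarith

open Classical in
/-- **Uniform upper bound.** -/
theorem uni_upper (κ0 : ℕ) (hκ0 : 1 ≤ κ0) :
    ∃ c : ℝ, 0 < c ∧ ∀ b : ℕ, 2 ≤ b → ∀ r : ℕ, 1 ≤ r → ∃ C : ℝ, 0 < C ∧ ∀ᶠ K : ℕ in atTop,
      ∀ Q : ℕ → ℕ → Prop, PerB Q κ0 → (∀ p : ℕ, p.Prime → nuB Q p < p) →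
      ∀ A : ℕ → Finset ℕ, (∀ i < K, A i ⊆ range b) → (b : ℝ) ^ K ≤ Real.exp (c * K) * NA K A →
      (ND b K A {n | ∀ p : ℕ, p.Prime → p ^ r ≤ n → ¬ Q p n} : ℝ) ≤ C * NA K A * Vq Q (b ^ K) := by
  obtain ⟨ng, hng⟩ := group_le κ0
  obtain ⟨c0, hc0, n1, hsv'⟩ := sv κ0 hκ0
  obtain ⟨k, hk⟩ : ∃ k, k = 2 * ng := ⟨_, rfl⟩
  obtain ⟨c, hc, hc1, hlev'⟩ := lev (n1 + k)
  refine ⟨c, hc, ?_⟩
  intro b hb
  have hsv := hsv' b hb
  obtain ⟨C1, hC1, hsv1⟩ := hsv 1 one_pos (Nat.coprime_one_left b)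
    (fun p hp hd => absurd (Nat.dvd_one.1 hd) hp.one_lt.ne')
  obtain ⟨C2, hC2, K0, hlev⟩ := hlev' b hb
  have hb2 : (2 : ℝ) ≤ b := by exact_mod_cast hb
  have hb0 : (0 : ℝ) < b := by linarith
  intro r hr
  obtain ⟨E, hE⟩ : ∃ E, E = c0 + r := ⟨_, rfl⟩
  have hE1 : 1 ≤ E := by omega
  obtain ⟨m, hm⟩ : ∃ m, 64 * E < 2 ^ m := ⟨64 * E, Nat.lt_two_pow_self⟩
  obtain ⟨C3, hC3⟩ : ∃ C3 : ℝ, C3 = (4 ^ ng) ^ m * (∏ p ∈ pz (2 * κ0 + b), (p : ℝ)) := ⟨_, rfl⟩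
  have hC3pos : 0 < C3 := by
    rw [hC3]
    apply mul_pos (by positivity)
    exact prod_pos fun p hp => by exact_mod_cast (mem_pz.1 hp).2.pos
  refine ⟨((b : ℝ) ^ k + 2 + C1 * C2 * (b : ℝ) ^ (n1 + k)) * C3, by positivity, ?_⟩
  filter_upwards [eventually_ge_atTop K0, eventually_ge_atTop (4 * (16 * E * (1 + 1))),
    half_small hb k c hc1] with K hK1 hK2 hK3
  intro Q hQ hadm A hA hprod
  unfold NA at hprod ⊢
  obtain ⟨J, hJ1, hJ2, hJ3, hJ4, hJ5⟩ := chooseJ (b := b) (M := 1) hb hE1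
    (show 16 * E * (1 + 1) ≤ K / 4 by omega)
  have hKpos : 0 < K := by omega
  have hKr : (0 : ℝ) < K := by exact_mod_cast hKpos
  obtain ⟨A', hA'⟩ : ∃ A' : ℕ → Finset ℕ, A' = fun i => if i < K then A i else range b := ⟨_, rfl⟩
  have hne : ∀ i < K, 0 < (A i).card := by
    intro i hi
    by_contra hcon
    have h0 : (A i).card = 0 := by omega
    have h1 : ∏ i ∈ range K, ((A i).card : ℝ) = 0 :=
      prod_eq_zero (mem_range.2 hi) (by rw [h0]; simp)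
    rw [h1, mul_zero] at hprod
    have : 0 < (b : ℝ) ^ K := by positivity
    linarith
  have hDS : DS b A' := by
    constructor
    · intro i
      rw [hA']
      simp only
      split_ifs with h2
      · exact hA i h2
      · exact subset_rfl
    · intro i
      rw [hA']
      simp only
      split_ifs with h2
      · exact card_pos.1 (hne i h2)
      · exact nonempty_range_iff.2 (by omega)
  have hdset : dset b K A' = dset b K A := by
    unfold dset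
    apply filter_congr
    intro n _
    apply forall_congr'
    intro i
    apply imp_congr_right
    intro hi
    rw [hA']
    simp only
    rw [if_pos hi]
  have hcd : cd A 0 K = cd A' 0 K := by
    rw [← card_dset K (by omega) (fun i _ => hDS.sub i), ← card_dset K (by omega) hA, hdset]
  have hcd'0 : (0 : ℝ) < cd A' 0 K := by exact_mod_cast cd_pos hDS 0 K
  have hlo : lo b A' 0 K ≤ Real.exp (c * K) := by
    unfold lo
    rw [div_le_iff₀ hcd'0]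
    rwa [← cd_eq, hcd] at hprod
  have hH := hlev K hK1 A' hDS hlo
  have hmain := (hsv1 Q hQ 0 J K A' hDS (by
    rw [one_mul] at hJ1 ⊢
    refine le_trans ?_ hJ1
    exact Nat.pow_le_pow_right (by omega) (by omega))).2
  obtain ⟨T, hT⟩ : ∃ T, T = (dset b K A').filter (fun n => n % 1 = 0 % 1 ∧
    ∀ l ∈ Pr κ0 J, ¬ l ∣ b → ¬ Q l n) := ⟨_, rfl⟩
  rw [← hT] at hmain
  have hy4E : (2 ^ 2 ^ J) ^ (4 * E) ≤ b ^ (K / 2) :=
    hJ4.trans (Nat.pow_le_pow_right (by omega) (by omega))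
  obtain ⟨S, hS⟩ : ∃ S, S = (range (b ^ K)).filter (fun n => (∀ i < K, n / b ^ i % b ∈ A i) ∧
    n ∈ {n | ∀ p : ℕ, p.Prime → p ^ r ≤ n → ¬ Q p n}) := ⟨_, rfl⟩
  have hNDS : ND b K A {n | ∀ p : ℕ, p.Prime → p ^ r ≤ n → ¬ Q p n} = S.card := by
    unfold ND
    rw [hS]
  have hcov : S ⊆ dset b (K / 2) A' ∪ T := by
    intro n hn
    rw [hS, mem_filter] at hn
    have hn1 : n ∈ dset b K A := by
      unfold dset
      rw [mem_filter]
      exact ⟨hn.1, hn.2.1⟩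
    rw [← hdset] at hn1
    rw [mem_union]
    by_cases hsmall : n < b ^ (K / 2)
    · left
      unfold dset at hn1 ⊢
      rw [mem_filter] at hn1 ⊢
      exact ⟨mem_range.2 hsmall, fun i hi => hn1.2 i (by omega)⟩
    · right
      push Not at hsmall
      rw [hT, mem_filter]
      refine ⟨hn1, by omega, ?_⟩
      intro l hl _
      unfold Pr at hl
      rw [mem_filter, mem_range] at hl
      apply hn.2.2 l hl.2.1
      calc l ^ r ≤ (2 ^ 2 ^ J) ^ r := Nat.pow_le_pow_left hl.1.le _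
        _ ≤ (2 ^ 2 ^ J) ^ (4 * E) := Nat.pow_le_pow_right (by omega) (by omega)
        _ ≤ b ^ (K / 2) := hy4E
        _ ≤ n := hsmall
  have hSc : (S.card : ℝ) ≤ cd A' 0 (K / 2) + T.card := by
    have h1 := (card_le_card hcov).trans (card_union_le _ _)
    rw [card_dset (K / 2) (by omega) (fun i _ => hDS.sub i)] at h1
    exact_mod_cast h1
  have h1 := hK3 A' hDS hlo
  have hφ := fac_nuB hQ hadm
  have hx : b ^ K < 2 ^ 2 ^ (J + m) := by
    calc b ^ K ≤ (2 ^ 2 ^ J) ^ (64 * E) := hJ3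
      _ < (2 ^ 2 ^ J) ^ (2 ^ m) := Nat.pow_lt_pow_right (by omega) hm
      _ = 2 ^ 2 ^ (J + m) := by rw [← pow_mul, ← pow_add]
  have hWV := WJ_le_V (b := b) (by omega) hng hQ hadm hx
  rw [← hC3] at hWV
  have hWl := W_low b hng hφ J
  have hW0 := WJ_pos b hφ J
  obtain ⟨W, hW⟩ : ∃ W, W = WJ κ0 b (fun p => 1 - (nuB Q p : ℝ) / p) J := ⟨_, rfl⟩
  have hWe : ∏ l ∈ (Pr κ0 J).filter (fun l => ¬ l ∣ b), (1 - (nuB Q l : ℝ) / l) = W := hW.symm
  rw [hWe] at hmain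
  rw [← hW] at hWV hWl hW0
  have h8 : ((2 : ℝ) ^ J) ≤ b * K := by exact_mod_cast hJ5
  have hWl2 : 1 ≤ ((b : ℝ) * K) ^ k * W := by
    refine hWl.trans ?_
    rw [← hk]
    apply mul_le_mul_of_nonneg_right _ hW0.le
    exact pow_le_pow_left₀ (by positivity) h8 k
  have h2 : (cd A' 0 K : ℝ) / (K : ℝ) ^ k ≤ (b : ℝ) ^ k * (cd A' 0 K * W) := by
    calc (cd A' 0 K : ℝ) / (K : ℝ) ^ k = cd A' 0 K / (K : ℝ) ^ k * 1 := by ring
      _ ≤ cd A' 0 K / (K : ℝ) ^ k * (((b : ℝ) * K) ^ k * W) := mul_le_mul_of_nonneg_left hWl2 (by positivity)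
      _ = _ := by
          rw [mul_pow]
          field_simp
  have h7 : C1 * cd A' 0 K * ((2 : ℝ) ^ J) ^ n1 * HH b K A' ≤
      C1 * C2 * (b : ℝ) ^ (n1 + k) * (cd A' 0 K * W) := by
    calc C1 * cd A' 0 K * ((2 : ℝ) ^ J) ^ n1 * HH b K A' ≤
        C1 * cd A' 0 K * (b * K) ^ n1 * (C2 / (K : ℝ) ^ (n1 + k)) := by
          have := HH_nonneg b K A'
          gcongr
      _ = C1 * C2 * (b : ℝ) ^ n1 * (cd A' 0 K / (K : ℝ) ^ k) := by
          rw [mul_pow, pow_add]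
          field_simp
      _ ≤ C1 * C2 * (b : ℝ) ^ n1 * ((b : ℝ) ^ k * (cd A' 0 K * W)) :=
          mul_le_mul_of_nonneg_left h2 (by positivity)
      _ = _ := by rw [pow_add]; ring
  rw [hNDS, ← cd_eq, hcd]
  have h9 : 2 * ((cd A' 0 K : ℝ) / ((1 : ℕ) : ℝ)) * W = 2 * (cd A' 0 K * W) := by
    rw [Nat.cast_one, div_one]; ring
  have h10 : (S.card : ℝ) ≤ ((b : ℝ) ^ k + 2 + C1 * C2 * (b : ℝ) ^ (n1 + k)) * (cd A' 0 K * W) := by
    rw [h9] at hmain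
    calc (S.card : ℝ) ≤ cd A' 0 (K / 2) + T.card := hSc
      _ ≤ cd A' 0 K / (K : ℝ) ^ k + (2 * (cd A' 0 K * W) +
          C1 * cd A' 0 K * ((2 : ℝ) ^ J) ^ n1 * HH b K A') := add_le_add h1 hmain
      _ ≤ (b : ℝ) ^ k * (cd A' 0 K * W) + (2 * (cd A' 0 K * W) +
          C1 * C2 * (b : ℝ) ^ (n1 + k) * (cd A' 0 K * W)) := by linarith
      _ = _ := by ring
  refine h10.trans ?_
  calc ((b : ℝ) ^ k + 2 + C1 * C2 * (b : ℝ) ^ (n1 + k)) * (cd A' 0 K * W) ≤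
      ((b : ℝ) ^ k + 2 + C1 * C2 * (b : ℝ) ^ (n1 + k)) * (cd A' 0 K * (C3 * Vq Q (b ^ K))) := by
        apply mul_le_mul_of_nonneg_left _ (by positivity)
        exact mul_le_mul_of_nonneg_left hWV hcd'0.le
    _ = _ := by ring

end Pool.Agent.Y816.PD
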