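import Pool.Agent.Y816.PD.UniK

/-!
# Almost primes with restricted digits in arithmetic progressions with large moduli
-/

set_option autoImplicit false

namespace Pool.Agent.Y816.PD

open Finset Filter Polynomial

/-- `a + q j` -/
def GA (q a j : ℕ) : ℤ := (a : ℤ) + q * j

lemma GA_eq (q a j : ℕ) : GA q a j = ((a + q * j : ℕ) : ℤ) := by
  unfold GA
  push_cast
  ring

lemma card_ap1 {q a p : ℕ} (hp : p.Prime) (hpq : ¬ p ∣ q) :
    ((range p).filter (fun n : ℕ => (p : ℤ) ∣ GA q a n)).card = 1 := by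
  haveI : Fact p.Prime := ⟨hp⟩
  have hq0 : (q : ZMod p) ≠ 0 := by
    intro h
    exact hpq ((ZMod.natCast_eq_zero_iff q p).1 h)
  rw [card_eq_one]
  refine ⟨((-(a : ZMod p) * (q : ZMod p)⁻¹)).val, ?_⟩
  ext n
  rw [mem_filter, mem_range, mem_singleton, GA_eq, Int.natCast_dvd_natCast]
  have key : p ∣ a + q * n ↔ (n : ZMod p) = -(a : ZMod p) * (q : ZMod p)⁻¹ := by
    rw [← ZMod.natCast_eq_zero_iff]
    push_cast
    constructor
    · intro h
      have h1 : (q : ZMod p) * n = -a := by linear_combination h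
      field_simp
      linear_combination h1
    · intro h
      rw [h]
      field_simp
      ring
  constructor
  · rintro ⟨h1, h2⟩
    rw [← key.1 h2, ZMod.val_cast_of_lt h1]
  · intro h
    subst h
    refine ⟨ZMod.val_lt _, ?_⟩
    rw [key, ZMod.natCast_zmod_val]

lemma card_ap0 {q a p : ℕ} (hp : p.Prime) (hpq : p ∣ q) (hcop : a.Coprime q) :
    ((range p).filter (fun n : ℕ => (p : ℤ) ∣ GA q a n)).card = 0 := by
  rw [card_eq_zero, filter_eq_empty_iff]
  intro n _ hd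
  rw [GA_eq, Int.natCast_dvd_natCast] at hd
  have h1 : p ∣ a := (Nat.dvd_add_left (hpq.mul_right n)).1 hd
  have h2 := Nat.dvd_gcd h1 hpq
  rw [hcop] at h2
  exact hp.one_lt.ne' (Nat.dvd_one.1 h2)

lemma card_one {p : ℕ} (hp : p.Prime) : ((range p).filter (fun n : ℕ => (p : ℤ) ∣ TP {0} 0 n)).card = 1 := by
  rw [card_eq_one]
  refine ⟨0, ?_⟩
  ext n
  rw [mem_filter, mem_range, mem_singleton, TP_dvd _ _ _ hp]
  simp only [mem_singleton, exists_eq_left, zero_add, add_zero]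
  constructor
  · rintro ⟨h1, h2⟩
    exact Nat.eq_zero_of_dvd_of_lt h2 h1
  · rintro rfl
    exact ⟨hp.pos, dvd_zero p⟩

lemma WG_ap {q a : ℕ} (x : ℕ) (hcop : a.Coprime q) :
    WG (GA q a) x * ∏ p ∈ ((Icc 1 x).filter Nat.Prime).filter (· ∣ q), (1 - 1 / (p : ℝ)) = WG (TP {0} 0) x := by
  classical
  rw [prod_filter]
  unfold WG
  rw [← prod_mul_distrib]
  apply prod_congr rfl
  intro p hp
  rw [mem_filter] at hp
  have h1 : (((range p).filter (fun n : ℕ => (p : ℤ) ∣ TP {0} 0 n)).card : ℝ) = 1 := by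
    exact_mod_cast card_one hp.2
  have h2 : (((range p).filter (fun n : ℕ => (p : ℤ) ∣ GA q a n)).card : ℝ) = if p ∣ q then 0 else 1 := by
    split_ifs with h
    · exact_mod_cast card_ap0 hp.2 h hcop
    · exact_mod_cast card_ap1 hp.2 h
  by_cases h : p ∣ q
  · rw [if_pos h] at h2 ⊢
    convert_to (1 - (0 : ℝ) / p) * (1 - 1 / p) = 1 - 1 / p
    · congr 3
    · congr 2
    · simp
  · rw [if_neg h] at h2 ⊢
    convert_to (1 - (1 : ℝ) / p) * 1 = 1 - 1 / p
    · congr 3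
    · congr 2
    · simp

lemma tot_bounds {q x D : ℕ} (hq : 1 ≤ q) (hx : 2 ≤ x) (hqx : q ≤ x ^ D) :
    (Nat.totient q : ℝ) / q ≤ ∏ p ∈ ((Icc 1 x).filter Nat.Prime).filter (· ∣ q), (1 - 1 / (p : ℝ)) ∧
    ∏ p ∈ ((Icc 1 x).filter Nat.Prime).filter (· ∣ q), (1 - 1 / (p : ℝ)) ≤ 2 ^ D * ((Nat.totient q : ℝ) / q) := by
  classical
  have hq0 : (0 : ℝ) < q := by exact_mod_cast hq
  have h1 : (Nat.totient q : ℝ) / q = ∏ p ∈ q.primeFactors, (1 - 1 / (p : ℝ)) := by
    have h2 := Nat.totient_eq_mul_prod_factors q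
    have h3 : (Nat.totient q : ℝ) = q * ∏ p ∈ q.primeFactors, (1 - (p : ℝ)⁻¹) := by
      have h4 := congrArg (fun z : ℚ => (z : ℝ)) h2
      push_cast at h4
      exact h4
    rw [h3, mul_div_cancel_left₀ _ hq0.ne']
    simp only [one_div]
  have hset : ((Icc 1 x).filter Nat.Prime).filter (· ∣ q) = q.primeFactors.filter (· ≤ x) := by
    ext p
    simp only [mem_filter, mem_Icc, Nat.mem_primeFactors]
    constructor
    · rintro ⟨⟨⟨_, h2⟩, h3⟩, h4⟩
      exact ⟨⟨h3, h4, by omega⟩, h2⟩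
    · rintro ⟨⟨h3, h4, _⟩, h2⟩
      exact ⟨⟨⟨h3.one_le, h2⟩, h3⟩, h4⟩
  have hsplit : ∏ p ∈ q.primeFactors, (1 - 1 / (p : ℝ)) =
      (∏ p ∈ q.primeFactors.filter (· ≤ x), (1 - 1 / (p : ℝ))) *
        ∏ p ∈ q.primeFactors.filter (fun p => ¬ p ≤ x), (1 - 1 / (p : ℝ)) :=
    (prod_filter_mul_prod_filter_not _ _ _).symm
  have hfac : ∀ p ∈ q.primeFactors, (1 : ℝ) / 2 ≤ 1 - 1 / (p : ℝ) ∧ 1 - 1 / (p : ℝ) ≤ 1 := by
    intro p hp
    have h2 : (2 : ℝ) ≤ p := by exact_mod_cast (Nat.prime_of_mem_primeFactors hp).two_le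
    have h3 : 1 / (p : ℝ) ≤ 1 / 2 := one_div_le_one_div_of_le (by norm_num) h2
    have h4 : 0 ≤ 1 / (p : ℝ) := by positivity
    constructor <;> linarith
  have hA : 0 ≤ ∏ p ∈ q.primeFactors.filter (· ≤ x), (1 - 1 / (p : ℝ)) := by
    apply prod_nonneg
    intro p hp
    have := (hfac p (mem_filter.1 hp).1).1
    linarith
  have hB1 : ∏ p ∈ q.primeFactors.filter (fun p => ¬ p ≤ x), (1 - 1 / (p : ℝ)) ≤ 1 := by
    apply prod_le_one
    · intro p hp
      have := (hfac p (mem_filter.1 hp).1).1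
      linarith
    · intro p hp
      exact (hfac p (mem_filter.1 hp).1).2
  have hcard : (q.primeFactors.filter (fun p => ¬ p ≤ x)).card ≤ D := by
    have h2 : x ^ (q.primeFactors.filter (fun p => ¬ p ≤ x)).card ≤ q := by
      calc x ^ (q.primeFactors.filter (fun p => ¬ p ≤ x)).card =
          ∏ p ∈ q.primeFactors.filter (fun p => ¬ p ≤ x), x := by rw [prod_const]
        _ ≤ ∏ p ∈ q.primeFactors.filter (fun p => ¬ p ≤ x), p := by
            apply prod_le_prod' fun p hp => ?_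
            have := (mem_filter.1 hp).2
            omega
        _ ≤ ∏ p ∈ q.primeFactors, p := by
            apply prod_le_prod_of_subset_of_one_le' (filter_subset _ _)
            intro p hp _
            exact (Nat.prime_of_mem_primeFactors hp).one_le
        _ ≤ q := Nat.le_of_dvd (by omega) (Nat.prod_primeFactors_dvd q)
    exact (Nat.pow_le_pow_iff_right (by omega)).1 (h2.trans hqx)
  have hB2 : (1 : ℝ) ≤ 2 ^ D * ∏ p ∈ q.primeFactors.filter (fun p => ¬ p ≤ x), (1 - 1 / (p : ℝ)) := by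
    have h2 : ((1 : ℝ) / 2) ^ (q.primeFactors.filter (fun p => ¬ p ≤ x)).card ≤
        ∏ p ∈ q.primeFactors.filter (fun p => ¬ p ≤ x), (1 - 1 / (p : ℝ)) := by
      rw [← prod_const]
      apply prod_le_prod (fun _ _ => by norm_num)
      intro p hp
      exact (hfac p (mem_filter.1 hp).1).1
    have h3 : ((1 : ℝ) / 2) ^ D ≤ ((1 : ℝ) / 2) ^ (q.primeFactors.filter (fun p => ¬ p ≤ x)).card :=
      pow_le_pow_of_le_one (by norm_num) (by norm_num) hcard
    have h4 : (2 : ℝ) ^ D * ((1 : ℝ) / 2) ^ D = 1 := by rw [← mul_pow]; norm_num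
    calc (1 : ℝ) = 2 ^ D * ((1 : ℝ) / 2) ^ D := h4.symm
      _ ≤ _ := mul_le_mul_of_nonneg_left (h3.trans h2) (by positivity)
  rw [hset, h1, hsplit]
  constructor
  · exact mul_le_of_le_one_right hA hB1
  · calc ∏ p ∈ q.primeFactors.filter (· ≤ x), (1 - 1 / (p : ℝ)) =
        (∏ p ∈ q.primeFactors.filter (· ≤ x), (1 - 1 / (p : ℝ))) * 1 := (mul_one _).symm
      _ ≤ (∏ p ∈ q.primeFactors.filter (· ≤ x), (1 - 1 / (p : ℝ))) *
          (2 ^ D * ∏ p ∈ q.primeFactors.filter (fun p => ¬ p ≤ x), (1 - 1 / (p : ℝ))) :=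
          mul_le_mul_of_nonneg_left hB2 hA
      _ = _ := by ring

/-- the almost primes of the progression `a + q j` -/
def AA (q a r z : ℕ) : Set ℕ := {j | (∀ p : ℕ, p.Prime → p ∣ a + q * j → z < p ^ r) ∧
  (a + q * j).primeFactorsList.length ≤ r}

/-- **Almost primes with restricted digits in progressions.** -/
theorem uni_ap (D : ℕ) :
    ∃ c : ℝ, 0 < c ∧ ∃ r0 : ℕ, 2 ≤ r0 ∧ ∀ r : ℕ, r0 ≤ r → ∀ b : ℕ, 2 ≤ b → ∃ κ C : ℝ, 0 < κ ∧ 0 < C ∧
      ∀ᶠ K : ℕ in atTop, ∀ q a : ℕ, 1 ≤ q → q ≤ b ^ (D * K) → a ≤ b ^ (D * K) → a.Coprime q →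
        ∀ A : ℕ → Finset ℕ, (∀ i < K, A i ⊆ range b) → (b : ℝ) ^ K ≤ Real.exp (c * K) * NA K A →
        ((∃ d ∈ A 0, (a + q * d).Coprime b) →
          κ * ((q : ℝ) / Nat.totient q) * NA K A / K ≤ ND b K A (AA q a r (b ^ K))) ∧
        (ND b K A {j | (a + q * j).Prime} : ℝ) ≤ C * ((q : ℝ) / Nat.totient q) * NA K A / K := by
  obtain ⟨c, hc, r0, hr0, h⟩ := uni_fun 1 (D + 2) le_rfl
  refine ⟨c, hc, r0, hr0, fun r hr b hb => ?_⟩
  have h2r : 2 ≤ r := hr0.trans hr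
  obtain ⟨κ, C₁, hκ, hC, h1⟩ := h r hr b hb
  obtain ⟨v, Cv, hv, hCv, hW⟩ := WG_bounds {0} (fun p hp => ⟨1, by
    intro h hh
    rw [mem_singleton] at hh
    subst hh
    intro hd
    exact hp.one_lt.ne' (Nat.dvd_one.1 hd)⟩) 1 (card_singleton 0) b hb
  refine ⟨κ * v / 2 ^ D, C₁ * Cv, by positivity, by positivity, ?_⟩
  filter_upwards [h1, hW, eventually_ge_atTop 3] with K hK hWK hK2 q a hq hqb hab hcop A hA hprod
  have hb0 : 0 < b := by omega
  have hNA := NA_nonneg K A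
  have hq0 : (0 : ℝ) < q := by exact_mod_cast hq
  have hφ0 : (0 : ℝ) < Nat.totient q := by exact_mod_cast Nat.totient_pos.2 hq
  have hKb : K < b ^ K := Nat.lt_pow_self (by omega)
  obtain ⟨hW1, hW2⟩ := hWK 0
  rw [pow_one] at hW1 hW2
  obtain ⟨ht1, ht2⟩ := tot_bounds (D := D) hq (by omega : 2 ≤ b ^ K) (by rw [← pow_mul, mul_comm]; exact hqb)
  have hWa := WG_ap (a := a) (b ^ K) hcop
  obtain ⟨T, hT⟩ : ∃ T, T = ∏ p ∈ ((Icc 1 (b ^ K)).filter Nat.Prime).filter (· ∣ q), (1 - 1 / (p : ℝ)) := ⟨_, rfl⟩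
  rw [← hT] at ht1 ht2 hWa
  have hWn := WG_nonneg (GA q a) (b ^ K)
  have hT0 : 0 < T := lt_of_lt_of_le (by positivity) ht1
  have hWlow : v / 2 ^ D * ((q : ℝ) / Nat.totient q) / K ≤ WG (GA q a) (b ^ K) := by
    have e1 : v / K ≤ WG (GA q a) (b ^ K) * (2 ^ D * ((Nat.totient q : ℝ) / q)) := by
      rw [← hWa] at hW1
      exact hW1.trans (mul_le_mul_of_nonneg_left ht2 hWn)
    have e2 : v / 2 ^ D * ((q : ℝ) / Nat.totient q) / K = v / K * ((q : ℝ) / Nat.totient q / 2 ^ D) := by ring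
    rw [e2]
    calc v / K * ((q : ℝ) / Nat.totient q / 2 ^ D) ≤
        WG (GA q a) (b ^ K) * (2 ^ D * ((Nat.totient q : ℝ) / q)) * ((q : ℝ) / Nat.totient q / 2 ^ D) :=
          mul_le_mul_of_nonneg_right e1 (by positivity)
      _ = WG (GA q a) (b ^ K) := by field_simp
  have hWup : WG (GA q a) (b ^ K) ≤ Cv * ((q : ℝ) / Nat.totient q) / K := by
    have e1 : WG (GA q a) (b ^ K) * ((Nat.totient q : ℝ) / q) ≤ Cv / K := by
      refine (mul_le_mul_of_nonneg_left ht1 hWn).trans ?_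
      rw [hWa]
      exact hW2
    calc WG (GA q a) (b ^ K) = WG (GA q a) (b ^ K) * ((Nat.totient q : ℝ) / q) * ((q : ℝ) / Nat.totient q) := by
          field_simp
      _ ≤ Cv / K * ((q : ℝ) / Nat.totient q) := mul_le_mul_of_nonneg_right e1 (by positivity)
      _ = _ := by ring
  have hpoly : ∃ P : ℤ[X], P.natDegree ≤ 1 ∧ ∀ k : ℕ, P.eval (k : ℤ) = GA q a k := by
    refine ⟨C (q : ℤ) * X + C (a : ℤ), ?_, fun k => ?_⟩
    · compute_degree
    · unfold GA
      simp only [eval_mul, eval_add, eval_X, eval_C]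
      ring
  have hadm : ∀ p : ℕ, p.Prime → ∃ k : ℕ, ¬ (p : ℤ) ∣ GA q a k := by
    intro p hp
    by_contra hcon
    push Not at hcon
    have g0 := hcon 0
    have g1 := hcon 1
    rw [GA_eq, Int.natCast_dvd_natCast] at g0 g1
    rw [mul_zero, add_zero] at g0
    rw [mul_one] at g1
    have g2 := Nat.dvd_gcd g0 ((Nat.dvd_add_right g0).1 g1)
    rw [hcop] at g2
    exact hp.one_lt.ne' (Nat.dvd_one.1 g2)
  have hsize : ∀ j : ℕ, j < b ^ K → (GA q a j).natAbs ≤ b ^ ((D + 2) * K) := by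
    intro j hj
    rw [GA_eq, Int.natAbs_natCast]
    have e1 : q * j ≤ b ^ (D * K) * b ^ K := Nat.mul_le_mul hqb hj.le
    have e2 : b ^ (D * K) ≤ b ^ (D * K) * b ^ K := Nat.le_mul_of_pos_right _ (by positivity)
    have e3 : 2 ≤ b ^ K := by omega
    calc a + q * j ≤ b ^ (D * K) * b ^ K + b ^ (D * K) * b ^ K := by omega
      _ = 2 * (b ^ (D * K) * b ^ K) := by ring
      _ ≤ b ^ K * (b ^ (D * K) * b ^ K) := Nat.mul_le_mul_right _ e3
      _ = b ^ ((D + 2) * K) := by rw [← pow_add, ← pow_add]; congr 1; ring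
  obtain ⟨h2, h3⟩ := hK (GA q a) hpoly hadm hsize A hA hprod
  constructor
  · rintro ⟨d, hd, hdc⟩
    calc κ * v / 2 ^ D * ((q : ℝ) / Nat.totient q) * NA K A / K =
        κ * NA K A * (v / 2 ^ D * ((q : ℝ) / Nat.totient q) / K) := by ring
      _ ≤ κ * NA K A * WG (GA q a) (b ^ K) := mul_le_mul_of_nonneg_left hWlow (by positivity)
      _ ≤ ND b K A (Alm (GA q a) r (b ^ K)) := h2 ⟨d, hd, by rw [GA_eq, Int.natAbs_natCast]; exact hdc⟩
      _ ≤ _ := by
          apply Nat.cast_le.2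
          apply ND_mono'
          rintro j _ ⟨g1, g2⟩
          rw [GA_eq] at g2
          refine ⟨fun p hp hd => g1 p hp (by rw [GA_eq]; exact Int.natCast_dvd_natCast.2 hd), ?_⟩
          rwa [Int.natAbs_natCast] at g2
  · calc (ND b K A {j | (a + q * j).Prime} : ℝ) ≤ ND b K A (Rgh (GA q a) r) := by
          apply Nat.cast_le.2
          apply ND_mono'
          intro j _ hj p hp hd
          rw [GA_eq, Int.natCast_dvd_natCast] at hd
          refine lt_pow_of_le hp ?_ h2r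
          rw [(Nat.prime_dvd_prime_iff_eq hp hj).1 hd]
          nlinarith
      _ ≤ C₁ * NA K A * WG (GA q a) (b ^ K) := h3
      _ ≤ C₁ * NA K A * (Cv * ((q : ℝ) / Nat.totient q) / K) := mul_le_mul_of_nonneg_left hWup (by positivity)
      _ = _ := by ring

end Pool.Agent.Y816.PD
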