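import Pool.Agent.Y816.PD.UniA

/-!
# Simultaneous almost primes with restricted digits in several progressions with the same large modulus
-/

set_option autoImplicit false

namespace Pool.Agent.Y816.PD

open Finset Filter Polynomial

/-- the product of the `s + q j`, `s ∈ B` -/
def GB (q : ℕ) (B : Finset ℕ) (j : ℕ) : ℤ := ∏ s ∈ B, ((s : ℤ) + q * j)

lemma GB_eq (q : ℕ) (B : Finset ℕ) (j : ℕ) : GB q B j = ((∏ s ∈ B, (s + q * j) : ℕ) : ℤ) := by
  unfold GB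
  push_cast
  rfl

lemma GB_dvd (q : ℕ) (B : Finset ℕ) (j : ℕ) {p : ℕ} (hp : p.Prime) :
    (p : ℤ) ∣ GB q B j ↔ ∃ s ∈ B, p ∣ s + q * j := by
  rw [GB_eq, Int.natCast_dvd_natCast, Prime.dvd_finsetProd_iff hp.prime]

/-- the `j` for which all `s + q j`, `s ∈ B`, are almost primes -/
def AB (q : ℕ) (B : Finset ℕ) (r z : ℕ) : Set ℕ := {j | ∀ s ∈ B, (∀ p : ℕ, p.Prime → p ∣ s + q * j → z < p ^ r) ∧
  (s + q * j).primeFactorsList.length ≤ r}

/-- **Simultaneous almost primes with restricted digits in progressions.** -/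
theorem uni_apB (k : ℕ) (hk1 : 1 ≤ k) (D : ℕ) :
    ∃ c : ℝ, 0 < c ∧ ∃ r0 : ℕ, 2 ≤ r0 ∧ ∀ r : ℕ, r0 ≤ r → ∀ b : ℕ, 2 ≤ b → ∃ κ C : ℝ, 0 < κ ∧ 0 < C ∧
      ∀ᶠ K : ℕ in atTop, ∀ (q : ℕ) (B : Finset ℕ), 1 ≤ q → q ≤ b ^ (D * K) → B.card ≤ k →
        (∀ s ∈ B, s ≤ b ^ (D * K)) → (∀ p : ℕ, p.Prime → ∃ j : ℕ, ∀ s ∈ B, ¬ p ∣ s + q * j) →
        ∀ A : ℕ → Finset ℕ, (∀ i < K, A i ⊆ range b) → (b : ℝ) ^ K ≤ Real.exp (c * K) * NA K A →
        ((∃ d ∈ A 0, ∀ s ∈ B, (s + q * d).Coprime b) →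
          κ * NA K A * WG (GB q B) (b ^ K) ≤ ND b K A (AB q B r (b ^ K))) ∧
        (ND b K A {j | ∀ s ∈ B, (s + q * j).Prime} : ℝ) ≤ C * NA K A * WG (GB q B) (b ^ K) := by
  classical
  obtain ⟨c, hc, r0, hr0, h⟩ := uni_fun k ((D + 2) * k) hk1
  refine ⟨c, hc, r0, hr0, fun r hr b hb => ?_⟩
  have h2r : 2 ≤ r := hr0.trans hr
  obtain ⟨κ, C₁, hκ, hC, h1⟩ := h r hr b hb
  refine ⟨κ, C₁, hκ, hC, ?_⟩
  filter_upwards [h1, eventually_ge_atTop (r + 2)] with K hK hK2 q B hq hqb hBk hBb hadm A hA hprod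
  have hb0 : 0 < b := by omega
  have hKb : K < b ^ K := Nat.lt_pow_self (by omega)
  have hpoly : ∃ P : ℤ[X], P.natDegree ≤ k ∧ ∀ j : ℕ, P.eval (j : ℤ) = GB q B j := by
    refine ⟨∏ s ∈ B, (C (q : ℤ) * X + C (s : ℤ)), ?_, fun j => ?_⟩
    · refine (natDegree_prod_le _ _).trans (le_trans ?_ hBk)
      rw [Finset.card_eq_sum_ones]
      apply Finset.sum_le_sum
      intro s _
      compute_degree
    · unfold GB
      rw [eval_prod]
      apply Finset.prod_congr rfl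
      intro s _
      simp only [eval_mul, eval_add, eval_X, eval_C]
      ring
  have hadm' : ∀ p : ℕ, p.Prime → ∃ j : ℕ, ¬ (p : ℤ) ∣ GB q B j := by
    intro p hp
    obtain ⟨j, hj⟩ := hadm p hp
    refine ⟨j, fun hd => ?_⟩
    obtain ⟨s, hs, hd⟩ := (GB_dvd q B j hp).1 hd
    exact hj s hs hd
  have habs : ∀ j, (GB q B j).natAbs = ∏ s ∈ B, (s + q * j) := by
    intro j
    rw [GB_eq, Int.natAbs_natCast]
  have hsize : ∀ j : ℕ, j < b ^ K → (GB q B j).natAbs ≤ b ^ ((D + 2) * k * K) := by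
    intro j hj
    rw [habs]
    have e1 : ∏ s ∈ B, b ^ ((D + 2) * K) ≤ b ^ ((D + 2) * k * K) := by
      rw [prod_const, ← pow_mul]
      apply Nat.pow_le_pow_right (by omega)
      calc (D + 2) * K * B.card ≤ (D + 2) * K * k := Nat.mul_le_mul_left _ hBk
        _ = (D + 2) * k * K := by ring
    refine le_trans ?_ e1
    apply Finset.prod_le_prod (fun _ _ => Nat.zero_le _)
    intro s hs
    have e2 : q * j ≤ b ^ (D * K) * b ^ K := Nat.mul_le_mul hqb hj.le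
    have e3 : b ^ (D * K) ≤ b ^ (D * K) * b ^ K := Nat.le_mul_of_pos_right _ (by positivity)
    have e4 : 2 ≤ b ^ K := by omega
    have e5 := hBb s hs
    calc s + q * j ≤ b ^ (D * K) * b ^ K + b ^ (D * K) * b ^ K := by omega
      _ = 2 * (b ^ (D * K) * b ^ K) := by ring
      _ ≤ b ^ K * (b ^ (D * K) * b ^ K) := Nat.mul_le_mul_right _ e4
      _ = b ^ ((D + 2) * K) := by rw [← pow_add, ← pow_add]; congr 1; ring
  obtain ⟨h2, h3⟩ := hK (GB q B) hpoly hadm' hsize A hA hprod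
  constructor
  · rintro ⟨d, hd, hdc⟩
    refine (h2 ⟨d, hd, by
      rw [habs]
      exact Nat.Coprime.prod_left fun s hs => hdc s hs⟩).trans (Nat.cast_le.2 ?_)
    apply ND_mono'
    rintro j _ ⟨g1, g2⟩
    intro s hs
    refine ⟨fun p hp hd => g1 p hp ((GB_dvd q B j hp).2 ⟨s, hs, hd⟩), ?_⟩
    have hne : (GB q B j).natAbs ≠ 0 := by
      intro h0
      have h6 := g1 2 Nat.prime_two (by rw [Int.natAbs_eq_zero.1 h0]; exact dvd_zero _)
      have h7 : 2 ^ r ≤ 2 ^ K := Nat.pow_le_pow_right (by norm_num) (by omega)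
      have h8 : 2 ^ K ≤ b ^ K := Nat.pow_le_pow_left hb K
      omega
    have h6 : s + q * j ∣ (GB q B j).natAbs := by
      rw [habs]
      exact dvd_prod_of_mem (fun s => s + q * j) hs
    exact (Nat.primeFactorsList_sublist_of_dvd h6 hne).length_le.trans g2
  · refine le_trans (Nat.cast_le.2 ?_) h3
    apply ND_mono'
    intro j _ hj p hp hd
    obtain ⟨s, hs, hd⟩ := (GB_dvd q B j hp).1 hd
    refine lt_pow_of_le hp ?_ h2r
    rw [(Nat.prime_dvd_prime_iff_eq hp (hj s hs)).1 hd]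
    nlinarith

end Pool.Agent.Y816.PD
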