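import Pool.Agent.Y816.PD.UniK

/-!
# Exact constellations of almost primes with restricted digits in short intervals
-/

set_option autoImplicit false

namespace Pool.Agent.Y816.PD

open Finset Filter

/-- the `m ∈ I` such that for all `h ∈ H` the number `m + h` has only prime factors `p` with `p ^ r > z`, at most `r`
of them, and all the other numbers `m + e`, `e ≤ L`, are not primes -/
def EX (H : Finset ℕ) (L : ℕ) (I : Set ℕ) (r z : ℕ) : Set ℕ :=
  {m | m ∈ I ∧ (∀ h ∈ H, (∀ p : ℕ, p.Prime → p ∣ m + h → z < p ^ r) ∧ (m + h).primeFactorsList.length ≤ r) ∧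
    ∀ e ≤ L, e ∉ H → ¬ (m + e).Prime}

/-- **Exact constellations with restricted digits in all short intervals.** -/
theorem uni_exact (H : Finset ℕ) (hadm : ∀ p : ℕ, p.Prime → ∃ m : ℕ, ∀ h ∈ H, ¬ p ∣ m + h) (k : ℕ)
    (hk : H.card = k) (hk1 : 1 ≤ k) (L D : ℕ) :
    ∃ c : ℝ, 0 < c ∧ ∃ r0 : ℕ, 2 ≤ r0 ∧ ∀ r : ℕ, r0 ≤ r → ∀ b : ℕ, 2 ≤ b → ∃ κ : ℝ, 0 < κ ∧
      ∀ᶠ K : ℕ in atTop, ∀ (I : Set ℕ) (x y : ℕ), 3 * b ^ K ≤ y → x ≤ b ^ (D * K) → I.Finite →
        (∀ m, x < m → m < x + y → m ∈ I) →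
        ∀ A : ℕ → Finset ℕ, (∀ i < K, A i ⊆ range b) → (b : ℝ) ^ K ≤ Real.exp (c * K) * NA K A →
        (∃ d ∈ A 0, ∀ h ∈ H, (d + h).Coprime b) → (∃ d ∈ A (K - 1), d ≠ 0) →
          κ * NA K A / (K : ℝ) ^ k ≤ DC b K A (EX H L I r (b ^ K)) := by
  classical
  obtain ⟨E, hE⟩ : ∃ E : Finset ℕ, E = (range (L + 1)).filter (fun e => e ∉ H ∧
      ∀ p : ℕ, p.Prime → ∃ m : ℕ, ∀ h ∈ insert e H, ¬ p ∣ m + h) := ⟨_, rfl⟩
  obtain ⟨c, hc, r0, hr0, h⟩ := uni_gap H hadm k hk hk1 (D + 1) E (by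
    intro e he
    rw [hE, mem_filter] at he
    exact he.2)
  -- the primes responsible for the other places
  have hP : ∃ P : ℕ, ∀ e ∈ (range (L + 1)).filter (fun e => e ∉ H ∧ e ∉ E), ∃ p ≤ P, p.Prime ∧
      ∀ m : ℕ, ∃ h ∈ insert e H, p ∣ m + h := by
    have h1 : ∀ e ∈ (range (L + 1)).filter (fun e => e ∉ H ∧ e ∉ E), ∃ p : ℕ, p.Prime ∧
        ∀ m : ℕ, ∃ h ∈ insert e H, p ∣ m + h := by
      intro e he
      rw [mem_filter] at he
      obtain ⟨he1, he2, he3⟩ := he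
      by_contra hcon
      push Not at hcon
      apply he3
      rw [hE, mem_filter]
      exact ⟨he1, he2, hcon⟩
    choose! f hf using h1
    refine ⟨((range (L + 1)).filter (fun e => e ∉ H ∧ e ∉ E)).sup f, fun e he => ?_⟩
    exact ⟨f e, le_sup he, hf e he⟩
  obtain ⟨P, hP⟩ := hP
  refine ⟨c, hc, r0, hr0, fun r hr b hb => ?_⟩
  obtain ⟨κ, C, hκ, hC, h1⟩ := h r hr b hb
  refine ⟨κ, hκ, ?_⟩
  filter_upwards [h1, eventually_ge_atTop (P ^ r + P + 4)] with K hKK hK I x y hy1 hx hI hI1 A hA hprod hd htop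
  have hb0 : 0 < b := by omega
  have hbK0 : 0 < b ^ K := by positivity
  have hKb : K < b ^ K := Nat.lt_pow_self (by omega)
  have ht1 : x < b ^ K * (x / b ^ K + 1) := Nat.lt_mul_div_succ x hbK0
  have ht2 : b ^ K * (x / b ^ K + 1) ≤ x + b ^ K := by
    have := Nat.mul_div_le x (b ^ K)
    rw [mul_add, mul_one]
    omega
  have hN : b ^ K * (x / b ^ K + 1) ≤ b ^ ((D + 1) * K) ∨ D = 0 := by
    rcases Nat.eq_zero_or_pos D with hD | hD
    · exact Or.inr hD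
    · left
      have e1 : b ^ K ≤ b ^ (D * K) := Nat.pow_le_pow_right hb0 (by nlinarith)
      have e2 : b ^ ((D + 1) * K) = b ^ (D * K) * b ^ K := by rw [← pow_add]; congr 1; ring
      have e3 : 2 ≤ b ^ K := by omega
      rw [e2]
      nlinarith
  have hN' : b ^ K * (x / b ^ K + 1) ≤ b ^ ((D + 1) * K) := by
    rcases hN with hN | hD
    · exact hN
    · subst hD
      rw [zero_mul, pow_zero] at hx
      have e1 : x / b ^ K = 0 := Nat.div_eq_of_lt (by omega)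
      rw [e1]
      simp
  obtain ⟨h2, -⟩ := hKK (b ^ K * (x / b ^ K + 1)) hN' A hA hprod
  obtain ⟨d, hdA, hcop⟩ := hd
  refine (h2 ⟨d, hdA, fun h hh => ?_⟩ htop).trans ?_
  · obtain ⟨K', rfl⟩ : ∃ K', K = K' + 1 := ⟨K - 1, by omega⟩
    have e : b ^ (K' + 1) * (x / b ^ (K' + 1) + 1) + d + h =
        (d + h) + b * (b ^ K' * (x / b ^ (K' + 1) + 1)) := by ring
    rw [e]
    exact (Nat.coprime_add_mul_left_left _ _ _).2 (hcop h hh)
  · apply Nat.cast_le.2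
    refine (IC_lower (u := x) (v := x + y) (T := EX H L I r (b ^ K)) hb0 ht1 (by omega) ?_).trans
      (IC_le_DC (hI.subset fun m hm => hm.1) fun m _ _ hm => hm)
    rintro j hj ⟨⟨hj1, hj2, hj3⟩, hj4⟩
    refine ⟨hI1 _ (by omega) (by omega), hj3, fun e heL heH => ?_⟩
    by_cases heE : e ∈ E
    · exact hj4 e heE
    · obtain ⟨p, hpP, hp, hpm⟩ := hP e (by
        rw [mem_filter, mem_range]
        exact ⟨by omega, heH, heE⟩)
      obtain ⟨h, hh, hdvd⟩ := hpm (b ^ K * (x / b ^ K + 1) + j)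
      have hpr : p ^ r ≤ P ^ r := Nat.pow_le_pow_left hpP r
      rw [mem_insert] at hh
      rcases hh with rfl | hh
      · intro hprime
        have e1 := (Nat.prime_dvd_prime_iff_eq hp hprime).1 hdvd
        have e2 : b ^ K ≤ b ^ K * (x / b ^ K + 1) := Nat.le_mul_of_pos_right _ (Nat.succ_pos _)
        omega
      · have := (hj3 h hh).1 p hp hdvd
        omega

end Pool.Agent.Y816.PD
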