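import Pool.Agent.Y816.PD.UniP

/-!
# Almost prime values at integers with restricted digits, uniform version: final forms
-/

set_option autoImplicit false

namespace Pool.Agent.Y816.PD

open Polynomial Finset Filter

/-- all prime factors of `G n` are larger than `y ^ (1 / r)`, and `G n` has at most `r` prime factors -/
def Alm (G : ℕ → ℤ) (r y : ℕ) : Set ℕ :=
  {n | (∀ p : ℕ, p.Prime → (p : ℤ) ∣ G n → y < p ^ r) ∧ (G n).natAbs.primeFactorsList.length ≤ r}

/-- all prime factors of `G n` are larger than `n ^ (1 / r)` -/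
def Rgh (G : ℕ → ℤ) (r : ℕ) : Set ℕ := {n | ∀ p : ℕ, p.Prime → (p : ℤ) ∣ G n → n < p ^ r}

open Classical in
/-- the product over the primes `p ≤ x` of `1 - ω(p) / p`, with `ω(p)` the number of the `n < p` with
`p ∣ G n` -/
noncomputable def WG (G : ℕ → ℤ) (x : ℕ) : ℝ := ∏ p ∈ (Icc 1 x).filter Nat.Prime,
  (1 - (((range p).filter (fun n : ℕ => (p : ℤ) ∣ G n)).card : ℝ) / p)

theorem uni_fun (κ0 D : ℕ) (hκ0 : 1 ≤ κ0) :
    ∃ c : ℝ, 0 < c ∧ ∃ r0 : ℕ, 2 ≤ r0 ∧ ∀ r : ℕ, r0 ≤ r → ∀ b : ℕ, 2 ≤ b → ∃ κ C : ℝ, 0 < κ ∧ 0 < C ∧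
      ∀ᶠ K : ℕ in atTop, ∀ G : ℕ → ℤ, (∃ P : ℤ[X], P.natDegree ≤ κ0 ∧ ∀ n : ℕ, P.eval (n : ℤ) = G n) →
        (∀ p : ℕ, p.Prime → ∃ n : ℕ, ¬ (p : ℤ) ∣ G n) →
        (∀ n : ℕ, n < b ^ K → (G n).natAbs ≤ b ^ (D * K)) →
        ∀ A : ℕ → Finset ℕ, (∀ i < K, A i ⊆ range b) → (b : ℝ) ^ K ≤ Real.exp (c * K) * NA K A →
        ((∃ d ∈ A 0, (G d).natAbs.Coprime b) → κ * NA K A * WG G (b ^ K) ≤ ND b K A (Alm G r (b ^ K))) ∧
        (ND b K A (Rgh G r) : ℝ) ≤ C * NA K A * WG G (b ^ K) := by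
  classical
  obtain ⟨c, hc, r0, hr0, h⟩ := uni_poly κ0 D hκ0
  refine ⟨c, hc, r0, hr0, fun r hr b hb => ?_⟩
  obtain ⟨κ, C, hκ, hC, h1⟩ := h r hr b hb
  refine ⟨κ, C, hκ, hC, ?_⟩
  filter_upwards [h1] with K hK G hP hadm hsize A hA hprod
  obtain ⟨P, hdeg, hPG⟩ := hP
  obtain ⟨h2, h3⟩ := hK P hdeg (fun p hp => by
    obtain ⟨n, hn⟩ := hadm p hp
    exact ⟨n, by rw [hPG]; exact hn⟩) (fun n hn => by rw [hPG]; exact hsize n hn) A hA hprod
  have hW : VP P (b ^ K) = WG G (b ^ K) := by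
    unfold VP WG
    simp only [hPG]
  rw [hW] at h2 h3
  constructor
  · rintro ⟨d, hd, hcop⟩
    refine (h2 ⟨d, hd, fun p hp hpb hdvd => ?_⟩).trans ?_
    · rw [hPG] at hdvd
      have h4 := Nat.dvd_gcd (Int.natCast_dvd.1 hdvd) hpb
      rw [hcop] at h4
      exact hp.one_lt.ne' (Nat.dvd_one.1 h4)
    · have h4 := ND_mono' (b := b) (K := K) (A := A)
        (S := {n | (∀ p : ℕ, p.Prime → (p : ℤ) ∣ P.eval (n : ℤ) → b ^ K < p ^ r) ∧
            (P.eval (n : ℤ)).natAbs.primeFactorsList.length ≤ r}) (T := Alm G r (b ^ K)) (fun n _ hn => by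
          obtain ⟨h5, h6⟩ := hn
          refine ⟨fun p hp hd => h5 p hp (by rw [hPG]; exact hd), ?_⟩
          rw [hPG] at h6
          exact h6)
      exact_mod_cast h4
  · refine le_trans ?_ h3
    have h4 := ND_mono' (b := b) (K := K) (A := A) (S := Rgh G r)
      (T := {n | ∀ p : ℕ, p.Prime → (p : ℤ) ∣ P.eval (n : ℤ) → n < p ^ r}) (fun n _ hn p hp hd => by
        rw [hPG] at hd
        exact hn p hp hd)
    exact_mod_cast h4

lemma ND_sub {b K : ℕ} {A B : ℕ → Finset ℕ} {S T : Set ℕ} (h : ∀ n < b ^ K, (∀ i < K, n / b ^ i % b ∈ B i) →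
    n ∈ S → (∀ i < K, n / b ^ i % b ∈ A i) ∧ n ∈ T) : ND b K B S ≤ ND b K A T := by
  classical
  unfold ND
  apply card_le_card
  intro n hn
  rw [mem_filter] at hn ⊢
  exact ⟨hn.1, h n (mem_range.1 hn.1) hn.2.1 hn.2.2⟩

lemma WG_nonneg (G : ℕ → ℤ) (x : ℕ) : 0 ≤ WG G x := by
  classical
  unfold WG
  apply prod_nonneg
  intro p hp
  rw [mem_filter] at hp
  have hp0 : (0 : ℝ) < p := by exact_mod_cast hp.2.pos
  rw [sub_nonneg, div_le_one hp0]
  have h1 := card_filter_le (range p) (fun n : ℕ => (p : ℤ) ∣ G n)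
  rw [card_range] at h1
  refine le_trans (le_of_eq ?_) (Nat.cast_le.2 h1)
  congr

/-- the version with a leading digit different from `0` -/
theorem uni_top (κ0 D : ℕ) (hκ0 : 1 ≤ κ0) :
    ∃ c : ℝ, 0 < c ∧ ∃ r0 : ℕ, 2 ≤ r0 ∧ ∀ r : ℕ, r0 ≤ r → ∀ b : ℕ, 2 ≤ b → ∃ κ C : ℝ, 0 < κ ∧ 0 < C ∧
      ∀ᶠ K : ℕ in atTop, ∀ G : ℕ → ℤ, (∃ P : ℤ[X], P.natDegree ≤ κ0 ∧ ∀ n : ℕ, P.eval (n : ℤ) = G n) →
        (∀ p : ℕ, p.Prime → ∃ n : ℕ, ¬ (p : ℤ) ∣ G n) →
        (∀ n : ℕ, n < b ^ K → (G n).natAbs ≤ b ^ (D * K)) →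
        ∀ A : ℕ → Finset ℕ, (∀ i < K, A i ⊆ range b) → (b : ℝ) ^ K ≤ Real.exp (c * K) * NA K A →
        ((∃ d ∈ A 0, (G d).natAbs.Coprime b) → (∃ d ∈ A (K - 1), d ≠ 0) →
          κ * NA K A * WG G (b ^ K) ≤ ND b K A {n | b ^ (K - 1) ≤ n ∧ n ∈ Alm G r (b ^ K)}) ∧
        (ND b K A (Rgh G r) : ℝ) ≤ C * NA K A * WG G (b ^ K) := by
  classical
  obtain ⟨c, hc, r0, hr0, h⟩ := uni_fun κ0 D hκ0
  refine ⟨c / 2, by positivity, r0, hr0, fun r hr b hb => ?_⟩
  obtain ⟨κ, C, hκ, hC, h1⟩ := h r hr b hb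
  have hb2 : (2 : ℝ) ≤ b := by exact_mod_cast hb
  have hb0 : (0 : ℝ) < b := by linarith
  refine ⟨κ / b, C, by positivity, hC, ?_⟩
  filter_upwards [h1, eventually_ge_atTop 2,
    tendsto_natCast_atTop_atTop.eventually_ge_atTop (2 * Real.log b / c)] with K hK hK2 hK3
  intro G hP hadm hsize A hA hprod
  have hNA := NA_nonneg K A
  have hexp : (b : ℝ) * Real.exp (c / 2 * K) ≤ Real.exp (c * K) := by
    nth_rewrite 1 [← Real.exp_log hb0]
    rw [← Real.exp_add]
    apply Real.exp_le_exp.2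
    rw [div_le_iff₀ hc] at hK3
    linarith
  have hexp0 : Real.exp (c / 2 * K) ≤ Real.exp (c * K) := by
    apply Real.exp_le_exp.2
    have : (0 : ℝ) ≤ K := Nat.cast_nonneg _
    nlinarith
  constructor
  · rintro ⟨d, hd, hcop⟩ ⟨e, he, he0⟩
    obtain ⟨B, hB⟩ : ∃ B : ℕ → Finset ℕ, B = fun i => if i = K - 1 then {e} else A i := ⟨_, rfl⟩
    have hBs : ∀ i < K, B i ⊆ range b := by
      intro i hi
      rw [hB]
      simp only
      split_ifs with h2
      · rw [h2] at hi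
        exact singleton_subset_iff.2 (hA (K - 1) hi he)
      · exact hA i hi
    have hNB : NA K A ≤ b * NA K B := by
      obtain ⟨K', rfl⟩ : ∃ K', K = K' + 1 := ⟨K - 1, by omega⟩
      unfold NA
      rw [prod_range_succ, prod_range_succ, mul_comm]
      have h2 : ∏ i ∈ range K', ((B i).card : ℝ) = ∏ i ∈ range K', ((A i).card : ℝ) := by
        apply prod_congr rfl
        intro i hi
        rw [mem_range] at hi
        rw [hB]
        simp only
        rw [if_neg (by omega)]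
      have h3 : (B K').card = 1 := by
        rw [hB]
        simp
      have h4 : ((A K').card : ℝ) ≤ b := by
        have := card_le_card (hA K' (by omega))
        rw [card_range] at this
        exact_mod_cast this
      rw [h2, h3, Nat.cast_one, mul_one]
      apply mul_le_mul_of_nonneg_right h4
      exact prod_nonneg fun _ _ => Nat.cast_nonneg _
    have hNB0 := NA_nonneg K B
    obtain ⟨h2, -⟩ := hK G hP hadm hsize B hBs (by
      calc (b : ℝ) ^ K ≤ Real.exp (c / 2 * K) * NA K A := hprod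
        _ ≤ Real.exp (c / 2 * K) * (b * NA K B) := mul_le_mul_of_nonneg_left hNB (Real.exp_pos _).le
        _ = (b * Real.exp (c / 2 * K)) * NA K B := by ring
        _ ≤ Real.exp (c * K) * NA K B := mul_le_mul_of_nonneg_right hexp hNB0)
    have hB0 : B 0 = A 0 := by
      rw [hB]
      simp only
      rw [if_neg (by omega)]
    have h3 := h2 ⟨d, by rw [hB0]; exact hd, hcop⟩
    have hW := WG_nonneg G (b ^ K)
    calc κ / b * NA K A * WG G (b ^ K) ≤ κ / b * (b * NA K B) * WG G (b ^ K) := by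
          apply mul_le_mul_of_nonneg_right _ hW
          exact mul_le_mul_of_nonneg_left hNB (by positivity)
      _ = κ * NA K B * WG G (b ^ K) := by field_simp
      _ ≤ ND b K B (Alm G r (b ^ K)) := h3
      _ ≤ ND b K A {n | b ^ (K - 1) ≤ n ∧ n ∈ Alm G r (b ^ K)} := by
          have h4 : ND b K B (Alm G r (b ^ K)) ≤ ND b K A {n | b ^ (K - 1) ≤ n ∧ n ∈ Alm G r (b ^ K)} := by
            apply ND_sub
            intro n _ hn2 hn3
            have h5 := hn2 (K - 1) (by omega)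
            rw [hB] at h5
            simp only [if_true, mem_singleton] at h5
            have h6 : b ^ (K - 1) ≤ n := by
              by_contra hcon
              push Not at hcon
              rw [Nat.div_eq_of_lt hcon, Nat.zero_mod] at h5
              exact he0 h5.symm
            refine ⟨fun i hi => ?_, h6, hn3⟩
            have h7 := hn2 i hi
            rw [hB] at h7
            simp only at h7
            split_ifs at h7 with h8
            · rw [mem_singleton] at h7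
              rw [h7, h8]
              exact he
            · exact h7
          exact_mod_cast h4
  · obtain ⟨-, h2⟩ := hK G hP hadm hsize A hA
      (hprod.trans (mul_le_mul_of_nonneg_right hexp0 hNA))
    exact h2

end Pool.Agent.Y816.PD
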