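import Pool.Agent.Y816.PD.UniL

/-!
# Almost prime tuples with restricted digits in short intervals
-/

set_option autoImplicit false

namespace Pool.Agent.Y816.PD

open Finset Filter Polynomial

/-- **Almost prime tuples near any base point, without a condition on the leading digit.** -/
theorem uni_shift0 (H : Finset ℕ) (hadm : ∀ p : ℕ, p.Prime → ∃ m : ℕ, ∀ h ∈ H, ¬ p ∣ m + h) (k : ℕ)
    (hk : H.card = k) (hk1 : 1 ≤ k) (D : ℕ) :
    ∃ c : ℝ, 0 < c ∧ ∃ r0 : ℕ, 2 ≤ r0 ∧ ∀ r : ℕ, r0 ≤ r → ∀ b : ℕ, 2 ≤ b → ∃ κ C : ℝ, 0 < κ ∧ 0 < C ∧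
      ∀ᶠ K : ℕ in atTop, ∀ N : ℕ, N ≤ b ^ (D * K) → ∀ A : ℕ → Finset ℕ, (∀ i < K, A i ⊆ range b) →
        (b : ℝ) ^ K ≤ Real.exp (c * K) * NA K A →
        ((∃ d ∈ A 0, ∀ h ∈ H, (N + d + h).Coprime b) →
          κ * NA K A / (K : ℝ) ^ k ≤
          ND b K A {j | ∀ h ∈ H, (∀ p : ℕ, p.Prime → p ∣ N + j + h → b ^ K < p ^ r) ∧
            (N + j + h).primeFactorsList.length ≤ r}) ∧
        (ND b K A {j | ∀ h ∈ H, ∀ p : ℕ, p.Prime → p ∣ N + j + h → j < p ^ r} : ℝ) ≤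
          C * NA K A / (K : ℝ) ^ k := by
  classical
  obtain ⟨c, hc, r0, hr0, h⟩ := uni_fun k ((D + 2) * k) hk1
  refine ⟨c, hc, r0, hr0, fun r hr b hb => ?_⟩
  obtain ⟨κ, C, hκ, hC, h1⟩ := h r hr b hb
  obtain ⟨v, Cv, hv, hCv, hW⟩ := WG_bounds H hadm k hk b hb
  obtain ⟨m, hm⟩ : ∃ m, ∀ h ∈ H, h ≤ m := ⟨H.sup id, fun h hh => le_sup (f := id) hh⟩
  refine ⟨κ * v, C * Cv, by positivity, by positivity, ?_⟩
  filter_upwards [h1, hW, eventually_ge_atTop (m + r + 2)] with K hK hWK hK2 N hN A hA hprod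
  have hNA := NA_nonneg K A
  have hbK : K < b ^ K := Nat.lt_pow_self (by omega)
  have hpoly : ∃ P : ℤ[X], P.natDegree ≤ k ∧ ∀ j : ℕ, P.eval (j : ℤ) = TP H N j := by
    refine ⟨∏ h ∈ H, (X + Polynomial.C ((N : ℤ) + h)), ?_, fun j => ?_⟩
    · refine (natDegree_prod_le _ _).trans ?_
      rw [← hk, Finset.card_eq_sum_ones]
      apply Finset.sum_le_sum
      intro h _
      exact (natDegree_X_add_C _).le
    · unfold TP
      rw [eval_prod]
      apply Finset.prod_congr rfl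
      intro h _
      simp
      ring
  have hadm' : ∀ p : ℕ, p.Prime → ∃ j : ℕ, ¬ (p : ℤ) ∣ TP H N j := by
    intro p hp
    obtain ⟨n, hn⟩ := hadm p hp
    refine ⟨n + (p * N - N), fun hd => ?_⟩
    obtain ⟨h, hh, hd⟩ := (TP_dvd H N _ hp).1 hd
    apply hn h hh
    have h2 : N ≤ p * N := Nat.le_mul_of_pos_left N hp.pos
    have h3 : N + (n + (p * N - N)) + h = (n + h) + p * N := by omega
    rw [h3] at hd
    exact (Nat.dvd_add_left (Dvd.intro N rfl)).1 hd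
  have habs : ∀ j, (TP H N j).natAbs = ∏ h ∈ H, (N + j + h) := by
    intro j
    unfold TP
    have : ∏ h ∈ H, ((N : ℤ) + j + h) = ((∏ h ∈ H, (N + j + h) : ℕ) : ℤ) := by push_cast; rfl
    rw [this, Int.natAbs_natCast]
  have hsize : ∀ j : ℕ, j < b ^ K → (TP H N j).natAbs ≤ b ^ ((D + 2) * k * K) := by
    intro j hj
    rw [habs]
    have e1 : b ^ ((D + 2) * k * K) = ∏ h ∈ H, b ^ ((D + 2) * K) := by
      rw [prod_const, hk, ← pow_mul]
      congr 1
      ring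
    rw [e1]
    apply Finset.prod_le_prod (fun _ _ => Nat.zero_le _)
    intro h hh
    have h2 : b ^ (D * K) ≤ b ^ ((D + 1) * K) := Nat.pow_le_pow_right (by omega) (by nlinarith)
    have h3 : b ^ K ≤ b ^ ((D + 1) * K) := Nat.pow_le_pow_right (by omega) (by nlinarith)
    have h4 : b ^ ((D + 2) * K) = b ^ ((D + 1) * K) * b ^ K := by rw [← pow_add]; congr 1; ring
    have h5 := hm h hh
    have h6 : 3 ≤ b ^ K := by
      calc 3 ≤ 2 ^ 2 := by norm_num
        _ ≤ 2 ^ K := Nat.pow_le_pow_right (by norm_num) (by omega)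
        _ ≤ b ^ K := Nat.pow_le_pow_left hb K
    rw [h4]
    nlinarith
  obtain ⟨h2, h3⟩ := hK (TP H N) hpoly hadm' hsize A hA hprod
  obtain ⟨hW1, hW2⟩ := hWK N
  constructor
  · rintro ⟨d, hd, hcop⟩
    have h4 := h2 ⟨d, hd, by
      rw [habs]
      exact Nat.Coprime.prod_left fun h hh => hcop h hh⟩
    calc κ * v * NA K A / (K : ℝ) ^ k = κ * NA K A * (v / (K : ℝ) ^ k) := by ring
      _ ≤ κ * NA K A * WG (TP H N) (b ^ K) := mul_le_mul_of_nonneg_left hW1 (by positivity)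
      _ ≤ _ := h4
      _ ≤ _ := by
          have h5 := ND_mono' (b := b) (K := K) (A := A)
            (S := Alm (TP H N) r (b ^ K))
            (T := {j | ∀ h ∈ H, (∀ p : ℕ, p.Prime → p ∣ N + j + h → b ^ K < p ^ r) ∧
              (N + j + h).primeFactorsList.length ≤ r}) (fun j _ hj => by
              obtain ⟨hj2, hj3⟩ := hj
              refine fun h hh => ⟨fun p hp hd => hj2 p hp ((TP_dvd H N j hp).2 ⟨h, hh, hd⟩), ?_⟩
              have hne : (TP H N j).natAbs ≠ 0 := by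
                intro h0
                have h6 := hj2 2 Nat.prime_two (by rw [Int.natAbs_eq_zero.1 h0]; exact dvd_zero _)
                have h7 : 2 ^ r ≤ 2 ^ K := Nat.pow_le_pow_right (by norm_num) (by omega)
                have h8 : 2 ^ K ≤ b ^ K := Nat.pow_le_pow_left hb K
                omega
              have h6 : N + j + h ∣ (TP H N j).natAbs := by
                rw [habs]
                exact dvd_prod_of_mem (fun h => N + j + h) hh
              exact (Nat.primeFactorsList_sublist_of_dvd h6 hne).length_le.trans hj3)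
          exact_mod_cast h5
  · have h5 := ND_mono' (b := b) (K := K) (A := A)
      (S := {j | ∀ h ∈ H, ∀ p : ℕ, p.Prime → p ∣ N + j + h → j < p ^ r}) (T := Rgh (TP H N) r)
      (fun j _ hj p hp hd => by
        obtain ⟨h, hh, hd⟩ := (TP_dvd H N j hp).1 hd
        exact hj h hh p hp hd)
    calc (ND b K A {j | ∀ h ∈ H, ∀ p : ℕ, p.Prime → p ∣ N + j + h → j < p ^ r} : ℝ) ≤
        ND b K A (Rgh (TP H N) r) := by exact_mod_cast h5
      _ ≤ C * NA K A * WG (TP H N) (b ^ K) := h3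
      _ ≤ C * NA K A * (Cv / (K : ℝ) ^ k) := mul_le_mul_of_nonneg_left hW2 (by positivity)
      _ = _ := by ring


open Classical in
/-- the number of the integers `u < m < v` of `S` whose `i`-th digit in base `b` belongs to `A i` for all `i < K` -/
noncomputable def IC (b K : ℕ) (A : ℕ → Finset ℕ) (u v : ℕ) (S : Set ℕ) : ℕ :=
  ((Ioo u v).filter (fun m => (∀ i < K, m / b ^ i % b ∈ A i) ∧ m ∈ S)).card

lemma IC_mono {b K : ℕ} {A : ℕ → Finset ℕ} {u v u' v' : ℕ} {S T : Set ℕ} (hu : u' ≤ u) (hv : v ≤ v')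
    (h : ∀ m, u < m → m < v → m ∈ S → m ∈ T) : IC b K A u v S ≤ IC b K A u' v' T := by
  classical
  unfold IC
  apply card_le_card
  intro m hm
  rw [mem_filter, mem_Ioo] at hm ⊢
  exact ⟨⟨by omega, by omega⟩, hm.2.1, h m hm.1.1 hm.1.2 hm.2.2⟩

lemma digit_add {b K i : ℕ} (hb : 0 < b) (hi : i < K) (t j : ℕ) :
    (b ^ K * t + j) / b ^ i % b = j / b ^ i % b := by
  obtain ⟨s, rfl⟩ : ∃ s, K = i + 1 + s := ⟨K - i - 1, by omega⟩
  have h : b ^ (i + 1 + s) * t + j = j + b ^ i * (b * (b ^ s * t)) := by ring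
  rw [h, Nat.add_mul_div_left _ _ (by positivity), Nat.add_mul_mod_self_left]

lemma IC_lower {b K : ℕ} (hb : 0 < b) {A : ℕ → Finset ℕ} {u v t : ℕ} {S T : Set ℕ} (h1 : u < b ^ K * t)
    (h2 : b ^ K * t + b ^ K ≤ v) (h : ∀ j < b ^ K, j ∈ S → b ^ K * t + j ∈ T) :
    ND b K A S ≤ IC b K A u v T := by
  classical
  unfold ND IC
  apply card_le_card_of_injOn (fun j => b ^ K * t + j)
  · intro j hj
    rw [mem_coe, mem_filter, mem_range] at hj
    rw [mem_coe, mem_filter, mem_Ioo]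
    refine ⟨⟨lt_of_lt_of_le h1 (Nat.le_add_right _ _), lt_of_lt_of_le (Nat.add_lt_add_left hj.1 _) h2⟩,
      fun i hi => ?_, h j hj.1 hj.2.2⟩
    rw [digit_add hb hi]
    exact hj.2.1 i hi
  · intro j _ j' _ hjj
    exact Nat.add_left_cancel hjj

lemma IC_upper {b K : ℕ} (hb : 0 < b) (A : ℕ → Finset ℕ) (u v : ℕ) (S : Set ℕ) :
    IC b K A u v S ≤ ∑ t ∈ Icc (u / b ^ K) (v / b ^ K), ND b K A {j | b ^ K * t + j ∈ S} := by
  classical
  have hbK : 0 < b ^ K := by positivity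
  unfold IC ND
  refine le_trans (card_le_card (t := (Icc (u / b ^ K) (v / b ^ K)).biUnion fun t =>
    ((range (b ^ K)).filter (fun j => (∀ i < K, j / b ^ i % b ∈ A i) ∧ j ∈ {j | b ^ K * t + j ∈ S})).image
      (fun j => b ^ K * t + j)) ?_) ?_
  · intro m hm
    rw [mem_filter, mem_Ioo] at hm
    rw [mem_biUnion]
    have hm1 : b ^ K * (m / b ^ K) + m % b ^ K = m := Nat.div_add_mod m _
    refine ⟨m / b ^ K, mem_Icc.2 ⟨Nat.div_le_div_right hm.1.1.le, Nat.div_le_div_right hm.1.2.le⟩, ?_⟩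
    rw [mem_image]
    refine ⟨m % b ^ K, ?_, hm1⟩
    rw [mem_filter, mem_range]
    refine ⟨Nat.mod_lt _ hbK, fun i hi => ?_, ?_⟩
    · rw [← digit_add hb hi (m / b ^ K), hm1]
      exact hm.2.1 i hi
    · rw [Set.mem_setOf_eq, hm1]
      exact hm.2.2
  · refine card_biUnion_le.trans (sum_le_sum fun t _ => ?_)
    exact card_image_le

/-- **Almost prime tuples with restricted digits in all short intervals.** -/
theorem uni_int (H : Finset ℕ) (hadm : ∀ p : ℕ, p.Prime → ∃ m : ℕ, ∀ h ∈ H, ¬ p ∣ m + h) (k : ℕ)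
    (hk : H.card = k) (hk1 : 1 ≤ k) (D : ℕ) :
    ∃ c : ℝ, 0 < c ∧ ∃ r0 : ℕ, 2 ≤ r0 ∧ ∀ r : ℕ, r0 ≤ r → ∀ b : ℕ, 2 ≤ b → ∀ M : ℕ, ∃ κ C : ℝ, 0 < κ ∧ 0 < C ∧
      ∀ᶠ K : ℕ in atTop, ∀ x y : ℕ, 3 * b ^ K ≤ y → y ≤ M * b ^ K → x ≤ b ^ (D * K) → ∀ A : ℕ → Finset ℕ,
        (∀ i < K, A i ⊆ range b) → (b : ℝ) ^ K ≤ Real.exp (c * K) * NA K A →
        ((∃ d ∈ A 0, ∀ h ∈ H, (d + h).Coprime b) →
          κ * NA K A / (K : ℝ) ^ k ≤ IC b K A x (x + y) {m | ∀ h ∈ H, m + h < x + y ∧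
            (∀ p : ℕ, p.Prime → p ∣ m + h → b ^ K < p ^ r) ∧ (m + h).primeFactorsList.length ≤ r}) ∧
        (IC b K A x (x + y) {m | ∀ h ∈ H, (m + h).Prime} : ℝ) ≤ C * NA K A / (K : ℝ) ^ k := by
  classical
  obtain ⟨c, hc, r0, hr0, h⟩ := uni_shift0 H hadm k hk hk1 (D + 3)
  refine ⟨c, hc, r0, hr0, fun r hr b hb M => ?_⟩
  have h2r : 2 ≤ r := hr0.trans hr
  obtain ⟨κ, C, hκ, hC, h1⟩ := h r hr b hb
  obtain ⟨mx, hmx⟩ : ∃ m, ∀ h ∈ H, h ≤ m := ⟨H.sup id, fun h hh => le_sup (f := id) hh⟩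
  refine ⟨κ, (M + 2) * C, hκ, by positivity, ?_⟩
  filter_upwards [h1, eventually_ge_atTop (mx + M + 4)] with K hKK hK x y hy1 hy2 hx A hA hprod
  have hb0 : 0 < b := by omega
  have hbK0 : 0 < b ^ K := by positivity
  have hKb : K < b ^ K := Nat.lt_pow_self (by omega)
  have hxy : x + y ≤ b ^ ((D + 3) * K) := by
    have e1 : x ≤ b ^ ((D + 2) * K) := hx.trans (Nat.pow_le_pow_right hb0 (by nlinarith))
    have e2 : y ≤ b ^ ((D + 2) * K) := by
      calc y ≤ M * b ^ K := hy2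
        _ ≤ b ^ K * b ^ K := Nat.mul_le_mul_right _ (by omega)
        _ = b ^ (2 * K) := by rw [two_mul, pow_add]
        _ ≤ b ^ ((D + 2) * K) := Nat.pow_le_pow_right hb0 (by nlinarith)
    have e3 : 2 ≤ b ^ K := by omega
    have e4 : b ^ ((D + 3) * K) = b ^ ((D + 2) * K) * b ^ K := by
      rw [← pow_add]; congr 1; ring
    rw [e4]
    nlinarith
  have hNA := NA_nonneg K A
  constructor
  · rintro ⟨d, hd, hcop⟩
    have ht1 : x < b ^ K * (x / b ^ K + 1) := by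
      have := Nat.lt_mul_div_succ x hbK0
      exact this
    have ht2 : b ^ K * (x / b ^ K + 1) ≤ x + b ^ K := by
      have := Nat.mul_div_le x (b ^ K)
      rw [mul_add, mul_one]
      omega
    obtain ⟨h2, -⟩ := hKK (b ^ K * (x / b ^ K + 1)) (by omega) A hA hprod
    refine (h2 ⟨d, hd, fun h hh => ?_⟩).trans ?_
    · obtain ⟨K', rfl⟩ : ∃ K', K = K' + 1 := ⟨K - 1, by omega⟩
      have e : b ^ (K' + 1) * (x / b ^ (K' + 1) + 1) + d + h =
          (d + h) + b * (b ^ K' * (x / b ^ (K' + 1) + 1)) := by ring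
      rw [e]
      exact (Nat.coprime_add_mul_left_left _ _ _).2 (hcop h hh)
    · apply Nat.cast_le.2
      apply IC_lower hb0 ht1 (by omega)
      intro j hj hjS h hh
      have h3 := hmx h hh
      exact ⟨by omega, hjS h hh⟩
  · have h3 : ∀ t ∈ Icc (x / b ^ K) ((x + y) / b ^ K),
        (ND b K A {j | b ^ K * t + j ∈ {m | ∀ h ∈ H, (m + h).Prime}} : ℝ) ≤ C * NA K A / (K : ℝ) ^ k := by
      intro t ht
      rw [mem_Icc] at ht
      have h4 : b ^ K * t ≤ x + y := (Nat.mul_le_mul_left _ ht.2).trans (Nat.mul_div_le _ _)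
      obtain ⟨-, h5⟩ := hKK (b ^ K * t) (by omega) A hA hprod
      refine le_trans ?_ h5
      apply Nat.cast_le.2
      apply ND_mono'
      intro j hj hjS h hh p hp hd
      have h6 : b ^ K * t + j + h = p := ((Nat.prime_dvd_prime_iff_eq hp (hjS h hh)).1 hd).symm
      exact lt_pow_of_le hp (by omega) h2r
    have h4 : ((Icc (x / b ^ K) ((x + y) / b ^ K)).card : ℝ) ≤ M + 2 := by
      rw [Nat.card_Icc]
      have h5 : (x + y) / b ^ K ≤ x / b ^ K + M + 1 := by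
        rw [← Nat.lt_succ_iff]
        apply Nat.div_lt_of_lt_mul
        have h6 := Nat.lt_mul_div_succ x hbK0
        have h7 : b ^ K * (x / b ^ K + M + 1).succ = b ^ K * (x / b ^ K + 1) + M * b ^ K + b ^ K := by
          rw [Nat.succ_eq_add_one]; ring
        rw [h7]
        omega
      have h6 : (x + y) / b ^ K + 1 - x / b ^ K ≤ M + 2 := by omega
      exact_mod_cast h6
    calc (IC b K A x (x + y) {m | ∀ h ∈ H, (m + h).Prime} : ℝ) ≤
        ((∑ t ∈ Icc (x / b ^ K) ((x + y) / b ^ K),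
          ND b K A {j | b ^ K * t + j ∈ {m | ∀ h ∈ H, (m + h).Prime}} : ℕ) : ℝ) :=
          Nat.cast_le.2 (IC_upper hb0 A x (x + y) _)
      _ = ∑ t ∈ Icc (x / b ^ K) ((x + y) / b ^ K),
          (ND b K A {j | b ^ K * t + j ∈ {m | ∀ h ∈ H, (m + h).Prime}} : ℝ) := Nat.cast_sum _ _
      _ ≤ (Icc (x / b ^ K) ((x + y) / b ^ K)).card • (C * NA K A / (K : ℝ) ^ k) := sum_le_card_nsmul _ _ _ h3
      _ = (Icc (x / b ^ K) ((x + y) / b ^ K)).card * (C * NA K A / (K : ℝ) ^ k) := nsmul_eq_mul _ _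
      _ ≤ (M + 2) * (C * NA K A / (K : ℝ) ^ k) := mul_le_mul_of_nonneg_right h4 (by positivity)
      _ = _ := by ring

/-- `K = log_b (y / 3)` and its size -/
lemma log_three {b : ℕ} (hb : 2 ≤ b) (K0 : ℕ) {y : ℕ} (hy : 3 * b ^ K0 ≤ y) {K : ℕ} (hK : K = Nat.log b (y / 3)) :
    K0 ≤ K ∧ 3 * b ^ K ≤ y ∧ y ≤ 3 * b * b ^ K := by
  have hb0 : 0 < b := by omega
  have hpos : 0 < b ^ K0 := by positivity
  have h1 : b ^ K0 ≤ y / 3 := by omega
  have h2 : b ^ K ≤ y / 3 := by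
    rw [hK]
    exact Nat.pow_log_le_self b (by omega)
  have h3 : y / 3 < b ^ (K + 1) := by
    rw [hK]
    exact Nat.lt_pow_succ_log_self (by omega) _
  refine ⟨?_, by omega, ?_⟩
  · rw [hK]
    exact Nat.le_log_of_pow_le (by omega) h1
  · have : 3 * b * b ^ K = 3 * b ^ (K + 1) := by ring
    omega

end Pool.Agent.Y816.PD
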