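import Pool.Agent.Y816.PD.UniI

/-!
# Almost prime tuples with restricted digits in finite sets which are nearly intervals
-/

set_option autoImplicit false

namespace Pool.Agent.Y816.PD

open Finset Filter

/-- the number of the elements of `S` whose `i`-th digit in base `b` belongs to `A i` for all `i < K` -/
noncomputable def DC (b K : ℕ) (A : ℕ → Finset ℕ) (S : Set ℕ) : ℕ :=
  {m : ℕ | m ∈ S ∧ ∀ i < K, m / b ^ i % b ∈ A i}.ncard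

/-- the `m` for which all `m + h`, `h ∈ H`, belong to `I` and are almost primes: all their prime factors `p`
satisfy `p ^ r > z`, and they have at most `r` prime factors -/
def AT (H : Finset ℕ) (I : Set ℕ) (r z : ℕ) : Set ℕ :=
  {m | m ∈ I ∧ ∀ h ∈ H, m + h ∈ I ∧ (∀ p : ℕ, p.Prime → p ∣ m + h → z < p ^ r) ∧
    (m + h).primeFactorsList.length ≤ r}

/-- the `m ∈ I` for which all `m + h`, `h ∈ H`, are primes -/
def PT (H : Finset ℕ) (I : Set ℕ) : Set ℕ := {m | m ∈ I ∧ ∀ h ∈ H, (m + h).Prime}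

lemma IC_le_DC {b K : ℕ} {A : ℕ → Finset ℕ} {u v : ℕ} {S T : Set ℕ} (hT : T.Finite)
    (h : ∀ m, u < m → m < v → m ∈ S → m ∈ T) : IC b K A u v S ≤ DC b K A T := by
  classical
  unfold IC DC
  rw [← Set.ncard_coe_finset]
  apply Set.ncard_le_ncard
  · intro m hm
    rw [mem_coe, mem_filter, mem_Ioo] at hm
    exact ⟨h m hm.1.1 hm.1.2 hm.2.2, hm.2.1⟩
  · exact hT.subset fun m hm => hm.1

lemma DC_le_IC {b K : ℕ} {A : ℕ → Finset ℕ} {u v : ℕ} {S T : Set ℕ}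
    (h : ∀ m ∈ S, (u < m ∧ m < v) ∧ m ∈ T) : DC b K A S ≤ IC b K A u v T := by
  classical
  unfold IC DC
  rw [← Set.ncard_coe_finset]
  apply Set.ncard_le_ncard
  · rintro m ⟨hm, hd⟩
    rw [mem_coe, mem_filter, mem_Ioo]
    exact ⟨(h m hm).1, hd, (h m hm).2⟩
  · exact finite_toSet _

/-- **Almost prime tuples with restricted digits in all short intervals.** -/
theorem uni_set (H : Finset ℕ) (hadm : ∀ p : ℕ, p.Prime → ∃ m : ℕ, ∀ h ∈ H, ¬ p ∣ m + h) (k : ℕ)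
    (hk : H.card = k) (hk1 : 1 ≤ k) (D : ℕ) :
    ∃ c : ℝ, 0 < c ∧ ∃ r0 : ℕ, 2 ≤ r0 ∧ ∀ r : ℕ, r0 ≤ r → ∀ b : ℕ, 2 ≤ b → ∀ M : ℕ, ∃ κ C : ℝ, 0 < κ ∧ 0 < C ∧
      ∀ᶠ K : ℕ in atTop, ∀ (I : Set ℕ) (x y y' : ℕ), 3 * b ^ K ≤ y → y ≤ y' → y' ≤ M * b ^ K →
        x ≤ b ^ (D * K) → (∀ m, x < m → m < x + y → m ∈ I) → (∀ m ∈ I, x < m ∧ m < x + y') →
        ∀ A : ℕ → Finset ℕ, (∀ i < K, A i ⊆ range b) → (b : ℝ) ^ K ≤ Real.exp (c * K) * NA K A →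
        ((∃ d ∈ A 0, ∀ h ∈ H, (d + h).Coprime b) →
          κ * NA K A / (K : ℝ) ^ k ≤ DC b K A (AT H I r (b ^ K))) ∧
        (DC b K A (PT H I) : ℝ) ≤ C * NA K A / (K : ℝ) ^ k := by
  obtain ⟨c, hc, r0, hr0, h⟩ := uni_int H hadm k hk hk1 D
  refine ⟨c, hc, r0, hr0, fun r hr b hb M => ?_⟩
  obtain ⟨κ, C, hκ, hC, h1⟩ := h r hr b hb M
  refine ⟨κ, C, hκ, hC, ?_⟩
  filter_upwards [h1] with K hK I x y y' hy1 hyy hy2 hx hI1 hI2 A hA hprod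
  constructor
  · intro hd
    obtain ⟨h2, -⟩ := hK x y hy1 (hyy.trans hy2) hx A hA hprod
    refine (h2 hd).trans (Nat.cast_le.2 ?_)
    apply IC_le_DC
    · apply (finite_toSet (Ioo x (x + y'))).subset
      intro m hm
      rw [mem_coe, mem_Ioo]
      exact hI2 m hm.1
    · intro m hm1 hm2 hm
      refine ⟨hI1 m hm1 hm2, fun h hh => ⟨hI1 _ (by omega) (hm h hh).1, (hm h hh).2⟩⟩
  · obtain ⟨-, h3⟩ := hK x y' (hy1.trans hyy) hy2 hx A hA hprod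
    refine le_trans (Nat.cast_le.2 ?_) h3
    exact DC_le_IC fun m hm => ⟨hI2 m hm.1, hm.2⟩

/-- The same for a family of sets `I n`, `K` the integer part of `log_b (Y n / 3)`. -/
theorem uni_fam {ι : Type} (l : Filter ι) (I : ι → Set ℕ) (x y y' : ι → ℕ) (E M : ℕ) (hy : Tendsto y l atTop)
    (hyy : ∀ᶠ n in l, y n ≤ y' n ∧ y' n ≤ M * y n) (hx : ∀ᶠ n in l, x n ≤ y n ^ E)
    (hI1 : ∀ᶠ n in l, ∀ m, x n < m → m < x n + y n → m ∈ I n)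
    (hI2 : ∀ᶠ n in l, ∀ m ∈ I n, x n < m ∧ m < x n + y' n)
    (H : Finset ℕ) (hadm : ∀ p : ℕ, p.Prime → ∃ m : ℕ, ∀ h ∈ H, ¬ p ∣ m + h) (k : ℕ)
    (hk : H.card = k) (hk1 : 1 ≤ k) :
    ∃ c : ℝ, 0 < c ∧ ∃ r0 : ℕ, 2 ≤ r0 ∧ ∀ r : ℕ, r0 ≤ r → ∀ b : ℕ, 2 ≤ b → ∃ κ C : ℝ, 0 < κ ∧ 0 < C ∧
      ∀ᶠ n : ι in l, ∀ K : ℕ, K = Nat.log b (y n / 3) →
        ∀ A : ℕ → Finset ℕ, (∀ i < K, A i ⊆ range b) → (b : ℝ) ^ K ≤ Real.exp (c * K) * NA K A →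
        ((∃ d ∈ A 0, ∀ h ∈ H, (d + h).Coprime b) →
          κ * NA K A / (K : ℝ) ^ k ≤ DC b K A (AT H (I n) r (b ^ K))) ∧
        (DC b K A (PT H (I n)) : ℝ) ≤ C * NA K A / (K : ℝ) ^ k := by
  obtain ⟨c, hc, r0, hr0, h⟩ := uni_set H hadm k hk hk1 (4 * E)
  refine ⟨c, hc, r0, hr0, fun r hr b hb => ?_⟩
  obtain ⟨κ, C, hκ, hC, h1⟩ := h r hr b hb (M * (3 * b))
  refine ⟨κ, C, hκ, hC, ?_⟩
  obtain ⟨K0, hK0⟩ := eventually_atTop.1 h1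
  filter_upwards [hy.eventually_ge_atTop (3 * b ^ (K0 + 1)), hyy, hx, hI1, hI2]
    with n hn hyyn hxn hI1n hI2n K hK A hA hprod
  obtain ⟨hKK, hb1, hb2⟩ := log_three hb (K0 + 1) hn hK
  have hb0 : 0 < b := by omega
  have e1 : y n ≤ b ^ (4 * K) := by
    calc y n ≤ 3 * b * b ^ K := hb2
      _ ≤ b ^ 2 * b * b ^ K := by
          apply Nat.mul_le_mul_right
          apply Nat.mul_le_mul_right
          nlinarith
      _ = b ^ (K + 3) := by ring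
      _ ≤ b ^ (4 * K) := Nat.pow_le_pow_right hb0 (by omega)
  refine hK0 K (by omega) (I n) (x n) (y n) (y' n) hb1 hyyn.1 ?_ ?_ hI1n hI2n A hA hprod
  · calc y' n ≤ M * y n := hyyn.2
      _ ≤ M * (3 * b * b ^ K) := Nat.mul_le_mul_left _ hb2
      _ = M * (3 * b) * b ^ K := by ring
  · calc x n ≤ y n ^ E := hxn
      _ ≤ (b ^ (4 * K)) ^ E := Nat.pow_le_pow_left e1 E
      _ = b ^ (4 * E * K) := by rw [← pow_mul]; congr 1; ring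

end Pool.Agent.Y816.PD
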