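import Pool.Agent.Y816.PD.UniJ

/-!
# Almost prime tuples with restricted digits in short intervals, uniformly in the tuple
-/

set_option autoImplicit false

namespace Pool.Agent.Y816.PD

open Finset Filter Polynomial

lemma WG_TP0 (H : Finset ℕ) (N x : ℕ) : WG (TP H N) x = WG (TP H 0) x := by
  rw [WG_TP, WG_TP]

/-- **Almost prime tuples near any base point, uniformly in the tuple.** -/
theorem uni_shiftU (k : ℕ) (hk1 : 1 ≤ k) (D : ℕ) :
    ∃ c : ℝ, 0 < c ∧ ∃ r0 : ℕ, 2 ≤ r0 ∧ ∀ r : ℕ, r0 ≤ r → ∀ b : ℕ, 2 ≤ b → ∃ κ C : ℝ, 0 < κ ∧ 0 < C ∧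
      ∀ᶠ K : ℕ in atTop, ∀ H : Finset ℕ, H.card ≤ k → (∀ p : ℕ, p.Prime → ∃ m : ℕ, ∀ h ∈ H, ¬ p ∣ m + h) →
        (∀ h ∈ H, h ≤ b ^ (D * K)) →
        ∀ N : ℕ, N ≤ b ^ (D * K) → ∀ A : ℕ → Finset ℕ, (∀ i < K, A i ⊆ range b) →
        (b : ℝ) ^ K ≤ Real.exp (c * K) * NA K A →
        ((∃ d ∈ A 0, ∀ h ∈ H, (N + d + h).Coprime b) →
          κ * NA K A * WG (TP H 0) (b ^ K) ≤
          ND b K A {j | ∀ h ∈ H, (∀ p : ℕ, p.Prime → p ∣ N + j + h → b ^ K < p ^ r) ∧
            (N + j + h).primeFactorsList.length ≤ r}) ∧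
        (ND b K A {j | ∀ h ∈ H, ∀ p : ℕ, p.Prime → p ∣ N + j + h → j < p ^ r} : ℝ) ≤
          C * NA K A * WG (TP H 0) (b ^ K) := by
  classical
  obtain ⟨c, hc, r0, hr0, h⟩ := uni_fun k ((D + 2) * k) hk1
  refine ⟨c, hc, r0, hr0, fun r hr b hb => ?_⟩
  obtain ⟨κ, C, hκ, hC, h1⟩ := h r hr b hb
  refine ⟨κ, C, hκ, hC, ?_⟩
  filter_upwards [h1, eventually_ge_atTop (r + 2)] with K hK hK2 H hk hadm hm N hN A hA hprod
  have hNA := NA_nonneg K A
  have hbK : K < b ^ K := Nat.lt_pow_self (by omega)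
  have hpoly : ∃ P : ℤ[X], P.natDegree ≤ k ∧ ∀ j : ℕ, P.eval (j : ℤ) = TP H N j := by
    refine ⟨∏ h ∈ H, (X + Polynomial.C ((N : ℤ) + h)), ?_, fun j => ?_⟩
    · refine (natDegree_prod_le _ _).trans (le_trans ?_ hk)
      rw [Finset.card_eq_sum_ones]
      apply Finset.sum_le_sum
      intro h _
      exact (natDegree_X_add_C _).le
    · unfold TP
      rw [eval_prod]
      apply Finset.prod_congr rfl
      intro h _
      simp
      ring
  have hadm' : ∀ p : ℕ, p.Prime → ∃ j : ℕ, ¬ (p : ℤ) ∣ TP H N j := by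
    intro p hp
    obtain ⟨n, hn⟩ := hadm p hp
    refine ⟨n + (p * N - N), fun hd => ?_⟩
    obtain ⟨h, hh, hd⟩ := (TP_dvd H N _ hp).1 hd
    apply hn h hh
    have h2 : N ≤ p * N := Nat.le_mul_of_pos_left N hp.pos
    have h3 : N + (n + (p * N - N)) + h = (n + h) + p * N := by omega
    rw [h3] at hd
    exact (Nat.dvd_add_left (Dvd.intro N rfl)).1 hd
  have habs : ∀ j, (TP H N j).natAbs = ∏ h ∈ H, (N + j + h) := by
    intro j
    unfold TP
    have : ∏ h ∈ H, ((N : ℤ) + j + h) = ((∏ h ∈ H, (N + j + h) : ℕ) : ℤ) := by push_cast; rfl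
    rw [this, Int.natAbs_natCast]
  have hsize : ∀ j : ℕ, j < b ^ K → (TP H N j).natAbs ≤ b ^ ((D + 2) * k * K) := by
    intro j hj
    rw [habs]
    have e1 : ∏ h ∈ H, b ^ ((D + 2) * K) ≤ b ^ ((D + 2) * k * K) := by
      rw [prod_const, ← pow_mul]
      apply Nat.pow_le_pow_right (by omega)
      calc (D + 2) * K * H.card ≤ (D + 2) * K * k := Nat.mul_le_mul_left _ hk
        _ = (D + 2) * k * K := by ring
    refine le_trans ?_ e1
    apply Finset.prod_le_prod (fun _ _ => Nat.zero_le _)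
    intro h hh
    have h2 : b ^ (D * K) ≤ b ^ ((D + 1) * K) := Nat.pow_le_pow_right (by omega) (by nlinarith)
    have h3 : b ^ K ≤ b ^ ((D + 1) * K) := Nat.pow_le_pow_right (by omega) (by nlinarith)
    have h4 : b ^ ((D + 2) * K) = b ^ ((D + 1) * K) * b ^ K := by rw [← pow_add]; congr 1; ring
    have h5 := hm h hh
    have h6 : 3 ≤ b ^ K := by
      calc 3 ≤ 2 ^ 2 := by norm_num
        _ ≤ 2 ^ K := Nat.pow_le_pow_right (by norm_num) (by omega)
        _ ≤ b ^ K := Nat.pow_le_pow_left hb K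
    rw [h4]
    nlinarith
  obtain ⟨h2, h3⟩ := hK (TP H N) hpoly hadm' hsize A hA hprod
  rw [WG_TP0] at h2 h3
  constructor
  · rintro ⟨d, hd, hcop⟩
    have h4 := h2 ⟨d, hd, by
      rw [habs]
      exact Nat.Coprime.prod_left fun h hh => hcop h hh⟩
    calc κ * NA K A * WG (TP H 0) (b ^ K) ≤ _ := h4
      _ ≤ _ := by
          have h5 := ND_mono' (b := b) (K := K) (A := A)
            (S := Alm (TP H N) r (b ^ K))
            (T := {j | ∀ h ∈ H, (∀ p : ℕ, p.Prime → p ∣ N + j + h → b ^ K < p ^ r) ∧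
              (N + j + h).primeFactorsList.length ≤ r}) (fun j _ hj => by
              obtain ⟨hj2, hj3⟩ := hj
              refine fun h hh => ⟨fun p hp hd => hj2 p hp ((TP_dvd H N j hp).2 ⟨h, hh, hd⟩), ?_⟩
              have hne : (TP H N j).natAbs ≠ 0 := by
                intro h0
                have h6 := hj2 2 Nat.prime_two (by rw [Int.natAbs_eq_zero.1 h0]; exact dvd_zero _)
                have h7 : 2 ^ r ≤ 2 ^ K := Nat.pow_le_pow_right (by norm_num) (by omega)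
                have h8 : 2 ^ K ≤ b ^ K := Nat.pow_le_pow_left hb K
                omega
              have h6 : N + j + h ∣ (TP H N j).natAbs := by
                rw [habs]
                exact dvd_prod_of_mem (fun h => N + j + h) hh
              exact (Nat.primeFactorsList_sublist_of_dvd h6 hne).length_le.trans hj3)
          exact_mod_cast h5
  · have h5 := ND_mono' (b := b) (K := K) (A := A)
      (S := {j | ∀ h ∈ H, ∀ p : ℕ, p.Prime → p ∣ N + j + h → j < p ^ r}) (T := Rgh (TP H N) r)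
      (fun j _ hj p hp hd => by
        obtain ⟨h, hh, hd⟩ := (TP_dvd H N j hp).1 hd
        exact hj h hh p hp hd)
    calc (ND b K A {j | ∀ h ∈ H, ∀ p : ℕ, p.Prime → p ∣ N + j + h → j < p ^ r} : ℝ) ≤
        ND b K A (Rgh (TP H N) r) := by exact_mod_cast h5
      _ ≤ C * NA K A * WG (TP H 0) (b ^ K) := h3



/-- the `m ∈ I` for which all `m + h`, `h ∈ H`, are almost primes: all their prime factors `p`
satisfy `p ^ r > z`, and they have at most `r` prime factors -/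
def AU (H : Finset ℕ) (I : Set ℕ) (r z : ℕ) : Set ℕ :=
  {m | m ∈ I ∧ ∀ h ∈ H, (∀ p : ℕ, p.Prime → p ∣ m + h → z < p ^ r) ∧ (m + h).primeFactorsList.length ≤ r}

/-- **Almost prime tuples with restricted digits in all short intervals, uniformly in the tuple.** -/
theorem uni_setU (k : ℕ) (hk1 : 1 ≤ k) (D : ℕ) :
    ∃ c : ℝ, 0 < c ∧ ∃ r0 : ℕ, 2 ≤ r0 ∧ ∀ r : ℕ, r0 ≤ r → ∀ b : ℕ, 2 ≤ b → ∀ M : ℕ, ∃ κ C : ℝ, 0 < κ ∧ 0 < C ∧
      ∀ᶠ K : ℕ in atTop, ∀ H : Finset ℕ, H.card ≤ k → (∀ p : ℕ, p.Prime → ∃ m : ℕ, ∀ h ∈ H, ¬ p ∣ m + h) →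
        (∀ h ∈ H, h ≤ b ^ (D * K)) →
        ∀ (I : Set ℕ) (x y y' : ℕ), 3 * b ^ K ≤ y → y ≤ y' → y' ≤ M * b ^ K →
        x ≤ b ^ (D * K) → (∀ m, x < m → m < x + y → m ∈ I) → (∀ m ∈ I, x < m ∧ m < x + y') →
        ∀ A : ℕ → Finset ℕ, (∀ i < K, A i ⊆ range b) → (b : ℝ) ^ K ≤ Real.exp (c * K) * NA K A →
        ((∃ d ∈ A 0, ∀ h ∈ H, (d + h).Coprime b) →
          κ * NA K A * WG (TP H 0) (b ^ K) ≤ DC b K A (AU H I r (b ^ K))) ∧
        (DC b K A (PT H I) : ℝ) ≤ C * NA K A * WG (TP H 0) (b ^ K) := by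
  classical
  obtain ⟨c, hc, r0, hr0, h⟩ := uni_shiftU k hk1 (D + 3)
  refine ⟨c, hc, r0, hr0, fun r hr b hb M => ?_⟩
  have h2r : 2 ≤ r := hr0.trans hr
  obtain ⟨κ, C, hκ, hC, h1⟩ := h r hr b hb
  refine ⟨κ, (M + 2) * C, hκ, by positivity, ?_⟩
  filter_upwards [h1, eventually_ge_atTop (M + 4)] with K hKK hK H hk hadm hHb I x y y' hy1 hyy hy2 hx hI1 hI2 A
    hA hprod
  have hb0 : 0 < b := by omega
  have hbK0 : 0 < b ^ K := by positivity
  have hKb : K < b ^ K := Nat.lt_pow_self (by omega)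
  have hHb' : ∀ h ∈ H, h ≤ b ^ ((D + 3) * K) := fun h hh =>
    (hHb h hh).trans (Nat.pow_le_pow_right hb0 (by nlinarith))
  have hxy : x + y' ≤ b ^ ((D + 3) * K) := by
    have e1 : x ≤ b ^ ((D + 2) * K) := hx.trans (Nat.pow_le_pow_right hb0 (by nlinarith))
    have e2 : y' ≤ b ^ ((D + 2) * K) := by
      calc y' ≤ M * b ^ K := hy2
        _ ≤ b ^ K * b ^ K := Nat.mul_le_mul_right _ (by omega)
        _ = b ^ (2 * K) := by rw [two_mul, pow_add]
        _ ≤ b ^ ((D + 2) * K) := Nat.pow_le_pow_right hb0 (by nlinarith)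
    have e3 : 2 ≤ b ^ K := by omega
    have e4 : b ^ ((D + 3) * K) = b ^ ((D + 2) * K) * b ^ K := by
      rw [← pow_add]; congr 1; ring
    rw [e4]
    nlinarith
  have hNA := NA_nonneg K A
  have hW := WG_nonneg (TP H 0) (b ^ K)
  constructor
  · rintro ⟨d, hd, hcop⟩
    have ht1 : x < b ^ K * (x / b ^ K + 1) := by
      have := Nat.lt_mul_div_succ x hbK0
      exact this
    have ht2 : b ^ K * (x / b ^ K + 1) ≤ x + b ^ K := by
      have := Nat.mul_div_le x (b ^ K)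
      rw [mul_add, mul_one]
      omega
    obtain ⟨h2, -⟩ := hKK H hk hadm hHb' (b ^ K * (x / b ^ K + 1)) (by omega) A hA hprod
    refine (h2 ⟨d, hd, fun h hh => ?_⟩).trans ?_
    · obtain ⟨K', rfl⟩ : ∃ K', K = K' + 1 := ⟨K - 1, by omega⟩
      have e : b ^ (K' + 1) * (x / b ^ (K' + 1) + 1) + d + h =
          (d + h) + b * (b ^ K' * (x / b ^ (K' + 1) + 1)) := by ring
      rw [e]
      exact (Nat.coprime_add_mul_left_left _ _ _).2 (hcop h hh)
    · apply Nat.cast_le.2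
      refine (IC_lower (u := x) (v := x + y) (T := AU H I r (b ^ K)) hb0 ht1 (by omega) ?_).trans
        (IC_le_DC ?_ fun m _ _ hm => hm)
      · intro j hj hjS
        exact ⟨hI1 _ (by omega) (by omega), hjS⟩
      · apply (finite_toSet (Ioo x (x + y'))).subset
        intro m hm
        rw [mem_coe, mem_Ioo]
        exact hI2 m hm.1
  · have h3 : ∀ t ∈ Icc (x / b ^ K) ((x + y') / b ^ K),
        (ND b K A {j | b ^ K * t + j ∈ PT H I} : ℝ) ≤ C * NA K A * WG (TP H 0) (b ^ K) := by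
      intro t ht
      rw [mem_Icc] at ht
      have h4 : b ^ K * t ≤ x + y' := (Nat.mul_le_mul_left _ ht.2).trans (Nat.mul_div_le _ _)
      obtain ⟨-, h5⟩ := hKK H hk hadm hHb' (b ^ K * t) (by omega) A hA hprod
      refine le_trans ?_ h5
      apply Nat.cast_le.2
      apply ND_mono'
      intro j hj hjS h hh p hp hd
      have h6 : b ^ K * t + j + h = p := ((Nat.prime_dvd_prime_iff_eq hp (hjS.2 h hh)).1 hd).symm
      exact lt_pow_of_le hp (by omega) h2r
    have h4 : ((Icc (x / b ^ K) ((x + y') / b ^ K)).card : ℝ) ≤ M + 2 := by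
      rw [Nat.card_Icc]
      have h5 : (x + y') / b ^ K ≤ x / b ^ K + M + 1 := by
        rw [← Nat.lt_succ_iff]
        apply Nat.div_lt_of_lt_mul
        have h6 := Nat.lt_mul_div_succ x hbK0
        have h7 : b ^ K * (x / b ^ K + M + 1).succ = b ^ K * (x / b ^ K + 1) + M * b ^ K + b ^ K := by
          rw [Nat.succ_eq_add_one]; ring
        rw [h7]
        omega
      have h6 : (x + y') / b ^ K + 1 - x / b ^ K ≤ M + 2 := by omega
      exact_mod_cast h6
    calc (DC b K A (PT H I) : ℝ) ≤ IC b K A x (x + y') (PT H I) :=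
          Nat.cast_le.2 (DC_le_IC fun m hm => ⟨hI2 m hm.1, hm⟩)
      _ ≤ ((∑ t ∈ Icc (x / b ^ K) ((x + y') / b ^ K),
          ND b K A {j | b ^ K * t + j ∈ PT H I} : ℕ) : ℝ) :=
          Nat.cast_le.2 (IC_upper hb0 A x (x + y') _)
      _ = ∑ t ∈ Icc (x / b ^ K) ((x + y') / b ^ K),
          (ND b K A {j | b ^ K * t + j ∈ PT H I} : ℝ) := Nat.cast_sum _ _
      _ ≤ (Icc (x / b ^ K) ((x + y') / b ^ K)).card • (C * NA K A * WG (TP H 0) (b ^ K)) :=
          sum_le_card_nsmul _ _ _ h3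
      _ = (Icc (x / b ^ K) ((x + y') / b ^ K)).card * (C * NA K A * WG (TP H 0) (b ^ K)) := nsmul_eq_mul _ _
      _ ≤ (M + 2) * (C * NA K A * WG (TP H 0) (b ^ K)) := mul_le_mul_of_nonneg_right h4 (by positivity)
      _ = _ := by ring

end Pool.Agent.Y816.PD
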