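import Pool.Agent.Y816.PD.UniS2

/-!
# Local conditions for pairs of linear forms
-/

set_option autoImplicit false

namespace Pool.Agent.Y816.PD

open Finset

lemma no_dvd_one {p : ℕ} (hp : p.Prime) {z : ℤ} (hz : z = 1 ∨ z = -1) : ¬ (p : ℤ) ∣ z := by
  intro h
  have h1 : (p : ℤ) ∣ ((1 : ℕ) : ℤ) := by
    rcases hz with rfl | rfl
    · exact_mod_cast h
    · rw [dvd_neg] at h
      exact_mod_cast h
  exact hp.one_lt.ne' (Nat.dvd_one.1 (Int.natCast_dvd_natCast.1 h1))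

lemma no_dvd_two {p : ℕ} (hp : p.Prime) (h3 : 3 ≤ p) {z : ℤ} (hz : z = 2 ∨ z = -2) : ¬ (p : ℤ) ∣ z := by
  intro h
  have h1 : (p : ℤ) ∣ ((2 : ℕ) : ℤ) := by
    rcases hz with rfl | rfl
    · exact_mod_cast h
    · rw [dvd_neg] at h
      exact_mod_cast h
  have := Nat.le_of_dvd (by norm_num) (Int.natCast_dvd_natCast.1 h1)
  omega

/-- two linear forms have no fixed prime divisor `p ≥ 3` -/
lemma adm_two {p : ℕ} (hp : p.Prime) (h3 : 3 ≤ p) (u v : ℤ) : ∃ k : ℕ, ¬ (p : ℤ) ∣ (u + k) * (v - k) := by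
  have hpz := Nat.prime_iff_prime_int.1 hp
  by_contra hcon
  push Not at hcon
  have h0 := hpz.dvd_or_dvd (hcon 0)
  have h1 := hpz.dvd_or_dvd (hcon 1)
  have h2 := hpz.dvd_or_dvd (hcon 2)
  push_cast at h0 h1 h2
  have n1 : ∀ x y : ℤ, x - y = 1 ∨ x - y = -1 → (p : ℤ) ∣ x → (p : ℤ) ∣ y → False := fun x y h hx hy =>
    no_dvd_one hp h (dvd_sub hx hy)
  have n2 : ∀ x y : ℤ, x - y = 2 ∨ x - y = -2 → (p : ℤ) ∣ x → (p : ℤ) ∣ y → False := fun x y h hx hy =>
    no_dvd_two hp h3 h (dvd_sub hx hy)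
  rcases h0 with h0 | h0 <;> rcases h1 with h1 | h1 <;> rcases h2 with h2 | h2
  · exact n1 _ _ (Or.inl (by ring)) h1 h0
  · exact n1 _ _ (Or.inl (by ring)) h1 h0
  · exact n2 _ _ (Or.inl (by ring)) h2 h0
  · exact n1 _ _ (Or.inl (by ring)) h1 h2
  · exact n1 _ _ (Or.inl (by ring)) h2 h1
  · exact n2 _ _ (Or.inl (by ring)) h0 h2
  · exact n1 _ _ (Or.inl (by ring)) h0 h1
  · exact n1 _ _ (Or.inl (by ring)) h0 h1

/-- `n (N - n)` for even `N` -/
lemma adm_gold {N : ℤ} (hN : Even N) (a : ℕ) (p : ℕ) (hp : p.Prime) :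
    ∃ j : ℕ, ¬ (p : ℤ) ∣ ((a : ℤ) + j) * (N - (a + j)) := by
  rcases Nat.lt_or_ge p 3 with h3 | h3
  · have hp2 : p = 2 := by have := hp.two_le; omega
    subst hp2
    have hpz := Nat.prime_iff_prime_int.1 Nat.prime_two
    refine ⟨a + 1, fun h => ?_⟩
    obtain ⟨M, hM⟩ := hN
    rcases hpz.dvd_or_dvd h with h1 | h1
    · obtain ⟨t, ht⟩ := h1
      push_cast at ht
      omega
    · obtain ⟨t, ht⟩ := h1
      push_cast at ht
      omega
  · obtain ⟨k, hk⟩ := adm_two hp h3 (a : ℤ) (N - a)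
    refine ⟨k, ?_⟩
    have : (N - (a + k) : ℤ) = N - a - k := by ring
    rw [this]
    exact hk

/-- a polynomial of degree `< p` whose leading coefficient is not divisible by `p` -/
lemma adm_deg {p : ℕ} (hp : p.Prime) (P : Polynomial ℤ) (hlc : ¬ (p : ℤ) ∣ P.leadingCoeff)
    (hdeg : P.natDegree < p) : ∃ n : ℕ, ¬ (p : ℤ) ∣ P.eval (n : ℤ) := by
  classical
  by_contra hcon
  push Not at hcon
  have : Fact p.Prime := ⟨hp⟩
  have hev : ∀ a : ℕ, Polynomial.eval (a : ZMod p) (P.map (Int.castRingHom (ZMod p))) = 0 := by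
    intro a
    have h4 : Polynomial.eval ((a : ℤ) : ZMod p) (P.map (Int.castRingHom (ZMod p))) =
        ((P.eval (a : ℤ) : ℤ) : ZMod p) := by
      rw [Polynomial.eval_intCast_map]
      rfl
    have h5 : ((a : ℤ) : ZMod p) = (a : ZMod p) := by push_cast; rfl
    rw [← h5, h4, ZMod.intCast_zmod_eq_zero_iff_dvd]
    exact hcon a
  have h0 : P.map (Int.castRingHom (ZMod p)) = 0 := by
    apply Polynomial.eq_zero_of_natDegree_lt_card_of_eval_eq_zero' _ (Finset.univ : Finset (ZMod p))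
    · intro x _
      have := hev x.val
      rwa [ZMod.natCast_zmod_val] at this
    · rw [Finset.card_univ, ZMod.card]
      exact lt_of_le_of_lt Polynomial.natDegree_map_le hdeg
  apply hlc
  have h3 : (P.map (Int.castRingHom (ZMod p))).coeff P.natDegree = 0 := by rw [h0, Polynomial.coeff_zero]
  rw [Polynomial.coeff_map, eq_intCast] at h3
  exact (ZMod.intCast_zmod_eq_zero_iff_dvd _ p).1 h3

/-- a prime larger than `n` -/
lemma lt_pow_of_le {n p r : ℕ} (hp : p.Prime) (h : n ≤ p) (hr : 2 ≤ r) : n < p ^ r :=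
  lt_of_le_of_lt h (lt_self_pow₀ hp.one_lt (by omega))

end Pool.Agent.Y816.PD
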