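import Pool.Agent.Y816.PD.Uni
import Pool.Agent.Y816.PD.Chain

/-!
# Almost prime values of polynomials at integers with restricted digits, uniformly in the polynomial
-/

set_option autoImplicit false

namespace Pool.Agent.Y816.PD

open Polynomial Finset Filter
open Pool.Agent.H373R2.T7 Pool.Agent.W123.RP Pool.Agent.W123.RU.Poly

open Classical in
/-- The proportion of the residue classes `n` modulo `p` with `p ∣ P n`, and the product of `1 - ω(p) / p`
over the primes `p ≤ x`. -/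
noncomputable def VP (P : ℤ[X]) (x : ℕ) : ℝ := ∏ p ∈ (Icc 1 x).filter Nat.Prime,
  (1 - (((range p).filter (fun n : ℕ => (p : ℤ) ∣ P.eval (n : ℤ))).card : ℝ) / p)

lemma count_le (P : ℤ[X]) {p : ℕ} (hp : p.Prime) (h : ∃ n : ℕ, ¬ (p : ℤ) ∣ P.eval (n : ℤ)) :
    nuB (fun p n : ℕ => (p : ℤ) ∣ P.eval (n : ℤ)) p ≤ P.natDegree := by
  classical
  have : Fact p.Prime := ⟨hp⟩
  set g : (ZMod p)[X] := P.map (Int.castRingHom (ZMod p)) with hg
  have hev : ∀ a : ℕ, eval (a : ZMod p) g = ((P.eval (a : ℤ) : ℤ) : ZMod p) := by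
    intro a
    have h4 : eval ((a : ℤ) : ZMod p) (P.map (Int.castRingHom (ZMod p))) = ((P.eval (a : ℤ) : ℤ) : ZMod p) := by
      rw [eval_intCast_map]
      rfl
    have h5 : ((a : ℤ) : ZMod p) = (a : ZMod p) := by push_cast; rfl
    rw [← h5]
    exact h4
  have hg0 : g ≠ 0 := by
    intro h0
    obtain ⟨n, hn⟩ := h
    apply hn
    rw [← ZMod.intCast_zmod_eq_zero_iff_dvd, ← hev, h0, eval_zero]
  have hdeg : g.natDegree ≤ P.natDegree := natDegree_map_le
  have hcalc : ((Finset.range p).filter (fun a : ℕ => (p : ℤ) ∣ P.eval (a : ℤ))).card ≤ P.natDegree := by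
    have k1 : ((Finset.range p).filter (fun a : ℕ => (p : ℤ) ∣ P.eval (a : ℤ))).card ≤
        g.roots.toFinset.card := by
      apply Finset.card_le_card_of_injOn (fun a : ℕ => (a : ZMod p))
      · intro a ha
        rw [Finset.mem_coe, Finset.mem_filter] at ha
        rw [Finset.mem_coe, Multiset.mem_toFinset, mem_roots hg0, IsRoot.def, hev,
          ZMod.intCast_zmod_eq_zero_iff_dvd]
        exact ha.2
      · intro a ha b hb hab
        rw [Finset.mem_coe, Finset.mem_filter, Finset.mem_range] at ha hb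
        have h6 := (ZMod.natCast_eq_natCast_iff' a b p).1 hab
        rwa [Nat.mod_eq_of_lt ha.1, Nat.mod_eq_of_lt hb.1] at h6
    exact k1.trans ((Multiset.toFinset_card_le _).trans ((card_roots' g).trans hdeg))
  refine le_trans (le_of_eq ?_) hcalc
  unfold nuB
  congr

lemma ND_mono' {b K : ℕ} {A : ℕ → Finset ℕ} {S T : Set ℕ} (h : ∀ n < b ^ K, n ∈ S → n ∈ T) :
    ND b K A S ≤ ND b K A T := by
  classical
  unfold ND
  apply card_le_card
  intro n hn
  rw [mem_filter] at hn ⊢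
  exact ⟨hn.1, hn.2.1, h n (mem_range.1 hn.1) hn.2.2⟩

lemma VP_eq (P : ℤ[X]) (x : ℕ) : VP P x = Vq (fun p n : ℕ => (p : ℤ) ∣ P.eval (n : ℤ)) x := by
  classical
  unfold VP Vq pz nuB
  apply prod_congr rfl
  intro p _
  congr

/-- **Uniformity in the polynomial.** -/
theorem uni_poly (κ0 D : ℕ) (hκ0 : 1 ≤ κ0) :
    ∃ c : ℝ, 0 < c ∧ ∃ r0 : ℕ, 2 ≤ r0 ∧ ∀ r : ℕ, r0 ≤ r → ∀ b : ℕ, 2 ≤ b → ∃ κ C : ℝ, 0 < κ ∧ 0 < C ∧
      ∀ᶠ K : ℕ in atTop, ∀ P : ℤ[X], P.natDegree ≤ κ0 →
        (∀ p : ℕ, p.Prime → ∃ n : ℕ, ¬ (p : ℤ) ∣ P.eval (n : ℤ)) →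
        (∀ n : ℕ, n < b ^ K → (P.eval (n : ℤ)).natAbs ≤ b ^ (D * K)) →
        ∀ A : ℕ → Finset ℕ, (∀ i < K, A i ⊆ range b) → (b : ℝ) ^ K ≤ Real.exp (c * K) * NA K A →
        ((∃ d ∈ A 0, ∀ p : ℕ, p.Prime → p ∣ b → ¬ (p : ℤ) ∣ P.eval (d : ℤ)) →
          κ * NA K A * VP P (b ^ K) ≤
          ND b K A {n | (∀ p : ℕ, p.Prime → (p : ℤ) ∣ P.eval (n : ℤ) → b ^ K < p ^ r) ∧
            (P.eval (n : ℤ)).natAbs.primeFactorsList.length ≤ r}) ∧
        (ND b K A {n | ∀ p : ℕ, p.Prime → (p : ℤ) ∣ P.eval (n : ℤ) → n < p ^ r} : ℝ) ≤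
          C * NA K A * VP P (b ^ K) := by
  classical
  obtain ⟨c1, hc1, E0, hE0, h1⟩ := uni_lower κ0 hκ0
  obtain ⟨c2, hc2, h2⟩ := uni_upper κ0 hκ0
  refine ⟨min c1 c2, lt_min hc1 hc2, (D + 2) * E0 + 2, by omega, fun r hr b hb => ?_⟩
  obtain ⟨κ, hκ, h1⟩ := h1 b hb
  obtain ⟨C, hC, h2⟩ := h2 b hb r (by omega)
  refine ⟨κ, C, hκ, hC, ?_⟩
  filter_upwards [h1, h2, eventually_ge_atTop (2 * E0 + 1)] with K hK1 hK2 hK3
  intro P hdeg hadm hsize A hA hprod
  have hNA := NA_nonneg K A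
  have hp1 : (b : ℝ) ^ K ≤ Real.exp (c1 * K) * NA K A := by
    refine hprod.trans (mul_le_mul_of_nonneg_right ?_ hNA)
    apply Real.exp_le_exp.2
    exact mul_le_mul_of_nonneg_right (min_le_left _ _) (Nat.cast_nonneg _)
  have hp2 : (b : ℝ) ^ K ≤ Real.exp (c2 * K) * NA K A := by
    refine hprod.trans (mul_le_mul_of_nonneg_right ?_ hNA)
    apply Real.exp_le_exp.2
    exact mul_le_mul_of_nonneg_right (min_le_right _ _) (Nat.cast_nonneg _)
  obtain ⟨Q, hQd⟩ : ∃ Q : ℕ → ℕ → Prop, Q = fun p n : ℕ => (p : ℤ) ∣ P.eval (n : ℤ) := ⟨_, rfl⟩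
  have hQ : PerB Q κ0 := by
    rw [hQd]
    exact ⟨fun p n => per1 P p n, fun p hp => (count_le P hp (hadm p hp)).trans hdeg⟩
  have hQadm : ∀ p : ℕ, p.Prime → nuB Q p < p := by
    intro p hp
    obtain ⟨m, hm⟩ := hadm p hp
    have h3 : (range p).filter (fun r => Q p r) ⊂ range p := by
      rw [Finset.filter_ssubset]
      refine ⟨m % p, mem_range.2 (Nat.mod_lt _ hp.pos), ?_⟩
      intro h
      apply hm
      have := (hQ.per p m).2 h
      rw [hQd] at this
      exact this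
    have h4 := card_lt_card h3
    rw [card_range] at h4
    unfold nuB
    convert h4
  have hV : VP P (b ^ K) = Vq Q (b ^ K) := by rw [VP_eq, hQd]
  constructor
  · rintro ⟨d, hd, hd2⟩
    have h3 := hK1 Q hQ hQadm A hA hp1 ⟨d, hd, fun p hp hpb => by rw [hQd]; exact hd2 p hp hpb⟩
    rw [← hV] at h3
    refine h3.trans ?_
    have h4 : ND b K A {n | ∀ p : ℕ, p.Prime → p ^ E0 ≤ b ^ K → ¬ Q p n} ≤
        ND b K A {n | (∀ p : ℕ, p.Prime → (p : ℤ) ∣ P.eval (n : ℤ) → b ^ K < p ^ r) ∧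
            (P.eval (n : ℤ)).natAbs.primeFactorsList.length ≤ r} := by
      apply ND_mono'
      intro n hnK hn
      have hn3 : ∀ p : ℕ, p.Prime → p ^ E0 ≤ b ^ K → ¬ (p : ℤ) ∣ P.eval (n : ℤ) := by
        have := hn
        rw [hQd] at this
        exact this
      have hbig : ∀ p : ℕ, p.Prime → (p : ℤ) ∣ P.eval (n : ℤ) → b ^ K < p ^ E0 := by
        intro p hp hd
        by_contra hcon
        push Not at hcon
        exact hn3 p hp hcon hd
      refine ⟨fun p hp hd => lt_of_lt_of_le (hbig p hp hd) (Nat.pow_le_pow_right hp.pos (by nlinarith)), ?_⟩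
      obtain ⟨v, hv⟩ : ∃ v, v = (P.eval (n : ℤ)).natAbs := ⟨_, rfl⟩
      rw [← hv]
      have hv0 : v ≠ 0 := by
        intro h0
        have h5 := hn3 2 Nat.prime_two (by
          calc 2 ^ E0 ≤ 2 ^ K := Nat.pow_le_pow_right (by norm_num) (by omega)
            _ ≤ b ^ K := Nat.pow_le_pow_left hb _)
        apply h5
        rw [h0] at hv
        rw [Int.natAbs_eq_zero.1 hv.symm]
        exact dvd_zero _
      have hvs : v ≤ b ^ (D * K) := by
        rw [hv]
        exact hsize n hnK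
      -- `b ^ K ≤ (p ^ E0)` for every prime factor
      have h6 : ∀ l : List ℕ, (∀ p ∈ l, b ^ K ≤ p ^ E0) → (b ^ K) ^ l.length ≤ l.prod ^ E0 := by
        intro l
        induction l with
        | nil => intro _; simp
        | cons a l ih =>
          intro h
          rw [List.length_cons, List.prod_cons, pow_succ, mul_pow, mul_comm]
          exact Nat.mul_le_mul (h a (List.mem_cons_self ..)) (ih fun p hp => h p (List.mem_cons_of_mem _ hp))
      have h7 := h6 v.primeFactorsList (fun p hp => by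
        have hpp := Nat.prime_of_mem_primeFactorsList hp
        have hpd := Nat.dvd_of_mem_primeFactorsList hp
        rw [hv] at hpd
        exact (hbig p hpp (Int.natCast_dvd.2 hpd)).le)
      rw [Nat.prod_primeFactorsList hv0] at h7
      have h8 : (b ^ K) ^ v.primeFactorsList.length ≤ (b ^ K) ^ (D * E0) := by
        refine h7.trans ((Nat.pow_le_pow_left hvs E0).trans (le_of_eq ?_))
        rw [← pow_mul, ← pow_mul]
        congr 1
        ring
      have h9 : 1 < b ^ K := Nat.one_lt_pow (by omega) (by omega)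
      have h10 := (Nat.pow_le_pow_iff_right h9).1 h8
      have h11 : (D + 2) * E0 = D * E0 + 2 * E0 := by ring
      omega
    exact_mod_cast h4
  · have h3 := hK2 Q hQ hQadm A hA hp2
    rw [← hV] at h3
    refine le_trans ?_ h3
    have h4 : ND b K A {n | ∀ p : ℕ, p.Prime → (p : ℤ) ∣ P.eval (n : ℤ) → n < p ^ r} ≤
        ND b K A {n | ∀ p : ℕ, p.Prime → p ^ r ≤ n → ¬ Q p n} := by
      apply ND_mono
      intro n hn p hp hpn hq
      rw [hQd] at hq
      have := hn p hp hq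
      omega
    exact_mod_cast h4

end Pool.Agent.Y816.PD
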