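import Pool.Agent.Y816.PD.UniG
import Pool.Agent.Y816.PD.Tup

/-!
# Almost prime tuples in short intervals with restricted digits of the distance to the end point
-/

set_option autoImplicit false

namespace Pool.Agent.Y816.PD

open Polynomial Finset Filter
open Pool.Agent.H373R2.T7 Pool.Agent.W123.RP Pool.Agent.W123.RU.Poly Pool.Agent.W182.PW
open Pool.Agent.TH977.PW (sys_lin)

/-- the product of the `N + j + h` -/
def TP (H : Finset ℕ) (N j : ℕ) : ℤ := ∏ h ∈ H, ((N : ℤ) + j + h)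

lemma TP_dvd (H : Finset ℕ) (N j : ℕ) {p : ℕ} (hp : p.Prime) :
    (p : ℤ) ∣ TP H N j ↔ ∃ h ∈ H, p ∣ N + j + h := by
  unfold TP
  rw [Prime.dvd_finsetProd_iff (Nat.prime_iff_prime_int.1 hp)]
  constructor
  · rintro ⟨h, hh, hd⟩
    refine ⟨h, hh, ?_⟩
    rw [← Int.natCast_dvd_natCast]
    push_cast
    exact hd
  · rintro ⟨h, hh, hd⟩
    refine ⟨h, hh, ?_⟩
    rw [← Int.natCast_dvd_natCast] at hd
    push_cast at hd
    exact hd

open Classical in
lemma shift_le (p N : ℕ) (hp : 0 < p) (S : ℕ → Prop) (hper : ∀ n, S n ↔ S (n % p)) :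
    ((range p).filter (fun n => S (N + n))).card ≤ ((range p).filter (fun n => S n)).card := by
  apply card_le_card_of_injOn (fun n => (N + n) % p)
  · intro n hn
    rw [mem_coe, mem_filter] at hn ⊢
    exact ⟨mem_range.2 (Nat.mod_lt _ hp), (hper _).1 hn.2⟩
  · intro n hn m hm h
    rw [mem_coe, mem_filter, mem_range] at hn hm
    have h1 : N + n ≡ N + m [MOD p] := h
    have h2 := Nat.ModEq.add_left_cancel' N h1
    unfold Nat.ModEq at h2
    rwa [Nat.mod_eq_of_lt hn.1, Nat.mod_eq_of_lt hm.1] at h2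

open Classical in
lemma shift_eq (p N : ℕ) (hp : 0 < p) (S : ℕ → Prop) (hper : ∀ n, S n ↔ S (n % p)) :
    ((range p).filter (fun n => S (N + n))).card = ((range p).filter (fun n => S n)).card := by
  apply le_antisymm (shift_le p N hp S hper)
  have h1 := shift_le p (p * N - N) hp (fun n => S (N + n)) (fun n => by
    rw [hper (N + n), hper (N + n % p), Nat.add_mod, Nat.add_mod N (n % p), Nat.mod_mod])
  refine le_trans (le_of_eq ?_) h1
  congr 1
  apply filter_congr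
  intro n _
  have h2 : N ≤ p * N := Nat.le_mul_of_pos_left N hp
  have h3 : N + (p * N - N + n) = n + p * N := by omega
  rw [h3, hper (n + p * N), Nat.add_mul_mod_self_left, ← hper]

/-- the system of the `X + h` -/
lemma sysH (H : Finset ℕ) (hadm : ∀ p : ℕ, p.Prime → ∃ m : ℕ, ∀ h ∈ H, ¬ p ∣ m + h) :
    Sys (fun i : {x // x ∈ H} => lin 1 ((i.1 : ℕ) : ℤ)) :=
  sys_lin (fun _ : {x // x ∈ H} => 1) (fun i : {x // x ∈ H} => ((i.1 : ℕ) : ℤ)) (fun _ => one_pos)
    (fun i => by rw [Nat.cast_one]; exact isCoprime_one_left)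
    (fun i j _ hij => Subtype.ext (by exact_mod_cast hij))
    (fun p hp => by
      obtain ⟨m, hm⟩ := hadm p hp
      refine ⟨m, fun i hi => hm i.1 i.2 ?_⟩
      rw [← Int.natCast_dvd_natCast]
      push_cast at hi ⊢
      rw [one_mul] at hi
      exact hi)

open Classical in
lemma WG_TP (H : Finset ℕ) (N x : ℕ) :
    WG (TP H N) x = Vq (Q (fun i : {x // x ∈ H} => lin 1 ((i.1 : ℕ) : ℤ))) x := by
  unfold WG Vq pz
  apply prod_congr rfl
  intro p hp
  rw [mem_filter] at hp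
  have hpp := hp.2
  have h1 : ((range p).filter (fun n : ℕ => (p : ℤ) ∣ TP H N n)).card =
      ((range p).filter (fun n : ℕ => ∃ h ∈ H, p ∣ N + n + h)).card := by
    congr 1
    apply filter_congr
    intro n _
    exact TP_dvd H N n hpp
  have h2 : ((range p).filter (fun n : ℕ => ∃ h ∈ H, p ∣ N + n + h)).card =
      ((range p).filter (fun n : ℕ => ∃ h ∈ H, p ∣ n + h)).card := by
    convert shift_eq p N hpp.pos (fun n => ∃ h ∈ H, p ∣ n + h) (fun n => by
      apply exists_congr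
      intro h
      apply and_congr_right
      intro _
      rw [Nat.dvd_iff_mod_eq_zero, Nat.dvd_iff_mod_eq_zero, Nat.mod_add_mod])
  have h3 : nuB (Q (fun i : {x // x ∈ H} => lin 1 ((i.1 : ℕ) : ℤ))) p =
      ((range p).filter (fun n : ℕ => ∃ h ∈ H, p ∣ n + h)).card := by
    unfold nuB
    congr 1
    apply filter_congr
    intro n _
    unfold Q
    constructor
    · rintro ⟨i, hi⟩
      rw [lin_eval] at hi
      refine ⟨i.1, i.2, ?_⟩
      rw [← Int.natCast_dvd_natCast]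
      push_cast at hi ⊢
      rw [one_mul] at hi
      exact hi
    · rintro ⟨h, hh, hd⟩
      refine ⟨⟨h, hh⟩, ?_⟩
      rw [lin_eval]
      rw [← Int.natCast_dvd_natCast] at hd
      push_cast at hd ⊢
      rw [one_mul]
      exact hd
  rw [h3, ← h2, ← h1]

lemma WG_bounds (H : Finset ℕ) (hadm : ∀ p : ℕ, p.Prime → ∃ m : ℕ, ∀ h ∈ H, ¬ p ∣ m + h) (k : ℕ)
    (hk : H.card = k) (b : ℕ) (hb : 2 ≤ b) :
    ∃ v Cv : ℝ, 0 < v ∧ 0 < Cv ∧ ∀ᶠ K : ℕ in atTop, ∀ N : ℕ,
      v / (K : ℝ) ^ k ≤ WG (TP H N) (b ^ K) ∧ WG (TP H N) (b ^ K) ≤ Cv / (K : ℝ) ^ k := by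
  obtain ⟨v, Cv, hv, hCv, h⟩ := V_bounds _ (sysH H hadm)
  have hb1 : (1 : ℝ) < b := by exact_mod_cast (by omega : 1 < b)
  have hlb : 0 < Real.log b := Real.log_pos hb1
  refine ⟨v / Real.log b ^ k, Cv / Real.log b ^ k, by positivity, by positivity, ?_⟩
  filter_upwards [eventually_ge_atTop 2] with K hK N
  have hK0 : (0 : ℝ) < K := by exact_mod_cast (by omega : 0 < K)
  have h3 : 3 ≤ b ^ K := by
    calc 3 ≤ 2 ^ 2 := by norm_num
      _ ≤ 2 ^ K := Nat.pow_le_pow_right (by norm_num) hK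
      _ ≤ b ^ K := Nat.pow_le_pow_left hb K
  obtain ⟨h4, h5⟩ := h (b ^ K) h3
  rw [WG_TP]
  have hcard : Fintype.card {x // x ∈ H} = k := by rw [Fintype.card_coe]; exact hk
  rw [hcard] at h4 h5
  push_cast at h4 h5
  rw [Real.log_pow] at h4 h5
  have e : ∀ u : ℝ, u / Real.log b ^ k / (K : ℝ) ^ k = u / ((K : ℝ) * Real.log b) ^ k := by
    intro u
    rw [mul_pow]
    field_simp
  rw [e, e]
  exact ⟨h4, h5⟩

/-- **Almost prime tuples near any base point.** -/
theorem uni_shift (H : Finset ℕ) (hadm : ∀ p : ℕ, p.Prime → ∃ m : ℕ, ∀ h ∈ H, ¬ p ∣ m + h) (k : ℕ)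
    (hk : H.card = k) (hk1 : 1 ≤ k) (D : ℕ) :
    ∃ c : ℝ, 0 < c ∧ ∃ r0 : ℕ, 2 ≤ r0 ∧ ∀ r : ℕ, r0 ≤ r → ∀ b : ℕ, 2 ≤ b → ∃ κ C : ℝ, 0 < κ ∧ 0 < C ∧
      ∀ᶠ K : ℕ in atTop, ∀ N : ℕ, N ≤ b ^ (D * K) → ∀ A : ℕ → Finset ℕ, (∀ i < K, A i ⊆ range b) →
        (b : ℝ) ^ K ≤ Real.exp (c * K) * NA K A →
        ((∃ d ∈ A 0, ∀ h ∈ H, (N + d + h).Coprime b) → (∃ d ∈ A (K - 1), d ≠ 0) →
          κ * NA K A / (K : ℝ) ^ k ≤
          ND b K A {j | b ^ (K - 1) ≤ j ∧ ∀ h ∈ H, (∀ p : ℕ, p.Prime → p ∣ N + j + h → b ^ K < p ^ r) ∧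
            (N + j + h).primeFactorsList.length ≤ r}) ∧
        (ND b K A {j | ∀ h ∈ H, ∀ p : ℕ, p.Prime → p ∣ N + j + h → j < p ^ r} : ℝ) ≤
          C * NA K A / (K : ℝ) ^ k := by
  classical
  obtain ⟨c, hc, r0, hr0, h⟩ := uni_top k ((D + 2) * k) hk1
  refine ⟨c, hc, r0, hr0, fun r hr b hb => ?_⟩
  obtain ⟨κ, C, hκ, hC, h1⟩ := h r hr b hb
  obtain ⟨v, Cv, hv, hCv, hW⟩ := WG_bounds H hadm k hk b hb
  obtain ⟨m, hm⟩ : ∃ m, ∀ h ∈ H, h ≤ m := ⟨H.sup id, fun h hh => le_sup (f := id) hh⟩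
  refine ⟨κ * v, C * Cv, by positivity, by positivity, ?_⟩
  filter_upwards [h1, hW, eventually_ge_atTop (m + r + 2)] with K hK hWK hK2 N hN A hA hprod
  have hNA := NA_nonneg K A
  have hbK : K < b ^ K := Nat.lt_pow_self (by omega)
  have hpoly : ∃ P : ℤ[X], P.natDegree ≤ k ∧ ∀ j : ℕ, P.eval (j : ℤ) = TP H N j := by
    refine ⟨∏ h ∈ H, (X + Polynomial.C ((N : ℤ) + h)), ?_, fun j => ?_⟩
    · refine (natDegree_prod_le _ _).trans ?_
      rw [← hk, Finset.card_eq_sum_ones]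
      apply Finset.sum_le_sum
      intro h _
      exact (natDegree_X_add_C _).le
    · unfold TP
      rw [eval_prod]
      apply Finset.prod_congr rfl
      intro h _
      simp
      ring
  have hadm' : ∀ p : ℕ, p.Prime → ∃ j : ℕ, ¬ (p : ℤ) ∣ TP H N j := by
    intro p hp
    obtain ⟨n, hn⟩ := hadm p hp
    refine ⟨n + (p * N - N), fun hd => ?_⟩
    obtain ⟨h, hh, hd⟩ := (TP_dvd H N _ hp).1 hd
    apply hn h hh
    have h2 : N ≤ p * N := Nat.le_mul_of_pos_left N hp.pos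
    have h3 : N + (n + (p * N - N)) + h = (n + h) + p * N := by omega
    rw [h3] at hd
    exact (Nat.dvd_add_left (Dvd.intro N rfl)).1 hd
  have habs : ∀ j, (TP H N j).natAbs = ∏ h ∈ H, (N + j + h) := by
    intro j
    unfold TP
    have : ∏ h ∈ H, ((N : ℤ) + j + h) = ((∏ h ∈ H, (N + j + h) : ℕ) : ℤ) := by push_cast; rfl
    rw [this, Int.natAbs_natCast]
  have hsize : ∀ j : ℕ, j < b ^ K → (TP H N j).natAbs ≤ b ^ ((D + 2) * k * K) := by
    intro j hj
    rw [habs]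
    have e1 : b ^ ((D + 2) * k * K) = ∏ h ∈ H, b ^ ((D + 2) * K) := by
      rw [prod_const, hk, ← pow_mul]
      congr 1
      ring
    rw [e1]
    apply Finset.prod_le_prod (fun _ _ => Nat.zero_le _)
    intro h hh
    have h2 : b ^ (D * K) ≤ b ^ ((D + 1) * K) := Nat.pow_le_pow_right (by omega) (by nlinarith)
    have h3 : b ^ K ≤ b ^ ((D + 1) * K) := Nat.pow_le_pow_right (by omega) (by nlinarith)
    have h4 : b ^ ((D + 2) * K) = b ^ ((D + 1) * K) * b ^ K := by rw [← pow_add]; congr 1; ring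
    have h5 := hm h hh
    have h6 : 3 ≤ b ^ K := by
      calc 3 ≤ 2 ^ 2 := by norm_num
        _ ≤ 2 ^ K := Nat.pow_le_pow_right (by norm_num) (by omega)
        _ ≤ b ^ K := Nat.pow_le_pow_left hb K
    rw [h4]
    nlinarith
  obtain ⟨h2, h3⟩ := hK (TP H N) hpoly hadm' hsize A hA hprod
  obtain ⟨hW1, hW2⟩ := hWK N
  constructor
  · rintro ⟨d, hd, hcop⟩ htop
    have h4 := h2 ⟨d, hd, by
      rw [habs]
      exact Nat.Coprime.prod_left fun h hh => hcop h hh⟩ htop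
    calc κ * v * NA K A / (K : ℝ) ^ k = κ * NA K A * (v / (K : ℝ) ^ k) := by ring
      _ ≤ κ * NA K A * WG (TP H N) (b ^ K) := mul_le_mul_of_nonneg_left hW1 (by positivity)
      _ ≤ _ := h4
      _ ≤ _ := by
          have h5 := ND_mono' (b := b) (K := K) (A := A)
            (S := {n | b ^ (K - 1) ≤ n ∧ n ∈ Alm (TP H N) r (b ^ K)})
            (T := {j | b ^ (K - 1) ≤ j ∧ ∀ h ∈ H, (∀ p : ℕ, p.Prime → p ∣ N + j + h → b ^ K < p ^ r) ∧
              (N + j + h).primeFactorsList.length ≤ r}) (fun j _ hj => by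
              obtain ⟨hj1, hj2, hj3⟩ := hj
              refine ⟨hj1, fun h hh => ⟨fun p hp hd => hj2 p hp ((TP_dvd H N j hp).2 ⟨h, hh, hd⟩), ?_⟩⟩
              have hne : (TP H N j).natAbs ≠ 0 := by
                intro h0
                have h6 := hj2 2 Nat.prime_two (by rw [Int.natAbs_eq_zero.1 h0]; exact dvd_zero _)
                have h7 : 2 ^ r ≤ 2 ^ K := Nat.pow_le_pow_right (by norm_num) (by omega)
                have h8 : 2 ^ K ≤ b ^ K := Nat.pow_le_pow_left hb K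
                omega
              have h6 : N + j + h ∣ (TP H N j).natAbs := by
                rw [habs]
                exact dvd_prod_of_mem (fun h => N + j + h) hh
              exact (Nat.primeFactorsList_sublist_of_dvd h6 hne).length_le.trans hj3)
          exact_mod_cast h5
  · have h5 := ND_mono' (b := b) (K := K) (A := A)
      (S := {j | ∀ h ∈ H, ∀ p : ℕ, p.Prime → p ∣ N + j + h → j < p ^ r}) (T := Rgh (TP H N) r)
      (fun j _ hj p hp hd => by
        obtain ⟨h, hh, hd⟩ := (TP_dvd H N j hp).1 hd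
        exact hj h hh p hp hd)
    calc (ND b K A {j | ∀ h ∈ H, ∀ p : ℕ, p.Prime → p ∣ N + j + h → j < p ^ r} : ℝ) ≤
        ND b K A (Rgh (TP H N) r) := by exact_mod_cast h5
      _ ≤ C * NA K A * WG (TP H N) (b ^ K) := h3
      _ ≤ C * NA K A * (Cv / (K : ℝ) ^ k) := mul_le_mul_of_nonneg_left hW2 (by positivity)
      _ = _ := by ring

end Pool.Agent.Y816.PD
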