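import Pool.Agent.Y816.PD.UniS

/-!
# Almost prime tuples with composite numbers at given places between them
-/

set_option autoImplicit false

namespace Pool.Agent.Y816.PD

open Finset Filter

/-- the almost prime tuples -/
def ST (H : Finset ℕ) (N r y z : ℕ) : Set ℕ := {j | z ≤ j ∧ ∀ h ∈ H, (∀ p : ℕ, p.Prime → p ∣ N + j + h → y < p ^ r) ∧
  (N + j + h).primeFactorsList.length ≤ r}

/-- the rough tuples -/
def SR (H : Finset ℕ) (N r : ℕ) : Set ℕ := {j | ∀ h ∈ H, ∀ p : ℕ, p.Prime → p ∣ N + j + h → j < p ^ r}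

/-- the almost prime tuples without a prime at the places of `E` -/
def SG (H E : Finset ℕ) (N r y z : ℕ) : Set ℕ := {j | (j < y ∧ j ∈ ST H N r y z) ∧ ∀ e ∈ E, ¬ (N + j + e).Prime}

lemma SG_step (H E : Finset ℕ) (e N r y z : ℕ) (hr : 2 ≤ r) (j : ℕ) (hj : j ∈ SG H E N r y z) :
    j ∈ SG H (insert e E) N r y z ∨ j ∈ SR (insert e H) N r := by
  obtain ⟨⟨h1, h2⟩, h3⟩ := hj
  by_cases hp : (N + j + e).Prime
  · right
    intro h hh p hpp hd
    rw [mem_insert] at hh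
    rcases hh with rfl | hh
    · have h4 : j ≤ p := by
        rw [(Nat.prime_dvd_prime_iff_eq hpp hp).1 hd]
        omega
      exact lt_of_le_of_lt h4 (lt_self_pow₀ hpp.one_lt (by omega))
    · exact h1.trans ((h2.2 h hh).1 p hpp hd)
  · left
    refine ⟨⟨h1, h2⟩, fun e' he' => ?_⟩
    rw [mem_insert] at he'
    rcases he' with rfl | he'
    · exact hp
    · exact h3 e' he'

/-- **Almost prime tuples with composite numbers at given places, near any base point.** -/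
theorem uni_gap (H : Finset ℕ) (hadm : ∀ p : ℕ, p.Prime → ∃ m : ℕ, ∀ h ∈ H, ¬ p ∣ m + h) (k : ℕ)
    (hk : H.card = k) (hk1 : 1 ≤ k) (D : ℕ) (E : Finset ℕ) (hE : ∀ e ∈ E, e ∉ H ∧
      ∀ p : ℕ, p.Prime → ∃ m : ℕ, ∀ h ∈ insert e H, ¬ p ∣ m + h) :
    ∃ c : ℝ, 0 < c ∧ ∃ r0 : ℕ, 2 ≤ r0 ∧ ∀ r : ℕ, r0 ≤ r → ∀ b : ℕ, 2 ≤ b → ∃ κ C : ℝ, 0 < κ ∧ 0 < C ∧
      ∀ᶠ K : ℕ in atTop, ∀ N : ℕ, N ≤ b ^ (D * K) → ∀ A : ℕ → Finset ℕ, (∀ i < K, A i ⊆ range b) →
        (b : ℝ) ^ K ≤ Real.exp (c * K) * NA K A →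
        ((∃ d ∈ A 0, ∀ h ∈ H, (N + d + h).Coprime b) → (∃ d ∈ A (K - 1), d ≠ 0) →
          κ * NA K A / (K : ℝ) ^ k ≤ ND b K A (SG H E N r (b ^ K) (b ^ (K - 1)))) ∧
        (ND b K A (SR H N r) : ℝ) ≤ C * NA K A / (K : ℝ) ^ k := by
  classical
  induction E using Finset.induction_on with
  | empty =>
    obtain ⟨c, hc, r0, hr0, h⟩ := uni_shift H hadm k hk hk1 D
    refine ⟨c, hc, r0, hr0, fun r hr b hb => ?_⟩
    obtain ⟨κ, C, hκ, hC, h1⟩ := h r hr b hb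
    refine ⟨κ, C, hκ, hC, ?_⟩
    filter_upwards [h1] with K hK N hN A hA hprod
    obtain ⟨h2, h3⟩ := hK N hN A hA hprod
    refine ⟨fun hd htop => (h2 hd htop).trans ?_, h3⟩
    apply Nat.cast_le.2
    exact ND_mono' (fun j hjK hj => ⟨⟨hjK, hj⟩, fun e he => absurd he (notMem_empty e)⟩)
  | insert e E he ih =>
    obtain ⟨c1, hc1, r1, hr1, h⟩ := ih (fun e' he' => hE e' (mem_insert_of_mem he'))
    obtain ⟨heH, headm⟩ := hE e (mem_insert_self e E)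
    obtain ⟨c2, hc2, r2, hr2, h'⟩ := uni_shift (insert e H) headm (k + 1)
      (by rw [card_insert_of_notMem heH, hk]) (by omega) D
    refine ⟨min c1 c2, lt_min hc1 hc2, max r1 r2, hr1.trans (le_max_left _ _), fun r hr b hb => ?_⟩
    have h2r : 2 ≤ r := (hr1.trans (le_max_left _ _)).trans hr
    obtain ⟨κ, C, hκ, hC, h1⟩ := h r ((le_max_left _ _).trans hr) b hb
    obtain ⟨κ2, C2, hκ2, hC2, h2⟩ := h' r ((le_max_right _ _).trans hr) b hb
    refine ⟨κ / 2, C, by positivity, hC, ?_⟩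
    filter_upwards [h1, h2, remove (C := C2) hκ k] with K hK1 hK2 hK3 N hN A hA hprod
    have hNA := NA_nonneg K A
    have hexp : ∀ c : ℝ, min c1 c2 ≤ c → (b : ℝ) ^ K ≤ Real.exp (c * K) * NA K A := by
      intro c hc
      refine hprod.trans (mul_le_mul_of_nonneg_right ?_ hNA)
      apply Real.exp_le_exp.2
      exact mul_le_mul_of_nonneg_right hc (Nat.cast_nonneg _)
    obtain ⟨e1, e2⟩ := hK1 N hN A hA (hexp c1 (min_le_left _ _))
    obtain ⟨-, e3⟩ := hK2 N hN A hA (hexp c2 (min_le_right _ _))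
    refine ⟨fun hd htop => ?_, e2⟩
    exact hK3 b A (SG H E N r (b ^ K) (b ^ (K - 1))) (SG H (insert e E) N r (b ^ K) (b ^ (K - 1)))
      (SR (insert e H) N r) (SG_step H E e N r (b ^ K) (b ^ (K - 1)) h2r) (e1 hd htop) e3

end Pool.Agent.Y816.PD
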