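import Pool.Agent.Y816.PD.Fin

/-!
# Almost prime values of systems of polynomials at integers with restricted digits: upper bound
-/

set_option autoImplicit false

namespace Pool.Agent.Y816.PD

open Polynomial Finset Filter
open Pool.Agent.H373R2.T7 Pool.Agent.H410R2.ED Pool.Agent.W123.RP Pool.Agent.W123.RU.Poly
open Pool.Agent.TH977.PW (Rough Few)

variable {ι : Type} [Fintype ι]

lemma half_small {b : ℕ} (hb : 2 ≤ b) (k : ℕ) (c : ℝ) (hc1 : c ≤ Real.log 2 / 16) :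
    ∀ᶠ K : ℕ in atTop, ∀ A : ℕ → Finset ℕ, DS b A → lo b A 0 K ≤ Real.exp (c * K) →
      (cd A 0 (K / 2) : ℝ) ≤ cd A 0 K / (K : ℝ) ^ k := by
  filter_upwards [exp_sqrt k 1, eventually_ge_atTop 64] with K hK1 hK2
  intro A hA hlo
  have hKr : (64 : ℝ) ≤ K := by exact_mod_cast hK2
  have hb2 : (2 : ℝ) ≤ b := by exact_mod_cast hb
  have hb0 : (0 : ℝ) < b := by linarith
  obtain ⟨R, hR⟩ : ∃ R, K = K / 2 + R := ⟨K - K / 2, by omega⟩
  have h1 : cd A 0 K = cd A 0 (K / 2) * cd A (K / 2) R := by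
    conv_lhs => rw [hR]
    rw [cd_add, Nat.zero_add]
  have h2 : lo b A (K / 2) R ≤ Real.exp (c * K) := by
    refine le_trans ?_ hlo
    have h3 : lo b A 0 K = lo b A 0 (K / 2) * lo b A (K / 2) R := by
      conv_lhs => rw [hR]
      rw [lo_add hA, Nat.zero_add]
    rw [h3]
    exact le_mul_of_one_le_left (lt_of_lt_of_le one_pos (one_le_lo hA _ _)).le (one_le_lo hA _ _)
  have hc0 : (0 : ℝ) < cd A (K / 2) R := by exact_mod_cast cd_pos hA _ _
  have h3 : (K : ℝ) ^ k ≤ cd A (K / 2) R := by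
    unfold lo at h2
    rw [div_le_iff₀ hc0] at h2
    have h4 : Real.exp (c * K) * (K : ℝ) ^ k ≤ (b : ℝ) ^ R := by
      have h5 : (K : ℝ) ^ k ≤ Real.exp (Real.sqrt K) := by
        rw [one_mul, Real.exp_neg, ← div_eq_mul_inv, div_le_one (Real.exp_pos _)] at hK1
        exact hK1
      have h6 : Real.sqrt K ≤ (K : ℝ) / 8 := by
        rw [Real.sqrt_le_left (by positivity)]
        nlinarith
      have h9 := Real.log_two_gt_d9
      have h11 := Real.log_two_lt_d9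
      have h10 : Real.log 2 ≤ Real.log b := Real.log_le_log (by norm_num) hb2
      calc Real.exp (c * K) * (K : ℝ) ^ k ≤ Real.exp (c * K) * Real.exp ((K : ℝ) / 8) := by
            apply mul_le_mul_of_nonneg_left (h5.trans (Real.exp_le_exp.2 h6)) (Real.exp_pos _).le
        _ = Real.exp (c * K + (K : ℝ) / 8) := by rw [Real.exp_add]
        _ ≤ Real.exp (Real.log b * R) := by
            apply Real.exp_le_exp.2
            have h8 : (K : ℝ) ≤ 2 * R := by
              have : K ≤ 2 * R := by omega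
              exact_mod_cast this
            have h12 : c * K ≤ Real.log 2 / 16 * K := mul_le_mul_of_nonneg_right hc1 (by linarith)
            have h13 : Real.log 2 * R ≤ Real.log b * R := mul_le_mul_of_nonneg_right h10 (by linarith)
            nlinarith
        _ = (b : ℝ) ^ R := by rw [mul_comm, Real.exp_nat_mul, Real.exp_log hb0]
    have h5 : Real.exp (c * K) * (K : ℝ) ^ k ≤ Real.exp (c * K) * cd A (K / 2) R := h4.trans h2
    exact le_of_mul_le_mul_left h5 (Real.exp_pos _)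
  rw [le_div_iff₀ (by positivity), h1]
  push_cast
  exact mul_le_mul_of_nonneg_left h3 (Nat.cast_nonneg _)

/-- **Upper bound.** -/
theorem upper (f : ι → ℤ[X]) (hf : Sys f) :
    ∃ c : ℝ, 0 < c ∧ ∀ b : ℕ, 2 ≤ b → ∀ r : ℕ, 1 ≤ r → ∃ C : ℝ, 0 < C ∧ ∀ᶠ K : ℕ in atTop,
      ∀ A : ℕ → Finset ℕ, (∀ i < K, A i ⊆ range b) →
      (b : ℝ) ^ K ≤ Real.exp (c * K) * ∏ i ∈ range K, ((A i).card : ℝ) →
      ∀ S ⊆ dset b K A, (∀ n ∈ S, Rough f r n) →
      (S.card : ℝ) ≤ C * (∏ i ∈ range K, ((A i).card : ℝ)) / (K : ℝ) ^ Fintype.card ι := by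
  classical
  obtain ⟨κ0, hκ0, hQ⟩ := exists_c f hf
  obtain ⟨v, Cv, hv, hCv, hV⟩ := V_bounds f hf
  obtain ⟨c0, hc0, n1, hsv'⟩ := sv κ0 hκ0
  obtain ⟨k, hk⟩ : ∃ k, k = Fintype.card ι := ⟨_, rfl⟩
  rw [← hk] at hV ⊢
  obtain ⟨c, hc, hc1, hlev'⟩ := lev (n1 + k)
  refine ⟨c, hc, ?_⟩
  intro b hb
  have hsv := hsv' b hb
  obtain ⟨C1, hC1, hsv1⟩ := hsv 1 one_pos (Nat.coprime_one_left b)
    (fun p hp hd => absurd (Nat.dvd_one.1 hd) hp.one_lt.ne')
  obtain ⟨v1, hv1, hVup⟩ := V_up (Q f) (adm f hf) κ0 b hκ0 (by omega)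
  obtain ⟨C2, hC2, K0, hlev⟩ := hlev' b hb
  have hb2 : (2 : ℝ) ≤ b := by exact_mod_cast hb
  have hb0 : (0 : ℝ) < b := by linarith
  have hlb : 0 < Real.log b := Real.log_pos (by linarith)
  intro r hr
  obtain ⟨E, hE⟩ : ∃ E, E = c0 + r := ⟨_, rfl⟩
  have hE1 : 1 ≤ E := by omega
  have hEr : (0 : ℝ) < E := by exact_mod_cast hE1
  refine ⟨1 + 2 * (Cv * (64 * E) ^ k / (v1 * Real.log b ^ k)) + C1 * C2 * (b : ℝ) ^ n1, by positivity, ?_⟩
  filter_upwards [eventually_ge_atTop K0, eventually_ge_atTop (4 * (16 * E * (1 + 1))),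
    half_small hb k c hc1] with K hK1 hK2 hK3
  intro A hA hprod S hSsub hSR
  obtain ⟨J, hJ1, hJ2, hJ3, hJ4, hJ5⟩ := chooseJ (b := b) (M := 1) hb hE1
    (show 16 * E * (1 + 1) ≤ K / 4 by omega)
  have hKpos : 0 < K := by omega
  have hKr : (0 : ℝ) < K := by exact_mod_cast hKpos
  obtain ⟨A', hA'⟩ : ∃ A' : ℕ → Finset ℕ, A' = fun i => if i < K then A i else range b := ⟨_, rfl⟩
  have hne : ∀ i < K, 0 < (A i).card := by
    intro i hi
    by_contra hcon
    have h0 : (A i).card = 0 := by omega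
    have h1 : ∏ i ∈ range K, ((A i).card : ℝ) = 0 :=
      prod_eq_zero (mem_range.2 hi) (by rw [h0]; simp)
    rw [h1, mul_zero] at hprod
    have : 0 < (b : ℝ) ^ K := by positivity
    linarith
  have hDS : DS b A' := by
    constructor
    · intro i
      rw [hA']
      simp only
      split_ifs with h2
      · exact hA i h2
      · exact subset_rfl
    · intro i
      rw [hA']
      simp only
      split_ifs with h2
      · exact card_pos.1 (hne i h2)
      · exact nonempty_range_iff.2 (by omega)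
  have hdset : dset b K A' = dset b K A := by
    unfold dset
    apply filter_congr
    intro n _
    apply forall_congr'
    intro i
    apply imp_congr_right
    intro hi
    rw [hA']
    simp only
    rw [if_pos hi]
  have hcd : cd A 0 K = cd A' 0 K := by
    rw [← card_dset K (by omega) (fun i _ => hDS.sub i), ← card_dset K (by omega) hA, hdset]
  have hcd'0 : (0 : ℝ) < cd A' 0 K := by exact_mod_cast cd_pos hDS 0 K
  have hlo : lo b A' 0 K ≤ Real.exp (c * K) := by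
    unfold lo
    rw [div_le_iff₀ hcd'0]
    rwa [← cd_eq, hcd] at hprod
  have hH := hlev K hK1 A' hDS hlo
  have hmain := (hsv1 (Q f) hQ 0 J K A' hDS (by
    rw [one_mul] at hJ1 ⊢
    refine le_trans ?_ hJ1
    exact Nat.pow_le_pow_right (by omega) (by omega))).2
  obtain ⟨T, hT⟩ : ∃ T, T = (dset b K A').filter (fun n => n % 1 = 0 % 1 ∧
    ∀ l ∈ Pr κ0 J, ¬ l ∣ b → ¬ Q f l n) := ⟨_, rfl⟩
  rw [← hT] at hmain
  have hy4E : (2 ^ 2 ^ J) ^ (4 * E) ≤ b ^ (K / 2) :=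
    hJ4.trans (Nat.pow_le_pow_right (by omega) (by omega))
  have hcov : S ⊆ dset b (K / 2) A' ∪ T := by
    intro n hn
    have hn1 := hSsub hn
    rw [← hdset] at hn1
    rw [mem_union]
    by_cases hsmall : n < b ^ (K / 2)
    · left
      unfold dset at hn1 ⊢
      rw [mem_filter] at hn1 ⊢
      exact ⟨mem_range.2 hsmall, fun i hi => hn1.2 i (by omega)⟩
    · right
      push Not at hsmall
      rw [hT, mem_filter]
      refine ⟨hn1, by omega, ?_⟩
      rintro l hl _ ⟨i, hi⟩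
      unfold Pr at hl
      rw [mem_filter, mem_range] at hl
      have h1 := hSR n hn i l hl.2.1 hi
      have hr0 : (0 : ℝ) < r := by exact_mod_cast hr
      have h2 : (n : ℝ) < (l : ℝ) ^ r := by
        have h3 : ((n : ℝ) ^ (1 / (r : ℝ))) ^ r < (l : ℝ) ^ r :=
          pow_lt_pow_left₀ h1 (by positivity) (by omega)
        have h4 : ((n : ℝ) ^ (1 / (r : ℝ))) ^ r = n := by
          rw [← Real.rpow_natCast, ← Real.rpow_mul (Nat.cast_nonneg _), one_div_mul_cancel hr0.ne',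
            Real.rpow_one]
        rwa [h4] at h3
      have h3 : n < l ^ r := by exact_mod_cast h2
      have h4 : l ^ r ≤ (2 ^ 2 ^ J) ^ (4 * E) := by
        calc l ^ r ≤ (2 ^ 2 ^ J) ^ r := Nat.pow_le_pow_left hl.1.le _
          _ ≤ (2 ^ 2 ^ J) ^ (4 * E) := Nat.pow_le_pow_right (by omega) (by omega)
      omega
  have hSc : (S.card : ℝ) ≤ cd A' 0 (K / 2) + T.card := by
    have h1 := (card_le_card hcov).trans (card_union_le _ _)
    rw [card_dset (K / 2) (by omega) (fun i _ => hDS.sub i)] at h1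
    exact_mod_cast h1
  have h1 := hK3 A' hDS hlo
  have hy3 : 3 ≤ 2 ^ 2 ^ J := by omega
  have hlogy : (K : ℝ) * Real.log b / (64 * E) ≤ Real.log ((2 ^ 2 ^ J : ℕ) : ℝ) := by
    have h4 : (b : ℝ) ^ K ≤ ((2 ^ 2 ^ J : ℕ) : ℝ) ^ (64 * E) := by exact_mod_cast hJ3
    have h5 := Real.log_le_log (by positivity) h4
    rw [Real.log_pow, Real.log_pow] at h5
    rw [div_le_iff₀ (by positivity)]
    push_cast at h5 ⊢
    linarith
  have hV2 : ∏ l ∈ (Pr κ0 J).filter (fun l => ¬ l ∣ b), (1 - (nuB (Q f) l : ℝ) / l) ≤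
      Cv * (64 * E) ^ k / (v1 * Real.log b ^ k) / (K : ℝ) ^ k := by
    have h2 := hVup J
    have h3 := (hV (2 ^ 2 ^ J) hy3).2
    have h4 : Cv / Real.log ((2 ^ 2 ^ J : ℕ) : ℝ) ^ k ≤ Cv / ((K : ℝ) * Real.log b / (64 * E)) ^ k := by
      apply div_le_div_of_nonneg_left hCv.le (by positivity)
      exact pow_le_pow_left₀ (by positivity) hlogy k
    have h5 : Cv * (64 * E) ^ k / (v1 * Real.log b ^ k) / (K : ℝ) ^ k =
        Cv / ((K : ℝ) * Real.log b / (64 * E)) ^ k / v1 := by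
      rw [div_pow, mul_pow (K : ℝ)]
      field_simp
    rw [h5, le_div_iff₀ hv1, mul_comm]
    exact (h2.trans h3).trans h4
  have h7 : C1 * cd A' 0 K * ((2 : ℝ) ^ J) ^ n1 * HH b K A' ≤
      C1 * C2 * (b : ℝ) ^ n1 * cd A' 0 K / (K : ℝ) ^ k := by
    have h8 : ((2 : ℝ) ^ J) ≤ b * K := by exact_mod_cast hJ5
    calc C1 * cd A' 0 K * ((2 : ℝ) ^ J) ^ n1 * HH b K A' ≤
        C1 * cd A' 0 K * (b * K) ^ n1 * (C2 / (K : ℝ) ^ (n1 + k)) := by
          have := HH_nonneg b K A'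
          gcongr
      _ = C1 * C2 * (b : ℝ) ^ n1 * cd A' 0 K / (K : ℝ) ^ k := by
          rw [mul_pow, pow_add]
          field_simp
  rw [← cd_eq, hcd]
  calc (S.card : ℝ) ≤ cd A' 0 (K / 2) + T.card := hSc
    _ ≤ cd A' 0 K / (K : ℝ) ^ k + (2 * ((cd A' 0 K : ℝ) / ((1 : ℕ) : ℝ)) *
        (∏ l ∈ (Pr κ0 J).filter (fun l => ¬ l ∣ b), (1 - (nuB (Q f) l : ℝ) / l)) +
        C1 * cd A' 0 K * ((2 : ℝ) ^ J) ^ n1 * HH b K A') := add_le_add h1 hmain
    _ ≤ cd A' 0 K / (K : ℝ) ^ k + (2 * ((cd A' 0 K : ℝ) / ((1 : ℕ) : ℝ)) *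
        (Cv * (64 * E) ^ k / (v1 * Real.log b ^ k) / (K : ℝ) ^ k) +
        C1 * C2 * (b : ℝ) ^ n1 * cd A' 0 K / (K : ℝ) ^ k) := by
        have h9 : 2 * ((cd A' 0 K : ℝ) / ((1 : ℕ) : ℝ)) *
            (∏ l ∈ (Pr κ0 J).filter (fun l => ¬ l ∣ b), (1 - (nuB (Q f) l : ℝ) / l)) ≤
            2 * ((cd A' 0 K : ℝ) / ((1 : ℕ) : ℝ)) *
            (Cv * (64 * E) ^ k / (v1 * Real.log b ^ k) / (K : ℝ) ^ k) :=
          mul_le_mul_of_nonneg_left hV2 (by positivity)
        linarith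
    _ = _ := by
        rw [Nat.cast_one, div_one]
        ring

end Pool.Agent.Y816.PD
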